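import Mathlib

/-! # The choice of the exponent -/

namespace TT

/-- the bound for the support of the power `M` of `LR` -/
def SM (M l : ℕ) (ls : List ℕ) : ℕ :=
  (if M % (l + 3) = 0 then 0 else l + 3) +
    (ls.map fun m => if M % (m + 2) = 0 then 0 else m + 2).sum

theorem four_mod {m : ℕ} (h : 1 ≤ m) : 4 % (m + 2) = 0 ↔ m = 2 := by
  constructor
  · intro h1
    rcases Nat.lt_or_ge 4 (m + 2) with h2 | h2
    · rw [Nat.mod_eq_of_lt h2] at h1; omega
    · have : m ≤ 2 := by omega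
      interval_cases m <;> simp_all
  · rintro rfl; rfl

theorem six_mod {m : ℕ} (h : 1 ≤ m) : 6 % (m + 2) = 0 ↔ m = 1 ∨ m = 4 := by
  constructor
  · intro h1
    rcases Nat.lt_or_ge 6 (m + 2) with h2 | h2
    · rw [Nat.mod_eq_of_lt h2] at h1; omega
    · have : m ≤ 4 := by omega
      interval_cases m <;> simp_all
  · rintro (rfl | rfl) <;> rfl

theorem ten_mod {m : ℕ} (h : 1 ≤ m) : 10 % (m + 2) = 0 ↔ m = 3 ∨ m = 8 := by
  constructor
  · intro h1
    rcases Nat.lt_or_ge 10 (m + 2) with h2 | h2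
    · rw [Nat.mod_eq_of_lt h2] at h1; omega
    · have : m ≤ 8 := by omega
      interval_cases m <;> simp_all
  · rintro (rfl | rfl) <;> rfl

theorem counts {ls : List ℕ} (hls : ∀ m ∈ ls, 0 < m) :
    ∃ t1 t2 t3 t4 t8 t X : ℕ, t ≤ X ∧ ls.length = t1 + t2 + t3 + t4 + t8 + t ∧
      ls.sum = t1 + 2 * t2 + 3 * t3 + 4 * t4 + 8 * t8 + X + 4 * t ∧
      (ls.map fun m => if 4 % (m + 2) = 0 then 0 else m + 2).sum =
        3 * t1 + 5 * t3 + 6 * t4 + 10 * t8 + X + 6 * t ∧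
      (ls.map fun m => if 6 % (m + 2) = 0 then 0 else m + 2).sum =
        4 * t2 + 5 * t3 + 10 * t8 + X + 6 * t ∧
      (ls.map fun m => if 10 % (m + 2) = 0 then 0 else m + 2).sum =
        3 * t1 + 4 * t2 + 6 * t4 + X + 6 * t ∧
      (t1 + t2 + t3 + t4 + t8 = 0 → ∀ m ∈ ls, 5 ≤ m) := by
  induction ls with
  | nil => exact ⟨0, 0, 0, 0, 0, 0, 0, by simp⟩
  | cons m ls ih =>
    obtain ⟨t1, t2, t3, t4, t8, t, X, h1, h2, h3, h4, h5, h6, h7⟩ :=
      ih (fun m hm => hls m (List.mem_cons_of_mem _ hm))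
    have hm : 0 < m := hls m (by simp)
    simp only [List.length_cons, List.sum_cons, List.map_cons, four_mod hm, six_mod hm,
      ten_mod hm]
    by_cases e1 : m = 1
    · refine ⟨t1 + 1, t2, t3, t4, t8, t, X, h1, by omega, by omega, ?_, ?_, ?_, by omega⟩
      · rw [if_neg (by omega)]; omega
      · rw [if_pos (by omega)]; omega
      · rw [if_neg (by omega)]; omega
    by_cases e2 : m = 2
    · refine ⟨t1, t2 + 1, t3, t4, t8, t, X, h1, by omega, by omega, ?_, ?_, ?_, by omega⟩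
      · rw [if_pos (by omega)]; omega
      · rw [if_neg (by omega)]; omega
      · rw [if_neg (by omega)]; omega
    by_cases e3 : m = 3
    · refine ⟨t1, t2, t3 + 1, t4, t8, t, X, h1, by omega, by omega, ?_, ?_, ?_, by omega⟩
      · rw [if_neg (by omega)]; omega
      · rw [if_neg (by omega)]; omega
      · rw [if_pos (by omega)]; omega
    by_cases e4 : m = 4
    · refine ⟨t1, t2, t3, t4 + 1, t8, t, X, h1, by omega, by omega, ?_, ?_, ?_, by omega⟩
      · rw [if_neg (by omega)]; omega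
      · rw [if_pos (by omega)]; omega
      · rw [if_neg (by omega)]; omega
    by_cases e8 : m = 8
    · refine ⟨t1, t2, t3, t4, t8 + 1, t, X, h1, by omega, by omega, ?_, ?_, ?_, by omega⟩
      · rw [if_neg (by omega)]; omega
      · rw [if_neg (by omega)]; omega
      · rw [if_pos (by omega)]; omega
    · refine ⟨t1, t2, t3, t4, t8, t + 1, X + (m - 4), by omega, by omega, by omega, ?_, ?_, ?_, ?_⟩
      · rw [if_neg (by omega)]; omega
      · rw [if_neg (by omega)]; omega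
      · rw [if_neg (by omega)]; omega
      · intro h0 m' hm'
        rcases List.mem_cons.1 hm' with h | h
        · omega
        · exact h7 h0 m' h

/-- the three inequalities; `h4`, `h6`, `h10` are the contributions of the first run -/
theorem core {l t1 t2 t3 t4 t8 t X e4 e6 e10 : ℕ} (hl : 0 < l) (htX : t ≤ X)
    (hk : 10 ≤ l + (t1 + 2 * t2 + 3 * t3 + 4 * t4 + 8 * t8 + X + 4 * t) + 1)
    (h4 : (l = 1 ∧ e4 = 0) ∨ (l ≠ 1 ∧ e4 = l + 3))
    (h6 : (l = 3 ∧ e6 = 0) ∨ (l ≠ 3 ∧ e6 = l + 3))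
    (h10 : ((l = 2 ∨ l = 7) ∧ e10 = 0) ∨ (l ≠ 2 ∧ l ≠ 7 ∧ e10 = l + 3))
    (c4 : 3 * (l + (t1 + 2 * t2 + 3 * t3 + 4 * t4 + 8 * t8 + X + 4 * t) + 1) + 1 <
      2 * (e4 + (3 * t1 + 5 * t3 + 6 * t4 + 10 * t8 + X + 6 * t)) + 5)
    (c6 : 3 * (l + (t1 + 2 * t2 + 3 * t3 + 4 * t4 + 8 * t8 + X + 4 * t) + 1) + 1 <
      2 * (e6 + (4 * t2 + 5 * t3 + 10 * t8 + X + 6 * t)) + 5)
    (c10 : 3 * (l + (t1 + 2 * t2 + 3 * t3 + 4 * t4 + 8 * t8 + X + 4 * t) + 1) + 1 <
      2 * (e10 + (3 * t1 + 4 * t2 + 6 * t4 + X + 6 * t)) + 5) :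
    t1 = 0 ∧ t2 = 0 ∧ t3 = 0 ∧ t4 = 0 ∧ t8 = 0 ∧
      ((l = 4 ∧ t = 1 ∧ X = 1) ∨ (l = 4 ∧ t = 1 ∧ X = 2) ∨ (l = 5 ∧ t = 1 ∧ X = 1) ∨
        (l = 4 ∧ t = 2 ∧ X = 2)) := by
  -- the three inequalities without the head
  have d4 : l + 6 * t2 + 4 * t8 + X + l + l < 2 * e4 + 1 + 3 * t1 + t3 := by omega
  have d6 : l + 3 * t1 + 12 * t4 + 4 * t8 + X + l + l < 2 * e6 + 1 + 2 * t2 + t3 := by omega
  have d10 : l + 9 * t3 + 24 * t8 + X + l + l < 2 * e10 + 1 + 3 * t1 + 2 * t2 := by omega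
  clear c4 c6 c10
  have hl8 : l < 8 := by
    by_contra hcon
    have e1 : e4 = l + 3 := by omega
    have e2 : e6 = l + 3 := by omega
    have e3 : e10 = l + 3 := by omega
    subst e1 e2 e3
    omega
  have hcase : l = 1 ∨ l = 2 ∨ l = 3 ∨ l = 4 ∨ l = 5 ∨ l = 6 ∨ l = 7 := by omega
  rcases hcase with rfl | rfl | rfl | rfl | rfl | rfl | rfl
  · obtain rfl : e4 = 0 := by omega
    obtain rfl : e6 = 4 := by omega
    obtain rfl : e10 = 4 := by omega
    have a4 : t4 = 0 := by omega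
    have a8 : t8 = 0 := by omega
    subst a4 a8
    have b3 : t3 ≤ 3 := by omega
    have b2 : t2 ≤ 5 := by omega
    have b1 : t1 ≤ 6 := by omega
    interval_cases t3 <;> interval_cases t2 <;> interval_cases t1 <;> omega
  · obtain rfl : e4 = 5 := by omega
    obtain rfl : e6 = 5 := by omega
    obtain rfl : e10 = 0 := by omega
    have a4 : t4 = 0 := by omega
    have a8 : t8 = 0 := by omega
    subst a4 a8
    have b3 : t3 ≤ 3 := by omega
    have b2 : t2 ≤ 5 := by omega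
    have b1 : t1 ≤ 6 := by omega
    interval_cases t3 <;> interval_cases t2 <;> interval_cases t1 <;> omega
  · obtain rfl : e4 = 6 := by omega
    obtain rfl : e6 = 0 := by omega
    obtain rfl : e10 = 6 := by omega
    have a4 : t4 = 0 := by omega
    have a8 : t8 = 0 := by omega
    subst a4 a8
    have b3 : t3 ≤ 3 := by omega
    have b2 : t2 ≤ 5 := by omega
    have b1 : t1 ≤ 6 := by omega
    interval_cases t3 <;> interval_cases t2 <;> interval_cases t1 <;> omega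
  · obtain rfl : e4 = 7 := by omega
    obtain rfl : e6 = 7 := by omega
    obtain rfl : e10 = 7 := by omega
    have a4 : t4 = 0 := by omega
    have a8 : t8 = 0 := by omega
    subst a4 a8
    have b3 : t3 ≤ 3 := by omega
    have b2 : t2 ≤ 5 := by omega
    have b1 : t1 ≤ 6 := by omega
    interval_cases t3 <;> interval_cases t2 <;> interval_cases t1 <;> omega
  · obtain rfl : e4 = 8 := by omega
    obtain rfl : e6 = 8 := by omega
    obtain rfl : e10 = 8 := by omega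
    have a4 : t4 = 0 := by omega
    have a8 : t8 = 0 := by omega
    subst a4 a8
    have b3 : t3 ≤ 3 := by omega
    have b2 : t2 ≤ 5 := by omega
    have b1 : t1 ≤ 6 := by omega
    interval_cases t3 <;> interval_cases t2 <;> interval_cases t1 <;> omega
  · obtain rfl : e4 = 9 := by omega
    obtain rfl : e6 = 9 := by omega
    obtain rfl : e10 = 9 := by omega
    have a4 : t4 = 0 := by omega
    have a8 : t8 = 0 := by omega
    subst a4 a8
    have b3 : t3 ≤ 3 := by omega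
    have b2 : t2 ≤ 5 := by omega
    have b1 : t1 ≤ 6 := by omega
    interval_cases t3 <;> interval_cases t2 <;> interval_cases t1 <;> omega
  · obtain rfl : e4 = 10 := by omega
    obtain rfl : e6 = 10 := by omega
    obtain rfl : e10 = 0 := by omega
    have a4 : t4 = 0 := by omega
    have a8 : t8 = 0 := by omega
    subst a4 a8
    have b3 : t3 ≤ 3 := by omega
    have b2 : t2 ≤ 5 := by omega
    have b1 : t1 ≤ 6 := by omega
    interval_cases t3 <;> interval_cases t2 <;> interval_cases t1 <;> omega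

theorem arith {l : ℕ} {ls : List ℕ} (hl : 0 < l) (hls : ∀ m ∈ ls, 0 < m)
    (hk : 10 ≤ l + ls.sum + 1) (hB : ¬ (l = 3 ∧ ∀ m ∈ ls, m = 1 ∨ m = 4))
    (hA : ¬ ((l = 2 ∨ l = 7) ∧ ∀ m ∈ ls, m = 3 ∨ m = 8)) (hP : ¬ (l = 1 ∧ ∀ m ∈ ls, m = 2))
    (hE : ¬ (l = 4 ∧ ls = [5]) ∧ ¬ (l = 4 ∧ ls = [6]) ∧ ¬ (l = 5 ∧ ls = [5]) ∧
      ¬ (l = 4 ∧ ls = [5, 5])) :
    ∃ M : ℕ, Even M ∧ (M % (l + 3) ≠ 0 ∨ ∃ m ∈ ls, M % (m + 2) ≠ 0) ∧
      2 * SM M l ls + 5 ≤ 3 * (l + ls.sum + 1) + 1 := by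
  obtain ⟨t1, t2, t3, t4, t8, t, X, h1, h2, h3, h4, h5, h6, h7⟩ := counts hls
  have k4 : 4 % (l + 3) = 0 ↔ l = 1 := by
    have := four_mod (m := l + 1) (by omega)
    rw [show l + 1 + 2 = l + 3 by ring] at this
    rw [this]; omega
  have k6 : 6 % (l + 3) = 0 ↔ l = 3 := by
    have := six_mod (m := l + 1) (by omega)
    rw [show l + 1 + 2 = l + 3 by ring] at this
    rw [this]; omega
  have k10 : 10 % (l + 3) = 0 ↔ l = 2 ∨ l = 7 := by
    have := ten_mod (m := l + 1) (by omega)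
    rw [show l + 1 + 2 = l + 3 by ring] at this
    rw [this]; omega
  -- nonvanishing
  have n4 : 4 % (l + 3) ≠ 0 ∨ ∃ m ∈ ls, 4 % (m + 2) ≠ 0 := by
    by_contra hcon
    push Not at hcon
    exact hP ⟨k4.1 hcon.1, fun m hm => (four_mod (hls m hm)).1 (hcon.2 m hm)⟩
  have n6 : 6 % (l + 3) ≠ 0 ∨ ∃ m ∈ ls, 6 % (m + 2) ≠ 0 := by
    by_contra hcon
    push Not at hcon
    exact hB ⟨k6.1 hcon.1, fun m hm => (six_mod (hls m hm)).1 (hcon.2 m hm)⟩
  have n10 : 10 % (l + 3) ≠ 0 ∨ ∃ m ∈ ls, 10 % (m + 2) ≠ 0 := by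
    by_contra hcon
    push Not at hcon
    exact hA ⟨k10.1 hcon.1, fun m hm => (ten_mod (hls m hm)).1 (hcon.2 m hm)⟩
  have s4 : SM 4 l ls = (if l = 1 then 0 else l + 3) +
      (3 * t1 + 5 * t3 + 6 * t4 + 10 * t8 + X + 6 * t) := by
    unfold SM; rw [h4]; simp only [k4]
  have s6 : SM 6 l ls = (if l = 3 then 0 else l + 3) +
      (4 * t2 + 5 * t3 + 10 * t8 + X + 6 * t) := by
    unfold SM; rw [h5]; simp only [k6]
  have s10 : SM 10 l ls = (if l = 2 ∨ l = 7 then 0 else l + 3) +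
      (3 * t1 + 4 * t2 + 6 * t4 + X + 6 * t) := by
    unfold SM; rw [h6]; simp only [k10]
  by_contra hcon
  push Not at hcon
  have c4 := hcon 4 (by decide) n4
  have c6 := hcon 6 (by decide) n6
  have c10 := hcon 10 (by decide) n10
  rw [s4, h3] at c4
  rw [s6, h3] at c6
  rw [s10, h3] at c10
  rw [h3] at hk
  have fin := core (e4 := if l = 1 then 0 else l + 3) (e6 := if l = 3 then 0 else l + 3)
    (e10 := if l = 2 ∨ l = 7 then 0 else l + 3) hl h1 hk (by split_ifs <;> omega)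
    (by split_ifs <;> omega) (by split_ifs <;> omega) c4 c6 c10
  obtain ⟨rfl, rfl, rfl, rfl, rfl, hfin⟩ := fin
  have h8 := h7 rfl
  rcases hfin with ⟨rfl, rfl, rfl⟩ | ⟨rfl, rfl, rfl⟩ | ⟨rfl, rfl, rfl⟩ | ⟨rfl, rfl, rfl⟩
  · obtain ⟨m, rfl⟩ := List.length_eq_one_iff.1 h2
    simp at h3
    exact hE.1 ⟨rfl, by rw [h3]⟩
  · obtain ⟨m, rfl⟩ := List.length_eq_one_iff.1 h2
    simp at h3
    exact hE.2.1 ⟨rfl, by rw [h3]⟩
  · obtain ⟨m, rfl⟩ := List.length_eq_one_iff.1 h2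
    simp at h3
    exact hE.2.2.1 ⟨rfl, by rw [h3]⟩
  · obtain ⟨m, m', rfl⟩ := List.length_eq_two.1 h2
    simp at h3 h8
    exact hE.2.2.2 ⟨rfl, by rw [show m = 5 by omega, show m' = 5 by omega]⟩

end TT
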