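import Mathlib

/-!
# The chain model

`Fin (3 * k + 1)` is the set of points: `0` is the root and `3 * j + 1 + c` is corner `c` of the
triangle `j < k`. The bit `s j` tells which corner of the triangle `j` is joined to corner `0` of the
triangle `j + 1`: corner `1` if `s j = false` and corner `2` if `s j = true`.
-/

namespace TT

open Equiv

/-- the number of points minus one -/
abbrev Om (k : ℕ) := Fin (3 * k + 1)

/-- the involution `ρ` on codes -/
def rhoN (k : ℕ) (s : ℕ → Bool) (x : ℕ) : ℕ :=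
  if x = 0 then (if k = 0 then 0 else 1)
  else if x % 3 = 1 then (if x = 1 then 0 else x - 3 + (if s (x / 3 - 1) then 2 else 1))
  else if (x - 1) / 3 + 1 < k ∧ s ((x - 1) / 3) = decide (x % 3 = 0) then 3 * ((x - 1) / 3) + 4
  else x

/-- the rotation `θ` on codes -/
def thetaN (x : ℕ) : ℕ := if x = 0 then 0 else if x % 3 = 0 then x - 2 else x + 1

theorem rhoN_lt {k : ℕ} {s : ℕ → Bool} {x : ℕ} (hx : x < 3 * k + 1) :
    rhoN k s x < 3 * k + 1 := by
  unfold rhoN
  split_ifs <;> omega

theorem thetaN_lt {k x : ℕ} (hx : x < 3 * k + 1) : thetaN x < 3 * k + 1 := by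
  unfold thetaN
  split_ifs <;> omega

/-- every code is the root or a corner -/
theorem code_cases (x : ℕ) : x = 0 ∨ ∃ j, x = 3 * j + 1 ∨ x = 3 * j + 2 ∨ x = 3 * j + 3 := by
  rcases Nat.eq_zero_or_pos x with h | h
  · exact Or.inl h
  · exact Or.inr ⟨(x - 1) / 3, by omega⟩

@[simp] theorem thetaN_zero : thetaN 0 = 0 := rfl

@[simp] theorem thetaN_c0 (j : ℕ) : thetaN (3 * j + 1) = 3 * j + 2 := by
  simp [thetaN]

@[simp] theorem thetaN_c1 (j : ℕ) : thetaN (3 * j + 2) = 3 * j + 3 := by
  simp [thetaN]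

@[simp] theorem thetaN_c2 (j : ℕ) : thetaN (3 * j + 3) = 3 * j + 1 := by
  simp [thetaN]

theorem thetaN_three (x : ℕ) : thetaN (thetaN (thetaN x)) = x := by
  rcases code_cases x with rfl | ⟨j, rfl | rfl | rfl⟩ <;> simp

/-- corner 0 of the first triangle and the root -/
theorem rhoN_zero {k : ℕ} (s : ℕ → Bool) (hk : 0 < k) : rhoN k s 0 = 1 := by
  simp [rhoN, hk.ne']

theorem rhoN_one {k : ℕ} (s : ℕ → Bool) : rhoN k s 1 = 0 := by
  simp [rhoN]

/-- entry of the triangle `j + 1` -/
theorem rhoN_entry {k : ℕ} (s : ℕ → Bool) (j : ℕ) :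
    rhoN k s (3 * (j + 1) + 1) = 3 * j + 1 + (if s j then 2 else 1) := by
  have h1 : (3 * (j + 1) + 1) / 3 - 1 = j := by omega
  have h2 : (3 * (j + 1) + 1) % 3 = 1 := by omega
  have h3 : 3 * (j + 1) + 1 ≠ 1 := by omega
  simp only [rhoN, h1, h2, h3, if_true, if_false]
  rw [if_neg (by omega)]
  omega

theorem rhoN_c1 {k : ℕ} (s : ℕ → Bool) (j : ℕ) :
    rhoN k s (3 * j + 2) = if j + 1 < k ∧ s j = false then 3 * (j + 1) + 1 else 3 * j + 2 := by
  have h1 : (3 * j + 2 - 1) / 3 = j := by omega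
  have h2 : (3 * j + 2) % 3 = 2 := by omega
  simp only [rhoN, h1, h2]
  rw [if_neg (by omega), if_neg (by omega)]
  simp only [show ¬ (2 = 0) by decide, decide_false]
  rfl

theorem rhoN_c2 {k : ℕ} (s : ℕ → Bool) (j : ℕ) :
    rhoN k s (3 * j + 3) = if j + 1 < k ∧ s j = true then 3 * (j + 1) + 1 else 3 * j + 3 := by
  have h1 : (3 * j + 3 - 1) / 3 = j := by omega
  have h2 : (3 * j + 3) % 3 = 0 := by omega
  simp only [rhoN, h1, h2]
  rw [if_neg (by omega), if_neg (by omega)]
  simp only [decide_true]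
  rfl

theorem rhoN_rhoN {k : ℕ} (s : ℕ → Bool) {x : ℕ} (hx : x < 3 * k + 1) :
    rhoN k s (rhoN k s x) = x := by
  rcases code_cases x with rfl | ⟨j, h | h | h⟩
  · rcases Nat.eq_zero_or_pos k with rfl | hk
    · simp [rhoN]
    · rw [rhoN_zero s hk, rhoN_one]
  · subst h
    rcases j with _ | j
    · rw [show 3 * 0 + 1 = 1 by rfl, rhoN_one, rhoN_zero s (by omega)]
    · rw [rhoN_entry]
      cases hs : s j
      · rw [show 3 * j + 1 + (if false = true then 2 else 1) = 3 * j + 2 by simp, rhoN_c1,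
          if_pos ⟨by omega, hs⟩]
      · rw [show 3 * j + 1 + (if true = true then 2 else 1) = 3 * j + 3 by simp, rhoN_c2,
          if_pos ⟨by omega, hs⟩]
  · subst h
    rw [rhoN_c1]
    split_ifs with h
    · rw [rhoN_entry, h.2]
      simp
    · rw [rhoN_c1, if_neg h]
  · subst h
    rw [rhoN_c2]
    split_ifs with h
    · rw [rhoN_entry, h.2]
      simp
    · rw [rhoN_c2, if_neg h]

/-- the involution -/
def rho (k : ℕ) (s : ℕ → Bool) : Perm (Om k) where
  toFun x := ⟨rhoN k s x, rhoN_lt x.2⟩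
  invFun x := ⟨rhoN k s x, rhoN_lt x.2⟩
  left_inv x := Fin.ext (rhoN_rhoN s x.2)
  right_inv x := Fin.ext (rhoN_rhoN s x.2)

/-- the rotation -/
def theta (k : ℕ) : Perm (Om k) where
  toFun x := ⟨thetaN x, thetaN_lt x.2⟩
  invFun x := ⟨thetaN (thetaN x), thetaN_lt (thetaN_lt x.2)⟩
  left_inv x := Fin.ext (thetaN_three x)
  right_inv x := Fin.ext (thetaN_three x)

@[simp] theorem rho_val {k : ℕ} {s : ℕ → Bool} (x : Om k) :
    (rho k s x).val = rhoN k s x.val := rfl

@[simp] theorem theta_val {k : ℕ} (x : Om k) : (theta k x).val = thetaN x.val := rfl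

@[simp] theorem theta_inv_val {k : ℕ} (x : Om k) :
    ((theta k)⁻¹ x).val = thetaN (thetaN x.val) := rfl

@[simp] theorem rho_rho {k : ℕ} {s : ℕ → Bool} (x : Om k) : rho k s (rho k s x) = x :=
  Fin.ext (rhoN_rhoN s x.2)

theorem rho_inv (k : ℕ) (s : ℕ → Bool) : (rho k s)⁻¹ = rho k s := rfl

theorem rho_mul_rho (k : ℕ) (s : ℕ → Bool) : rho k s * rho k s = 1 := by
  ext x
  simp

theorem theta_pow_three (k : ℕ) : (theta k) ^ 3 = 1 := by
  ext x
  simp [pow_succ, thetaN_three]

/-- `R = θ ρ` -/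
def R (k : ℕ) (s : ℕ → Bool) : Perm (Om k) := theta k * rho k s

/-- `L = θ⁻¹ ρ` -/
def L (k : ℕ) (s : ℕ → Bool) : Perm (Om k) := (theta k)⁻¹ * rho k s

/-- the group `G*` -/
def Gs (k : ℕ) (s : ℕ → Bool) : Subgroup (Perm (Om k)) := Subgroup.closure {rho k s, theta k}

theorem rho_mem (k : ℕ) (s : ℕ → Bool) : rho k s ∈ Gs k s := Subgroup.subset_closure (by simp)

theorem theta_mem (k : ℕ) (s : ℕ → Bool) : theta k ∈ Gs k s := Subgroup.subset_closure (by simp)

theorem R_mem (k : ℕ) (s : ℕ → Bool) : R k s ∈ Gs k s :=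
  mul_mem (theta_mem k s) (rho_mem k s)

theorem L_mem (k : ℕ) (s : ℕ → Bool) : L k s ∈ Gs k s :=
  mul_mem (inv_mem (theta_mem k s)) (rho_mem k s)

/-- `L = ρ R⁻¹ ρ` -/
theorem L_eq (k : ℕ) (s : ℕ → Bool) : L k s = rho k s * (R k s)⁻¹ * rho k s := by
  rw [R, mul_inv_rev, rho_inv, L, ← mul_assoc, rho_mul_rho, one_mul]

/-- the point with label `m` -/
def pt (k : ℕ) (s : ℕ → Bool) (m : ℤ) : Om k := (R k s ^ m) 0

theorem R_zpow_pt (k : ℕ) (s : ℕ → Bool) (t m : ℤ) : (R k s ^ t) (pt k s m) = pt k s (m + t) := by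
  rw [pt, pt, ← Perm.mul_apply, ← zpow_add, add_comm]

/-- shift words, tail part: first `ρ`, then `R ^ u`, and so on -/
def wt (k : ℕ) (s : ℕ → Bool) : List ℤ → Perm (Om k)
  | [] => 1
  | u :: us => wt k s us * (R k s ^ u * rho k s)

/-- shift words: `wd [t₀, t₁, …]` is `R ^ t₀`, then `ρ`, then `R ^ t₁`, then `ρ`, … -/
def wd (k : ℕ) (s : ℕ → Bool) : List ℤ → Perm (Om k)
  | [] => 1
  | t :: ts => wt k s ts * R k s ^ t

theorem wt_mem (k : ℕ) (s : ℕ → Bool) (w : List ℤ) : wt k s w ∈ Gs k s := by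
  induction w with
  | nil => exact one_mem _
  | cons u us ih =>
    exact mul_mem ih (mul_mem (zpow_mem (R_mem k s) u) (rho_mem k s))

theorem wd_mem (k : ℕ) (s : ℕ → Bool) (w : List ℤ) : wd k s w ∈ Gs k s := by
  cases w with
  | nil => exact one_mem _
  | cons t ts => exact mul_mem (wt_mem k s ts) (zpow_mem (R_mem k s) t)

/-- the permutation `T'` -/
def Tp (k : ℕ) (s : ℕ → Bool) : Perm (Om k) := wd k s [-2, 1, 0]

/-- words in `R` (`true`) and `L` (`false`), applied from left to right -/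
def rl (k : ℕ) (s : ℕ → Bool) : List Bool → Perm (Om k)
  | [] => 1
  | b :: w => rl k s w * (if b then R k s else L k s)

theorem rl_mem (k : ℕ) (s : ℕ → Bool) (w : List Bool) : rl k s w ∈ Gs k s := by
  induction w with
  | nil => exact one_mem _
  | cons b w ih =>
    refine mul_mem ih ?_
    cases b
    · exact L_mem k s
    · exact R_mem k s

/-- positive labels of the chords -/
def uL (s : ℕ → Bool) : ℕ → ℤ
  | 0 => 0
  | j + 1 => uL s j + (if s j then 2 else 1)

/-- negative labels of the chords -/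
def vL (s : ℕ → Bool) : ℕ → ℤ
  | 0 => 1
  | j + 1 => vL s j + (if s j then 1 else 2)

/-- chord function of a known prefix, in labels -/
def look : ℤ → ℤ → List Bool → ℤ → Option ℤ
  | u, v, [], x => if x = u then some (-v) else if x = -v then some u else none
  | u, v, b :: F, x => if x = u then some (-v) else if x = -v then some u else
      if b then (if x = u + 1 then some x else look (u + 2) (v + 1) F x)
      else (if x = -(v + 1) then some x else look (u + 1) (v + 2) F x)

/-- chord function of a prefix -/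
def ch (F : List Bool) (x : ℤ) : Option ℤ := look 0 1 F x

/-- local evaluation of the tail of a shift word -/
def evT (F : List Bool) : List ℤ → ℤ → Option ℤ
  | [], x => some x
  | u :: us, x => (ch F x).bind fun y => evT F us (y + u)

/-- local evaluation of a shift word -/
def evW (F : List Bool) : List ℤ → ℤ → Option ℤ
  | [], x => some x
  | t :: ts, x => evT F ts (x + t)

/-- `F` is a prefix of the colouring `s` of the chain with `k` triangles -/
def Pre (k : ℕ) (s : ℕ → Bool) (F : List Bool) : Prop :=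
  F.length + 1 ≤ k ∧ ∀ i (h : i < F.length), s i = F[i]

/-- `G` is 4-transitive -/
def Tr4 {Ω : Type*} (G : Subgroup (Perm Ω)) : Prop :=
  ∀ a b c d a' b' c' d' : Ω, [a, b, c, d].Nodup → [a', b', c', d'].Nodup →
    ∃ g ∈ G, g a = a' ∧ g b = b' ∧ g c = c' ∧ g d = d'

/-- alternating block of length `l` starting with `b` -/
def alt (b : Bool) : ℕ → List Bool
  | 0 => []
  | l + 1 => b :: alt (!b) l

/-- the colouring with maximal alternating runs of lengths `ls`, starting with `b`:
a run starts with the last symbol of the previous run -/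
def expand (b : Bool) : List ℕ → List Bool
  | [] => []
  | l :: ls => alt b l ++ expand (if l % 2 = 0 then !b else b) ls

/-- `s` is the colouring with runs `ls` of the chain with `k` triangles -/
def Runs (k : ℕ) (s : ℕ → Bool) (ls : List ℕ) : Prop :=
  (∀ l ∈ ls, 0 < l) ∧ ls.sum + 1 = k ∧ ∀ i, i + 1 < k → s i = (expand false ls).getD i false

end TT
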