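import Pool.Agent.Lib.MP_db1bc6_al.FamDef

namespace TT

/-- table -/
def tabA2 : List Ent :=
  [((true, false, [2]),
      [([], 4), ([3], 3), ([8], 8), ([3, 3], 10), ([3, 8], 15), ([8, 3], 17), ([8, 8], 16)]),
    ((true, false, [2, 3]),
      [([], 4), ([3], 7), ([8], 12), ([3, 3], 12), ([3, 8], 17), ([8, 3], 21), ([8, 8], 20)]),
    ((true, false, [2, 8]),
      [([], 4), ([3], 13), ([8], 16), ([3, 3], 20), ([3, 8], 21), ([8, 3], 24), ([8, 8], 32)]),
    ((false, false, [3, 3]),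
      [([], 4), ([3], 11), ([8], 16), ([3, 3], 18), ([3, 8], 19), ([8, 3], 19), ([8, 8], 24)]),
    ((false, false, [3, 8]),
      [([], 4), ([3], 3), ([8], 8), ([3, 3], 8), ([3, 8], 13), ([8, 3], 17), ([8, 8], 16)]),
    ((false, false, [8, 3]),
      [([], 4), ([3], 5), ([8], 10), ([3, 3], 10), ([3, 8], 15), ([8, 3], 19), ([8, 8], 18)]),
    ((false, false, [8, 8]),
      [([], 4), ([3], 13), ([8], 16), ([3, 3], 20), ([3, 8], 21), ([8, 3], 24), ([8, 8], 32)]),
    ((false, true, [3, 3]),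
      [([], 4), ([3], 5), ([8], 10), ([3, 3], 10), ([3, 8], 15), ([8, 3], 19), ([8, 8], 18)]),
    ((false, true, [3, 8]),
      [([], 4), ([3], 13), ([8], 16), ([3, 3], 20), ([3, 8], 21), ([8, 3], 24), ([8, 8], 32)]),
    ((false, true, [8, 3]),
      [([], 6), ([3], 13), ([8], 18), ([3, 3], 20), ([3, 8], 21), ([8, 3], 21), ([8, 8], 26)]),
    ((false, true, [8, 8]),
      [([], 4), ([3], 7), ([8], 12), ([3, 3], 8), ([3, 8], 13), ([8, 3], 21), ([8, 8], 20)])]

/-- table -/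
def tabA7 : List Ent :=
  [((true, false, [7]),
      [([], 4), ([3], 13), ([8], 16), ([3, 3], 20), ([3, 8], 21), ([8, 3], 24), ([8, 8], 32)]),
    ((true, false, [7, 3]),
      [([], 6), ([3], 13), ([8], 18), ([3, 3], 20), ([3, 8], 21), ([8, 3], 21), ([8, 8], 26)]),
    ((true, false, [7, 8]),
      [([], 4), ([3], 7), ([8], 12), ([3, 3], 8), ([3, 8], 13), ([8, 3], 21), ([8, 8], 20)]),
    ((false, false, [3, 3]),
      [([], 4), ([3], 11), ([8], 16), ([3, 3], 18), ([3, 8], 19), ([8, 3], 19), ([8, 8], 24)]),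
    ((false, false, [3, 8]),
      [([], 4), ([3], 3), ([8], 8), ([3, 3], 8), ([3, 8], 13), ([8, 3], 17), ([8, 8], 16)]),
    ((false, false, [8, 3]),
      [([], 4), ([3], 5), ([8], 10), ([3, 3], 10), ([3, 8], 15), ([8, 3], 19), ([8, 8], 18)]),
    ((false, false, [8, 8]),
      [([], 4), ([3], 13), ([8], 16), ([3, 3], 20), ([3, 8], 21), ([8, 3], 24), ([8, 8], 32)]),
    ((false, true, [3, 3]),
      [([], 4), ([3], 5), ([8], 10), ([3, 3], 10), ([3, 8], 15), ([8, 3], 19), ([8, 8], 18)]),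
    ((false, true, [3, 8]),
      [([], 4), ([3], 13), ([8], 16), ([3, 3], 20), ([3, 8], 21), ([8, 3], 24), ([8, 8], 32)]),
    ((false, true, [8, 3]),
      [([], 6), ([3], 13), ([8], 18), ([3, 3], 20), ([3, 8], 21), ([8, 3], 21), ([8, 8], 26)]),
    ((false, true, [8, 8]),
      [([], 4), ([3], 7), ([8], 12), ([3, 3], 8), ([3, 8], 13), ([8, 3], 21), ([8, 8], 20)])]

/-- table -/
def tabP : List Ent :=
  [((true, false, [1]),
      [([], 6), ([2], 12), ([2, 2], 8), ([2, 2, 2], 12), ([2, 2, 2, 2], 14)]),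
    ((true, false, [1, 2]),
      [([], 6), ([2], 6), ([2, 2], 10), ([2, 2, 2], 12), ([2, 2, 2, 2], 16)]),
    ((true, false, [1, 2, 2]),
      [([], 2), ([2], 6), ([2, 2], 8), ([2, 2, 2], 12), ([2, 2, 2, 2], 14)]),
    ((true, false, [1, 2, 2, 2]),
      [([], 6), ([2], 8), ([2, 2], 12), ([2, 2, 2], 14), ([2, 2, 2, 2], 18)]),
    ((false, false, [2, 2, 2, 2]),
      [([], 2), ([2], 6), ([2, 2], 8), ([2, 2, 2], 12), ([2, 2, 2, 2], 14)]),
    ((false, true, [2, 2, 2, 2]),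
      [([], 6), ([2], 8), ([2, 2], 12), ([2, 2, 2], 14), ([2, 2, 2, 2], 18)])]

end TT
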