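import Pool.Agent.Lib.MP_db1bc6_al.Fam
import Pool.Agent.Lib.MP_db1bc6_al.TabA

/-! # The families of the run lengths `2, 7; 3, 8` and `1; 2` -/

namespace TT

open Equiv

set_option maxRecDepth 100000

theorem chkC_A2 : chkC [3, 8] 2 w3 12 tabA2 = true := by decide +kernel

theorem chkH_A2 : chkH 2 [3, 8] 2 0 w3 12 tabA2 [[8]] = true := by decide +kernel

theorem chkN_A2 : chkN 2 [3, 8] w3 12 []
    [none, some (0, true), some (1, false), some (1, true)] 3 [] = true := by decide +kernel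

theorem chkC_A7 : chkC [3, 8] 2 w3 12 tabA7 = true := by decide +kernel

theorem chkH_A7 : chkH 7 [3, 8] 2 0 w3 12 tabA7 [] = true := by decide +kernel

theorem chkN_A7 : chkN 7 [3, 8] w3 12 [] [none] 3 [] = true := by decide +kernel

theorem chkC_P : chkC [2] 4 w3 12 tabP = true := by decide +kernel

theorem chkH_P : chkH 1 [2] 4 0 w3 12 tabP [] = true := by decide +kernel

theorem chkN_P : chkN 1 [2] w3 12 [[2, 2, 2, 2, 2, 2, 2]] [none, some (14, false)] 8 [] = true := by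
  decide +kernel

theorem famA {k : ℕ} {s : ℕ → Bool} {l : ℕ} {ls : List ℕ} (h : Runs k s (l :: ls))
    (hl : l = 2 ∨ l = 7) (hls : ∀ m ∈ ls, m = 3 ∨ m = 8) (hk : 10 ≤ k)
    (hne : ¬ (l = 2 ∧ ls = [8])) :
    2 * ((rl k s w3) ^ 12).support.card + 5 ≤ 3 * k + 1 := by
  rcases hl with rfl | rfl
  · exact fam_main (by norm_num) chkC_A2 chkH_A2 h (fun m hm => by simpa using hls m hm) hk
      (by simpa using hne)
  · exact fam_main (by norm_num) chkC_A7 chkH_A7 h (fun m hm => by simpa using hls m hm) hk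
      (by simp)

theorem famA_ne {k : ℕ} {s : ℕ → Bool} {l : ℕ} {ls : List ℕ} (h : Runs k s (l :: ls))
    (hl : l = 2 ∨ l = 7) (hls : ∀ m ∈ ls, m = 3 ∨ m = 8) (hk : 10 ≤ k) :
    (rl k s w3) ^ 12 ≠ 1 := by
  rcases hl with rfl | rfl
  · exact fam_ne _ chkN_A2 h (fun m hm => by simpa using hls m hm) hk (by simp)
  · exact fam_ne _ chkN_A7 h (fun m hm => by simpa using hls m hm) hk (by simp)

theorem famP {k : ℕ} {s : ℕ → Bool} {ls : List ℕ} (h : Runs k s (1 :: ls))
    (hls : ∀ m ∈ ls, m = 2) (hk : 10 ≤ k) :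
    2 * ((rl k s w3) ^ 12).support.card + 5 ≤ 3 * k + 1 :=
  fam_main (by norm_num) chkC_P chkH_P h (fun m hm => by simpa using hls m hm) hk (by simp)

theorem famP_ne {k : ℕ} {s : ℕ → Bool} {ls : List ℕ} (h : Runs k s (1 :: ls))
    (hls : ∀ m ∈ ls, m = 2) (hk : 10 ≤ k) (hne : ls.length ≠ 7) :
    (rl k s w3) ^ 12 ≠ 1 := by
  refine fam_ne _ chkN_P h (fun m hm => by simpa using hls m hm) hk ?_
  intro hmem
  rw [List.mem_singleton] at hmem
  rw [hmem] at hne
  exact hne rfl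

end TT
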