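import Pool.Agent.Lib.MP_db1bc6_al.FamDef

namespace TT

/-- table -/
def tabB : List Ent :=
  [((true, false, [3]),
      [([], 6), ([1], 7), ([4], 12), ([1, 1], 10), ([1, 4], 19), ([4, 1], 17), ([4, 4], 26),
        ([1, 1, 1], 11), ([1, 1, 4], 20), ([1, 4, 1], 20), ([1, 4, 4], 21), ([4, 1, 1], 18),
        ([4, 1, 4], 23), ([4, 4, 1], 28), ([4, 4, 4], 24)]),
    ((true, false, [3, 1]),
      [([], 6), ([1], 9), ([4], 18), ([1, 1], 10), ([1, 4], 19), ([4, 1], 19), ([4, 4], 24),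
        ([1, 1, 1], 11), ([1, 1, 4], 14), ([1, 4, 1], 22), ([1, 4, 4], 23), ([4, 1, 1], 20),
        ([4, 1, 4], 25), ([4, 4, 1], 22), ([4, 4, 4], 28)]),
    ((true, false, [3, 4]),
      [([], 4), ([1], 7), ([4], 16), ([1, 1], 8), ([1, 4], 17), ([4, 1], 19), ([4, 4], 16),
        ([1, 1, 1], 11), ([1, 1, 4], 16), ([1, 4, 1], 18), ([1, 4, 4], 13), ([4, 1, 1], 20),
        ([4, 1, 4], 28), ([4, 4, 1], 24), ([4, 4, 4], 34)]),
    ((true, false, [3, 1, 1]),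
      [([], 6), ([1], 7), ([4], 16), ([1, 1], 8), ([1, 4], 13), ([4, 1], 19), ([4, 4], 24),
        ([1, 1, 1], 9), ([1, 1, 4], 12), ([1, 4, 1], 20), ([1, 4, 4], 23), ([4, 1, 1], 20),
        ([4, 1, 4], 25), ([4, 4, 1], 22), ([4, 4, 4], 28)]),
    ((true, false, [3, 1, 4]),
      [([], 6), ([1], 7), ([4], 14), ([1, 1], 8), ([1, 4], 17), ([4, 1], 13), ([4, 4], 18),
        ([1, 1, 1], 11), ([1, 1, 4], 16), ([1, 4, 1], 18), ([1, 4, 4], 13), ([4, 1, 1], 14),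
        ([4, 1, 4], 22), ([4, 4, 1], 25), ([4, 4, 4], 30)]),
    ((true, false, [3, 4, 1]),
      [([], 6), ([1], 7), ([4], 16), ([1, 1], 10), ([1, 4], 19), ([4, 1], 17), ([4, 4], 14),
        ([1, 1, 1], 13), ([1, 1, 4], 18), ([1, 4, 1], 22), ([1, 4, 4], 15), ([4, 1, 1], 17),
        ([4, 1, 4], 24), ([4, 4, 1], 22), ([4, 4, 4], 34)]),
    ((true, false, [3, 4, 4]),
      [([], 6), ([1], 9), ([4], 12), ([1, 1], 10), ([1, 4], 21), ([4, 1], 19), ([4, 4], 28),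
        ([1, 1, 1], 11), ([1, 1, 4], 18), ([1, 4, 1], 22), ([1, 4, 4], 23), ([4, 1, 1], 18),
        ([4, 1, 4], 23), ([4, 4, 1], 30), ([4, 4, 4], 26)]),
    ((false, false, [1, 1, 1]),
      [([], 4), ([1], 5), ([4], 12), ([1, 1], 6), ([1, 4], 11), ([4, 1], 17), ([4, 4], 24),
        ([1, 1, 1], 7), ([1, 1, 4], 10), ([1, 4, 1], 18), ([1, 4, 4], 21), ([4, 1, 1], 18),
        ([4, 1, 4], 23), ([4, 4, 1], 22), ([4, 4, 4], 28)]),
    ((false, false, [1, 1, 4]),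
      [([], 4), ([1], 7), ([4], 14), ([1, 1], 8), ([1, 4], 17), ([4, 1], 13), ([4, 4], 18),
        ([1, 1, 1], 11), ([1, 1, 4], 16), ([1, 4, 1], 18), ([1, 4, 4], 13), ([4, 1, 1], 14),
        ([4, 1, 4], 22), ([4, 4, 1], 25), ([4, 4, 4], 30)]),
    ((false, false, [1, 4, 1]),
      [([], 4), ([1], 5), ([4], 14), ([1, 1], 8), ([1, 4], 17), ([4, 1], 15), ([4, 4], 12),
        ([1, 1, 1], 11), ([1, 1, 4], 16), ([1, 4, 1], 20), ([1, 4, 4], 13), ([4, 1, 1], 15),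
        ([4, 1, 4], 22), ([4, 4, 1], 20), ([4, 4, 4], 32)]),
    ((false, false, [1, 4, 4]),
      [([], 6), ([1], 7), ([4], 12), ([1, 1], 8), ([1, 4], 19), ([4, 1], 17), ([4, 4], 26),
        ([1, 1, 1], 9), ([1, 1, 4], 16), ([1, 4, 1], 20), ([1, 4, 4], 21), ([4, 1, 1], 18),
        ([4, 1, 4], 23), ([4, 4, 1], 28), ([4, 4, 4], 24)]),
    ((false, false, [4, 1, 1]),
      [([], 4), ([1], 7), ([4], 16), ([1, 1], 10), ([1, 4], 19), ([4, 1], 19), ([4, 4], 14),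
        ([1, 1, 1], 13), ([1, 1, 4], 18), ([1, 4, 1], 20), ([1, 4, 4], 15), ([4, 1, 1], 19),
        ([4, 1, 4], 26), ([4, 4, 1], 22), ([4, 4, 4], 34)]),
    ((false, false, [4, 1, 4]),
      [([], 6), ([1], 7), ([4], 12), ([1, 1], 8), ([1, 4], 17), ([4, 1], 19), ([4, 4], 28),
        ([1, 1, 1], 7), ([1, 1, 4], 14), ([1, 4, 1], 18), ([1, 4, 4], 19), ([4, 1, 1], 18),
        ([4, 1, 4], 23), ([4, 4, 1], 30), ([4, 4, 4], 26)]),
    ((false, false, [4, 4, 1]),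
      [([], 6), ([1], 7), ([4], 18), ([1, 1], 8), ([1, 4], 15), ([4, 1], 19), ([4, 4], 24),
        ([1, 1, 1], 9), ([1, 1, 4], 12), ([1, 4, 1], 20), ([1, 4, 4], 23), ([4, 1, 1], 20),
        ([4, 1, 4], 25), ([4, 4, 1], 22), ([4, 4, 4], 28)]),
    ((false, false, [4, 4, 4]),
      [([], 4), ([1], 7), ([4], 16), ([1, 1], 8), ([1, 4], 17), ([4, 1], 19), ([4, 4], 16),
        ([1, 1, 1], 11), ([1, 1, 4], 16), ([1, 4, 1], 18), ([1, 4, 4], 13), ([4, 1, 1], 20),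
        ([4, 1, 4], 28), ([4, 4, 1], 24), ([4, 4, 4], 34)]),
    ((false, true, [1, 1, 1]),
      [([], 4), ([1], 7), ([4], 16), ([1, 1], 10), ([1, 4], 19), ([4, 1], 19), ([4, 4], 14),
        ([1, 1, 1], 13), ([1, 1, 4], 18), ([1, 4, 1], 20), ([1, 4, 4], 15), ([4, 1, 1], 19),
        ([4, 1, 4], 26), ([4, 4, 1], 22), ([4, 4, 4], 34)]),
    ((false, true, [1, 1, 4]),
      [([], 4), ([1], 7), ([4], 10), ([1, 1], 8), ([1, 4], 17), ([4, 1], 17), ([4, 4], 26),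
        ([1, 1, 1], 7), ([1, 1, 4], 14), ([1, 4, 1], 18), ([1, 4, 4], 19), ([4, 1, 1], 16),
        ([4, 1, 4], 21), ([4, 4, 1], 28), ([4, 4, 4], 24)]),
    ((false, true, [1, 4, 1]),
      [([], 4), ([1], 5), ([4], 14), ([1, 1], 6), ([1, 4], 13), ([4, 1], 15), ([4, 4], 20),
        ([1, 1, 1], 7), ([1, 1, 4], 10), ([1, 4, 1], 18), ([1, 4, 4], 23), ([4, 1, 1], 16),
        ([4, 1, 4], 21), ([4, 4, 1], 18), ([4, 4, 4], 24)]),
    ((false, true, [1, 4, 4]),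
      [([], 4), ([1], 7), ([4], 16), ([1, 1], 8), ([1, 4], 17), ([4, 1], 19), ([4, 4], 16),
        ([1, 1, 1], 11), ([1, 1, 4], 16), ([1, 4, 1], 18), ([1, 4, 4], 13), ([4, 1, 1], 20),
        ([4, 1, 4], 28), ([4, 4, 1], 24), ([4, 4, 4], 34)]),
    ((false, true, [4, 1, 1]),
      [([], 4), ([1], 5), ([4], 12), ([1, 1], 6), ([1, 4], 11), ([4, 1], 17), ([4, 4], 24),
        ([1, 1, 1], 7), ([1, 1, 4], 10), ([1, 4, 1], 18), ([1, 4, 4], 21), ([4, 1, 1], 18),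
        ([4, 1, 4], 23), ([4, 4, 1], 22), ([4, 4, 4], 28)]),
    ((false, true, [4, 1, 4]),
      [([], 6), ([1], 7), ([4], 14), ([1, 1], 8), ([1, 4], 17), ([4, 1], 13), ([4, 4], 18),
        ([1, 1, 1], 11), ([1, 1, 4], 16), ([1, 4, 1], 18), ([1, 4, 4], 13), ([4, 1, 1], 14),
        ([4, 1, 4], 22), ([4, 4, 1], 25), ([4, 4, 4], 30)]),
    ((false, true, [4, 4, 1]),
      [([], 6), ([1], 7), ([4], 16), ([1, 1], 10), ([1, 4], 19), ([4, 1], 17), ([4, 4], 14),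
        ([1, 1, 1], 13), ([1, 1, 4], 18), ([1, 4, 1], 22), ([1, 4, 4], 15), ([4, 1, 1], 17),
        ([4, 1, 4], 24), ([4, 4, 1], 22), ([4, 4, 4], 34)]),
    ((false, true, [4, 4, 4]),
      [([], 6), ([1], 9), ([4], 12), ([1, 1], 10), ([1, 4], 21), ([4, 1], 19), ([4, 4], 28),
        ([1, 1, 1], 11), ([1, 1, 4], 18), ([1, 4, 1], 22), ([1, 4, 4], 23), ([4, 1, 1], 18),
        ([4, 1, 4], 23), ([4, 4, 1], 30), ([4, 4, 4], 26)])]

end TT
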