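import Pool.Agent.Lib.MP_db1bc6_al.Fam
import Pool.Agent.Lib.MP_db1bc6_al.TabB

/-! # The family of the run lengths `3; 1, 4` -/

namespace TT

open Equiv

set_option maxRecDepth 100000

theorem chkC_B : chkC [1, 4] 3 w3 12 tabB = true := by decide +kernel

theorem chkH_B : chkH 3 [1, 4] 3 1 w3 12 tabB [] = true := by decide +kernel

theorem chkN_B : chkN 3 [1, 4] w3 12 [[4, 1, 1, 4, 1, 1, 4, 4]]
    [none, some (21, false), some (27, false)] 10 [] = true := by decide +kernel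

theorem famB {k : ℕ} {s : ℕ → Bool} {ls : List ℕ} (h : Runs k s (3 :: ls))
    (hls : ∀ m ∈ ls, m = 1 ∨ m = 4) (hk : 10 ≤ k) :
    2 * ((rl k s w3) ^ 12).support.card + 5 ≤ 3 * k + 1 :=
  fam_main (by norm_num) chkC_B chkH_B h (fun m hm => by simpa using hls m hm) hk (by simp)

theorem famB_ne {k : ℕ} {s : ℕ → Bool} {ls : List ℕ} (h : Runs k s (3 :: ls))
    (hls : ∀ m ∈ ls, m = 1 ∨ m = 4) (hk : 10 ≤ k) (hne : ls ≠ [4, 1, 1, 4, 1, 1, 4, 4]) :
    (rl k s w3) ^ 12 ≠ 1 :=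
  fam_ne _ chkN_B h (fun m hm => by simpa using hls m hm) hk (by simpa using hne)

end TT
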