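import Pool.Agent.Lib.MP_db1bc6_al.Base

/-! # Labels -/

namespace TT

open Equiv

theorem theta_eq (k : ℕ) (s : ℕ → Bool) : theta k = R k s * rho k s := by
  rw [R, mul_assoc, rho_mul_rho, mul_one]

theorem R_val {k : ℕ} {s : ℕ → Bool} (x : Om k) : (R k s x).val = thetaN (rhoN k s x.val) := rfl

theorem pt_zero (k : ℕ) (s : ℕ → Bool) : pt k s 0 = 0 := by simp [pt]

theorem R_pt (k : ℕ) (s : ℕ → Bool) (m : ℤ) : R k s (pt k s m) = pt k s (m + 1) := by
  have := R_zpow_pt k s 1 m
  rwa [zpow_one] at this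

theorem pt_fwd {k : ℕ} {s : ℕ → Bool} {m : ℤ} {x : ℕ} (h : (pt k s m).val = x) :
    (pt k s (m + 1)).val = thetaN (rhoN k s x) := by
  rw [← R_pt, R_val, h]

theorem pt_bwd {k : ℕ} {s : ℕ → Bool} {m : ℤ} {x y : ℕ} (h : (pt k s m).val = x)
    (hy : y < 3 * k + 1) (hx : thetaN (rhoN k s y) = x) : (pt k s (m - 1)).val = y := by
  have h1 : R k s (pt k s (m - 1)) = R k s ⟨y, hy⟩ := by
    rw [R_pt, sub_add_cancel]
    exact Fin.ext (by rw [h, R_val, hx])
  have := (R k s).injective h1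
  rw [this]

/-- code of the end of the chord closer to the root -/
def Ec (s : ℕ → Bool) : ℕ → ℕ
  | 0 => 0
  | j + 1 => 3 * j + 1 + (if s j then 2 else 1)

theorem rhoN_Ec {k : ℕ} {s : ℕ → Bool} {j : ℕ} (h : j < k) : rhoN k s (Ec s j) = 3 * j + 1 := by
  cases j with
  | zero => exact rhoN_zero s h
  | succ j =>
    cases hs : s j with
    | false =>
      have e : Ec s (j + 1) = 3 * j + 2 := by simp [Ec, hs]
      rw [e, rhoN_c1, if_pos ⟨h, hs⟩]
    | true =>
      have e : Ec s (j + 1) = 3 * j + 3 := by simp [Ec, hs]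
      rw [e, rhoN_c2, if_pos ⟨h, hs⟩]

theorem rhoN_c0 {k : ℕ} {s : ℕ → Bool} (j : ℕ) : rhoN k s (3 * j + 1) = Ec s j := by
  cases j with
  | zero => exact rhoN_one s
  | succ j => exact rhoN_entry s j

/-- the labels of the corner 1, given the labels of the chord -/
theorem lab_aux {k : ℕ} {s : ℕ → Bool} {j : ℕ} (h : j < k) :
    (pt k s (uL s j)).val = Ec s j ∧ (pt k s (-(vL s j))).val = 3 * j + 1 := by
  induction j with
  | zero =>
    refine ⟨by simp [uL, pt_zero, Ec], ?_⟩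
    have h0 : (pt k s 0).val = 0 := by rw [pt_zero]; rfl
    have := pt_bwd h0 (show 3 * 0 + 1 < 3 * k + 1 by omega) (by rw [rhoN_c0]; rfl)
    simpa [vL] using this
  | succ j ih =>
    obtain ⟨h1, h2⟩ := ih (by omega)
    have h3 := pt_fwd h1
    rw [rhoN_Ec (by omega), thetaN_c0] at h3
    cases hs : s j with
    | false =>
      simp only [uL, vL, hs, Bool.false_eq_true, if_false]
      refine ⟨by rw [h3]; simp [Ec, hs], ?_⟩
      have h4 : (pt k s (-(vL s j) - 1)).val = 3 * j + 3 := by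
        refine pt_bwd h2 (by omega) ?_
        rw [rhoN_c2, if_neg (by simp [hs]), thetaN_c2]
      have h5 := pt_bwd h4 (show 3 * (j + 1) + 1 < 3 * k + 1 by omega) (by
        rw [rhoN_c0, Ec, hs]
        simp only [Bool.false_eq_true, if_false]
        exact thetaN_c1 j)
      rw [← h5]
      congr 2
      ring
    | true =>
      simp only [uL, vL, hs, if_true]
      have h4 := pt_fwd h3
      rw [rhoN_c1, if_neg (by simp [hs]), thetaN_c1] at h4
      refine ⟨?_, ?_⟩
      · rw [show uL s j + 2 = uL s j + 1 + 1 by ring, h4]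
        simp [Ec, hs]
      · have h5 := pt_bwd h2 (show 3 * (j + 1) + 1 < 3 * k + 1 by omega) (by
          rw [rhoN_c0, Ec, hs]
          simp only [if_true]
          exact thetaN_c2 j)
        rw [← h5]
        congr 2
        ring

theorem chord {k : ℕ} {s : ℕ → Bool} {j : ℕ} (h : j < k) :
    rho k s (pt k s (uL s j)) = pt k s (-(vL s j)) := by
  obtain ⟨h1, h2⟩ := lab_aux (s := s) h
  apply Fin.ext
  rw [rho_val, h1, h2, rhoN_Ec h]

theorem lab_c1 {k : ℕ} {s : ℕ → Bool} {j : ℕ} (h : j < k) :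
    (pt k s (uL s j + 1)).val = 3 * j + 2 := by
  have h3 := pt_fwd (lab_aux (s := s) h).1
  rwa [rhoN_Ec h, thetaN_c0] at h3

theorem dead_pos {k : ℕ} {s : ℕ → Bool} {j : ℕ} (_h : j + 1 < k) (hs : s j = true) :
    rho k s (pt k s (uL s j + 1)) = pt k s (uL s j + 1) := by
  apply Fin.ext
  rw [rho_val, lab_c1 (by omega), rhoN_c1, if_neg (by simp [hs])]

theorem lab_c2_neg {k : ℕ} {s : ℕ → Bool} {j : ℕ} (h : j + 1 < k) (hs : s j = false) :
    (pt k s (-(vL s j + 1))).val = 3 * j + 3 := by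
  have h2 := (lab_aux (s := s) (show j < k by omega)).2
  have h4 : (pt k s (-(vL s j) - 1)).val = 3 * j + 3 := by
    refine pt_bwd h2 (by omega) ?_
    rw [rhoN_c2, if_neg (by simp [hs]), thetaN_c2]
  rw [← h4]
  congr 2
  ring

theorem dead_neg {k : ℕ} {s : ℕ → Bool} {j : ℕ} (h : j + 1 < k) (hs : s j = false) :
    rho k s (pt k s (-(vL s j + 1))) = pt k s (-(vL s j + 1)) := by
  apply Fin.ext
  rw [rho_val, lab_c2_neg h hs, rhoN_c2, if_neg (by simp [hs])]

theorem uL_add_vL (s : ℕ → Bool) (j : ℕ) : uL s j + vL s j = 3 * j + 1 := by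
  induction j with
  | zero => simp [uL, vL]
  | succ j ih =>
    simp only [uL, vL]
    split_ifs <;> push_cast <;> linarith

theorem pt_surj (k : ℕ) (s : ℕ → Bool) (x : Om k) : ∃ m, pt k s m = x := by
  rcases code_cases x.val with h | ⟨j, h | h | h⟩
  · exact ⟨0, by rw [pt_zero]; exact Fin.ext h.symm⟩
  · have hj : j < k := by have := x.2; omega
    exact ⟨_, Fin.ext ((lab_aux (s := s) hj).2.trans h.symm)⟩
  · have hj : j < k := by have := x.2; omega
    exact ⟨_, Fin.ext ((lab_c1 (s := s) hj).trans h.symm)⟩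
  · have hj : j < k := by have := x.2; omega
    by_cases hd : j + 1 < k ∧ s j = false
    · exact ⟨_, Fin.ext ((lab_c2_neg hd.1 hd.2).trans h.symm)⟩
    · have h4 := pt_fwd (lab_c1 (s := s) hj)
      rw [rhoN_c1, if_neg hd, thetaN_c1] at h4
      exact ⟨_, Fin.ext (h4.trans h.symm)⟩

theorem R_pow_card (k : ℕ) (s : ℕ → Bool) (m : ℤ) : pt k s (m + (3 * k + 1)) = pt k s m := by
  rcases Nat.eq_zero_or_pos k with rfl | hk
  · exact Subsingleton.elim (α := Fin 1) _ _
  · obtain ⟨j, rfl⟩ : ∃ j, k = j + 1 := ⟨k - 1, by omega⟩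
    have h1 := lab_c1 (k := j + 1) (s := s) (j := j) (by omega)
    have h2 := pt_fwd h1
    rw [rhoN_c1, if_neg (by omega), thetaN_c1] at h2
    have h3 := pt_fwd h2
    rw [rhoN_c2, if_neg (by omega), thetaN_c2] at h3
    have h4 := (lab_aux (k := j + 1) (s := s) (j := j) (by omega)).2
    have h5 : pt (j + 1) s (uL s j + 1 + 1 + 1) = pt (j + 1) s (-(vL s j)) :=
      Fin.ext (h3.trans h4.symm)
    have h6 := uL_add_vL s j
    have h7 : (3 * ((j + 1 : ℕ) : ℤ) + 1) = uL s j + 1 + 1 + 1 + vL s j := by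
      push_cast; linarith
    rw [h7, show m + (uL s j + 1 + 1 + 1 + vL s j) = uL s j + 1 + 1 + 1 + (m + vL s j) by ring,
      ← R_zpow_pt, h5, R_zpow_pt]
    congr 1
    ring

theorem pt_add_mul (k : ℕ) (s : ℕ → Bool) (m : ℤ) (t : ℤ) :
    pt k s (m + (3 * k + 1) * t) = pt k s m := by
  induction t using Int.induction_on with
  | zero => simp
  | succ t ih =>
    rw [show m + (3 * k + 1) * ((t : ℤ) + 1) = m + (3 * k + 1) * t + (3 * k + 1) by ring,
      R_pow_card, ih]
  | pred t ih =>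
    rw [← R_pow_card, show m + (3 * k + 1) * (-(t : ℤ) - 1) + (3 * k + 1) =
      m + (3 * k + 1) * -(t : ℤ) by ring, ih]

theorem pt_eq_iff {k : ℕ} {s : ℕ → Bool} {a b : ℤ} :
    pt k s a = pt k s b ↔ (3 * k + 1 : ℤ) ∣ a - b := by
  constructor
  · intro h
    -- the map from residues is a bijection
    let f : Fin (3 * k + 1) → Om k := fun i => pt k s (i.val : ℤ)
    have hn : (0 : ℤ) < 3 * k + 1 := by positivity
    have hred : ∀ m : ℤ, ∃ i : Fin (3 * k + 1), f i = pt k s m ∧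
        (3 * k + 1 : ℤ) ∣ m - (i.val : ℤ) := by
      intro m
      have h1 := Int.emod_nonneg m hn.ne'
      have h2 := Int.emod_lt_of_pos m hn
      have h3 := Int.emod_add_mul_ediv m (3 * k + 1)
      refine ⟨⟨(m % (3 * k + 1)).toNat, by omega⟩, ?_, ?_⟩
      · change pt k s (((m % (3 * k + 1)).toNat : ℕ) : ℤ) = _
        rw [Int.toNat_of_nonneg h1]
        conv_rhs => rw [← h3]
        rw [pt_add_mul]
      · change (3 * k + 1 : ℤ) ∣ m - (((m % (3 * k + 1)).toNat : ℕ) : ℤ)
        rw [Int.toNat_of_nonneg h1]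
        exact ⟨m / (3 * k + 1), by linarith⟩
    have hsurj : Function.Surjective f := by
      intro x
      obtain ⟨m, hm⟩ := pt_surj k s x
      obtain ⟨i, hi, -⟩ := hred m
      exact ⟨i, by rw [hi, hm]⟩
    have hinj : Function.Injective f := Finite.injective_iff_surjective.2 hsurj
    obtain ⟨i, hi, hi2⟩ := hred a
    obtain ⟨j, hj, hj2⟩ := hred b
    have hij : i = j := hinj (by rw [hi, hj, h])
    subst hij
    have := dvd_sub hi2 hj2
    simpa using this
  · rintro ⟨t, ht⟩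
    rw [show a = b + (3 * k + 1) * t by linarith, pt_add_mul]

end TT
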