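import Pool.Agent.Lib.MP_db1bc6_al.Fam
import Pool.Agent.Lib.MP_db1bc6_al.Label
import Pool.Agent.Lib.MP_db1bc6_al.Arith

/-! # The powers of `LR` -/

namespace TT

open Equiv

/-! ## Products of two involutions along a path -/

/-- folding of the cycle of length `2 N` -/
def fold (N j : ℕ) : ℕ := if j < N then j else 2 * N - 1 - j

/-- `A` and `B` act on the path `v 0, …, v (N - 1)`: `A` exchanges `v 0, v 1`, and so on -/
structure IsPath {Ω : Type*} (A B : Perm Ω) (v : ℕ → Ω) (N : ℕ) : Prop where
  pos : 0 < N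
  hA : ∀ t, t % 2 = 0 → t + 1 < N → A (v t) = v (t + 1)
  hA' : ∀ t, t % 2 = 0 → t + 1 < N → A (v (t + 1)) = v t
  hB : ∀ t, t % 2 = 1 → t + 1 < N → B (v t) = v (t + 1)
  hB' : ∀ t, t % 2 = 1 → t + 1 < N → B (v (t + 1)) = v t
  hB0 : B (v 0) = v 0
  hend : ((N - 1) % 2 = 0 → A (v (N - 1)) = v (N - 1)) ∧
    ((N - 1) % 2 = 1 → B (v (N - 1)) = v (N - 1))

section
variable {Ω : Type*} {A B : Perm Ω} {v : ℕ → Ω} {N : ℕ}

theorem IsPath.step (h : IsPath A B v N) {j : ℕ} (hj : j < 2 * N) (hj2 : j % 2 = 0) :
    (B * A) (v (fold N j)) = v (fold N ((j + 2) % (2 * N))) := by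
  have hN := h.pos
  have e1 : A (v (fold N j)) = v (fold N (j + 1)) := by
    unfold fold
    rcases Nat.lt_or_ge (j + 1) N with h1 | h1
    · rw [if_pos (by omega), if_pos h1]
      exact h.hA j hj2 h1
    rcases Nat.lt_or_ge j N with h2 | h2
    · have hj3 : j = N - 1 := by omega
      subst hj3
      rw [if_pos (by omega), if_neg (by omega), show 2 * N - 1 - (N - 1 + 1) = N - 1 by omega]
      exact h.hend.1 hj2
    · rw [if_neg (by omega), if_neg (by omega)]
      have e := h.hA' (2 * N - 1 - (j + 1)) (by omega) (by omega)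
      rw [show 2 * N - 1 - (j + 1) + 1 = 2 * N - 1 - j by omega] at e
      exact e
  have e2 : B (v (fold N (j + 1))) = v (fold N ((j + 2) % (2 * N))) := by
    unfold fold
    rcases Nat.lt_or_ge (j + 2) N with h1 | h1
    · rw [if_pos (by omega), Nat.mod_eq_of_lt (by omega), if_pos h1]
      exact h.hB (j + 1) (by omega) h1
    rcases Nat.lt_or_ge (j + 1) N with h2 | h2
    · have hj3 : j + 1 = N - 1 := by omega
      rw [if_pos (by omega), Nat.mod_eq_of_lt (by omega), if_neg (by omega), hj3,
        show 2 * N - 1 - (j + 2) = N - 1 by omega]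
      exact h.hend.2 (by omega)
    · rw [if_neg (by omega)]
      rcases Nat.lt_or_ge (j + 2) (2 * N) with h3 | h3
      · rw [Nat.mod_eq_of_lt h3, if_neg (by omega)]
        have e := h.hB' (2 * N - 1 - (j + 2)) (by omega) (by omega)
        rw [show 2 * N - 1 - (j + 2) + 1 = 2 * N - 1 - (j + 1) by omega] at e
        exact e
      · have hj4 : j + 2 = 2 * N := by omega
        rw [hj4, Nat.mod_self, if_pos hN, show 2 * N - 1 - (j + 1) = 0 by omega]
        exact h.hB0
  rw [Perm.mul_apply, e1, e2]

theorem IsPath.pow (h : IsPath A B v N) (M : ℕ) {j : ℕ} (hj : j < 2 * N) (hj2 : j % 2 = 0) :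
    ((B * A) ^ M) (v (fold N j)) = v (fold N ((j + 2 * M) % (2 * N))) := by
  have hN := h.pos
  induction M with
  | zero => simp [Nat.mod_eq_of_lt hj]
  | succ M ih =>
    have h3 : (j + 2 * M) % (2 * N) < 2 * N := Nat.mod_lt _ (by omega)
    have h4 : ((j + 2 * M) % (2 * N)) % 2 = 0 := by
      rw [Nat.mod_mul_right_mod]; omega
    rw [pow_succ', Perm.mul_apply, ih, h.step h3 h4, Nat.mod_add_mod,
      show j + 2 * M + 2 = j + 2 * (M + 1) by ring]

theorem IsPath.fix (h : IsPath A B v N) {M : ℕ} (hM : M % N = 0) {t : ℕ} (ht : t < N) :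
    ((B * A) ^ M) (v t) = v t := by
  obtain ⟨c, hc⟩ := Nat.dvd_of_mod_eq_zero hM
  obtain ⟨j, hj, hj2, hf⟩ : ∃ j, j < 2 * N ∧ j % 2 = 0 ∧ fold N j = t := by
    rcases Nat.mod_two_eq_zero_or_one t with h1 | h1
    · exact ⟨t, by omega, h1, by unfold fold; rw [if_pos ht]⟩
    · exact ⟨2 * N - 1 - t, by omega, by omega, by unfold fold; rw [if_neg (by omega)]; omega⟩
  have e := h.pow M hj hj2
  rw [hf, show j + 2 * M = j + 2 * N * c by rw [hc]; ring, Nat.add_mul_mod_self_left,
    Nat.mod_eq_of_lt hj, hf] at e
  exact e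

theorem IsPath.move (h : IsPath A B v N) (hinj : ∀ t < N, v t = v 0 → t = 0) {M : ℕ}
    (hM : M % N ≠ 0) : ((B * A) ^ M) (v 0) ≠ v 0 := by
  have hN := h.pos
  have e := h.pow M (j := 0) (by omega) rfl
  have f0 : fold N 0 = 0 := by unfold fold; rw [if_pos hN]
  rw [f0, zero_add, Nat.mul_mod_mul_left] at e
  rw [e]
  intro h2
  have hlt : M % N < N := Nat.mod_lt _ hN
  have := hinj _ (by unfold fold; split_ifs <;> omega) h2
  unfold fold at this
  split_ifs at this <;> omega

end

/-! ## The blocks -/

section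
variable {k : ℕ} {s : ℕ → Bool}

/-- a block of `m` bits from `a` on -/
structure Blk (k : ℕ) (s : ℕ → Bool) (a m : ℕ) : Prop where
  pos : 0 < m
  le : a + m + 1 ≤ k
  bit : ∀ i < m, s (a + i) = if i % 2 = 0 then s a else !s a
  fin : a + m + 1 < k → s (a + m) = s (a + m - 1)
  start : 0 < a → s (a - 1) = s a

theorem getElem_alt (q : Bool) (m i : ℕ) (h : i < (alt q m).length) :
    (alt q m)[i] = if i % 2 = 0 then q else !q := by
  induction m generalizing q i with
  | zero => simp [alt] at h
  | succ m ih =>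
    cases i with
    | zero => simp [alt]
    | succ i =>
      simp only [alt, List.getElem_cons_succ]
      rw [ih]
      rcases Nat.mod_two_eq_zero_or_one i with h1 | h1
      · rw [if_pos h1, if_neg (by omega)]
      · rw [if_neg (by omega), if_pos (by omega)]; simp

theorem runs_bit {LS L0 Y : List ℕ} {m : ℕ} (h : Runs k s LS) (hLS : LS = L0 ++ m :: Y) {i : ℕ}
    (hi : i < m) : s (L0.sum + i) = if i % 2 = 0 then stp false L0 else !(stp false L0) := by
  have hsum : LS.sum = L0.sum + (m + Y.sum) := by rw [hLS]; simp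
  rw [h.2.2 _ (by have := h.2.1; omega), hLS, expand_append, List.getD_eq_getElem?_getD,
    List.getElem?_append_right (by rw [length_expand]; omega), length_expand,
    Nat.add_sub_cancel_left, expand, List.getElem?_append_left (by rw [length_alt]; exact hi),
    List.getElem?_eq_getElem (by rw [length_alt]; exact hi)]
  exact getElem_alt _ _ _ _

theorem runs_fin {LS L0 Y : List ℕ} {m m' : ℕ} (h : Runs k s LS)
    (hLS : LS = L0 ++ m :: m' :: Y) : s (L0.sum + m) = s (L0.sum + m - 1) := by
  have hm : 0 < m := h.1 m (by rw [hLS]; simp)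
  have hm' : 0 < m' := h.1 m' (by rw [hLS]; simp)
  have e1 := runs_bit h hLS (i := m - 1) (by omega)
  have e2 := runs_bit (L0 := L0 ++ [m]) (m := m') (Y := Y) h (by rw [hLS]; simp) (i := 0) hm'
  rw [show (L0 ++ [m]).sum + 0 = L0.sum + m by simp, if_pos rfl, stp_append] at e2
  rw [show L0.sum + m - 1 = L0.sum + (m - 1) by omega, e1, e2]
  change nx (stp false L0) m = _
  unfold nx
  rcases Nat.mod_two_eq_zero_or_one m with h1 | h1
  · rw [if_pos h1, if_neg (by omega)]
  · rw [if_neg (by omega), if_pos (by omega)]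

theorem blk_of_runs {LS L0 Y : List ℕ} {m : ℕ} (h : Runs k s LS) (hLS : LS = L0 ++ m :: Y) :
    Blk k s L0.sum m := by
  have hsum : LS.sum = L0.sum + (m + Y.sum) := by rw [hLS]; simp
  have hm : 0 < m := h.1 m (by rw [hLS]; simp)
  have hk := h.2.1
  have e0 := runs_bit h hLS (i := 0) hm
  rw [if_pos rfl, add_zero] at e0
  refine ⟨hm, by omega, fun i hi => ?_, fun hlt => ?_, fun ha => ?_⟩
  · rw [runs_bit h hLS hi, e0]
  · cases Y with
    | nil => simp at hsum; omega
    | cons m' Y => exact runs_fin h hLS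
  · rcases List.eq_nil_or_concat L0 with h1 | ⟨L1, m1, h1⟩
    · rw [h1] at ha; simp at ha
    · subst h1
      have := runs_fin (L0 := L1) (m := m1) (m' := m) (Y := Y) h (by rw [hLS]; simp)
      rw [show (L1.concat m1).sum = L1.sum + m1 by simp]
      exact this.symm

/-- every bit is in a block -/
theorem exists_block (LS : List ℕ) {j : ℕ} (hj : j < LS.sum) :
    ∃ L0 m Y, LS = L0 ++ m :: Y ∧ L0.sum ≤ j ∧ j < L0.sum + m := by
  induction LS generalizing j with
  | nil => simp at hj
  | cons x LS ih =>
    rcases Nat.lt_or_ge j x with h1 | h1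
    · exact ⟨[], x, LS, rfl, by simp, by simpa using h1⟩
    · obtain ⟨L0, m, Y, h2, h3, h4⟩ := ih (j := j - x) (by simp at hj; omega)
      exact ⟨x :: L0, m, Y, by rw [h2]; rfl, by simp; omega, by simp; omega⟩

/-! ## The two involutions, on codes -/

/-- `β = θ ρ θ⁻¹` -/
def be (k : ℕ) (s : ℕ → Bool) : Perm (Om k) := theta k * rho k s * (theta k)⁻¹

/-- points from codes -/
def pc (k x : ℕ) : Om k := if h : x < 3 * k + 1 then ⟨x, h⟩ else 0

theorem pc_val {x : ℕ} (h : x < 3 * k + 1) : (pc k x).val = x := by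
  unfold pc; rw [dif_pos h]

theorem al_pc {x : ℕ} (h : x < 3 * k + 1) : rho k s (pc k x) = pc k (rhoN k s x) := by
  apply Fin.ext
  rw [rho_val, pc_val h, pc_val (rhoN_lt h)]

theorem be_pc {x : ℕ} (h : x < 3 * k + 1) :
    be k s (pc k x) = pc k (thetaN (rhoN k s (thetaN (thetaN x)))) := by
  apply Fin.ext
  rw [pc_val (thetaN_lt (rhoN_lt (thetaN_lt (thetaN_lt h))))]
  simp only [be, Perm.mul_apply, theta_val, rho_val, theta_inv_val]
  rw [pc_val h]

theorem be_be (x : Om k) : be k s (be k s x) = x := by
  simp [be]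

theorem LR_eq : rl k s [false, true] = be k s * rho k s := by
  simp only [rl, be, R, L, if_true, Bool.false_eq_true, if_false, one_mul]
  group

/-- forward vertex after the bit `j` -/
def nv (s : ℕ → Bool) (j : ℕ) : ℕ := if s j then 3 * (j + 1) + 2 else 3 * (j + 1) + 1

/-- the other one of the corners 0, 1 of the triangle `j + 1` -/
def yv (s : ℕ → Bool) (j : ℕ) : ℕ := if s j then 3 * (j + 1) + 1 else 3 * (j + 1) + 2

/-- the vertex of the triangle `j` in its path -/
def pv (s : ℕ → Bool) (j : ℕ) : ℕ := if s j then 3 * j + 1 else 3 * j + 2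

theorem al_pv {j : ℕ} (hj : j + 1 < k) (hs : s j = false) :
    rho k s (pc k (pv s j)) = pc k (nv s j) := by
  simp only [pv, nv, hs, Bool.false_eq_true, if_false]
  rw [al_pc (by omega), rhoN_c1, if_pos ⟨hj, hs⟩]

theorem be_pv {j : ℕ} (hj : j + 1 < k) (hs : s j = true) :
    be k s (pc k (pv s j)) = pc k (nv s j) := by
  simp only [pv, nv, hs, if_true]
  rw [be_pc (by omega), thetaN_c0, thetaN_c1, rhoN_c2, if_pos ⟨hj, hs⟩, thetaN_c0]

/-- from the first vertex of a block back to the corner 2 of the previous triangle -/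
theorem al_start {a : ℕ} (ha : 0 < a) (hak : a < k) (hs : s a = true) (hs' : s (a - 1) = true) :
    rho k s (pc k (pv s a)) = pc k (3 * a) := by
  simp only [pv, hs, if_true]
  rw [al_pc (by omega), rhoN_c0]
  obtain ⟨b, rfl⟩ : ∃ b, a = b + 1 := ⟨a - 1, by omega⟩
  rw [Nat.add_sub_cancel] at hs'
  congr 1
  simp only [Ec, hs', if_true]
  ring

theorem be_start {a : ℕ} (ha : 0 < a) (hak : a < k) (hs : s a = false) (hs' : s (a - 1) = false) :
    be k s (pc k (pv s a)) = pc k (3 * a) := by
  simp only [pv, hs, Bool.false_eq_true, if_false]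
  rw [be_pc (by omega), thetaN_c1, thetaN_c2, rhoN_c0]
  obtain ⟨b, rfl⟩ : ∃ b, a = b + 1 := ⟨a - 1, by omega⟩
  rw [Nat.add_sub_cancel] at hs'
  congr 1
  simp only [Ec, hs', Bool.false_eq_true, if_false]
  rw [show 3 * b + 1 + 1 = 3 * b + 2 by ring, thetaN_c1]
  ring

/-- the corner 2 of the triangle before a block -/
theorem al_zero {a : ℕ} (ha : 0 < a) (hak : a < k) (hs' : s (a - 1) = false) :
    rho k s (pc k (3 * a)) = pc k (3 * a) := by
  obtain ⟨b, rfl⟩ : ∃ b, a = b + 1 := ⟨a - 1, by omega⟩
  rw [Nat.add_sub_cancel] at hs'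
  rw [al_pc (by omega), show 3 * (b + 1) = 3 * b + 3 by ring, rhoN_c2, if_neg (by simp [hs'])]

theorem be_zero {a : ℕ} (ha : 0 < a) (hak : a < k) (hs' : s (a - 1) = true) :
    be k s (pc k (3 * a)) = pc k (3 * a) := by
  obtain ⟨b, rfl⟩ : ∃ b, a = b + 1 := ⟨a - 1, by omega⟩
  rw [Nat.add_sub_cancel] at hs'
  rw [be_pc (by omega), show 3 * (b + 1) = 3 * b + 3 by ring, thetaN_c2, thetaN_c0, rhoN_c1,
    if_neg (by simp [hs']), thetaN_c1]

/-- the end of a block -/
theorem be_end {j : ℕ} (hj : j + 1 < k) (hs : s j = false) (he : j + 2 < k → s (j + 1) = false) :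
    be k s (pc k (nv s j)) = pc k (nv s j) := by
  simp only [nv, hs, Bool.false_eq_true, if_false]
  rw [be_pc (by omega), thetaN_c0, thetaN_c1, rhoN_c2, if_neg, thetaN_c2]
  rintro ⟨h1, h2⟩
  rw [he h1] at h2
  exact absurd h2 (by decide)

theorem al_end {j : ℕ} (hj : j + 1 < k) (hs : s j = true) (he : j + 2 < k → s (j + 1) = true) :
    rho k s (pc k (nv s j)) = pc k (nv s j) := by
  simp only [nv, hs, if_true]
  rw [al_pc (by omega), rhoN_c1, if_neg]
  rintro ⟨h1, h2⟩
  rw [he h1] at h2
  exact absurd h2 (by decide)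

theorem pv_succ {j : ℕ} (h : s (j + 1) = !s j) : pv s (j + 1) = nv s j := by
  unfold pv nv
  rw [h]
  cases s j <;> rfl

/-! ## The paths -/

/-- the path of a block which is not the first one -/
def vr (s : ℕ → Bool) (a t : ℕ) : ℕ :=
  if t = 0 then 3 * a else if t = 1 then pv s a else nv s (a + t - 2)

/-- the path of the first block -/
def v0 (s : ℕ → Bool) (t : ℕ) : ℕ :=
  if t = 0 then 1 else if t = 1 then 0 else if t = 2 then 2 else nv s (t - 3)

theorem Blk.bit_succ {a m : ℕ} (h : Blk k s a m) {i : ℕ} (hi : i + 1 < m) :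
    s (a + i + 1) = !s (a + i) := by
  rw [show a + i + 1 = a + (i + 1) by ring, h.bit (i + 1) hi, h.bit i (by omega)]
  rcases Nat.mod_two_eq_zero_or_one i with h1 | h1
  · rw [if_neg (by omega), if_pos h1]
  · rw [if_pos (by omega), if_neg (by omega)]; simp

theorem vr_eq_pv {a m : ℕ} (h : Blk k s a m) {t : ℕ} (h1 : 1 ≤ t) (h2 : t ≤ m) :
    vr s a t = pv s (a + t - 1) := by
  unfold vr
  rw [if_neg (by omega)]
  split_ifs with h3
  · subst h3; rfl
  · have e := h.bit_succ (i := t - 2) (by omega)
    rw [show a + (t - 2) = a + t - 2 by omega, show a + t - 2 + 1 = a + t - 1 by omega] at e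
    rw [← pv_succ (s := s) (j := a + t - 2)
      (by rw [show a + t - 2 + 1 = a + t - 1 by omega]; exact e)]
    congr 1
    omega

theorem vr_nv {a t : ℕ} (h1 : 1 ≤ t) : vr s a (t + 1) = nv s (a + t - 1) := by
  unfold vr
  rw [if_neg (by omega), if_neg (by omega)]
  congr 1

theorem fin_eq {a m : ℕ} (h : Blk k s a m) (h2 : a + m - 1 + 2 < k) :
    s (a + m - 1 + 1) = s (a + m - 1) := by
  have hp := h.pos
  rw [show a + m - 1 + 1 = a + m by omega]
  exact h.fin (by omega)

/-- the path of a block with the first bit `false` -/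
theorem path_false {a m : ℕ} (h : Blk k s a m) (ha : 0 < a) (hs : s a = false) :
    IsPath (be k s) (rho k s) (fun t => pc k (vr s a t)) (m + 2) := by
  have hs' : s (a - 1) = false := by rw [h.start ha, hs]
  have hle := h.le
  have hp := h.pos
  have hbit : ∀ t, 1 ≤ t → t ≤ m → s (a + t - 1) = if t % 2 = 1 then false else true := by
    intro t h1 h2
    have := h.bit (t - 1) (by omega)
    rw [show a + (t - 1) = a + t - 1 by omega, hs] at this
    rw [this]
    rcases Nat.mod_two_eq_zero_or_one t with h3 | h3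
    · rw [if_neg (by omega), if_neg (by omega)]; rfl
    · rw [if_pos (by omega), if_pos h3]
  -- forward edges
  have f0 : be k s (pc k (vr s a 1)) = pc k (vr s a 0) := be_start ha (by omega) hs hs'
  have fA : ∀ t, t % 2 = 0 → t + 1 < m + 2 → be k s (pc k (vr s a t)) = pc k (vr s a (t + 1)) := by
    intro t h1 h2
    rcases Nat.eq_zero_or_pos t with h3 | h3
    · subst h3
      rw [← f0, be_be]
    · have e := hbit t h3 (by omega)
      rw [if_neg (by omega)] at e
      rw [vr_eq_pv h h3 (by omega), vr_nv h3, be_pv (by omega) e]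
  have fB : ∀ t, t % 2 = 1 → t + 1 < m + 2 → rho k s (pc k (vr s a t)) =
      pc k (vr s a (t + 1)) := by
    intro t h1 h2
    have e := hbit t (by omega) (by omega)
    rw [if_pos h1] at e
    rw [vr_eq_pv h (by omega) (by omega), vr_nv (by omega), al_pv (by omega) e]
  refine ⟨by omega, fA, fun t h1 h2 => ?_, fB, fun t h1 h2 => ?_, ?_, ?_, ?_⟩
  · show be k s (pc k (vr s a (t + 1))) = pc k (vr s a t)
    rw [← fA t h1 h2, be_be]
  · show rho k s (pc k (vr s a (t + 1))) = pc k (vr s a t)
    rw [← fB t h1 h2, rho_rho]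
  · exact al_zero ha (by omega) hs'
  · intro h1
    have e := hbit m (by omega) le_rfl
    rw [if_pos (by omega)] at e
    have e2 : vr s a (m + 2 - 1) = nv s (a + m - 1) := vr_nv hp
    show be k s (pc k (vr s a (m + 2 - 1))) = pc k (vr s a (m + 2 - 1))
    rw [e2]
    exact be_end (by omega) e (fun h2 => by rw [fin_eq h h2, e])
  · intro h1
    have e := hbit m (by omega) le_rfl
    rw [if_neg (by omega)] at e
    have e2 : vr s a (m + 2 - 1) = nv s (a + m - 1) := vr_nv hp
    show rho k s (pc k (vr s a (m + 2 - 1))) = pc k (vr s a (m + 2 - 1))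
    rw [e2]
    exact al_end (by omega) e (fun h2 => by rw [fin_eq h h2, e])

/-- the path of a block with the first bit `true` -/
theorem path_true {a m : ℕ} (h : Blk k s a m) (ha : 0 < a) (hs : s a = true) :
    IsPath (rho k s) (be k s) (fun t => pc k (vr s a t)) (m + 2) := by
  have hs' : s (a - 1) = true := by rw [h.start ha, hs]
  have hle := h.le
  have hp := h.pos
  have hbit : ∀ t, 1 ≤ t → t ≤ m → s (a + t - 1) = if t % 2 = 1 then true else false := by
    intro t h1 h2
    have := h.bit (t - 1) (by omega)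
    rw [show a + (t - 1) = a + t - 1 by omega, hs] at this
    rw [this]
    rcases Nat.mod_two_eq_zero_or_one t with h3 | h3
    · rw [if_neg (by omega), if_neg (by omega)]; rfl
    · rw [if_pos (by omega), if_pos h3]
  have f0 : rho k s (pc k (vr s a 1)) = pc k (vr s a 0) := al_start ha (by omega) hs hs'
  have fA : ∀ t, t % 2 = 0 → t + 1 < m + 2 → rho k s (pc k (vr s a t)) =
      pc k (vr s a (t + 1)) := by
    intro t h1 h2
    rcases Nat.eq_zero_or_pos t with h3 | h3
    · subst h3
      rw [← f0, rho_rho]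
    · have e := hbit t h3 (by omega)
      rw [if_neg (by omega)] at e
      rw [vr_eq_pv h h3 (by omega), vr_nv h3, al_pv (by omega) e]
  have fB : ∀ t, t % 2 = 1 → t + 1 < m + 2 → be k s (pc k (vr s a t)) =
      pc k (vr s a (t + 1)) := by
    intro t h1 h2
    have e := hbit t (by omega) (by omega)
    rw [if_pos h1] at e
    rw [vr_eq_pv h (by omega) (by omega), vr_nv (by omega), be_pv (by omega) e]
  refine ⟨by omega, fA, fun t h1 h2 => ?_, fB, fun t h1 h2 => ?_, ?_, ?_, ?_⟩
  · show rho k s (pc k (vr s a (t + 1))) = pc k (vr s a t)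
    rw [← fA t h1 h2, rho_rho]
  · show be k s (pc k (vr s a (t + 1))) = pc k (vr s a t)
    rw [← fB t h1 h2, be_be]
  · exact be_zero ha (by omega) hs'
  · intro h1
    have e := hbit m (by omega) le_rfl
    rw [if_pos (by omega)] at e
    have e2 : vr s a (m + 2 - 1) = nv s (a + m - 1) := vr_nv hp
    show rho k s (pc k (vr s a (m + 2 - 1))) = pc k (vr s a (m + 2 - 1))
    rw [e2]
    exact al_end (by omega) e (fun h2 => by rw [fin_eq h h2, e])
  · intro h1
    have e := hbit m (by omega) le_rfl
    rw [if_neg (by omega)] at e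
    have e2 : vr s a (m + 2 - 1) = nv s (a + m - 1) := vr_nv hp
    show be k s (pc k (vr s a (m + 2 - 1))) = pc k (vr s a (m + 2 - 1))
    rw [e2]
    exact be_end (by omega) e (fun h2 => by rw [fin_eq h h2, e])

/-- the path of the first block -/
theorem path_first {m : ℕ} (h : Blk k s 0 m) (hs : s 0 = false) :
    IsPath (rho k s) (be k s) (fun t => pc k (v0 s t)) (m + 3) := by
  have hle := h.le
  have hp := h.pos
  have hbit : ∀ t, 2 ≤ t → t ≤ m + 1 → s (t - 2) = if t % 2 = 0 then false else true := by
    intro t h1 h2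
    have := h.bit (t - 2) (by omega)
    rw [Nat.zero_add, hs] at this
    rw [this]
    rcases Nat.mod_two_eq_zero_or_one t with h3 | h3
    · rw [if_pos (by omega), if_pos h3]
    · rw [if_neg (by omega), if_neg (by omega)]; rfl
  have hpv : ∀ t, 2 ≤ t → t ≤ m + 1 → v0 s t = pv s (t - 2) := by
    intro t h1 h2
    unfold v0
    rw [if_neg (by omega), if_neg (by omega)]
    split_ifs with h3
    · subst h3
      simp [pv, hs]
    · have e := h.bit_succ (i := t - 3) (by omega)
      rw [Nat.zero_add, show t - 3 + 1 = t - 2 by omega] at e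
      rw [← pv_succ (s := s) (j := t - 3) (by rw [show t - 3 + 1 = t - 2 by omega]; exact e)]
      congr 1
      omega
  have hnv : ∀ t, 2 ≤ t → v0 s (t + 1) = nv s (t - 2) := by
    intro t h1
    unfold v0
    rw [if_neg (by omega), if_neg (by omega), if_neg (by omega)]
    congr 1
  have fA : ∀ t, t % 2 = 0 → t + 1 < m + 3 → rho k s (pc k (v0 s t)) = pc k (v0 s (t + 1)) := by
    intro t h1 h2
    rcases Nat.eq_zero_or_pos t with h3 | h3
    · subst h3
      show rho k s (pc k 1) = pc k 0
      rw [al_pc (by omega), rhoN_one]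
    · have e := hbit t (by omega) (by omega)
      rw [if_pos h1] at e
      rw [hpv t (by omega) (by omega), hnv t (by omega), al_pv (by omega) e]
  have fB : ∀ t, t % 2 = 1 → t + 1 < m + 3 → be k s (pc k (v0 s t)) = pc k (v0 s (t + 1)) := by
    intro t h1 h2
    rcases eq_or_ne t 1 with h3 | h3
    · subst h3
      show be k s (pc k 0) = pc k 2
      rw [be_pc (by omega), thetaN_zero, thetaN_zero, rhoN_zero s (by omega)]
      rfl
    · have e := hbit t (by omega) (by omega)
      rw [if_neg (by omega)] at e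
      rw [hpv t (by omega) (by omega), hnv t (by omega), be_pv (by omega) e]
  refine ⟨by omega, fA, fun t h1 h2 => ?_, fB, fun t h1 h2 => ?_, ?_, ?_, ?_⟩
  · show rho k s (pc k (v0 s (t + 1))) = pc k (v0 s t)
    rw [← fA t h1 h2, rho_rho]
  · show be k s (pc k (v0 s (t + 1))) = pc k (v0 s t)
    rw [← fB t h1 h2, be_be]
  · show be k s (pc k 1) = pc k 1
    have e : rhoN k s 3 = 3 := by
      have := rhoN_c2 (k := k) s 0
      rw [show 3 * 0 + 3 = 3 by rfl, if_neg (by simp [hs])] at this
      exact this
    rw [be_pc (by omega), show thetaN (thetaN 1) = 3 by rfl, e]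
    rfl
  · intro h1
    have e := hbit (m + 1) (by omega) le_rfl
    rw [if_neg (by omega)] at e
    have e2 : v0 s (m + 3 - 1) = nv s (m - 1) := hnv (m + 1) (by omega)
    show rho k s (pc k (v0 s (m + 3 - 1))) = pc k (v0 s (m + 3 - 1))
    rw [e2]
    rw [show m + 1 - 2 = m - 1 by omega] at e
    refine al_end (by omega) e (fun h2 => ?_)
    have := fin_eq h (by omega)
    rw [Nat.zero_add] at this
    rw [this, e]
  · intro h1
    have e := hbit (m + 1) (by omega) le_rfl
    rw [if_pos (by omega)] at e
    have e2 : v0 s (m + 3 - 1) = nv s (m - 1) := hnv (m + 1) (by omega)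
    show be k s (pc k (v0 s (m + 3 - 1))) = pc k (v0 s (m + 3 - 1))
    rw [e2]
    rw [show m + 1 - 2 = m - 1 by omega] at e
    refine be_end (by omega) e (fun h2 => ?_)
    have := fin_eq h (by omega)
    rw [Nat.zero_add] at this
    rw [this, e]

/-! ## The small components -/

/-- `LR` -/
def gLR (k : ℕ) (s : ℕ → Bool) : Perm (Om k) := be k s * rho k s

theorem small_pair {j : ℕ} (hj : j + 1 < k) (hn : ¬ (j + 2 < k ∧ s (j + 1) = s j)) :
    (gLR k s * gLR k s) (pc k (3 * j + 3)) = pc k (3 * j + 3) ∧
      (gLR k s * gLR k s) (pc k (yv s j)) = pc k (yv s j) := by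
  unfold gLR
  simp only [Perm.mul_apply]
  cases hs : s j with
  | false =>
    simp only [yv, hs, Bool.false_eq_true, if_false]
    have a1 : rho k s (pc k (3 * j + 3)) = pc k (3 * j + 3) := by
      rw [al_pc (by omega), rhoN_c2, if_neg (by simp [hs])]
    have b1 : be k s (pc k (3 * j + 3)) = pc k (3 * (j + 1) + 2) := by
      rw [be_pc (by omega), thetaN_c2, thetaN_c0, rhoN_c1, if_pos ⟨hj, hs⟩, thetaN_c0]
    have a2 : rho k s (pc k (3 * (j + 1) + 2)) = pc k (3 * (j + 1) + 2) := by
      rw [al_pc (by omega), rhoN_c1, if_neg]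
      rintro ⟨h1, h2⟩
      exact hn ⟨by omega, by rw [h2, hs]⟩
    have b2 : be k s (pc k (3 * (j + 1) + 2)) = pc k (3 * j + 3) := by rw [← b1, be_be]
    constructor
    · rw [a1, b1, a2, b2]
    · rw [a2, b2, a1, b1]
  | true =>
    simp only [yv, hs, if_true]
    have a1 : rho k s (pc k (3 * j + 3)) = pc k (3 * (j + 1) + 1) := by
      rw [al_pc (by omega), rhoN_c2, if_pos ⟨hj, hs⟩]
    have b1 : be k s (pc k (3 * j + 3)) = pc k (3 * j + 3) := by
      rw [be_pc (by omega), thetaN_c2, thetaN_c0, rhoN_c1, if_neg (by simp [hs]), thetaN_c1]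
    have a2 : rho k s (pc k (3 * (j + 1) + 1)) = pc k (3 * j + 3) := by rw [← a1, rho_rho]
    have b2 : be k s (pc k (3 * (j + 1) + 1)) = pc k (3 * (j + 1) + 1) := by
      rw [be_pc (by omega), thetaN_c0, thetaN_c1, rhoN_c2, if_neg, thetaN_c2]
      rintro ⟨h1, h2⟩
      exact hn ⟨by omega, by rw [h2, hs]⟩
    constructor
    · rw [a1, b2, a2, b1]
    · rw [a2, b1, a1, b2]

theorem small_last {j : ℕ} (hj : j + 1 = k) :
    (gLR k s * gLR k s) (pc k (3 * j + 3)) = pc k (3 * j + 3) := by
  unfold gLR
  simp only [Perm.mul_apply]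
  have a1 : rho k s (pc k (3 * j + 3)) = pc k (3 * j + 3) := by
    rw [al_pc (by omega), rhoN_c2, if_neg (by omega)]
  have b1 : be k s (pc k (3 * j + 3)) = pc k (3 * j + 3) := by
    rw [be_pc (by omega), thetaN_c2, thetaN_c0, rhoN_c1, if_neg (by omega), thetaN_c1]
  rw [a1, b1, a1, b1]

theorem pow_even_fix {M : ℕ} (hM : Even M) {x : Om k} (h : (gLR k s * gLR k s) x = x) :
    ((gLR k s) ^ M) x = x := by
  obtain ⟨c, rfl⟩ := hM
  have h0 : gLR k s * gLR k s ∈ MulAction.stabilizer (Perm (Om k)) x := h
  have h1 := pow_mem h0 c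
  rw [← pow_two, ← pow_mul, show 2 * c = c + c by ring] at h1
  exact h1

/-- the power of `LR` on the path of a block -/
theorem fix_vr {a m M : ℕ} (h : Blk k s a m) (ha : 0 < a) (hM : M % (m + 2) = 0) {t : ℕ}
    (ht : t < m + 2) : ((gLR k s) ^ M) (pc k (vr s a t)) = pc k (vr s a t) := by
  cases hs : s a with
  | true => exact (path_true h ha hs).fix hM ht
  | false =>
    have e := (path_false h ha hs).fix hM ht
    have hinv : gLR k s = (rho k s * be k s)⁻¹ := by
      unfold gLR
      rw [mul_inv_rev, rho_inv]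
      congr 1
    rw [hinv, inv_pow, Perm.inv_eq_iff_eq]
    exact e.symm

theorem fix_v0 {m M : ℕ} (h : Blk k s 0 m) (hs : s 0 = false) (hM : M % (m + 3) = 0) {t : ℕ}
    (ht : t < m + 3) : ((gLR k s) ^ M) (pc k (v0 s t)) = pc k (v0 s t) :=
  (path_first h hs).fix hM ht

/-! ## The support -/

/-- the codes in the paths whose length does not divide `M` -/
def bad (s : ℕ → Bool) (M : ℕ) : ℕ → List ℕ → Finset ℕ
  | _, [] => ∅
  | a, m :: Y => (if M % (m + 2) = 0 then ∅ else (Finset.range (m + 2)).image (vr s a)) ∪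
      bad s M (a + m) Y

theorem bad_card (M a : ℕ) (Y : List ℕ) :
    (bad s M a Y).card ≤ (Y.map fun m => if M % (m + 2) = 0 then 0 else m + 2).sum := by
  induction Y generalizing a with
  | nil => simp [bad]
  | cons m Y ih =>
    simp only [bad, List.map_cons, List.sum_cons]
    refine (Finset.card_union_le _ _).trans (add_le_add ?_ (ih _))
    split_ifs with h
    · simp
    · exact Finset.card_image_le.trans (by simp)

theorem mem_bad {M a : ℕ} (X : List ℕ) {m : ℕ} {Y : List ℕ} (hM : M % (m + 2) ≠ 0) {t : ℕ}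
    (ht : t < m + 2) : vr s (a + X.sum) t ∈ bad s M a (X ++ m :: Y) := by
  induction X generalizing a with
  | nil =>
    simp only [List.nil_append, bad, List.sum_nil, add_zero]
    apply Finset.mem_union_left
    rw [if_neg hM]
    exact Finset.mem_image_of_mem _ (Finset.mem_range.2 ht)
  | cons x X ih =>
    simp only [List.cons_append, bad]
    apply Finset.mem_union_right
    have := ih (a := a + x)
    rwa [show a + x + X.sum = a + (x :: X).sum by simp [add_assoc]] at this

/-- all codes in the paths whose length does not divide `M` -/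
def badAll (s : ℕ → Bool) (M l : ℕ) (ls : List ℕ) : Finset ℕ :=
  (if M % (l + 3) = 0 then ∅ else (Finset.range (l + 3)).image (v0 s)) ∪ bad s M l ls

theorem badAll_card (M l : ℕ) (ls : List ℕ) : (badAll s M l ls).card ≤ SM M l ls := by
  unfold badAll SM
  refine (Finset.card_union_le _ _).trans (add_le_add ?_ (bad_card _ _ _))
  split_ifs with h
  · simp
  · exact Finset.card_image_le.trans (by simp)

section
variable {l : ℕ} {ls : List ℕ}

theorem runs_s0 (h : Runs k s (l :: ls)) : s 0 = false := by
  have := runs_bit (L0 := []) (m := l) (Y := ls) h rfl (i := 0) (h.1 l (by simp))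
  simpa [stp] using this

/-- the code `nv j` is good or bad -/
theorem nv_cases (h : Runs k s (l :: ls)) {M j : ℕ} (hj : j + 1 < k) :
    nv s j ∈ badAll s M l ls ∨ ((gLR k s) ^ M) (pc k (nv s j)) = pc k (nv s j) := by
  have hk := h.2.1
  obtain ⟨L0, m, Y, h1, h2, h3⟩ := exists_block (l :: ls) (j := j) (by omega)
  have hb := blk_of_runs h h1
  cases L0 with
  | nil =>
    simp only [List.nil_append, List.cons.injEq] at h1
    obtain ⟨rfl, rfl⟩ := h1
    simp only [List.sum_nil, zero_add] at h3 hb
    have e : v0 s (j + 3) = nv s j := by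
      unfold v0; rw [if_neg (by omega), if_neg (by omega), if_neg (by omega)]; congr 1
    by_cases hM : M % (l + 3) = 0
    · right
      rw [← e]
      exact fix_v0 hb (runs_s0 h) hM (by omega)
    · left
      unfold badAll
      apply Finset.mem_union_left
      rw [if_neg hM, ← e]
      exact Finset.mem_image_of_mem _ (Finset.mem_range.2 (by omega))
  | cons x L0 =>
    simp only [List.cons_append, List.cons.injEq] at h1
    obtain ⟨rfl, rfl⟩ := h1
    have hl := h.1 l (by simp)
    have hpos : 0 < (l :: L0).sum := by simp; omega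
    have e : vr s (l :: L0).sum (j - (l :: L0).sum + 2) = nv s j := by
      unfold vr; rw [if_neg (by omega), if_neg (by omega)]; congr 1; omega
    by_cases hM : M % (m + 2) = 0
    · right
      rw [← e]
      exact fix_vr hb hpos hM (by omega)
    · left
      unfold badAll
      apply Finset.mem_union_right
      rw [← e]
      have := mem_bad (s := s) (M := M) (a := l) L0 (Y := Y) hM
        (t := j - (l :: L0).sum + 2) (by omega)
      simpa using this

/-- the start of a block: the codes `3 (j + 1)` and `pv (j + 1)` -/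
theorem start_cases (h : Runs k s (l :: ls)) {M j : ℕ} (hj : j + 2 < k) (hs : s (j + 1) = s j)
    {t : ℕ} (ht : t < 2) : vr s (j + 1) t ∈ badAll s M l ls ∨
      ((gLR k s) ^ M) (pc k (vr s (j + 1) t)) = pc k (vr s (j + 1) t) := by
  have hk := h.2.1
  obtain ⟨L0, m, Y, h1, h2, h3⟩ := exists_block (l :: ls) (j := j + 1) (by omega)
  have hb := blk_of_runs h h1
  have hL0 : L0.sum = j + 1 := by
    by_contra hne
    have := hb.bit_succ (i := j - L0.sum) (by omega)
    rw [show L0.sum + (j - L0.sum) = j by omega, hs] at this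
    cases s j <;> simp at this
  cases L0 with
  | nil => simp at hL0
  | cons x L0 =>
    simp only [List.cons_append, List.cons.injEq] at h1
    obtain ⟨rfl, rfl⟩ := h1
    rw [hL0] at hb
    by_cases hM : M % (m + 2) = 0
    · right
      exact fix_vr hb (by omega) hM (by omega)
    · left
      unfold badAll
      apply Finset.mem_union_right
      have := mem_bad (s := s) (M := M) (a := l) L0 (Y := Y) hM (t := t) (by omega)
      rw [← hL0]
      simpa using this

theorem code_good (h : Runs k s (l :: ls)) {M : ℕ} (hM : Even M) {x : ℕ} (hx : x < 3 * k + 1) :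
    x ∈ badAll s M l ls ∨ ((gLR k s) ^ M) (pc k x) = pc k x := by
  have hl := h.1 l (by simp)
  have hk : l + ls.sum + 1 = k := by have := h.2.1; simpa using this
  -- the beginning
  have first : ∀ t < 3, v0 s t ∈ badAll s M l ls ∨
      ((gLR k s) ^ M) (pc k (v0 s t)) = pc k (v0 s t) := by
    intro t ht
    have hb : Blk k s 0 l := blk_of_runs (L0 := []) (Y := ls) h rfl
    by_cases hM : M % (l + 3) = 0
    · exact Or.inr (fix_v0 hb (runs_s0 h) hM (by omega))
    · left
      unfold badAll
      apply Finset.mem_union_left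
      rw [if_neg hM]
      exact Finset.mem_image_of_mem _ (Finset.mem_range.2 (by omega))
  -- the corners 2
  have corner2 : ∀ j, j < k → 3 * j + 3 ∈ badAll s M l ls ∨
      ((gLR k s) ^ M) (pc k (3 * j + 3)) = pc k (3 * j + 3) := by
    intro j hj
    by_cases h1 : j + 1 < k
    · by_cases h2 : j + 2 < k ∧ s (j + 1) = s j
      · have := start_cases h (M := M) h2.1 h2.2 (t := 0) (by norm_num)
        have e : vr s (j + 1) 0 = 3 * j + 3 := by unfold vr; rw [if_pos rfl]; ring
        rwa [e] at this
      · exact Or.inr (pow_even_fix hM (small_pair h1 h2).1)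
    · exact Or.inr (pow_even_fix hM (small_last (by omega)))
  have corner1 : ∀ j, j + 1 < k → yv s j ∈ badAll s M l ls ∨
      ((gLR k s) ^ M) (pc k (yv s j)) = pc k (yv s j) := by
    intro j hj
    by_cases h2 : j + 2 < k ∧ s (j + 1) = s j
    · have := start_cases h (M := M) h2.1 h2.2 (t := 1) (by norm_num)
      have e : vr s (j + 1) 1 = yv s j := by
        unfold vr
        rw [if_neg (by norm_num), if_pos rfl]
        unfold pv yv
        rw [h2.2]
      rwa [e] at this
    · exact Or.inr (pow_even_fix hM (small_pair hj h2).2)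
  rcases code_cases x with h0 | ⟨j, h0 | h0 | h0⟩
  · subst h0; exact first 1 (by norm_num)
  · cases j with
    | zero => subst h0; exact first 0 (by norm_num)
    | succ j =>
      cases hs : s j with
      | false =>
        have := nv_cases h (M := M) (j := j) (by omega)
        have e : nv s j = x := by simp only [nv, hs]; simp; omega
        rwa [e] at this
      | true =>
        have := corner1 j (by omega)
        have e : yv s j = x := by simp only [yv, hs]; simp; omega
        rwa [e] at this
  · cases j with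
    | zero => subst h0; exact first 2 (by norm_num)
    | succ j =>
      cases hs : s j with
      | true =>
        have := nv_cases h (M := M) (j := j) (by omega)
        have e : nv s j = x := by simp only [nv, hs]; simp; omega
        rwa [e] at this
      | false =>
        have := corner1 j (by omega)
        have e : yv s j = x := by simp only [yv, hs]; simp; omega
        rwa [e] at this
  · subst h0
    exact corner2 j (by omega)

theorem lr_supp (h : Runs k s (l :: ls)) {M : ℕ}
    (hM : Even M) : ((rl k s [false, true]) ^ M).support.card ≤ SM M l ls := by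
  classical
  rw [LR_eq]
  refine le_trans ?_ (badAll_card (s := s) M l ls)
  have hsub : (((be k s * rho k s) ^ M).support.image Fin.val) ⊆ badAll s M l ls := by
    intro y hy
    rw [Finset.mem_image] at hy
    obtain ⟨x, hx, rfl⟩ := hy
    rw [Perm.mem_support] at hx
    rcases code_good h hM x.2 with h1 | h1
    · exact h1
    · exfalso
      apply hx
      have e : pc k x.val = x := by unfold pc; rw [dif_pos x.2]
      rw [e] at h1
      exact h1
  calc ((be k s * rho k s) ^ M).support.card
      = (((be k s * rho k s) ^ M).support.image Fin.val).card :=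
        (Finset.card_image_of_injective _ Fin.val_injective).symm
    _ ≤ _ := Finset.card_le_card hsub

theorem lr_ne (h : Runs k s (l :: ls)) {M : ℕ}
    (hM : Even M) (hne : M % (l + 3) ≠ 0 ∨ ∃ m ∈ ls, M % (m + 2) ≠ 0) :
    (rl k s [false, true]) ^ M ≠ 1 := by
  have hk : l + ls.sum + 1 = k := by have := h.2.1; simpa using this
  have hpc : ∀ x y, x < 3 * k + 1 → y < 3 * k + 1 → pc k x = pc k y → x = y := by
    intro x y hx hy hxy
    rw [← pc_val hx, ← pc_val hy, hxy]
  rw [LR_eq]
  intro h1
  rcases hne with hne | ⟨m, hm, hne⟩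
  · have hb : Blk k s 0 l := blk_of_runs (L0 := []) (Y := ls) h rfl
    have hp := path_first hb (runs_s0 h)
    refine hp.move ?_ hne (by rw [h1]; rfl)
    intro t ht he
    have hle := hb.le
    have hlt : v0 s t < 3 * k + 1 := by
      unfold v0; split_ifs
      · omega
      · omega
      · omega
      · unfold nv; split_ifs <;> omega
    have := hpc (v0 s t) (v0 s 0) hlt (by simp [v0]; omega) he
    by_contra h0
    unfold v0 at this
    rw [if_neg h0, if_pos rfl] at this
    split_ifs at this
    all_goals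
      first
      | omega
      | (unfold nv at this; split_ifs at this <;> omega)
  · obtain ⟨X, Y, rfl⟩ := List.append_of_mem hm
    have hb := blk_of_runs (L0 := l :: X) (m := m) (Y := Y) h (by simp)
    have hl := h.1 l (by simp)
    have hpos : 0 < (l :: X).sum := by simp; omega
    set a := (l :: X).sum with ha
    have hle := hb.le
    have hinj : ∀ t < m + 2, pc k (vr s a t) = pc k (vr s a 0) → t = 0 := by
      intro t ht he
      have hlt : vr s a t < 3 * k + 1 := by
        unfold vr; split_ifs
        · omega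
        · unfold pv; split_ifs <;> omega
        · unfold nv; split_ifs <;> omega
      have := hpc (vr s a t) (vr s a 0) hlt (by simp [vr]; omega) he
      by_contra h0
      unfold vr at this
      rw [if_neg h0, if_pos rfl] at this
      split_ifs at this
      · unfold pv at this
        split_ifs at this <;> omega
      · unfold nv at this
        split_ifs at this <;> omega
    cases hs : s a with
    | true => exact (path_true hb hpos hs).move hinj hne (by rw [h1]; rfl)
    | false =>
      refine (path_false hb hpos hs).move hinj hne ?_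
      have hinv : rho k s * be k s = (be k s * rho k s)⁻¹ := by
        rw [mul_inv_rev, rho_inv]
        congr 1
      rw [hinv, inv_pow, h1, inv_one]
      rfl

end

end

end TT
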