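import Pool.Agent.Lib.MP_db1bc6_al.Even

/-! # Long first runs of odd length -/

namespace TT

open Equiv

section
variable {k : ℕ} {s : ℕ → Bool} {r : ℕ}

/-- the special word: `e(5) ~ p(1)`, `e(3) ~ p(2)`, `e(1) ~ p(3)` -/
theorem FR.sp (h : FR k s r) (hr : 7 ≤ r) :
    Eqv k s (-(2 * 2)) (-(2 * 4)) (-(2 * 5)) 1 ∧ Eqv k s (-(2 * 2)) (-(2 * 4)) (-(2 * 3)) 2 ∧
      Eqv k s (-(2 * 2)) (-(2 * 4)) (-(2 * 1)) 3 := by
  have hp := h.pre hr
  refine ⟨⟨wd k s [-1, -8, 2, 6, 1], wd_mem k s _, ?_, ?_, ?_, ?_⟩,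
    ⟨wd k s [-1, -8, 2, 6, 1], wd_mem k s _, ?_, ?_, ?_, ?_⟩,
    ⟨wd k s [-1, -8, 2, 6, 1], wd_mem k s _, ?_, ?_, ?_, ?_⟩⟩
  all_goals exact evW_sound hp (by decide +kernel)

end

section
variable {k : ℕ} {s : ℕ → Bool} {q : ℕ}

/-- the labels of the cycle of `r + 1` for `r = 2 q + 1` -/
def SO (q : ℕ) (x : ℤ) : Prop :=
  x = 2 * q + 2 ∨ (∃ t : ℤ, 0 ≤ t ∧ t ≤ q ∧ x = -(2 * (2 * t + 1) - 1)) ∨
    (∃ t : ℤ, 1 ≤ t ∧ t ≤ q ∧ x = -(2 * (2 * t))) ∨
    (∃ t : ℤ, 1 ≤ t ∧ t ≤ q ∧ x = 2 * t)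

theorem SO_closed (h : FR k s (2 * q + 1)) (hq : 3 ≤ q) (x : ℤ) (hx : SO q x) :
    ∃ y, SO q y ∧ Tp k s (pt k s x) = pt k s y := by
  have hq' : (3 : ℤ) ≤ q := by exact_mod_cast hq
  rcases hx with rfl | ⟨t, h1, h2, rfl⟩ | ⟨t, h1, h2, rfl⟩ | ⟨t, h1, h2, rfl⟩
  · have e := h.T_p (j := 2 * q + 2) (by omega) (by push_cast; omega)
    exact ⟨_, Or.inr (Or.inr (Or.inl ⟨q, by omega, by omega, by ring⟩)), e⟩
  · rcases eq_or_lt_of_le h2 with h3 | h3
    · subst h3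
      have e := h.T_or (by omega)
      push_cast at e
      exact ⟨_, Or.inl rfl, by rw [e]; congr 1⟩
    · have e := h.T_o (j := 2 * t + 1) (by omega) (by push_cast; omega)
      exact ⟨_, Or.inr (Or.inl ⟨t + 1, by omega, by omega, by ring⟩), e⟩
  · have e := h.T_e (j := 2 * t) (by omega) (by push_cast; omega)
    exact ⟨_, Or.inr (Or.inr (Or.inr ⟨t, by omega, by omega, rfl⟩)), e⟩
  · rcases eq_or_lt_of_le h1 with h3 | h3
    · subst h3
      exact ⟨-1, Or.inr (Or.inl ⟨0, by omega, by omega, by ring⟩), by simpa using h.T_p2⟩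
    · have e := h.T_p (j := 2 * t) (by omega) (by push_cast; omega)
      exact ⟨_, Or.inr (Or.inr (Or.inl ⟨t - 1, by omega, by omega, by ring⟩)), e⟩

/-- the main arc for `r = 2 q + 1` -/
def dO (q i : ℕ) : ℤ :=
  if i = 0 then 2 * q + 5 else if i < 2 * q + 2 then
    (if i % 2 = 1 then 2 * q + 2 - i else -(2 * (2 * q + 1 - i)))
  else -(2 * (2 * (i - 2 * q - 1)) - 1)

theorem dO_step (h : FR k s (2 * q + 1)) (hq : 3 ≤ q) (i : ℕ) (hi : i + 1 < 3 * q + 2) :
    Tp k s (pt k s (dO q i)) = pt k s (dO q (i + 1)) := by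
  have hq' : (3 : ℤ) ≤ q := by exact_mod_cast hq
  unfold dO
  by_cases h0 : i = 0
  · subst h0
    rw [if_pos rfl, if_neg (by omega), if_pos (by omega), if_pos (by omega)]
    have e := h.T_top
    push_cast at e ⊢
    rw [show (2 * (q : ℤ) + 5) = 2 * q + 1 + 4 by ring, e]
    congr 1
    ring
  rw [if_neg h0, if_neg (show i + 1 ≠ 0 by omega)]
  by_cases h1 : i < 2 * q + 2
  · rw [if_pos h1]
    by_cases h2 : i % 2 = 1
    · rw [if_pos h2]
      by_cases h3 : i + 1 < 2 * q + 2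
      · rw [if_pos h3, if_neg (by omega), h.T_p (by omega) (by push_cast; omega)]
        congr 1
        push_cast
        ring
      · rw [if_neg h3, show (2 * (q : ℤ) + 2 - i) = 1 by omega, h.T_p1 (by omega)]
        congr 1
        push_cast
        omega
    · rw [if_neg h2, if_pos (by omega), if_pos (by omega), h.T_e (by omega) (by push_cast; omega)]
      congr 1
      push_cast
      ring
  · rw [if_neg h1, if_neg (by omega), h.T_o (by omega) (by push_cast; omega)]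
    congr 1
    push_cast
    ring

theorem tr4_odd' (h : FR k s (2 * q + 1)) (hq : 3 ≤ q) : Tr4 (Gs k s) := by
  have hq' : (3 : ℤ) ≤ q := by exact_mod_cast hq
  have hr7 : 7 ≤ 2 * q + 1 := by omega
  have A2 : (1 : ℤ) ≤ 2 := by norm_num
  have A4 : (2 : ℤ) ≤ 4 := by norm_num
  have B4 : (4 : ℤ) + 3 ≤ (2 * q + 1 : ℕ) := by push_cast; omega
  -- the cycle
  have c1 : ((Tp k s) ^ 2) (pt k s (-(2 * 4))) = pt k s (-(2 * 2)) := by
    have := h.T_pow_e (j := 2) (by norm_num) 1 (by push_cast; omega)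
    simpa using this
  have c2 : ((Tp k s) ^ (1 + 1 + q + 1 + 1 + 2 * (q - 2))) (pt k s (-(2 * 2))) =
      pt k s (-(2 * 4)) := by
    refine T_pow_add (y := -(2 * (2 * q))) (T_pow_add (y := 2 * q + 2) (T_pow_add
      (y := -(2 * (2 * q + 1) - 1)) (T_pow_add (y := -(2 * 1 - 1)) (T_pow_add (y := 2) ?_ ?_) ?_)
        ?_) ?_) ?_
    · rw [pow_one]; exact h.T_e (j := 2) (by norm_num) (by push_cast; omega)
    · rw [pow_one]; simpa using h.T_p2
    · rw [h.T_pow_o (j := 1) (by norm_num) q (by push_cast; omega)]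
      congr 1
      ring
    · rw [pow_one]
      have := h.T_or (by omega)
      push_cast at this
      rw [this]
      congr 1
    · rw [pow_one, h.T_p (by omega) (by push_cast; omega)]
      congr 1
      ring
    · have := h.T_pow_e (j := 4) (by norm_num) (q - 2) (by push_cast; omega)
      rw [show (4 : ℤ) + 2 * ((q - 2 : ℕ) : ℤ) = 2 * q by omega] at this
      exact this
  have hm : 1 + 1 + q + 1 + 1 + 2 * (q - 2) + 2 = 3 * q + 2 := by omega
  have ha : ((Tp k s) ^ (3 * q + 2)) (pt k s (-(2 * 2))) = pt k s (-(2 * 2)) := by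
    rw [← hm]; exact T_pow_add c2 c1
  have hb : ((Tp k s) ^ (3 * q + 2)) (pt k s (-(2 * 4))) = pt k s (-(2 * 4)) := by
    rw [← hm, add_comm]; exact T_pow_add c1 c2
  -- not in the cycle
  have hd0 : pt k s (dO q 0) ≠ pt k s 0 := by
    have : dO q 0 = 2 * q + 5 := by simp [dO]
    rw [this]
    exact h.pt_ne (by omega) (by push_cast; omega) (by push_cast; omega)
  have hSO0 : SO q ((2 * q + 1 : ℕ) + 1) := Or.inl (by push_cast; ring)
  have hdC : ¬ (Tp k s).SameCycle (pt k s ((2 * q + 1 : ℕ) + 1)) (pt k s (dO q 0)) := by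
    intro hcyc
    have e : dO q 0 = 2 * q + 5 := by simp [dO]
    rw [e] at hcyc
    obtain ⟨y, hy, hy2⟩ := cyc_mem (SO_closed h hq) hSO0 hcyc
    revert hy2
    rcases hy with rfl | ⟨t, h1, h2, rfl⟩ | ⟨t, h1, h2, rfl⟩ | ⟨t, h1, h2, rfl⟩
    all_goals exact h.pt_ne (by omega) (by push_cast; omega) (by push_cast; omega)
  have eE : ∀ j : ℤ, 6 ≤ j → j ≤ 2 * q + 1 → Eqv k s (-(2 * 2)) (-(2 * 4)) 1 (-(2 * j)) :=
    fun j h1 h2 => h.eqv_e A2 A4 B4 (by omega) (by push_cast; omega)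
  have eP : ∀ j : ℤ, 1 ≤ j → j ≤ 2 * q + 5 → Eqv k s (-(2 * 2)) (-(2 * 4)) 1 j := by
    intro j h1 h2
    obtain ⟨x, rfl⟩ := Int.eq_ofNat_of_zero_le (show 0 ≤ j by omega)
    exact h.eqv_p A2 A4 B4 x (by omega) (by omega)
  have eO : ∀ j : ℤ, 1 ≤ j → j ≤ 2 * q + 1 → Eqv k s (-(2 * 2)) (-(2 * 4)) 1 (-(2 * j - 1)) :=
    fun j h1 h2 => h.eqv_o A2 A4 B4 h1 (by push_cast; omega)
  obtain ⟨sp5, sp3, sp1⟩ := h.sp hr7
  have eE' : ∀ j : ℤ, 0 ≤ j → j ≤ q → Eqv k s (-(2 * 2)) (-(2 * 4)) 1 (-(2 * (2 * j + 1))) := by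
    intro j h1 h2
    rcases lt_or_ge j 3 with h3 | h3
    · have : j = 0 ∨ j = 1 ∨ j = 2 := by omega
      rcases this with rfl | rfl | rfl
      · exact (eP 3 (by norm_num) (by omega)).trans sp1.symm
      · exact (eP 2 (by norm_num) (by omega)).trans sp3.symm
      · exact sp5.symm
    · exact eE _ (by omega) (by omega)
  have eD : ∀ i, i < 3 * q + 2 → Eqv k s (-(2 * 2)) (-(2 * 4)) 1 (dO q i) := by
    intro i hi
    unfold dO
    split_ifs with h0 h1 h2
    · have e := h.eqv_top (A := 2) (B := 4) A2 A4 (by push_cast; omega)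
      push_cast at e
      rw [show (2 * (q : ℤ) + 5) = 2 * q + 1 + 4 by ring]
      exact (eE (2 * q + 1) (by omega) le_rfl).trans e.symm
    · exact eP _ (by omega) (by omega)
    · obtain ⟨j, hj⟩ : ∃ j : ℤ, (2 * (q : ℤ) + 1 - i) = 2 * j + 1 := ⟨q - (i / 2 : ℕ), by omega⟩
      rw [hj]
      exact eE' j (by omega) (by omega)
    · exact eO _ (by omega) (by omega)
  refine tr4_engine (Gs k s) (Tp k s) (wd_mem k s _) (pt k s 0) (pt k s (-(2 * 2)))
    (pt k s (-(2 * 4))) (pt k s 1) ?_ ?_ ?_ (3 * q + 2) (by omega) (fun i => pt k s (dO q i))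
    {x | ∃ y, SO q y ∧ y ≠ -(2 * 2) ∧ y ≠ -(2 * 4) ∧ pt k s y = x} (h.T_zero (by omega)) ha hb
    (fun i hi => dO_step h hq i hi) ?_ ?_ ?_ ?_ ?_
  · exact h.pt_ne (by norm_num) (by push_cast; omega) (by push_cast; omega)
  · exact h.pt_ne (by norm_num) (by push_cast; omega) (by push_cast; omega)
  · exact h.pt_ne (by norm_num) (by push_cast; omega) (by push_cast; omega)
  · intro x
    by_cases e0 : x = pt k s 0
    · exact Or.inl e0
    by_cases eC : (Tp k s).SameCycle (pt k s ((2 * q + 1 : ℕ) + 1)) x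
    · obtain ⟨y, hy, rfl⟩ := cyc_mem (SO_closed h hq) hSO0 eC
      by_cases ya : y = -(2 * 2)
      · exact Or.inr (Or.inl (by rw [ya]))
      by_cases yb : y = -(2 * 4)
      · exact Or.inr (Or.inr (Or.inl (by rw [yb])))
      · exact Or.inr (Or.inr (Or.inr (Or.inl ⟨y, hy, ya, yb, rfl⟩)))
    · refine Or.inr (Or.inr (Or.inr (Or.inr ?_)))
      rw [pt_zero] at e0 hd0
      exact trich (by omega) h.rk h.s0 h.s1 hd0 e0 hdC eC
  · rintro x (⟨y, hy, ya, yb, rfl⟩ | ⟨i, hi, rfl⟩)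
    · rcases hy with rfl | ⟨t, h1, h2, rfl⟩ | ⟨t, h1, h2, rfl⟩ | ⟨t, h1, h2, rfl⟩
      · exact eP _ (by omega) (by omega)
      · exact eO _ (by omega) (by omega)
      · exact eE _ (by omega) (by omega)
      · exact eP _ (by omega) (by omega)
    · exact eD i hi
  · refine ⟨tau k s (2 * q - 2), wd_mem k s _, ?_, h.tau_e (by omega) (by push_cast; omega), ?_⟩
    · have := h.tau_e (i := 2 * q - 2) (j := 0) (by omega) (by push_cast; omega)
      simpa using this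
    · have e := h.rx'
      have e2 := tau_pt (k := k) (s := s) (i := 2 * q - 2) (x := -(2 * 4))
        (y := (2 * q + 1 : ℕ) + 2)
        (by
          rw [show (-(2 * 4) - 2 * (2 * (q : ℤ) - 2)) = -(2 * ((2 * q + 1 : ℕ) : ℤ) + 2) by
            push_cast; ring]
          exact e)
      rw [e2]
      exact h.pt_ne (by push_cast; omega) (by push_cast; omega) (by push_cast; omega)
  · refine ⟨Tp k s, wd_mem k s _, h.T_zero (by omega), ?_⟩
    rw [h.T_e (j := 2) (by norm_num) (by push_cast; omega)]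
    exact h.pt_ne (by norm_num) (by push_cast; omega) (by push_cast; omega)
  · intro x
    obtain ⟨m, hm⟩ := pt_surj k s x
    refine ⟨R k s ^ m, zpow_mem (R_mem k s) m, ?_⟩
    rw [R_zpow_pt, zero_add, hm]

end

theorem tr4_odd {k : ℕ} {s : ℕ → Bool} {r : ℕ} (hr : 7 ≤ r) (ho : Odd r) (hrk : r + 2 ≤ k)
    (h0 : ∀ i < r, s i = false) (h1 : s r = true) : Tr4 (Gs k s) := by
  obtain ⟨q, rfl⟩ := ho
  exact tr4_odd' ⟨hrk, h0, h1⟩ (by omega)

end TT
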