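import Pool.Agent.Lib.MP_db1bc6_al.Base

set_option autoImplicit false

namespace TT

open Equiv

/-! ### primitivity -/

/-- the dead corner of a triangle is fixed by `ρ` -/
theorem prim_dead {k : ℕ} (s : ℕ → Bool) (j : ℕ) :
    rhoN k s (3 * j + 2) = 3 * j + 2 ∨ rhoN k s (3 * j + 3) = 3 * j + 3 := by
  rw [rhoN_c1, rhoN_c2]
  cases hs : s j
  · right; simp
  · left; simp

/-- a set containing the root which is closed under `ρ` and `θ` is everything -/
theorem prim_closed {k : ℕ} {s : ℕ → Bool} (hk : 1 ≤ k) (B : Set (Om k)) (h0 : (0 : Om k) ∈ B)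
    (hr : ∀ x ∈ B, rho k s x ∈ B) (ht : ∀ x ∈ B, theta k x ∈ B) : ∀ x, x ∈ B := by
  have hstep : ∀ j (hj : 3 * j + 3 < 3 * k + 1), (⟨3 * j + 1, by omega⟩ : Om k) ∈ B →
      (⟨3 * j + 2, by omega⟩ : Om k) ∈ B ∧ (⟨3 * j + 3, by omega⟩ : Om k) ∈ B := by
    intro j hj h1
    have h2 : (⟨3 * j + 2, by omega⟩ : Om k) ∈ B := by
      have := ht _ h1
      convert this using 1
      apply Fin.ext
      simp
    have h3 : (⟨3 * j + 3, by omega⟩ : Om k) ∈ B := by
      have := ht _ h2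
      convert this using 1
      apply Fin.ext
      simp
    exact ⟨h2, h3⟩
  have hall : ∀ j (hj : 3 * j + 3 < 3 * k + 1), (⟨3 * j + 1, by omega⟩ : Om k) ∈ B := by
    intro j
    induction j with
    | zero =>
      intro hj
      have := hr _ h0
      convert this using 1
      apply Fin.ext
      simp [rhoN_zero s hk]
    | succ j ih =>
      intro hj
      have h1 := ih (by omega)
      have h2 := hstep j (by omega) h1
      cases hs : s j
      · have := hr _ h2.1
        convert this using 1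
        apply Fin.ext
        simp only [rho_val]
        rw [rhoN_c1, if_pos ⟨by omega, hs⟩]
      · have := hr _ h2.2
        convert this using 1
        apply Fin.ext
        simp only [rho_val]
        rw [rhoN_c2, if_pos ⟨by omega, hs⟩]
  intro x
  have hx := x.2
  rcases code_cases x.val with h | ⟨j, h | h | h⟩
  · have : x = 0 := Fin.ext h
    rw [this]; exact h0
  · have h1 := hall j (by omega)
    have : x = ⟨3 * j + 1, by omega⟩ := Fin.ext h
    rw [this]; exact h1
  · have h1 := (hstep j (by omega) (hall j (by omega))).1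
    have : x = ⟨3 * j + 2, by omega⟩ := Fin.ext h
    rw [this]; exact h1
  · have h1 := (hstep j (by omega) (hall j (by omega))).2
    have : x = ⟨3 * j + 3, by omega⟩ := Fin.ext h
    rw [this]; exact h1

theorem gs_pretransitive (k : ℕ) (s : ℕ → Bool) (hk : 1 ≤ k) :
    MulAction.IsPretransitive (Gs k s) (Om k) := by
  have horb : ∀ x : Om k, ∃ g : Gs k s, g • (0 : Om k) = x := by
    apply prim_closed (k := k) (s := s) hk {x | ∃ g : Gs k s, g • (0 : Om k) = x}
    · exact ⟨1, one_smul _ _⟩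
    · rintro x ⟨g, rfl⟩
      exact ⟨⟨rho k s, rho_mem k s⟩ * g, rfl⟩
    · rintro x ⟨g, rfl⟩
      exact ⟨⟨theta k, theta_mem k s⟩ * g, rfl⟩
  constructor
  intro x y
  obtain ⟨g, hg⟩ := horb x
  obtain ⟨h, hh⟩ := horb y
  refine ⟨h * g⁻¹, ?_⟩
  rw [← hg, mul_smul, inv_smul_smul, hh]

open scoped Pointwise in
theorem gs_preprimitive (k : ℕ) (s : ℕ → Bool) (hk : 1 ≤ k) :
    MulAction.IsPreprimitive (Gs k s) (Om k) := by
  have := gs_pretransitive k s hk
  apply MulAction.IsPreprimitive.of_isTrivialBlock_base (0 : Om k)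
  intro B h0 hB
  by_cases hsub : B.Subsingleton
  · exact Or.inl hsub
  right
  -- `θ` preserves `B`
  have hθ : ∀ x ∈ B, theta k x ∈ B := by
    have h1 : (⟨theta k, theta_mem k s⟩ : Gs k s) • B = B := by
      apply hB.smul_eq_of_mem h0
      have : (⟨theta k, theta_mem k s⟩ : Gs k s) • (0 : Om k) = 0 := by
        apply Fin.ext
        show thetaN 0 = 0
        simp
      rw [this]; exact h0
    intro x hx
    rw [← h1]
    exact Set.smul_mem_smul_set hx
  obtain ⟨x, hx, hx0⟩ : ∃ x ∈ B, x ≠ 0 := by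
    by_contra hcon
    push Not at hcon
    exact hsub (fun a ha b hb => (hcon a ha).trans (hcon b hb).symm)
  have hxv : x.val ≠ 0 := fun h => hx0 (Fin.ext h)
  have hxl := x.2
  obtain ⟨j, hj⟩ : ∃ j, x.val = 3 * j + 1 ∨ x.val = 3 * j + 2 ∨ x.val = 3 * j + 3 :=
    ⟨(x.val - 1) / 3, by omega⟩
  have hjk : 3 * j + 3 < 3 * k + 1 := by omega
  have h3 : (⟨3 * j + 2, by omega⟩ : Om k) ∈ B ∧ (⟨3 * j + 3, by omega⟩ : Om k) ∈ B := by
    have e1 : ∀ y ∈ B, theta k (theta k y) ∈ B := fun y hy => hθ _ (hθ _ hy)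
    rcases hj with h | h | h
    · refine ⟨?_, ?_⟩
      · have := hθ x hx
        convert this using 1
        apply Fin.ext
        simp [h]
      · have := e1 x hx
        convert this using 1
        apply Fin.ext
        simp [h]
    · refine ⟨?_, ?_⟩
      · convert hx using 1
        exact Fin.ext h.symm
      · have := hθ x hx
        convert this using 1
        apply Fin.ext
        simp [h]
    · refine ⟨?_, ?_⟩
      · have := e1 x hx
        convert this using 1
        apply Fin.ext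
        simp [h]
      · convert hx using 1
        exact Fin.ext h.symm
  have hfix : ∃ y ∈ B, rho k s y = y := by
    rcases prim_dead (k := k) s j with h | h
    · exact ⟨_, h3.1, Fin.ext h⟩
    · exact ⟨_, h3.2, Fin.ext h⟩
  have hρ : ∀ x ∈ B, rho k s x ∈ B := by
    obtain ⟨y, hy, hyf⟩ := hfix
    have h1 : (⟨rho k s, rho_mem k s⟩ : Gs k s) • B = B := by
      apply hB.smul_eq_of_mem hy
      have : (⟨rho k s, rho_mem k s⟩ : Gs k s) • y = y := hyf
      rw [this]; exact hy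
    intro x hx
    rw [← h1]
    exact Set.smul_mem_smul_set hx
  exact Set.eq_univ_of_forall (prim_closed hk B h0 hρ hθ)

/-! ### mirror image -/

/-- exchange of the corners 1 and 2 on codes -/
def prim_muN (x : ℕ) : ℕ := if x % 3 = 2 then x + 1 else if x % 3 = 0 ∧ x ≠ 0 then x - 1 else x

theorem prim_muN_lt {k x : ℕ} (hx : x < 3 * k + 1) : prim_muN x < 3 * k + 1 := by
  unfold prim_muN
  split_ifs <;> omega

theorem prim_muN_zero : prim_muN 0 = 0 := rfl

theorem prim_muN_c0 (j : ℕ) : prim_muN (3 * j + 1) = 3 * j + 1 := by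
  unfold prim_muN
  split_ifs <;> omega

theorem prim_muN_c1 (j : ℕ) : prim_muN (3 * j + 2) = 3 * j + 3 := by
  unfold prim_muN
  split_ifs <;> omega

theorem prim_muN_c2 (j : ℕ) : prim_muN (3 * j + 3) = 3 * j + 2 := by
  unfold prim_muN
  split_ifs <;> omega

theorem prim_muN_muN (x : ℕ) : prim_muN (prim_muN x) = x := by
  rcases code_cases x with rfl | ⟨j, rfl | rfl | rfl⟩
  · rfl
  · rw [prim_muN_c0, prim_muN_c0]
  · rw [prim_muN_c1, prim_muN_c2]
  · rw [prim_muN_c2, prim_muN_c1]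

/-- exchange of the corners 1 and 2 -/
def prim_mu (k : ℕ) : Perm (Om k) where
  toFun x := ⟨prim_muN x, prim_muN_lt x.2⟩
  invFun x := ⟨prim_muN x, prim_muN_lt x.2⟩
  left_inv x := Fin.ext (prim_muN_muN x)
  right_inv x := Fin.ext (prim_muN_muN x)

theorem prim_mu_val {k : ℕ} (x : Om k) : (prim_mu k x).val = prim_muN x.val := rfl

theorem prim_mu_inv (k : ℕ) : (prim_mu k)⁻¹ = prim_mu k := rfl

theorem prim_mu_theta (k : ℕ) : (prim_mu k)⁻¹ * theta k * prim_mu k = (theta k)⁻¹ := by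
  ext x
  rw [prim_mu_inv]
  simp only [Perm.mul_apply, prim_mu_val, theta_val, theta_inv_val]
  rcases code_cases x.val with h | ⟨j, h | h | h⟩ <;> rw [h]
  · rfl
  · rw [prim_muN_c0, thetaN_c0, prim_muN_c1, thetaN_c1]
  · rw [prim_muN_c1, thetaN_c2, prim_muN_c0, thetaN_c1, thetaN_c2]
  · rw [prim_muN_c2, thetaN_c1, prim_muN_c2, thetaN_c2, thetaN_c0]

theorem prim_mu_rho (k : ℕ) (s : ℕ → Bool) (hk : 0 < k) :
    (prim_mu k)⁻¹ * rho k (fun i => !s i) * prim_mu k = rho k s := by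
  ext x
  rw [prim_mu_inv]
  simp only [Perm.mul_apply, prim_mu_val, rho_val]
  rcases code_cases x.val with h | ⟨j, h | h | h⟩ <;> rw [h]
  · rw [prim_muN_zero, rhoN_zero _ hk, rhoN_zero _ hk]; rfl
  · rw [prim_muN_c0]
    rcases j with _ | j
    · rw [show 3 * 0 + 1 = 1 by rfl, rhoN_one, rhoN_one]; rfl
    · rw [rhoN_entry, rhoN_entry]
      cases hs : s j
      · simp only [Bool.not_false, if_true, Bool.false_eq_true, if_false]
        exact prim_muN_c2 j
      · simp only [Bool.not_true, if_true, Bool.false_eq_true, if_false]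
        exact prim_muN_c1 j
  · rw [prim_muN_c1, rhoN_c2, rhoN_c1]
    cases hs : s j
    · simp only [Bool.not_false, and_true]
      split_ifs with h1
      · exact prim_muN_c0 (j + 1)
      · exact prim_muN_c2 j
    · simp only [Bool.not_true, Bool.false_eq_true, Bool.true_eq_false, and_false, if_false]
      exact prim_muN_c2 j
  · rw [prim_muN_c2, rhoN_c1, rhoN_c2]
    cases hs : s j
    · simp only [Bool.not_false, Bool.false_eq_true, Bool.true_eq_false, and_false, if_false]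
      exact prim_muN_c1 j
    · simp only [Bool.not_true, and_true]
      split_ifs with h1
      · exact prim_muN_c0 (j + 1)
      · exact prim_muN_c1 j

theorem prim_conj (k : ℕ) (s : ℕ → Bool) (hk : 0 < k) {g : Perm (Om k)}
    (hg : g ∈ Gs k (fun i => !s i)) : (prim_mu k)⁻¹ * g * prim_mu k ∈ Gs k s := by
  unfold Gs at hg
  induction hg using Subgroup.closure_induction with
  | mem x hx =>
    simp only [Set.mem_insert_iff, Set.mem_singleton_iff] at hx
    rcases hx with rfl | rfl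
    · rw [prim_mu_rho k s hk]; exact rho_mem k s
    · rw [prim_mu_theta]; exact inv_mem (theta_mem k s)
  | one => simp [one_mem]
  | mul x y _ _ hx hy =>
    have : (prim_mu k)⁻¹ * (x * y) * prim_mu k =
        ((prim_mu k)⁻¹ * x * prim_mu k) * ((prim_mu k)⁻¹ * y * prim_mu k) := by group
    rw [this]
    exact mul_mem hx hy
  | inv x _ hx =>
    have : (prim_mu k)⁻¹ * x⁻¹ * prim_mu k = ((prim_mu k)⁻¹ * x * prim_mu k)⁻¹ := by group
    rw [this]
    exact inv_mem hx

theorem mirror {k : ℕ} {s : ℕ → Bool} (h : alternatingGroup (Om k) ≤ Gs k (fun i => !s i)) :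
    alternatingGroup (Om k) ≤ Gs k s := by
  intro g hg
  rcases Nat.eq_zero_or_pos k with rfl | hk
  · have : g = 1 := by
      ext x
      have h1 := (g x).2
      have h2 := x.2
      have h3 : ((1 : Perm (Om 0)) x).val = x.val := rfl
      omega
    rw [this]; exact one_mem _
  have h1 : prim_mu k * g * (prim_mu k)⁻¹ ∈ alternatingGroup (Om k) := by
    rw [Perm.mem_alternatingGroup] at hg ⊢
    simp only [map_mul, Perm.sign_inv, hg, mul_one]
    rw [← sq]
    exact Int.units_sq _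
  have h2 := prim_conj k s hk (h h1)
  have h3 : (prim_mu k)⁻¹ * (prim_mu k * g * (prim_mu k)⁻¹) * prim_mu k = g := by group
  rwa [h3] at h2

/-! ### the constant colouring -/

section Const

variable {k : ℕ} {s : ℕ → Bool}

theorem prim_r1 (h0 : ∀ i, i + 1 < k → s i = false) (j : ℕ) (hj : j + 1 < k) :
    rhoN k s (3 * j + 2) = 3 * j + 4 := by
  rw [rhoN_c1, if_pos ⟨hj, h0 j hj⟩]
  ring

theorem prim_r1' (j : ℕ) (hj : ¬ j + 1 < k) : rhoN k s (3 * j + 2) = 3 * j + 2 := by
  rw [rhoN_c1, if_neg (fun h => hj h.1)]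

theorem prim_r2 (h0 : ∀ i, i + 1 < k → s i = false) (j : ℕ) :
    rhoN k s (3 * j + 3) = 3 * j + 3 := by
  rw [rhoN_c2, if_neg]
  rintro ⟨h1, h2⟩
  rw [h0 j h1] at h2
  exact absurd h2 (by decide)

theorem prim_r0 (h0 : ∀ i, i + 1 < k → s i = false) (j : ℕ) (hj : j + 1 < k) :
    rhoN k s (3 * j + 4) = 3 * j + 2 := by
  rw [show 3 * j + 4 = 3 * (j + 1) + 1 by ring, rhoN_entry, h0 j hj]
  simp

/-- the permutation `RL` on codes -/
def prim_cN (k : ℕ) (s : ℕ → Bool) (x : ℕ) : ℕ :=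
  thetaN (rhoN k s (thetaN (thetaN (rhoN k s x))))

theorem prim_c_val (x : Om k) : ((R k s * L k s) x).val = prim_cN k s x.val := rfl

theorem prim_cN_zero (h0 : ∀ i, i + 1 < k → s i = false) (hk : 10 ≤ k) :
    prim_cN k s 0 = 1 := by
  unfold prim_cN
  rw [rhoN_zero s (by omega), show thetaN (thetaN 1) = 3 * 0 + 3 by rfl, prim_r2 h0]
  rfl

theorem prim_cN_one (hk : 10 ≤ k) : prim_cN k s 1 = 2 := by
  unfold prim_cN
  rw [rhoN_one, show thetaN (thetaN 0) = 0 by rfl, rhoN_zero s (by omega)]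
  rfl

theorem prim_cN_c1 (h0 : ∀ i, i + 1 < k → s i = false) (j : ℕ) (hj : j + 1 < k) :
    prim_cN k s (3 * j + 2) = 3 * j + 4 := by
  unfold prim_cN
  rw [prim_r1 h0 j hj, show 3 * j + 4 = 3 * (j + 1) + 1 by ring, thetaN_c0, thetaN_c1,
    prim_r2 h0, thetaN_c2]

theorem prim_cN_c1' (h0 : ∀ i, i + 1 < k → s i = false) (j : ℕ) (hj : j + 2 = k) :
    prim_cN k s (3 * j + 5) = 3 * j + 3 := by
  unfold prim_cN
  rw [show 3 * j + 5 = 3 * (j + 1) + 2 by ring, prim_r1' (j + 1) (by omega), thetaN_c1,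
    thetaN_c2, show 3 * (j + 1) + 1 = 3 * j + 4 by ring, prim_r0 h0 j (by omega), thetaN_c1]

theorem prim_cN_four (h0 : ∀ i, i + 1 < k → s i = false) (hk : 10 ≤ k) :
    prim_cN k s 4 = 0 := by
  unfold prim_cN
  rw [show 4 = 3 * 0 + 4 by rfl, prim_r0 h0 0 (by omega), show thetaN (thetaN (3 * 0 + 2)) = 1 by rfl,
    rhoN_one]
  rfl

theorem prim_cN_c0 (h0 : ∀ i, i + 1 < k → s i = false) (j : ℕ) (hj : j + 2 < k) :
    prim_cN k s (3 * j + 7) = 3 * j + 3 := by
  unfold prim_cN
  rw [show 3 * j + 7 = 3 * (j + 1) + 4 by ring, prim_r0 h0 (j + 1) (by omega), thetaN_c1, thetaN_c2,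
    show 3 * (j + 1) + 1 = 3 * j + 4 by ring, prim_r0 h0 j (by omega), thetaN_c1]

theorem prim_cN_c2 (h0 : ∀ i, i + 1 < k → s i = false) (j : ℕ) (hj : j + 1 < k) :
    prim_cN k s (3 * j + 3) = 3 * j + 5 := by
  unfold prim_cN
  rw [prim_r2 h0, thetaN_c2, thetaN_c0, prim_r1 h0 j hj, show 3 * j + 4 = 3 * (j + 1) + 1 by ring,
    thetaN_c0]
  ring

theorem prim_cN_c2' (h0 : ∀ i, i + 1 < k → s i = false) (j : ℕ) (hj : ¬ j + 1 < k) :
    prim_cN k s (3 * j + 3) = 3 * j + 3 := by
  unfold prim_cN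
  rw [prim_r2 h0, thetaN_c2, thetaN_c0, prim_r1' j hj, thetaN_c1]

theorem prim_pow6 (h0 : ∀ i, i + 1 < k → s i = false) (hk : 10 ≤ k) :
    (R k s * L k s) ^ 6 = swap (⟨0, by omega⟩ : Om k) ⟨2, by omega⟩ *
      swap (⟨1, by omega⟩ : Om k) ⟨4, by omega⟩ := by
  have e0 := prim_cN_zero (s := s) h0 hk
  have e1 := prim_cN_one (s := s) hk
  have e2 : prim_cN k s 2 = 4 := prim_cN_c1 h0 0 (by omega)
  have e4 := prim_cN_four (s := s) h0 hk
  apply Equiv.ext
  intro x
  apply Fin.ext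
  have hx := x.2
  have hpow : (((R k s * L k s) ^ 6) x).val =
      prim_cN k s (prim_cN k s (prim_cN k s (prim_cN k s (prim_cN k s (prim_cN k s x.val))))) := by
    have hg : ∀ (c : Perm (Om k)) (y : Om k), (c ^ 6) y = c (c (c (c (c (c y))))) := by
      intro c y
      simp only [pow_succ, pow_zero, one_mul, Perm.mul_apply]
    rw [hg, prim_c_val, prim_c_val, prim_c_val, prim_c_val, prim_c_val, prim_c_val]
  rw [hpow]
  by_cases x0 : x.val = 0
  · rw [x0, e0, e1, e2, e4, e0, e1]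
    have : x = ⟨0, by omega⟩ := Fin.ext x0
    rw [this, Perm.mul_apply, swap_apply_of_ne_of_ne (a := (⟨1, by omega⟩ : Om k)) (by simp) (by simp),
      swap_apply_left]
  by_cases x1 : x.val = 1
  · rw [x1, e1, e2, e4, e0, e1, e2]
    have : x = ⟨1, by omega⟩ := Fin.ext x1
    rw [this, Perm.mul_apply, swap_apply_left, swap_apply_of_ne_of_ne (by simp) (by simp)]
  by_cases x2 : x.val = 2
  · rw [x2, e2, e4, e0, e1, e2, e4]
    have : x = ⟨2, by omega⟩ := Fin.ext x2
    rw [this, Perm.mul_apply, swap_apply_of_ne_of_ne (a := (⟨1, by omega⟩ : Om k)) (by simp) (by simp),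
      swap_apply_right]
  by_cases x4 : x.val = 4
  · rw [x4, e4, e0, e1, e2, e4, e0]
    have : x = ⟨4, by omega⟩ := Fin.ext x4
    rw [this, Perm.mul_apply, swap_apply_right, swap_apply_of_ne_of_ne (by simp) (by simp)]
  have hr : ((swap (⟨0, by omega⟩ : Om k) ⟨2, by omega⟩ *
      swap (⟨1, by omega⟩ : Om k) ⟨4, by omega⟩) x).val = x.val := by
    rw [Perm.mul_apply, swap_apply_of_ne_of_ne (a := (⟨1, by omega⟩ : Om k))
      (fun h => x1 (by rw [h])) (fun h => x4 (by rw [h])),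
      swap_apply_of_ne_of_ne (fun h => x0 (by rw [h])) (fun h => x2 (by rw [h]))]
  rw [hr]
  -- the three types of cycles
  have t3 : ∀ j, j + 2 < k → prim_cN k s (3 * j + 3) = 3 * j + 5 ∧
      prim_cN k s (3 * j + 5) = 3 * j + 7 ∧ prim_cN k s (3 * j + 7) = 3 * j + 3 := by
    intro j hj
    refine ⟨prim_cN_c2 h0 j (by omega), ?_, prim_cN_c0 h0 j hj⟩
    have := prim_cN_c1 (s := s) h0 (j + 1) (by omega)
    rw [show 3 * (j + 1) + 2 = 3 * j + 5 by ring, show 3 * (j + 1) + 4 = 3 * j + 7 by ring] at this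
    exact this
  have t2 : ∀ j, j + 2 = k → prim_cN k s (3 * j + 3) = 3 * j + 5 ∧
      prim_cN k s (3 * j + 5) = 3 * j + 3 := by
    intro j hj
    exact ⟨prim_cN_c2 h0 j (by omega), prim_cN_c1' h0 j hj⟩
  rcases code_cases x.val with h | ⟨j, h | h | h⟩
  · exact absurd h x0
  · obtain ⟨i, rfl⟩ : ∃ i, j = i + 2 := ⟨j - 2, by omega⟩
    rw [show x.val = 3 * i + 7 by omega]
    obtain ⟨a, b, c⟩ := t3 i (by omega)
    rw [c, a, b, c, a, b]
  · obtain ⟨i, rfl⟩ : ∃ i, j = i + 1 := ⟨j - 1, by omega⟩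
    rw [show x.val = 3 * i + 5 by omega]
    by_cases hi : i + 2 < k
    · obtain ⟨a, b, c⟩ := t3 i hi
      rw [b, c, a, b, c, a]
    · obtain ⟨a, b⟩ := t2 i (by omega)
      rw [b, a, b, a, b, a]
  · rw [h]
    by_cases hi : j + 2 < k
    · obtain ⟨a, b, c⟩ := t3 j hi
      rw [a, b, c, a, b, c]
    · by_cases hi2 : j + 2 = k
      · obtain ⟨a, b⟩ := t2 j hi2
        rw [a, b, a, b, a, b]
      · have a := prim_cN_c2' (s := s) h0 j (by omega)
        rw [a, a, a, a, a, a]

theorem prim_R_val (x : Om k) : (R k s x).val = thetaN (rhoN k s x.val) := rfl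

theorem prim_R_c1 (h0 : ∀ i, i + 1 < k → s i = false) (j : ℕ) (hj : j + 1 < k) :
    R k s ⟨3 * j + 2, by omega⟩ = ⟨3 * j + 5, by omega⟩ := by
  apply Fin.ext
  show thetaN (rhoN k s (3 * j + 2)) = 3 * j + 5
  rw [prim_r1 h0 j hj, show 3 * j + 4 = 3 * (j + 1) + 1 by ring, thetaN_c0]
  ring

theorem prim_R_zero (hk : 10 ≤ k) :
    R k s ⟨0, by omega⟩ = ⟨2, by omega⟩ := by
  apply Fin.ext
  show thetaN (rhoN k s 0) = 2
  rw [rhoN_zero s (by omega)]
  rfl

theorem prim_R_one (hk : 10 ≤ k) :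
    R k s ⟨1, by omega⟩ = ⟨0, by omega⟩ := by
  apply Fin.ext
  show thetaN (rhoN k s 1) = 0
  rw [rhoN_one]
  rfl

theorem prim_R_three (h0 : ∀ i, i + 1 < k → s i = false) (hk : 10 ≤ k) :
    R k s ⟨3, by omega⟩ = ⟨1, by omega⟩ := by
  apply Fin.ext
  have h := prim_r2 (s := s) h0 0
  rw [Nat.mul_zero, Nat.zero_add] at h
  rw [prim_R_val]
  simp only [h]
  rfl

theorem prim_R_four (h0 : ∀ i, i + 1 < k → s i = false) (hk : 10 ≤ k) :
    R k s ⟨4, by omega⟩ = ⟨3, by omega⟩ := by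
  apply Fin.ext
  have h := prim_r0 (s := s) h0 0 (by omega)
  rw [Nat.mul_zero, Nat.zero_add, Nat.zero_add] at h
  rw [prim_R_val]
  simp only [h]
  rfl

theorem chain_const (hk : 10 ≤ k) (h0 : ∀ i, i + 1 < k → s i = false) :
    alternatingGroup (Om k) ≤ Gs k s := by
  set a0 : Om k := ⟨0, by omega⟩ with ha0
  set a1 : Om k := ⟨1, by omega⟩ with ha1
  set a2 : Om k := ⟨2, by omega⟩ with ha2
  set a3 : Om k := ⟨3, by omega⟩ with ha3
  set a4 : Om k := ⟨4, by omega⟩ with ha4
  set a5 : Om k := ⟨5, by omega⟩ with ha5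
  set a8 : Om k := ⟨8, by omega⟩ with ha8
  set a11 : Om k := ⟨11, by omega⟩ with ha11
  set a14 : Om k := ⟨14, by omega⟩ with ha14
  have R0 : R k s a0 = a2 := prim_R_zero hk
  have R1 : R k s a1 = a0 := prim_R_one hk
  have R2 : R k s a2 = a5 := prim_R_c1 h0 0 (by omega)
  have R3 : R k s a3 = a1 := prim_R_three h0 hk
  have R4 : R k s a4 = a3 := prim_R_four h0 hk
  have R5 : R k s a5 = a8 := prim_R_c1 h0 1 (by omega)
  have R8 : R k s a8 = a11 := prim_R_c1 h0 2 (by omega)
  have R11 : R k s a11 = a14 := prim_R_c1 h0 3 (by omega)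
  have hx0 : swap a0 a2 * swap a1 a4 ∈ Gs k s := by
    rw [← prim_pow6 h0 hk]
    exact pow_mem (mul_mem (R_mem k s) (L_mem k s)) 6
  have hx4 : swap a11 a14 * swap a8 a2 ∈ Gs k s := by
    have e : swap a11 a14 * swap a8 a2 =
        (R k s ^ 4) * (swap a0 a2 * swap a1 a4) * (R k s ^ 4)⁻¹ := by
      have f1 : (R k s ^ 4) a0 = a11 := by
        simp only [pow_succ, pow_zero, one_mul, Perm.mul_apply, R0, R2, R5, R8]
      have f2 : (R k s ^ 4) a2 = a14 := by
        simp only [pow_succ, pow_zero, one_mul, Perm.mul_apply, R2, R5, R8, R11]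
      have f3 : (R k s ^ 4) a1 = a8 := by
        simp only [pow_succ, pow_zero, one_mul, Perm.mul_apply, R1, R0, R2, R5]
      have f4 : (R k s ^ 4) a4 = a2 := by
        simp only [pow_succ, pow_zero, one_mul, Perm.mul_apply, R4, R3, R1, R0]
      have g1 := Equiv.swap_apply_apply (R k s ^ 4) a0 a2
      have g2 := Equiv.swap_apply_apply (R k s ^ 4) a1 a4
      rw [f1, f2] at g1
      rw [f3, f4] at g2
      rw [g1, g2]
      group
    rw [e]
    exact mul_mem (mul_mem (pow_mem (R_mem k s) 4) hx0) (inv_mem (pow_mem (R_mem k s) 4))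
  -- the commutator
  have hcomm : (swap a0 a2 * swap a1 a4) * (swap a11 a14 * swap a8 a2) *
      (swap a0 a2 * swap a1 a4)⁻¹ * (swap a11 a14 * swap a8 a2)⁻¹ = swap a8 a0 * swap a8 a2 := by
    have g1 := Equiv.swap_apply_apply (swap a0 a2 * swap a1 a4) a11 a14
    have g2 := Equiv.swap_apply_apply (swap a0 a2 * swap a1 a4) a8 a2
    have f1 : (swap a0 a2 * swap a1 a4) a11 = a11 := by
      rw [Perm.mul_apply, swap_apply_of_ne_of_ne (a := a1) (by simp [ha11, ha1]) (by simp [ha11, ha4]),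
        swap_apply_of_ne_of_ne (by simp [ha11, ha0]) (by simp [ha11, ha2])]
    have f2 : (swap a0 a2 * swap a1 a4) a14 = a14 := by
      rw [Perm.mul_apply, swap_apply_of_ne_of_ne (a := a1) (by simp [ha14, ha1]) (by simp [ha14, ha4]),
        swap_apply_of_ne_of_ne (by simp [ha14, ha0]) (by simp [ha14, ha2])]
    have f3 : (swap a0 a2 * swap a1 a4) a8 = a8 := by
      rw [Perm.mul_apply, swap_apply_of_ne_of_ne (a := a1) (by simp [ha8, ha1]) (by simp [ha8, ha4]),
        swap_apply_of_ne_of_ne (by simp [ha8, ha0]) (by simp [ha8, ha2])]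
    have f4 : (swap a0 a2 * swap a1 a4) a2 = a0 := by
      rw [Perm.mul_apply, swap_apply_of_ne_of_ne (a := a1) (by simp [ha2, ha1]) (by simp [ha2, ha4]),
        swap_apply_right]
    rw [f1, f2] at g1
    rw [f3, f4] at g2
    have e1 : (swap a0 a2 * swap a1 a4) * (swap a11 a14 * swap a8 a2) *
      (swap a0 a2 * swap a1 a4)⁻¹ = swap a11 a14 * swap a8 a0 := by
      calc (swap a0 a2 * swap a1 a4) * (swap a11 a14 * swap a8 a2) * (swap a0 a2 * swap a1 a4)⁻¹
          = ((swap a0 a2 * swap a1 a4) * swap a11 a14 * (swap a0 a2 * swap a1 a4)⁻¹) *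
            ((swap a0 a2 * swap a1 a4) * swap a8 a2 * (swap a0 a2 * swap a1 a4)⁻¹) := by group
        _ = swap a11 a14 * swap a8 a0 := by rw [← g1, ← g2]
    rw [e1, mul_inv_rev, swap_inv, swap_inv]
    have hd : Perm.Disjoint (swap a11 a14) (swap a8 a0 * swap a8 a2) := by
      intro y
      by_cases h : y = a11 ∨ y = a14
      · right
        rcases h with rfl | rfl
        · rw [Perm.mul_apply, swap_apply_of_ne_of_ne (a := a8) (b := a2) (by simp [ha11, ha8])
            (by simp [ha11, ha2]), swap_apply_of_ne_of_ne (by simp [ha11, ha8]) (by simp [ha11, ha0])]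
        · rw [Perm.mul_apply, swap_apply_of_ne_of_ne (a := a8) (b := a2) (by simp [ha14, ha8])
            (by simp [ha14, ha2]), swap_apply_of_ne_of_ne (by simp [ha14, ha8]) (by simp [ha14, ha0])]
      · left
        push Not at h
        exact swap_apply_of_ne_of_ne h.1 h.2
    have hc := hd.commute.eq
    calc swap a11 a14 * swap a8 a0 * (swap a8 a2 * swap a11 a14)
        = (swap a11 a14 * (swap a8 a0 * swap a8 a2)) * swap a11 a14 := by group
      _ = ((swap a8 a0 * swap a8 a2) * swap a11 a14) * swap a11 a14 := by rw [hc]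
      _ = swap a8 a0 * swap a8 a2 := by rw [mul_assoc, swap_mul_self, mul_one]
  have h3 : swap a8 a0 * swap a8 a2 ∈ Gs k s := by
    rw [← hcomm]
    exact mul_mem (mul_mem (mul_mem hx0 hx4) (inv_mem hx0)) (inv_mem hx4)
  have hcyc : Perm.IsThreeCycle (swap a8 a0 * swap a8 a2) :=
    Perm.isThreeCycle_swap_mul_swap_same (by simp [ha8, ha0]) (by simp [ha8, ha2]) (by simp [ha0, ha2])
  exact Perm.alternatingGroup_le_of_isPreprimitive_of_isThreeCycle_mem
    (gs_preprimitive k s (by omega)) hcyc h3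

end Const

end TT
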