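import Pool.Agent.Lib.MP_db1bc6_al.Fam

/-! # Every colouring has runs -/

namespace TT

theorem exists_expand (B : List Bool) : ∀ q, ∃ l ls, (∀ m ∈ l :: ls, 0 < m) ∧
    expand q (l :: ls) = q :: B := by
  induction B with
  | nil => intro q; exact ⟨1, [], by simp, rfl⟩
  | cons q' B ih =>
    intro q
    by_cases h : q' = q
    · subst h
      obtain ⟨l, ls, h1, h2⟩ := ih q'
      refine ⟨1, l :: ls, ?_, ?_⟩
      · intro m hm
        rcases List.mem_cons.1 hm with h3 | h3
        · omega
        · exact h1 m h3
      · rw [expand, if_neg (by norm_num), h2]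
        rfl
    · have h' : q' = !q := by
        cases q <;> cases q' <;> simp at h ⊢
      subst h'
      obtain ⟨l, ls, h1, h2⟩ := ih (!q)
      refine ⟨l + 1, ls, ?_, ?_⟩
      · intro m hm
        rcases List.mem_cons.1 hm with h3 | h3
        · omega
        · exact h1 m (List.mem_cons_of_mem _ h3)
      · rw [← h2, expand, expand]
        have e : (if (l + 1) % 2 = 0 then !q else q) = (if l % 2 = 0 then !(!q) else !q) := by
          rcases Nat.mod_two_eq_zero_or_one l with h3 | h3
          · rw [if_neg (by omega), if_pos h3]; simp
          · rw [if_pos (by omega), if_neg (by omega)]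
        rw [e]
        rfl

theorem exists_runs {k : ℕ} {s : ℕ → Bool} (hk : 2 ≤ k) (h0 : s 0 = false) :
    ∃ l ls, Runs k s (l :: ls) := by
  obtain ⟨l, ls, h1, h2⟩ := exists_expand ((List.range (k - 2)).map fun i => s (i + 1)) false
  refine ⟨l, ls, h1, ?_, fun i hi => ?_⟩
  · have := congrArg List.length h2
    rw [length_expand] at this
    simp at this ⊢
    omega
  · rw [h2]
    cases i with
    | zero => simpa using h0
    | succ i =>
      rw [List.getD_cons_succ, List.getD_eq_getElem?_getD, List.getElem?_map,
        List.getElem?_range (by omega)]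
      rfl

end TT
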