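import Pool.Agent.Lib.MP_db1bc6_al.SkTab

/-! # Small chains -/

namespace TT

open Equiv

/-- check of one certificate -/
noncomputable def chkS (n m : ℕ) (e : ℕ × ℕ × ℕ × Option (ℕ × Bool)) : Bool :=
  forceL (toB n m) fun B => forceL (toB e.1 e.2.1) fun w =>
    Nat.ble (3 * n + 1) (fixZ true true w e.2.2.1 (.rt B) +
      cntZ true true w e.2.2.1 (n + 1) [] B) && movC w e.2.2.1 true B e.2.2.2

theorem length_toB (n m : ℕ) : (toB n m).length = n := by
  induction n generalizing m with
  | zero => rfl
  | succ n ih => simp [toB, ih]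

theorem alt_of_chkS {n m : ℕ} {e : ℕ × ℕ × ℕ × Option (ℕ × Bool)} (hc : chkS n m e = true)
    {s : ℕ → Bool} (hs : ∀ i (h : i < (toB n m).length), s i = (toB n m)[i]) :
    alternatingGroup (Om (n + 1)) ≤ Gs (n + 1) s := by
  unfold chkS at hc
  simp only [forceL_eq, Bool.and_eq_true, Nat.ble_eq] at hc
  obtain ⟨h1, h2⟩ := hc
  set B := toB n m with hB
  set w := toB e.1 e.2.1 with hw
  set M := e.2.2.1 with hM
  have hlen : B.length = n := length_toB n m
  have hwin : IsWin (n + 1) s true true B 0 :=
    ⟨by omega, fun i hi => by rw [Nat.zero_add]; exact hs i hi, fun _ => rfl, fun _ => by omega⟩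
  have hne := movC_sound hwin h2
  have f1 := cntZ_le_Fx hwin w M (n + 1) (L := []) (R := B) rfl
  have f2 := fixZ_le_Fx hwin w M (z := .rt B) (x := 0) (by omega) ⟨rfl, rfl, rfl⟩
  have f3 := Fx_total ((rl (n + 1) s w) ^ M)
  rw [Fx_add _ (show 0 ≤ 0 + 1 by omega) (show 0 + 1 ≤ 3 * (n + 1) + 1 by omega)] at f3
  simp only [List.length_nil, add_zero, zero_add, mul_zero] at f1 f2 f3
  have hmem : (rl (n + 1) s w) ^ M ∈ Gs (n + 1) s := pow_mem (rl_mem _ _ _) _
  generalize hg : (rl (n + 1) s w) ^ M = g at *
  have hprim := gs_preprimitive (n + 1) s (by omega)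
  have h0 : g.support.card ≠ 0 := by
    rw [Ne, Finset.card_eq_zero, Perm.support_eq_empty_iff]
    exact hne
  have h1' : g.support.card ≠ 1 := Perm.card_support_ne_one g
  have h3 : g.support.card ≤ 3 := by omega
  have h4 : g.support.card = 2 ∨ g.support.card = 3 := by omega
  rcases h4 with h4 | h4
  · have hsw : g.IsSwap := Perm.card_support_eq_two.1 h4
    have := Perm.subgroup_eq_top_of_isPreprimitive_of_isSwap_mem hprim g hsw hmem
    rw [this]
    exact le_top
  · exact Perm.alternatingGroup_le_of_isPreprimitive_of_isThreeCycle_mem hprim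
      (card_support_eq_three_iff.1 h4) hmem

/-- the number with the given bits -/
def encB : List Bool → ℕ
  | [] => 0
  | b :: B => (if b then 1 else 0) + 2 * encB B

theorem toB_encB (B : List Bool) : toB B.length (encB B) = B := by
  induction B with
  | nil => rfl
  | cons b B ih =>
    have e0 : encB (b :: B) = (if b then 1 else 0) + 2 * encB B := rfl
    have e1 : encB (b :: B) % 2 = if b then 1 else 0 := by
      rw [e0]; split_ifs <;> omega
    have e2 : encB (b :: B) / 2 = encB B := by
      rw [e0]; split_ifs <;> omega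
    rw [List.length_cons, toB, e1, e2, ih]
    cases b <;> rfl

theorem encB_lt (B : List Bool) : encB B < 2 ^ B.length := by
  induction B with
  | nil => simp [encB]
  | cons b B ih =>
    rw [List.length_cons, pow_succ]
    unfold encB
    split_ifs <;> omega

set_option maxRecDepth 100000 in
theorem skCov : ((List.range 7).all fun i => (List.range (2 ^ (i + 1))).all fun h =>
    (Nat.beq i 1 && Nat.beq h 2) || skTab.any fun e => Nat.beq e.1 (i + 2) &&
      (Nat.beq e.2.1 (2 * h) && chkS e.1 e.2.1 e.2.2)) = true := by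
  decide +kernel

theorem chain_small {k : ℕ} {s : ℕ → Bool} (hk : 3 ≤ k) (hk9 : k ≤ 9) (h0 : s 0 = false)
    (hex : ¬ (k = 4 ∧ s 1 = false ∧ s 2 = true)) : alternatingGroup (Om k) ≤ Gs k s := by
  obtain ⟨i, rfl⟩ : ∃ i, k = i + 3 := ⟨k - 3, by omega⟩
  have hc := skCov
  rw [List.all_eq_true] at hc
  have h1 := hc i (by rw [List.mem_range]; omega)
  rw [List.all_eq_true] at h1
  set B := (List.range (i + 1)).map fun j => s (j + 1) with hB
  have hBl : B.length = i + 1 := by simp [hB]
  have h2 := h1 (encB B) (by rw [List.mem_range, ← hBl]; exact encB_lt B)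
  have h3 : toB (i + 2) (2 * encB B) = false :: B := by
    have := toB_encB (false :: B)
    rw [List.length_cons, hBl] at this
    have e : encB (false :: B) = 2 * encB B := by simp [encB]
    rwa [e] at this
  rw [Bool.or_eq_true] at h2
  rcases h2 with h2 | h2
  · exfalso
    rw [Bool.and_eq_true] at h2
    have i1 : i = 1 := Nat.eq_of_beq_eq_true h2.1
    have i2 : encB B = 2 := Nat.eq_of_beq_eq_true h2.2
    subst i1
    apply hex
    have h4 := toB_encB B
    rw [hBl, i2] at h4
    simp [hB, toB, List.range_succ] at h4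
    exact ⟨rfl, by simpa using h4.1, by simpa using h4.2⟩
  · rw [List.any_eq_true] at h2
    obtain ⟨e, -, he⟩ := h2
    rw [Bool.and_eq_true, Bool.and_eq_true] at he
    obtain ⟨he1, he2, he3⟩ := he
    have j1 : e.1 = i + 2 := Nat.eq_of_beq_eq_true he1
    have j2 : e.2.1 = 2 * encB B := Nat.eq_of_beq_eq_true he2
    rw [j1, j2] at he3
    refine alt_of_chkS he3 ?_
    rw [h3]
    intro j hj
    cases j with
    | zero => simpa using h0
    | succ j => simp [hB]

end TT
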