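import Pool.Agent.Lib.MP_db1bc6_al.Fam

/-! # Special colourings -/

namespace TT

open Equiv

set_option maxRecDepth 100000

/-- the conclusion about one colouring -/
def Good (k : ℕ) (s : ℕ → Bool) : Prop :=
  ∃ x ∈ Gs k s, x ≠ 1 ∧ 2 * x.support.card + 5 ≤ 3 * k + 1

/-- check of one colouring -/
noncomputable def chkG (w : List Bool) (M : ℕ) (U : List ℕ) (c : Option (ℕ × Bool)) : Bool :=
  Nat.ble (3 * U.sum + 9) (2 * cntR w M true U (U.sum + 1)) && movC w M true (expand false U) c

theorem good_of_chkG {w : List Bool} {M : ℕ} {U : List ℕ} {c : Option (ℕ × Bool)}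
    (hc : chkG w M U c = true) {k : ℕ} {s : ℕ → Bool} (h : Runs k s U) : Good k s := by
  unfold chkG at hc
  rw [Bool.and_eq_true, Nat.ble_eq] at hc
  refine ⟨(rl k s w) ^ M, pow_mem (rl_mem k s w) M, ?_, ?_⟩
  · exact movC_sound (isWin_of_runs (L0 := []) (X := U) (Y := []) h (by simp) (fun _ => rfl)
      (fun _ => rfl)) hc.2
  · have h1 := cntR_le h (u := U) (Y := []) (by simp) (fin := true) (fun _ => rfl) w M (U.sum + 1)
    have h2 := Fx_total ((rl k s w) ^ M)
    have h3 := h.2.1
    rw [show 3 * (U.sum + 1) + 1 = 3 * k + 1 by omega] at h1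
    omega

theorem good_special {k : ℕ} {s : ℕ → Bool} {ls : List ℕ} (h : Runs k s ls)
    (hls : ls ∈ ([[4, 5], [4, 6], [5, 5], [4, 5, 5], [2, 8], [1, 2, 2, 2, 2, 2, 2, 2],
      [3, 4, 1, 1, 4, 1, 1, 4, 4]] : List (List ℕ))) : Good k s := by
  simp only [List.mem_cons, List.not_mem_nil, or_false] at hls
  rcases hls with rfl | rfl | rfl | rfl | rfl | rfl | rfl
  · exact good_of_chkG (w := [false, false, true, true]) (M := 6) (c := some (5, false))
      (by decide +kernel) h
  · exact good_of_chkG (w := [false, true]) (M := 8) (c := none) (by decide +kernel) h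
  · exact good_of_chkG (w := [false, true]) (M := 8) (c := some (6, false)) (by decide +kernel) h
  · exact good_of_chkG (w := [false, false, true, true]) (M := 6) (c := some (5, false))
      (by decide +kernel) h
  · exact good_of_chkG (w := [false, false, true, true]) (M := 10) (c := none) (by decide +kernel) h
  · exact good_of_chkG (w := [false, false, true, true]) (M := 4) (c := none) (by decide +kernel) h
  · exact good_of_chkG (w := [false, true, true, true]) (M := 30) (c := some (8, false))
      (by decide +kernel) h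

end TT
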