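import Pool.Agent.Lib.MP_db1bc6_al.Base

/-!
# A 4-transitive group with an element of small support contains the alternating group
-/

namespace TT

open Equiv

section thresh

variable {Ω : Type*} [Fintype Ω] [DecidableEq Ω]

open Classical in
/-- the elements of `G` fixing `a` and sending `c` to `b` -/
noncomputable def threshH (G : Subgroup (Perm Ω)) (a b c : Ω) : Finset (Perm Ω) :=
  Finset.univ.filter fun g => g ∈ G ∧ g a = a ∧ g c = b

theorem thresh_mem {G : Subgroup (Perm Ω)} {a b c : Ω} {g : Perm Ω} :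
    g ∈ threshH G a b c ↔ g ∈ G ∧ g a = a ∧ g c = b := by
  simp [threshH]

theorem thresh_le {G : Subgroup (Perm Ω)} (h4 : Tr4 G) {a b c p q p' q' r s r' s' : Ω}
    (h1 : [a, c, p, q].Nodup) (h2 : [a, b, p', q'].Nodup) (h3 : [a, c, r, s].Nodup)
    (h5 : [a, b, r', s'].Nodup) :
    ((threshH G a b c).filter fun g => g p = p' ∧ g q = q').card ≤
      ((threshH G a b c).filter fun g => g r = r' ∧ g s = s').card := by
  obtain ⟨h, hh, e1, e2, e3, e4⟩ := h4 a c r s a c p q h3 h1
  obtain ⟨h', hh', f1, f2, f3, f4⟩ := h4 a b p' q' a b r' s' h2 h5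
  refine Finset.card_le_card_of_injOn (fun g => h' * g * h) ?_ ?_
  · intro g hg
    rw [Finset.mem_coe, Finset.mem_filter, thresh_mem] at hg ⊢
    obtain ⟨⟨hg, ga, gc⟩, gp, gq⟩ := hg
    refine ⟨⟨mul_mem (mul_mem hh' hg) hh, ?_, ?_⟩, ?_, ?_⟩
    · rw [Perm.mul_apply, Perm.mul_apply, e1, ga, f1]
    · rw [Perm.mul_apply, Perm.mul_apply, e2, gc, f2]
    · rw [Perm.mul_apply, Perm.mul_apply, e3, gp, f3]
    · rw [Perm.mul_apply, Perm.mul_apply, e4, gq, f4]
  · intro g _ g' _ e
    simpa using e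

theorem thresh_pick (s : Finset Ω) (hs : s.card < Fintype.card Ω) : ∃ p, p ∉ s := by
  by_contra h
  push Not at h
  have : s = Finset.univ := Finset.eq_univ_iff_forall.2 h
  rw [this, Finset.card_univ] at hs
  exact lt_irrefl _ hs

theorem thresh_pick2 (a b : Ω) (hn : 4 ≤ Fintype.card Ω) :
    ∃ p q, p ≠ a ∧ p ≠ b ∧ q ≠ a ∧ q ≠ b ∧ p ≠ q := by
  obtain ⟨p, hp⟩ := thresh_pick ({a, b} : Finset Ω)
    (lt_of_le_of_lt (Finset.card_le_two) (by omega))
  obtain ⟨q, hq⟩ := thresh_pick ({a, b, p} : Finset Ω)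
    (lt_of_le_of_lt (Finset.card_le_three) (by omega))
  simp only [Finset.mem_insert, Finset.mem_singleton, not_or] at hp hq
  exact ⟨p, q, hp.1, hp.2, hq.1, hq.2.1, fun h => hq.2.2 h.symm⟩

omit [Fintype Ω] [DecidableEq Ω] in
theorem thresh_nodup {a b p q : Ω} (h1 : a ≠ b) (h2 : p ≠ a) (h3 : p ≠ b) (h4 : q ≠ a)
    (h5 : q ≠ b) (h6 : p ≠ q) : [a, b, p, q].Nodup := by
  simp only [List.nodup_cons, List.mem_cons, List.not_mem_nil, or_false, not_or, not_false_eq_true,
    List.nodup_nil, and_true]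
  exact ⟨⟨h1, h2.symm, h4.symm⟩, ⟨h3.symm, h5.symm⟩, h6⟩

theorem thresh_K {G : Subgroup (Perm Ω)} (h4 : Tr4 G) (hn : 4 ≤ Fintype.card Ω) {a b c : Ω}
    (hab : a ≠ b) (hac : a ≠ c) :
    ∃ K : ℕ, 0 < K ∧ ∀ p q p' q', [a, c, p, q].Nodup → [a, b, p', q'].Nodup →
    ((threshH G a b c).filter fun g => g p = p' ∧ g q = q').card = K := by
  obtain ⟨p, q, h1, h2, h3, h5, h6⟩ := thresh_pick2 a c hn
  obtain ⟨p', q', h1', h2', h3', h5', h6'⟩ := thresh_pick2 a b hn
  have n1 := thresh_nodup hac h1 h2 h3 h5 h6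
  have n2 := thresh_nodup hab h1' h2' h3' h5' h6'
  refine ⟨((threshH G a b c).filter fun g => g p = p' ∧ g q = q').card, ?_, ?_⟩
  · obtain ⟨g, hg, e1, e2, e3, e4⟩ := h4 a c p q a b p' q' n1 n2
    exact Finset.card_pos.2 ⟨g, Finset.mem_filter.2 ⟨thresh_mem.2 ⟨hg, e1, e2⟩, e3, e4⟩⟩
  · intro r s r' s' n3 n4
    exact le_antisymm (thresh_le h4 n3 n4 n1 n2) (thresh_le h4 n1 n2 n3 n4)

/-- the two bounds and the lower bound for the order -/
theorem thresh_bounds {G : Subgroup (Perm Ω)} (h4 : Tr4 G) (hn : 4 ≤ Fintype.card Ω) {a b c : Ω}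
    (hab : a ≠ b) (hac : a ≠ c) :
    ∃ K : ℕ, 0 < K ∧
      (∀ p q p' q', p ≠ a → p ≠ c → q ≠ a → q ≠ c → p ≠ q →
        ((threshH G a b c).filter fun g => g p = p' ∧ g q = q').card ≤ K) ∧
      (∀ p p', p ≠ a → p ≠ c →
        ((threshH G a b c).filter fun g => g p = p').card ≤ (Fintype.card Ω - 3) * K) ∧
      (Fintype.card Ω - 2) * (Fintype.card Ω - 3) * K ≤ (threshH G a b c).card := by
  obtain ⟨K, hK, h⟩ := thresh_K h4 hn hab hac
  have B2 : ∀ p q p' q', p ≠ a → p ≠ c → q ≠ a → q ≠ c → p ≠ q →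
        ((threshH G a b c).filter fun g => g p = p' ∧ g q = q').card ≤ K := by
    intro p q p' q' h1 h2 h3 h5 h6
    rcases Finset.eq_empty_or_nonempty
      ((threshH G a b c).filter fun g => g p = p' ∧ g q = q') with he | ⟨g, hg⟩
    · rw [he]; simp
    · refine (h p q p' q' (thresh_nodup hac h1 h2 h3 h5 h6) ?_).le
      rw [Finset.mem_filter, thresh_mem] at hg
      obtain ⟨⟨_, ga, gc⟩, gp, gq⟩ := hg
      refine thresh_nodup hab ?_ ?_ ?_ ?_ ?_
      · rw [← gp]
        intro e
        exact h1 (g.injective (e.trans ga.symm))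
      · rw [← gp, ← gc]
        intro e
        exact h2 (g.injective e)
      · rw [← gq]
        intro e
        exact h3 (g.injective (e.trans ga.symm))
      · rw [← gq, ← gc]
        intro e
        exact h5 (g.injective e)
      · rw [← gp, ← gq]
        intro e
        exact h6 (g.injective e)
  refine ⟨K, hK, B2, ?_, ?_⟩
  · intro p p' h1 h2
    rcases Finset.eq_empty_or_nonempty
      ((threshH G a b c).filter fun g => g p = p') with he | ⟨g0, hg0⟩
    · rw [he]; simp
    · rw [Finset.mem_filter, thresh_mem] at hg0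
      obtain ⟨⟨_, ga, gc⟩, gp⟩ := hg0
      have n1 : p' ≠ a := by
        rw [← gp]
        intro e
        exact h1 (g0.injective (e.trans ga.symm))
      have n2 : p' ≠ b := by
        rw [← gp, ← gc]
        intro e
        exact h2 (g0.injective e)
      obtain ⟨q, hq⟩ := thresh_pick ({a, c, p} : Finset Ω)
        (lt_of_le_of_lt (Finset.card_le_three) (by omega))
      simp only [Finset.mem_insert, Finset.mem_singleton, not_or] at hq
      obtain ⟨q1, q2, q3⟩ := hq
      have hc3 : ({a, b, p'} : Finset Ω).card = 3 := by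
        rw [Finset.card_eq_three]
        exact ⟨a, b, p', hab, n1.symm, n2.symm, rfl⟩
      have hsub : ((threshH G a b c).filter fun g => g p = p') ⊆
          (({a, b, p'} : Finset Ω)ᶜ).biUnion
            (fun q' => (threshH G a b c).filter fun g => g p = p' ∧ g q = q') := by
        intro g hg
        rw [Finset.mem_filter] at hg
        rw [Finset.mem_biUnion]
        refine ⟨g q, ?_, Finset.mem_filter.2 ⟨hg.1, hg.2, rfl⟩⟩
        obtain ⟨hg1, hg2⟩ := hg
        rw [thresh_mem] at hg1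
        simp only [Finset.mem_compl, Finset.mem_insert, Finset.mem_singleton, not_or]
        refine ⟨fun e => q1 (g.injective (e.trans hg1.2.1.symm)),
          fun e => q2 (g.injective (e.trans hg1.2.2.symm)),
          fun e => q3 (g.injective (e.trans hg2.symm))⟩
      calc _ ≤ _ := Finset.card_le_card hsub
        _ ≤ (({a, b, p'} : Finset Ω)ᶜ).card * K := by
            refine Finset.card_biUnion_le_card_mul _ _ _ ?_
            intro q' _
            exact B2 p q p' q' h1 h2 q1 q2 (fun e => q3 e.symm)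
        _ = (Fintype.card Ω - 3) * K := by rw [Finset.card_compl, hc3]
  · obtain ⟨p, q, h1, h2, h3, h5, h6⟩ := thresh_pick2 a c hn
    have hc2 : ({a, b} : Finset Ω).card = 2 := Finset.card_pair hab
    have hm : ∀ g ∈ threshH G a b c, (g p, g q) ∈ (({a, b} : Finset Ω)ᶜ).offDiag := by
      intro g hg
      rw [thresh_mem] at hg
      simp only [Finset.mem_offDiag, Finset.mem_compl, Finset.mem_insert, Finset.mem_singleton,
        not_or]
      refine ⟨⟨fun e => h1 (g.injective (e.trans hg.2.1.symm)),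
          fun e => h2 (g.injective (e.trans hg.2.2.symm))⟩,
          ⟨fun e => h3 (g.injective (e.trans hg.2.1.symm)),
          fun e => h5 (g.injective (e.trans hg.2.2.symm))⟩, fun e => h6 (g.injective e)⟩
    rw [Finset.card_eq_sum_card_fiberwise (f := fun g : Perm Ω => (g p, g q))
      (t := (({a, b} : Finset Ω)ᶜ).offDiag) hm]
    have : ∀ w ∈ (({a, b} : Finset Ω)ᶜ).offDiag,
        ((threshH G a b c).filter fun g => (g p, g q) = w).card = K := by
      rintro ⟨p', q'⟩ hw
      simp only [Finset.mem_offDiag, Finset.mem_compl, Finset.mem_insert, Finset.mem_singleton,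
        not_or] at hw
      obtain ⟨⟨a1, a2⟩, ⟨a3, a4⟩, a5⟩ := hw
      rw [← h p q p' q' (thresh_nodup hac h1 h2 h3 h5 h6) (thresh_nodup hab a1 a2 a3 a4 a5)]
      simp only [Prod.mk.injEq]
    rw [Finset.sum_congr rfl this, Finset.sum_const, Finset.offDiag_card, Finset.card_compl, hc2,
      smul_eq_mul]
    refine Nat.mul_le_mul_right K ?_
    obtain ⟨n, hn'⟩ : ∃ n, Fintype.card Ω = n + 3 := ⟨Fintype.card Ω - 3, by omega⟩
    rw [hn', show n + 3 - 2 = n + 1 by omega, show n + 3 - 3 = n by omega]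
    apply Nat.le_sub_of_add_le
    nlinarith

theorem thresh_arith {m n K : ℕ} (hm : 4 ≤ m) (hmn : 2 * m + 5 ≤ n) (hn : 16 ≤ n) (hK : 0 < K) :
    (m - 2) * ((m - 1) * ((n - 3) * K) + (n - m - 1) * ((m - 1) * K)) +
      (n - m) * ((n - 3) * K + (m - 2) * ((m - 2) * K)) < (m - 2) * ((n - 2) * (n - 3) * K) := by
  obtain ⟨k, rfl⟩ : ∃ k, m = k + 4 := ⟨m - 4, by omega⟩
  obtain ⟨d, rfl⟩ : ∃ d, n = 2 * k + 13 + d := ⟨n - (2 * k + 13), by omega⟩
  rw [show k + 4 - 2 = k + 2 by omega, show k + 4 - 1 = k + 3 by omega,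
    show 2 * k + 13 + d - 3 = 2 * k + 10 + d by omega,
    show 2 * k + 13 + d - (k + 4) - 1 = k + 8 + d by omega,
    show 2 * k + 13 + d - (k + 4) = k + 9 + d by omega,
    show 2 * k + 13 + d - 2 = 2 * k + 11 + d by omega]
  have key : (k + 2) * ((k + 3) * (2 * k + 10 + d) + (k + 8 + d) * (k + 3)) +
      (k + 9 + d) * ((2 * k + 10 + d) + (k + 2) * (k + 2)) <
      (k + 2) * ((2 * k + 11 + d) * (2 * k + 10 + d)) := by
    rcases Nat.eq_zero_or_pos k with rfl | hk
    · have : 3 ≤ d := by omega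
      nlinarith
    · obtain ⟨j, rfl⟩ : ∃ j, k = j + 1 := ⟨k - 1, by omega⟩
      ring_nf
      nlinarith [Nat.zero_le (j * d), Nat.zero_le (j ^ 2 * d), Nat.zero_le (j * d ^ 2),
        Nat.zero_le (d ^ 2), Nat.zero_le (j ^ 2), Nat.zero_le (j ^ 3)]
  calc _ = ((k + 2) * ((k + 3) * (2 * k + 10 + d) + (k + 8 + d) * (k + 3)) +
      (k + 9 + d) * ((2 * k + 10 + d) + (k + 2) * (k + 2))) * K := by ring
    _ < ((k + 2) * ((2 * k + 11 + d) * (2 * k + 10 + d))) * K := Nat.mul_lt_mul_of_pos_right key hK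
    _ = _ := by ring

omit [Fintype Ω] [DecidableEq Ω] in
theorem thresh_ai (f : Perm Ω) (w : Ω) : f (f⁻¹ w) = w := f.apply_symm_apply w

omit [Fintype Ω] [DecidableEq Ω] in
theorem thresh_ia (f : Perm Ω) (w : Ω) : f⁻¹ (f w) = w := f.symm_apply_apply w

omit [Fintype Ω] [DecidableEq Ω] in
theorem thresh_fix_inv {f : Perm Ω} {w : Ω} (h : f w = w) : f⁻¹ w = w := by
  conv_lhs => rw [← h]
  exact thresh_ia f w

/-- the commutator of `x` and its conjugate by `g` -/
def threshZ (x g : Perm Ω) : Perm Ω := x * (g * x * g⁻¹) * x⁻¹ * (g * x * g⁻¹)⁻¹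

omit [Fintype Ω] [DecidableEq Ω] in
theorem thresh_Z_apply (x g : Perm Ω) (w : Ω) :
    threshZ x g w = x (g (x (g⁻¹ (x⁻¹ (g (x⁻¹ (g⁻¹ w))))))) := by
  simp only [threshZ, mul_inv_rev, inv_inv, Perm.mul_apply]

omit [Fintype Ω] [DecidableEq Ω] in
/-- a moved point of the commutator, moved by `x` -/
theorem thresh_moved1 {x g : Perm Ω} {w : Ω} (h : threshZ x g w ≠ w) :
    x (g⁻¹ w) ≠ g⁻¹ w ∨ (x (g⁻¹ w) = g⁻¹ w ∧ x (g⁻¹ (x⁻¹ w)) ≠ g⁻¹ (x⁻¹ w)) := by
  by_cases h1 : x (g⁻¹ w) = g⁻¹ w
  · refine Or.inr ⟨h1, fun h2 => h ?_⟩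
    rw [thresh_Z_apply, thresh_fix_inv h1, thresh_ai g, h2, thresh_ai g, thresh_ai x]
  · exact Or.inl h1

omit [Fintype Ω] [DecidableEq Ω] in
/-- a moved point of the commutator, fixed by `x` -/
theorem thresh_moved2 {x g : Perm Ω} {w : Ω} (h : threshZ x g w ≠ w) (hw : x w = w) :
    x (g⁻¹ w) ≠ g⁻¹ w ∧ x (g (x⁻¹ (g⁻¹ w))) ≠ g (x⁻¹ (g⁻¹ w)) := by
  refine ⟨fun h1 => h ?_, fun h1 => h ?_⟩
  · rw [thresh_Z_apply, thresh_fix_inv h1, thresh_ai g, thresh_fix_inv hw, h1, thresh_ai g, hw]
  · rw [thresh_Z_apply, thresh_fix_inv h1, thresh_ia g, thresh_ai x, thresh_ai g, hw]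

omit [Fintype Ω] [DecidableEq Ω] in
theorem thresh_Z_mem {G : Subgroup (Perm Ω)} {x g : Perm Ω} (hx : x ∈ G) (hg : g ∈ G) :
    threshZ x g ∈ G := by
  have h1 : g * x * g⁻¹ ∈ G := mul_mem (mul_mem hg hx) (inv_mem hg)
  exact mul_mem (mul_mem (mul_mem hx h1) (inv_mem hx)) (inv_mem h1)

omit [Fintype Ω] [DecidableEq Ω] in
/-- the commutator is not trivial -/
theorem thresh_Z_ne {x g : Perm Ω} {a c : Ω} (ha : x a ≠ a) (hc : x c = c) (g1 : g a = a)
    (g2 : g c = x a) : threshZ x g ≠ 1 := by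
  intro h
  have h0 : threshZ x g (g (x (g⁻¹ (x a)))) = g (x (g⁻¹ (x a))) := by rw [h]; rfl
  rw [thresh_Z_apply, thresh_ia g, thresh_ia x, thresh_ai g, thresh_ia x] at h0
  have e1 : g⁻¹ (x a) = c := by rw [← g2, thresh_ia]
  have e2 : g⁻¹ a = a := thresh_fix_inv g1
  rw [e1, hc, g2, e2] at h0
  have h3 := x.injective h0
  have h4 : g (x a) = g a := by rw [h3, g1]
  exact ha (g.injective h4)

/-- number of `g` with a given moved point of the commutator, first case -/
theorem thresh_count1 {x : Perm Ω} {H : Finset (Perm Ω)} {a c : Ω} {K N : ℕ}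
    (ha : a ∈ x.support) (hc : c ∉ x.support) (hH : ∀ g ∈ H, g a = a ∧ g c = x a)
    (B2 : ∀ p q p' q', p ≠ a → p ≠ c → q ≠ a → q ≠ c → p ≠ q →
        (H.filter fun g => g p = p' ∧ g q = q').card ≤ K)
    (B1 : ∀ p p', p ≠ a → p ≠ c → (H.filter fun g => g p = p').card ≤ N)
    {w : Ω} (hw : w ∈ x.support) (hwa : w ≠ a) (hwb : w ≠ x a) :
    (H.filter fun g => threshZ x g w ≠ w).card ≤
      (x.support.card - 1) * N +
        (Fintype.card Ω - x.support.card - 1) * ((x.support.card - 1) * K) := by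
  have hsub : (H.filter fun g => threshZ x g w ≠ w) ⊆
      ((x.support.erase a).biUnion fun u => H.filter fun g => g u = w) ∪
      (((insert c x.support)ᶜ ×ˢ (x.support.erase a)).biUnion
        fun u => H.filter fun g => g u.1 = w ∧ g u.2 = x⁻¹ w) := by
    intro g hg
    rw [Finset.mem_filter] at hg
    obtain ⟨hgH, hgz⟩ := hg
    obtain ⟨g1, g2⟩ := hH g hgH
    rw [Finset.mem_union, Finset.mem_biUnion, Finset.mem_biUnion]
    rcases thresh_moved1 hgz with h | ⟨h, h'⟩
    · refine Or.inl ⟨g⁻¹ w, Finset.mem_erase.2 ⟨?_, Perm.mem_support.2 h⟩,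
        Finset.mem_filter.2 ⟨hgH, thresh_ai g w⟩⟩
      intro e
      apply hwa
      rw [← thresh_ai g w, e, g1]
    · refine Or.inr ⟨(g⁻¹ w, g⁻¹ (x⁻¹ w)), ?_,
        Finset.mem_filter.2 ⟨hgH, thresh_ai g w, thresh_ai g _⟩⟩
      rw [Finset.mem_product, Finset.mem_compl, Finset.mem_insert, Finset.mem_erase,
        Perm.mem_support, Perm.mem_support]
      refine ⟨?_, ?_, h'⟩
      · rintro (e | e)
        · apply hwb
          rw [← thresh_ai g w, show g⁻¹ w = c from e, g2]
        · exact e h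
      · intro e
        apply hwb
        have h1 : x⁻¹ w = a := by
          rw [← thresh_ai g (x⁻¹ w), show g⁻¹ (x⁻¹ w) = a from e, g1]
        rw [← h1, thresh_ai]
  calc _ ≤ _ := Finset.card_le_card hsub
    _ ≤ _ := Finset.card_union_le _ _
    _ ≤ (x.support.erase a).card * N +
        ((insert c x.support)ᶜ ×ˢ (x.support.erase a)).card * K := by
      refine Nat.add_le_add (Finset.card_biUnion_le_card_mul _ _ _ ?_)
        (Finset.card_biUnion_le_card_mul _ _ _ ?_)
      · intro u hu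
        rw [Finset.mem_erase] at hu
        exact B1 u w hu.1 (fun e => hc (e ▸ hu.2))
      · rintro ⟨u, v⟩ hu
        rw [Finset.mem_product, Finset.mem_compl, Finset.mem_insert, Finset.mem_erase] at hu
        obtain ⟨hu1, hu2, hu3⟩ := hu
        push Not at hu1
        refine B2 u v _ _ (fun e => hu1.2 (by rw [show u = a from e]; exact ha)) hu1.1 hu2
          (fun e => hc (e ▸ hu3)) (fun e => hu1.2 (by rw [show u = v from e]; exact hu3))
    _ = _ := by
      rw [Finset.card_product, Finset.card_erase_of_mem ha, Finset.card_compl,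
        Finset.card_insert_of_notMem hc, mul_assoc, Nat.sub_sub]

/-- number of `g` with a given moved point of the commutator, second case -/
theorem thresh_count2 {x : Perm Ω} {H : Finset (Perm Ω)} {a c : Ω} {K N : ℕ}
    (ha : a ∈ x.support) (hc : c ∉ x.support) (hH : ∀ g ∈ H, g a = a ∧ g c = x a)
    (B2 : ∀ p q p' q', p ≠ a → p ≠ c → q ≠ a → q ≠ c → p ≠ q →
        (H.filter fun g => g p = p' ∧ g q = q').card ≤ K)
    (B1 : ∀ p p', p ≠ a → p ≠ c → (H.filter fun g => g p = p').card ≤ N)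
    {w : Ω} (hw : w ∉ x.support) :
    (H.filter fun g => threshZ x g w ≠ w).card ≤
      N + (x.support.card - 2) * ((x.support.card - 2) * K) := by
  have hxa : x a ∈ x.support := by
    rw [Perm.mem_support] at ha ⊢
    exact fun e => ha (x.injective e)
  have hba : x a ≠ a := Perm.mem_support.1 ha
  have hxw : x w = w := by
    by_contra h
    exact hw (Perm.mem_support.2 h)
  have hsub : (H.filter fun g => threshZ x g w ≠ w) ⊆
      (H.filter fun g => g (x a) = w) ∪
      ((((x.support.erase a).erase (x a)) ×ˢ ((x.support.erase a).erase (x a))).biUnion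
        fun u => H.filter fun g => g u.1 = w ∧ g (x⁻¹ u.1) = u.2) := by
    intro g hg
    rw [Finset.mem_filter] at hg
    obtain ⟨hgH, hgz⟩ := hg
    obtain ⟨g1, g2⟩ := hH g hgH
    obtain ⟨h, h'⟩ := thresh_moved2 hgz hxw
    rw [Finset.mem_union, Finset.mem_biUnion]
    by_cases hb : g⁻¹ w = x a
    · refine Or.inl (Finset.mem_filter.2 ⟨hgH, ?_⟩)
      rw [← hb, thresh_ai]
    · refine Or.inr ⟨(g⁻¹ w, g (x⁻¹ (g⁻¹ w))), ?_,
        Finset.mem_filter.2 ⟨hgH, thresh_ai g w, rfl⟩⟩
      rw [Finset.mem_product, Finset.mem_erase, Finset.mem_erase, Finset.mem_erase,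
        Finset.mem_erase, Perm.mem_support, Perm.mem_support]
      refine ⟨⟨hb, ?_, h⟩, ?_, ?_, h'⟩
      · intro e
        apply hw
        have : w = a := by
          rw [← thresh_ai g w]
          exact (congrArg g e).trans g1
        rw [this]
        exact ha
      · intro e
        have e1 : x⁻¹ (g⁻¹ w) = c := g.injective (e.trans g2.symm)
        have e2 : g⁻¹ w = x c := by rw [← e1, thresh_ai]
        have hxc : x c = c := by
          by_contra h5
          exact hc (Perm.mem_support.2 h5)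
        rw [hxc] at e2
        apply h
        rw [e2, hxc]
      · intro e
        have e1 : x⁻¹ (g⁻¹ w) = a := g.injective (e.trans g1.symm)
        apply hb
        rw [← e1, thresh_ai]
  have hcard : ((x.support.erase a).erase (x a)).card = x.support.card - 2 := by
    rw [Finset.card_erase_of_mem (Finset.mem_erase.2 ⟨hba, hxa⟩), Finset.card_erase_of_mem ha,
      Nat.sub_sub]
  calc _ ≤ _ := Finset.card_le_card hsub
    _ ≤ _ := Finset.card_union_le _ _
    _ ≤ N + ((((x.support.erase a).erase (x a)) ×ˢ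
        ((x.support.erase a).erase (x a))).card) * K := by
      refine Nat.add_le_add (B1 _ _ hba (fun e => hc (e ▸ hxa)))
        (Finset.card_biUnion_le_card_mul _ _ _ ?_)
      rintro ⟨u, v⟩ hu
      rw [Finset.mem_product, Finset.mem_erase, Finset.mem_erase] at hu
      obtain ⟨⟨u1, u2, u3⟩, _⟩ := hu
      have hxu : x⁻¹ u ∈ x.support := by
        rw [Perm.mem_support, thresh_ai]
        intro e
        apply Perm.mem_support.1 u3
        conv_lhs => rw [show u = x⁻¹ u from e]
        exact thresh_ai x u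
      refine B2 u (x⁻¹ u) _ _ u2 (fun e => hc (e ▸ u3)) ?_ (fun e => hc (e ▸ hxu)) ?_
      · intro e
        apply u1
        change u = x a
        rw [← e, thresh_ai]
      · intro e
        apply Perm.mem_support.1 u3
        conv_lhs => rw [show u = x⁻¹ u from e]
        exact thresh_ai x u
    _ = _ := by
      rw [Finset.card_product, hcard, mul_assoc]

theorem thresh_step {G : Subgroup (Perm Ω)} (hn : 16 ≤ Fintype.card Ω) (h4 : Tr4 G) {x : Perm Ω}
    (hx : x ∈ G) (hs : 2 * x.support.card + 5 ≤ Fintype.card Ω) (hm : 4 ≤ x.support.card) :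
    ∃ z ∈ G, z ≠ 1 ∧ z.support.card < x.support.card := by
  obtain ⟨a, ha⟩ : x.support.Nonempty := Finset.card_pos.1 (by omega)
  obtain ⟨c, hc⟩ := thresh_pick x.support (by omega)
  have hba : x a ≠ a := Perm.mem_support.1 ha
  have hxa : x a ∈ x.support := by
    rw [Perm.mem_support]
    exact fun e => hba (x.injective e)
  have hac : a ≠ c := fun e => hc (e ▸ ha)
  have hxc : x c = c := by
    by_contra h
    exact hc (Perm.mem_support.2 h)
  obtain ⟨K, hK, B2, B1, BH⟩ := thresh_bounds h4 (by omega) hba.symm hac (c := c)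
  set H := threshH G a (x a) c with hH
  have hH' : ∀ g ∈ H, g ∈ G ∧ g a = a ∧ g c = x a := fun g hg => thresh_mem.1 hg
  by_contra hcon
  push Not at hcon
  have hge : ∀ g ∈ H, x.support.card ≤ (threshZ x g).support.card := by
    intro g hg
    obtain ⟨h1, h2, h3⟩ := hH' g hg
    exact hcon _ (thresh_Z_mem hx h1) (thresh_Z_ne hba hxc h2 h3)
  have h1 : x.support.card * H.card ≤ ∑ g ∈ H, (threshZ x g).support.card := by
    rw [mul_comm, ← smul_eq_mul, ← Finset.sum_const]
    exact Finset.sum_le_sum hge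
  have h2 : ∑ g ∈ H, (threshZ x g).support.card =
      ∑ w, (H.filter fun g => threshZ x g w ≠ w).card := by
    have e1 : ∀ g ∈ H, (threshZ x g).support.card =
        ∑ w, if threshZ x g w ≠ w then 1 else 0 := by
      intro g _
      rw [Finset.card_eq_sum_ones, Perm.support, Finset.sum_filter]
    rw [Finset.sum_congr rfl e1, Finset.sum_comm]
    refine Finset.sum_congr rfl fun w _ => ?_
    rw [Finset.card_eq_sum_ones, Finset.sum_filter]
  have hHG : ∀ g ∈ H, g a = a ∧ g c = x a := fun g hg => (hH' g hg).2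
  set m := x.support.card with hmm
  set n := Fintype.card Ω with hnn
  have h3 : ∑ w, (H.filter fun g => threshZ x g w ≠ w).card ≤
      2 * H.card + (m - 2) * ((m - 1) * ((n - 3) * K) + (n - m - 1) * ((m - 1) * K)) +
      (n - m) * ((n - 3) * K + (m - 2) * ((m - 2) * K)) := by
    rw [← Finset.sum_add_sum_compl x.support]
    refine Nat.add_le_add ?_ ?_
    · have hsplit : x.support = insert a (insert (x a) ((x.support.erase a).erase (x a))) := by
        rw [Finset.insert_erase (Finset.mem_erase.2 ⟨hba, hxa⟩), Finset.insert_erase ha]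
      have hcard : ((x.support.erase a).erase (x a)).card = m - 2 := by
        rw [Finset.card_erase_of_mem (Finset.mem_erase.2 ⟨hba, hxa⟩), Finset.card_erase_of_mem ha,
          Nat.sub_sub]
      rw [hsplit, Finset.sum_insert, Finset.sum_insert]
      · rw [← add_assoc]
        refine Nat.add_le_add ?_ ?_
        · rw [two_mul]
          exact Nat.add_le_add (Finset.card_filter_le _ _) (Finset.card_filter_le _ _)
        · rw [← hcard, ← smul_eq_mul (a := Finset.card _)]
          refine Finset.sum_le_card_nsmul _ _ _ ?_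
          intro w hw
          rw [Finset.mem_erase, Finset.mem_erase] at hw
          exact thresh_count1 ha hc hHG B2 B1 hw.2.2 hw.2.1 hw.1
      · simp
      · simp [hba.symm]
    · have hcard : (x.supportᶜ).card = n - m := Finset.card_compl _
      rw [← hcard, ← smul_eq_mul (a := Finset.card _)]
      refine Finset.sum_le_card_nsmul _ _ _ ?_
      intro w hw
      rw [Finset.mem_compl] at hw
      exact thresh_count2 ha hc hHG B2 B1 hw
  have h5 := thresh_arith hm hs hn hK
  have h6 : (m - 2) * ((n - 2) * (n - 3) * K) ≤ (m - 2) * H.card := Nat.mul_le_mul_left _ BH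
  have h7 : 2 * H.card + (m - 2) * H.card = m * H.card := by
    rw [← add_mul]
    congr 1
    omega
  omega

theorem an_of_tr4 {Ω : Type*} [Fintype Ω] [DecidableEq Ω] {G : Subgroup (Perm Ω)}
    (hn : 16 ≤ Fintype.card Ω) (h4 : Tr4 G) {x : Perm Ω} (hx : x ∈ G) (hx1 : x ≠ 1)
    (hs : 2 * x.support.card + 5 ≤ Fintype.card Ω) : alternatingGroup Ω ≤ G := by
  have hP : MulAction.IsPreprimitive G Ω := by
    apply MulAction.isPreprimitive_of_is_two_pretransitive
    rw [MulAction.is_two_pretransitive_iff]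
    intro a b c d hab hcd
    obtain ⟨p, q, h1, h2, h3, h5, h6⟩ := thresh_pick2 a b (by omega)
    obtain ⟨p', q', h1', h2', h3', h5', h6'⟩ := thresh_pick2 c d (by omega)
    obtain ⟨g, hg, e1, e2, _, _⟩ := h4 a b p q c d p' q' (thresh_nodup hab h1 h2 h3 h5 h6)
      (thresh_nodup hcd h1' h2' h3' h5' h6')
    exact ⟨⟨g, hg⟩, e1, e2⟩
  induction hm : x.support.card using Nat.strong_induction_on generalizing x with
  | _ m ih =>
    rcases Nat.lt_or_ge m 4 with h | h
    · have h0 : 0 < m := by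
        rw [← hm]
        exact Nat.pos_of_ne_zero fun e => hx1 (Perm.support_eq_empty_iff.1 (Finset.card_eq_zero.1 e))
      have h1 : m ≠ 1 := by
        rw [← hm]
        exact Perm.card_support_ne_one x
      rcases (show m = 2 ∨ m = 3 by omega) with rfl | rfl
      · rw [Perm.subgroup_eq_top_of_isPreprimitive_of_isSwap_mem hP x
          (Perm.card_support_eq_two.1 hm) hx]
        exact le_top
      · exact Perm.alternatingGroup_le_of_isPreprimitive_of_isThreeCycle_mem hP
          (card_support_eq_three_iff.1 hm) hx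
    · obtain ⟨z, hz, hz1, hz2⟩ := thresh_step hn h4 hx hs (by omega)
      exact ih z.support.card (by omega) hz hz1 (by omega) rfl

end thresh

end TT
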