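import Pool.Agent.Lib.MP_db1bc6_al.Small
import Pool.Agent.Lib.MP_db1bc6_al.Odd
import Pool.Agent.Lib.MP_db1bc6_al.LR
import Pool.Agent.Lib.MP_db1bc6_al.RunsEx
import Pool.Agent.Lib.MP_db1bc6_al.FamA
import Pool.Agent.Lib.MP_db1bc6_al.FamB
import Pool.Agent.Lib.MP_db1bc6_al.Special
import Pool.Agent.Lib.MP_db1bc6_al.SmallK
import Pool.Agent.Lib.MP_db1bc6_al.Thresh
import Pool.Agent.Lib.MP_db1bc6_al.Prim

/-! # All chains -/

namespace TT

open Equiv

theorem tr4_all {k : ℕ} {s : ℕ → Bool} (hk : 10 ≤ k) (h0 : s 0 = false)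
    (h1 : ∃ i, i + 1 < k ∧ s i = true) : Tr4 (Gs k s) := by
  classical
  have hex : ∃ i, s i = true := by
    obtain ⟨i, -, hi⟩ := h1
    exact ⟨i, hi⟩
  let r := Nat.find hex
  have hr : s r = true := Nat.find_spec hex
  have hlt : ∀ i < r, s i = false := fun i hi => by
    simpa using Nat.find_min hex hi
  have hr1 : 1 ≤ r := by
    rcases Nat.eq_zero_or_pos r with h | h
    · rw [h] at hr; rw [hr] at h0; exact absurd h0 (by decide)
    · exact h
  have hrk : r + 2 ≤ k := by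
    obtain ⟨i, hi, hsi⟩ := h1
    have : r ≤ i := Nat.find_min' hex hsi
    omega
  rcases le_or_gt r 5 with h5 | h5
  · exact tr4_small hk hr1 h5 hlt hr
  · rcases Nat.even_or_odd r with he | ho
    · exact tr4_even h5 he hrk hlt hr
    · refine tr4_odd ?_ ho hrk hlt hr
      rcases ho with ⟨m, hm⟩
      omega

theorem good_all {k : ℕ} {s : ℕ → Bool} (hk : 10 ≤ k) (h0 : s 0 = false) : Good k s := by
  obtain ⟨l, ls, h⟩ := exists_runs (k := k) (s := s) (by omega) h0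
  have hk' : l + ls.sum + 1 = k := by simpa using h.2.1
  have hw : (rl k s w3) ^ 12 ∈ Gs k s := pow_mem (rl_mem k s w3) 12
  by_cases hB : l = 3 ∧ ∀ m ∈ ls, m = 1 ∨ m = 4
  · obtain ⟨rfl, hls⟩ := hB
    by_cases hne : ls = [4, 1, 1, 4, 1, 1, 4, 4]
    · subst hne
      exact good_special h (by simp)
    · exact ⟨_, hw, famB_ne h hls hk hne, famB h hls hk⟩
  by_cases hA : (l = 2 ∨ l = 7) ∧ ∀ m ∈ ls, m = 3 ∨ m = 8
  · by_cases hne : l = 2 ∧ ls = [8]
    · obtain ⟨rfl, rfl⟩ := hne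
      exact good_special h (by simp)
    · exact ⟨_, hw, famA_ne h hA.1 hA.2 hk, famA h hA.1 hA.2 hk hne⟩
  by_cases hP : l = 1 ∧ ∀ m ∈ ls, m = 2
  · obtain ⟨rfl, hls⟩ := hP
    by_cases hne : ls.length = 7
    · have : ls = List.replicate 7 2 := by
        rw [List.eq_replicate_iff]
        exact ⟨hne, hls⟩
      subst this
      exact good_special h (by simp [List.replicate])
    · exact ⟨_, hw, famP_ne h hls hk hne, famP h hls hk⟩
  by_cases hE : ¬ (l = 4 ∧ ls = [5]) ∧ ¬ (l = 4 ∧ ls = [6]) ∧ ¬ (l = 5 ∧ ls = [5]) ∧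
      ¬ (l = 4 ∧ ls = [5, 5])
  · obtain ⟨M, hM, hne, hle⟩ := arith (h.1 l (by simp)) (fun m hm => h.1 m (by simp [hm]))
      (by omega) hB hA hP hE
    refine ⟨_, pow_mem (rl_mem k s [false, true]) M, lr_ne h hM hne, ?_⟩
    have := lr_supp h hM
    rw [hk'] at hle
    omega
  · apply good_special h
    by_contra hcon
    apply hE
    refine ⟨?_, ?_, ?_, ?_⟩
    all_goals
      rintro ⟨rfl, rfl⟩
      exact hcon (by simp)

theorem chain_big {k : ℕ} {s : ℕ → Bool} (hk : 10 ≤ k) (h0 : s 0 = false)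
    (h1 : ∃ i, i + 1 < k ∧ s i = true) : alternatingGroup (Om k) ≤ Gs k s := by
  obtain ⟨x, hx, hx1, hs⟩ := good_all hk h0
  refine an_of_tr4 ?_ (tr4_all hk h0 h1) hx hx1 ?_
  · simp only [Fintype.card_fin]; omega
  · simpa [Fintype.card_fin] using hs

theorem chain_false {k : ℕ} {s : ℕ → Bool} (hk : 3 ≤ k) (h0 : s 0 = false)
    (hex : ¬ (k = 4 ∧ s 1 = false ∧ s 2 = true)) : alternatingGroup (Om k) ≤ Gs k s := by
  rcases le_or_gt k 9 with h9 | h9
  · exact chain_small hk h9 h0 hex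
  · by_cases h1 : ∃ i, i + 1 < k ∧ s i = true
    · exact chain_big h9 h0 h1
    · refine chain_const h9 fun i hi => ?_
      by_contra hcon
      exact h1 ⟨i, hi, by simpa using hcon⟩

theorem chain_all {k : ℕ} {s : ℕ → Bool} (hk : 3 ≤ k)
    (hex : ¬ (k = 4 ∧ s 0 = s 1 ∧ s 1 ≠ s 2)) : alternatingGroup (Om k) ≤ Gs k s := by
  cases h0 : s 0
  · refine chain_false hk h0 ?_
    rintro ⟨h4, h1, h2⟩
    exact hex ⟨h4, by rw [h0, h1], by rw [h1, h2]; decide⟩
  · apply mirror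
    refine chain_false hk (by simp [h0]) ?_
    rintro ⟨h4, h1, h2⟩
    simp only [Bool.not_eq_false', Bool.not_eq_true'] at h1 h2
    exact hex ⟨h4, by rw [h0, h1], by rw [h1, h2]; decide⟩

end TT
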