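import Pool.Agent.Lib.MP_db1bc6_al.Base

/-! # 4-transitivity from local words -/

namespace TT

open Equiv

theorem inv_app {Ω : Type*} (g : Perm Ω) (x : Ω) : g⁻¹ (g x) = x := by simp

theorem tr4_engine {Ω : Type*} (G : Subgroup (Perm Ω)) (T : Perm Ω) (hT : T ∈ G)
    (r a b z : Ω) (hra : r ≠ a) (hrb : r ≠ b) (hab : a ≠ b) (c : ℕ) (hc : 0 < c) (d : ℕ → Ω)
    (Z : Set Ω) (hr : T r = r) (ha : (T ^ c) a = a) (hb : (T ^ c) b = b)
    (hd : ∀ i, i + 1 < c → T (d i) = d (i + 1))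
    (hcov : ∀ x, x = r ∨ x = a ∨ x = b ∨ x ∈ Z ∨ T.SameCycle (d 0) x)
    (hw : ∀ x, (x ∈ Z ∨ ∃ i < c, x = d i) → ∃ g ∈ G, g r = r ∧ g a = a ∧ g b = b ∧ g z = x)
    (h3 : ∃ g ∈ G, g r = r ∧ g a = a ∧ g b ≠ b) (h2 : ∃ g ∈ G, g r = r ∧ g a ≠ a)
    (h1 : ∀ x, ∃ g ∈ G, g r = x) : Tr4 G := by
  -- powers of `T ^ c`
  have fixz : ∀ (U : Perm Ω) (x : Ω), U x = x → ∀ q : ℤ, (U ^ q) x = x := by
    intro U x hx q
    have h0 : U ∈ MulAction.stabilizer (Perm Ω) x := hx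
    exact zpow_mem h0 q
  have hTr : ∀ q : ℤ, ((T ^ c) ^ q) r = r := fixz _ _ (by
    have h0 : T ∈ MulAction.stabilizer (Perm Ω) r := hr
    exact pow_mem h0 c)
  have hTa : ∀ q : ℤ, ((T ^ c) ^ q) a = a := fixz _ _ ha
  have hTb : ∀ q : ℤ, ((T ^ c) ^ q) b = b := fixz _ _ hb
  have hdi : ∀ i : ℕ, i < c → (T ^ i) (d 0) = d i := by
    intro i
    induction i with
    | zero => intro _; rfl
    | succ i ih =>
      intro hi
      rw [pow_succ', Perm.mul_apply, ih (by omega), hd i hi]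
  -- the stabilizer of three points is transitive on the rest
  have hz : ∀ x, x ≠ r → x ≠ a → x ≠ b → ∃ g ∈ G, g r = r ∧ g a = a ∧ g b = b ∧ g z = x := by
    intro x xr xa xb
    rcases hcov x with h | h | h | h | h
    · exact (xr h).elim
    · exact (xa h).elim
    · exact (xb h).elim
    · exact hw x (Or.inl h)
    · obtain ⟨m, hm⟩ := h
      have hc' : (0 : ℤ) < c := by exact_mod_cast hc
      have h4 := Int.emod_nonneg m hc'.ne'
      have h5 := Int.emod_lt_of_pos m hc'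
      have h6 := Int.mul_ediv_add_emod m c
      obtain ⟨i, hi⟩ : ∃ i : ℕ, m % (c : ℤ) = i := ⟨(m % (c : ℤ)).toNat, (Int.toNat_of_nonneg h4).symm⟩
      rw [hi] at h5 h6
      have hic : i < c := by exact_mod_cast h5
      obtain ⟨g, hg, g1, g2, g3, g4⟩ := hw (d i) (Or.inr ⟨i, hic, rfl⟩)
      refine ⟨(T ^ c) ^ (m / (c : ℤ)) * g, mul_mem (zpow_mem (pow_mem hT c) _) hg, ?_, ?_, ?_, ?_⟩
      · rw [Perm.mul_apply, g1, hTr]
      · rw [Perm.mul_apply, g2, hTa]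
      · rw [Perm.mul_apply, g3, hTb]
      · rw [Perm.mul_apply, g4, ← hdi i hic, ← hm, ← Perm.mul_apply]
        conv_rhs => rw [← h6]
        rw [zpow_add, zpow_mul, zpow_natCast, zpow_natCast]
  have t3 : ∀ x y, x ≠ r → x ≠ a → x ≠ b → y ≠ r → y ≠ a → y ≠ b →
      ∃ g ∈ G, g r = r ∧ g a = a ∧ g b = b ∧ g x = y := by
    intro x y xr xa xb yr ya yb
    obtain ⟨g, hg, g1, g2, g3, g4⟩ := hz x xr xa xb
    obtain ⟨h, hh, e1, e2, e3, e4⟩ := hz y yr ya yb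
    refine ⟨h * g⁻¹, mul_mem hh (inv_mem hg), ?_, ?_, ?_, ?_⟩
    · rw [Perm.mul_apply, Perm.inv_eq_iff_eq.2 g1.symm, e1]
    · rw [Perm.mul_apply, Perm.inv_eq_iff_eq.2 g2.symm, e2]
    · rw [Perm.mul_apply, Perm.inv_eq_iff_eq.2 g3.symm, e3]
    · rw [Perm.mul_apply, Perm.inv_eq_iff_eq.2 g4.symm, e4]
  -- the stabilizer of two points
  have t2 : ∀ x, x ≠ r → x ≠ a → ∃ g ∈ G, g r = r ∧ g a = a ∧ g x = b := by
    intro x xr xa
    by_cases xb : x = b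
    · exact ⟨1, one_mem _, rfl, rfl, by rw [xb]; rfl⟩
    obtain ⟨g, hg, g1, g2, g3⟩ := h3
    have n1 : g b ≠ r := fun h => hrb (g.injective (by rw [h, g1]))
    have n2 : g b ≠ a := fun h => hab (g.injective (by rw [h, g2]))
    obtain ⟨h, hh, e1, e2, e3, e4⟩ := t3 x (g b) xr xa xb n1 n2 g3
    refine ⟨g⁻¹ * h, mul_mem (inv_mem hg) hh, ?_, ?_, ?_⟩
    · rw [Perm.mul_apply, e1, Perm.inv_eq_iff_eq.2 g1.symm]
    · rw [Perm.mul_apply, e2, Perm.inv_eq_iff_eq.2 g2.symm]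
    · rw [Perm.mul_apply, e4, inv_app]
  have t1 : ∀ x, x ≠ r → ∃ g ∈ G, g r = r ∧ g x = a := by
    intro x xr
    obtain ⟨g, hg, g1, g2⟩ := h2
    have n1 : g a ≠ r := fun h => hra (g.injective (by rw [h, g1]))
    obtain ⟨h, hh, e1, e2, e3⟩ := t2 (g a) n1 g2
    by_cases xa : x = a
    · exact ⟨1, one_mem _, rfl, by rw [xa]; rfl⟩
    obtain ⟨h', hh', e1', e2', e3'⟩ := t2 x xr xa
    refine ⟨g⁻¹ * (h⁻¹ * h'), mul_mem (inv_mem hg) (mul_mem (inv_mem hh) hh'), ?_, ?_⟩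
    · rw [Perm.mul_apply, Perm.mul_apply, e1', Perm.inv_eq_iff_eq.2 e1.symm,
        Perm.inv_eq_iff_eq.2 g1.symm]
    · rw [Perm.mul_apply, Perm.mul_apply, e3', ← e3, inv_app, inv_app]
  -- every triple is equivalent to `r, a, b`
  have key : ∀ p q u v : Ω, [p, q, u, v].Nodup → ∃ g ∈ G, g p = r ∧ g q = a ∧ g u = b ∧
      g v ≠ r ∧ g v ≠ a ∧ g v ≠ b := by
    intro p q u v hn
    simp only [List.nodup_cons, List.mem_cons, List.not_mem_nil, or_false, not_or,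
      not_false_eq_true, List.nodup_nil, and_true] at hn
    obtain ⟨⟨pq, pu, pv⟩, ⟨qu, qv⟩, uv⟩ := hn
    obtain ⟨g, hg, g1⟩ := h1 p
    have g1' : g⁻¹ p = r := Perm.inv_eq_iff_eq.2 g1.symm
    obtain ⟨h, hh, e1, e2⟩ := t1 (g⁻¹ q) (fun h => pq (g⁻¹.injective (by rw [h, g1'])))
    have e3 : h (g⁻¹ u) ≠ r := fun e => pu (g⁻¹.injective (h.injective (by rw [g1', e1, e])))
    have e4 : h (g⁻¹ u) ≠ a := fun e => qu (g⁻¹.injective (h.injective (by rw [e2, e])))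
    obtain ⟨j, hj, j1, j2, j3⟩ := t2 (h (g⁻¹ u)) e3 e4
    refine ⟨j * (h * g⁻¹), mul_mem hj (mul_mem hh (inv_mem hg)), ?_, ?_, ?_, ?_, ?_, ?_⟩
    · simp only [Perm.mul_apply]; rw [g1', e1, j1]
    · simp only [Perm.mul_apply]; rw [e2, j2]
    · simp only [Perm.mul_apply]; rw [j3]
    · simp only [Perm.mul_apply]
      exact fun e => pv (g⁻¹.injective (h.injective (j.injective (by rw [g1', e1, j1, e]))))
    · simp only [Perm.mul_apply]
      exact fun e => qv (g⁻¹.injective (h.injective (j.injective (by rw [e2, j2, e]))))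
    · simp only [Perm.mul_apply]
      exact fun e => uv (g⁻¹.injective (h.injective (j.injective (by rw [j3, e]))))
  intro p q u v p' q' u' v' hn hn'
  obtain ⟨g, hg, g1, g2, g3, g4, g5, g6⟩ := key p q u v hn
  obtain ⟨h, hh, e1, e2, e3, e4, e5, e6⟩ := key p' q' u' v' hn'
  obtain ⟨j, hj, j1, j2, j3, j4⟩ := t3 (g v) (h v') g4 g5 g6 e4 e5 e6
  refine ⟨h⁻¹ * (j * g), mul_mem (inv_mem hh) (mul_mem hj hg), ?_, ?_, ?_, ?_⟩
  · simp only [Perm.mul_apply]; rw [g1, j1, Perm.inv_eq_iff_eq, e1]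
  · simp only [Perm.mul_apply]; rw [g2, j2, Perm.inv_eq_iff_eq, e2]
  · simp only [Perm.mul_apply]; rw [g3, j3, Perm.inv_eq_iff_eq, e3]
  · simp only [Perm.mul_apply]; rw [j4, inv_app]

end TT
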