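import Mathlib

/-! # The groups of the coloured trees -/

namespace TriTree

open Equiv

/-- The vertices of the tree `T_k`: `none` is the common end point of the three paths and
`some (j, t)` is the vertex at distance `j + 1` from it on the path `P_t`. -/
abbrev Vert (k : ℕ) := Option (Fin k × ZMod 3)

/-- The end point, closer to the vertex `none`, of the edge number `j + 1` of the path `P_t`; the
other end point of this edge is `some (j, t)`. -/
def lower {k : ℕ} (j : Fin k) (t : ZMod 3) : Vert k :=
  if j.val = 0 then none else some (⟨j.val - 1, lt_of_le_of_lt (Nat.sub_le _ _) j.isLt⟩, t)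

/-- A colouring of `T_k` is given by the colours `φ j` of the edges number `j + 1` of the path
`P_0`; the edge number `j + 1` of the path `P_t` gets the colour `φ j + t`. It is admissible if
consecutive edges of `P_0` have different colours. -/
def Admissible {k : ℕ} (φ : Fin k → ZMod 3) : Prop :=
  ∀ i j : Fin k, i.val + 1 = j.val → φ i ≠ φ j

/-- The product of the transpositions of the end points of the edges of colour `c`: the edge
number `j + 1` of colour `c` is the one on the path `P_t` with `t = c - φ j`. -/
def rho {k : ℕ} (φ : Fin k → ZMod 3) (c : ZMod 3) : Perm (Vert k) :=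
  ((List.finRange k).map fun j => swap (lower j (c - φ j)) (some (j, c - φ j))).prod

/-- The group generated by the three involutions. -/
def G {k : ℕ} (φ : Fin k → ZMod 3) : Subgroup (Perm (Vert k)) :=
  Subgroup.closure (Set.range (rho φ))

/-- The colourings with colour differences `d, d, -d` along `P_0`, for `k = 4`. -/
def Exceptional {k : ℕ} (φ : Fin k → ZMod 3) : Prop :=
  ∃ h : k = 4, φ ⟨1, by omega⟩ - φ ⟨0, by omega⟩ = φ ⟨2, by omega⟩ - φ ⟨1, by omega⟩ ∧
    φ ⟨2, by omega⟩ - φ ⟨1, by omega⟩ ≠ φ ⟨3, by omega⟩ - φ ⟨2, by omega⟩

end TriTree
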