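import Mathlib
import Pool.Agent.Lib.MP_db1bc6_al.Stmt

/-! # The case `k = 2`: the group is isomorphic to `PSL(2, 7)`

The seven vertices are identified with the seven pairs of complementary blocks (translates of
`{∞, 0, 1, 3}` and their complements) of the projective line over the field with seven elements,
which are permuted by `SL(2, 7)`. -/

namespace TriTree

open Equiv Matrix

/-- The matrix of an element of `SL(2, 7)`. -/
def Exc2_m (g : SpecialLinearGroup (Fin 2) (ZMod 7)) : Matrix (Fin 2) (Fin 2) (ZMod 7) := ↑g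

theorem Exc2_m_mul (g h : SpecialLinearGroup (Fin 2) (ZMod 7)) :
    Exc2_m (g * h) = Exc2_m g * Exc2_m h := Matrix.SpecialLinearGroup.coe_mul g h

theorem Exc2_m_one : Exc2_m 1 = 1 := Matrix.SpecialLinearGroup.coe_one

/-- The set of vectors of the block of a vertex, as a number in binary. -/
def Exc2_mask (i : Vert 2) : ℕ :=
  match i with
  | none => 130422402112640
  | some (j, t) => [172540554015360, 50752926574846, 366393253520768, 215891777439486,
      305170603004414, 465409050790784].getD (3 * j.val + t.val) 0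

/-- The indicator function of the block of a vertex. -/
def Exc2_s (i : Vert 2) (x y : ZMod 7) : Bool := (Exc2_mask i).testBit (7 * x.val + y.val)

/-- The matrix `g` permutes the pairs of blocks according to `p`. -/
def Exc2_R (g : SpecialLinearGroup (Fin 2) (ZMod 7)) (p : Perm (Vert 2)) : Prop :=
  ∀ i, ∃ ε : Bool, ∀ v : Fin 2 → ZMod 7, v ≠ 0 →
    Exc2_s (p i) (((Exc2_m g).mulVec v) 0) (((Exc2_m g).mulVec v) 1) = xor ε (Exc2_s i (v 0) (v 1))

theorem Exc2_sep : ∀ i j : Vert 2, (∃ ε : Bool, ∀ x y : ZMod 7, (x ≠ 0 ∨ y ≠ 0) →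
    Exc2_s i x y = xor ε (Exc2_s j x y)) → i = j := by
  decide

theorem Exc2_scal : ∀ r : ZMod 7, r ≠ 0 → ∀ i : Vert 2, ∀ x y : ZMod 7,
    Exc2_s i (r * x) (r * y) = Exc2_s i x y := by
  decide

theorem Exc2_ne (g : SpecialLinearGroup (Fin 2) (ZMod 7)) {v : Fin 2 → ZMod 7} (hv : v ≠ 0) :
    (Exc2_m g).mulVec v ≠ 0 := by
  intro h
  apply hv
  have h1 : (Exc2_m g⁻¹).mulVec ((Exc2_m g).mulVec v) = v := by
    rw [mulVec_mulVec, ← Exc2_m_mul, inv_mul_cancel, Exc2_m_one, one_mulVec]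
  rw [← h1, h, mulVec_zero]

theorem Exc2_mul {g h : SpecialLinearGroup (Fin 2) (ZMod 7)} {p q : Perm (Vert 2)}
    (hg : Exc2_R g p) (hh : Exc2_R h q) : Exc2_R (g * h) (p * q) := by
  intro i
  obtain ⟨ε, hε⟩ := hg (q i)
  obtain ⟨δ, hδ⟩ := hh i
  refine ⟨xor ε δ, fun v hv => ?_⟩
  have h1 := hε _ (Exc2_ne h hv)
  rw [Exc2_m_mul, ← mulVec_mulVec, Perm.mul_apply, h1, hδ v hv, Bool.xor_assoc]

theorem Exc2_unique {g : SpecialLinearGroup (Fin 2) (ZMod 7)} {p q : Perm (Vert 2)}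
    (hp : Exc2_R g p) (hq : Exc2_R g q) : p = q := by
  apply Equiv.ext
  intro i
  apply Exc2_sep
  obtain ⟨ε, hε⟩ := hp i
  obtain ⟨δ, hδ⟩ := hq i
  refine ⟨xor ε δ, fun x y hxy => ?_⟩
  set w : Fin 2 → ZMod 7 := ![x, y] with hw
  have hw0 : w ≠ 0 := by
    intro h
    have h0 := congrFun h 0
    have h1 := congrFun h 1
    simp [hw] at h0 h1
    rcases hxy with h | h
    · exact h h0
    · exact h h1
  have hv0 := Exc2_ne g⁻¹ hw0
  have h1 : (Exc2_m g).mulVec ((Exc2_m g⁻¹).mulVec w) = w := by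
    rw [mulVec_mulVec, ← Exc2_m_mul, mul_inv_cancel, Exc2_m_one, one_mulVec]
  have h2 := hε _ hv0
  have h3 := hδ _ hv0
  rw [h1] at h2 h3
  have hw1 : w 0 = x := rfl
  have hw2 : w 1 = y := rfl
  rw [hw1, hw2] at h2 h3
  rw [h2, h3]
  cases ε <;> cases δ <;> simp

theorem Exc2_one : Exc2_R 1 1 := by
  intro i
  refine ⟨false, fun v _ => ?_⟩
  rw [Exc2_m_one, one_mulVec, Perm.one_apply, Bool.false_xor]

theorem Exc2_of (g : SpecialLinearGroup (Fin 2) (ZMod 7)) (a b c d : ZMod 7)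
    (hg : Exc2_m g = !![a, b; c, d]) (p : Perm (Vert 2)) (f : Vert 2 → Vert 2) (hf : ∀ i, p i = f i)
    (h : ∀ i, ∃ ε : Bool, ∀ x y : ZMod 7,
      Exc2_s (f i) (a * x + b * y) (c * x + d * y) = xor ε (Exc2_s i x y) ∨ (x = 0 ∧ y = 0)) :
    Exc2_R g p := by
  intro i
  obtain ⟨ε, hε⟩ := h i
  refine ⟨ε, fun v hv => ?_⟩
  have h0 : ((Exc2_m g).mulVec v) 0 = a * v 0 + b * v 1 := by
    rw [hg]; simp [Matrix.mulVec, dotProduct, Fin.sum_univ_two]
  have h1 : ((Exc2_m g).mulVec v) 1 = c * v 0 + d * v 1 := by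
    rw [hg]; simp [Matrix.mulVec, dotProduct, Fin.sum_univ_two]
  rw [h0, h1, hf]
  rcases hε (v 0) (v 1) with h2 | ⟨h2, h3⟩
  · exact h2
  · exfalso
    apply hv
    ext i
    fin_cases i
    · exact h2
    · exact h3

/-- the vertex with a given number -/
def Exc2_v (n : ℕ) : Vert 2 :=
  if n = 0 then none else some (⟨((n - 1) / 3) % 2, Nat.mod_lt _ (by norm_num)⟩, ((n - 1 : ℕ) : ZMod 3))

/-- the number of a vertex -/
def Exc2_n (i : Vert 2) : ℕ :=
  match i with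
  | none => 0
  | some (j, t) => 3 * j.val + t.val + 1

/-- the function with a given table -/
def Exc2_f (l : List ℕ) (i : Vert 2) : Vert 2 := Exc2_v (l.getD (Exc2_n i) 0)

/-- the colouring `0, 1` -/
def Exc2_phi : Fin 2 → ZMod 3 := ![0, 1]

theorem Exc2_rho0 : ∀ i, rho Exc2_phi 0 i = Exc2_f [1, 0, 2, 6, 4, 5, 3] i := by decide

theorem Exc2_rho1 : ∀ i, rho Exc2_phi 1 i = Exc2_f [2, 4, 0, 3, 1, 5, 6] i := by decide

theorem Exc2_rho2 : ∀ i, rho Exc2_phi 2 i = Exc2_f [3, 1, 5, 0, 4, 2, 6] i := by decide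

theorem Exc2_w1 : ∀ i, (rho Exc2_phi 2 * rho Exc2_phi 0 * rho Exc2_phi 2 * rho Exc2_phi 1 *
    rho Exc2_phi 2) i = Exc2_f [1, 4, 5, 2, 3, 6, 0] i := by decide

theorem Exc2_w2 : ∀ i, (rho Exc2_phi 1 * rho Exc2_phi 2 * rho Exc2_phi 0) i =
    Exc2_f [4, 3, 5, 6, 1, 0, 2] i := by decide

theorem Exc2_g0 : Exc2_R ⟨!![3, 4; 1, 4], by decide⟩ (rho Exc2_phi 0) :=
  Exc2_of _ 3 4 1 4 rfl _ _ Exc2_rho0 (by decide)

theorem Exc2_g1 : Exc2_R ⟨!![3, 3; 6, 4], by decide⟩ (rho Exc2_phi 1) :=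
  Exc2_of _ 3 3 6 4 rfl _ _ Exc2_rho1 (by decide)

theorem Exc2_g2 : Exc2_R ⟨!![0, 1; 6, 0], by decide⟩ (rho Exc2_phi 2) :=
  Exc2_of _ 0 1 6 0 rfl _ _ Exc2_rho2 (by decide)

theorem Exc2_t1 (h : (0 : Fin 2) ≠ 1) : Exc2_R (Matrix.SpecialLinearGroup.transvection h 1)
    (rho Exc2_phi 2 * rho Exc2_phi 0 * rho Exc2_phi 2 * rho Exc2_phi 1 * rho Exc2_phi 2) := by
  refine Exc2_of _ 1 1 0 1 ?_ _ _ Exc2_w1 (by decide)
  unfold Exc2_m
  rw [Matrix.SpecialLinearGroup.transvection_coe]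
  decide

theorem Exc2_t2 (h : (1 : Fin 2) ≠ 0) : Exc2_R (Matrix.SpecialLinearGroup.transvection h 1)
    (rho Exc2_phi 1 * rho Exc2_phi 2 * rho Exc2_phi 0) := by
  refine Exc2_of _ 1 0 1 1 ?_ _ _ Exc2_w2 (by decide)
  unfold Exc2_m
  rw [Matrix.SpecialLinearGroup.transvection_coe]
  decide

theorem Exc2_mem (c : ZMod 3) : rho Exc2_phi c ∈ G Exc2_phi :=
  Subgroup.subset_closure ⟨c, rfl⟩

theorem Exc2_pow {i j : Fin 2} (h : i ≠ j) (p : Perm (Vert 2)) (hp : p ∈ G Exc2_phi)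
    (hR : Exc2_R (Matrix.SpecialLinearGroup.transvection h 1) p) (c : ZMod 7) :
    ∃ q ∈ G Exc2_phi, Exc2_R (Matrix.SpecialLinearGroup.transvection h c) q := by
  have key : ∀ n : ℕ, ∃ q ∈ G Exc2_phi,
      Exc2_R (Matrix.SpecialLinearGroup.transvection h (n : ZMod 7)) q := by
    intro n
    induction n with
    | zero =>
      refine ⟨1, one_mem _, ?_⟩
      rw [Nat.cast_zero, Matrix.SpecialLinearGroup.transvection_coeff_zero]
      exact Exc2_one
    | succ n ih =>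
      obtain ⟨q, hq, hqR⟩ := ih
      refine ⟨q * p, mul_mem hq hp, ?_⟩
      rw [Nat.cast_succ, Matrix.SpecialLinearGroup.transvection_add]
      exact Exc2_mul hqR hR
  have := key c.val
  rwa [ZMod.natCast_zmod_val] at this

instance Exc2_fact : Fact (Nat.Prime 7) := ⟨by norm_num⟩

theorem Exc2_ex (g : Matrix.SpecialLinearGroup (Fin 2) (ZMod 7)) :
    ∃ p ∈ G Exc2_phi, Exc2_R g p := by
  refine SL2.transvection_induction
    (fun g : Matrix.SpecialLinearGroup (Fin 2) (ZMod 7) => ∃ p ∈ G Exc2_phi, Exc2_R g p)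
    ?_ ?_ g
  · intro i j h c
    have hm := Exc2_mem
    fin_cases i <;> fin_cases j
    · exact absurd rfl h
    · exact Exc2_pow h _ (mul_mem (mul_mem (mul_mem (mul_mem (hm 2) (hm 0)) (hm 2)) (hm 1))
        (hm 2)) (Exc2_t1 h) c
    · exact Exc2_pow h _ (mul_mem (mul_mem (hm 1) (hm 2)) (hm 0)) (Exc2_t2 h) c
    · exact absurd rfl h
  · rintro A B ⟨p, hp, hpR⟩ ⟨q, hq, hqR⟩
    exact ⟨p * q, mul_mem hp hq, Exc2_mul hpR hqR⟩

/-- The action of `SL(2, 7)` on the vertices. -/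
noncomputable def Exc2_hom : Matrix.SpecialLinearGroup (Fin 2) (ZMod 7) →* G Exc2_phi where
  toFun g := ⟨(Exc2_ex g).choose, (Exc2_ex g).choose_spec.1⟩
  map_one' := Subtype.ext (Exc2_unique (Exc2_ex 1).choose_spec.2 Exc2_one)
  map_mul' g h := Subtype.ext (Exc2_unique (Exc2_ex (g * h)).choose_spec.2
    (Exc2_mul (Exc2_ex g).choose_spec.2 (Exc2_ex h).choose_spec.2))

theorem Exc2_hom_eq {g : Matrix.SpecialLinearGroup (Fin 2) (ZMod 7)} {p : Perm (Vert 2)}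
    (h : Exc2_R g p) : ((Exc2_hom g : G Exc2_phi) : Perm (Vert 2)) = p :=
  Exc2_unique (Exc2_ex g).choose_spec.2 h

theorem Exc2_surj : Function.Surjective Exc2_hom := by
  have h1 : (G Exc2_phi) ≤ (Exc2_hom.range).map (G Exc2_phi).subtype := by
    unfold G
    rw [Subgroup.closure_le]
    rintro _ ⟨c, rfl⟩
    have h2 : ∃ g, Exc2_R g (rho Exc2_phi c) := by
      fin_cases c
      · exact ⟨_, Exc2_g0⟩
      · exact ⟨_, Exc2_g1⟩
      · exact ⟨_, Exc2_g2⟩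
    obtain ⟨g, hg⟩ := h2
    exact ⟨Exc2_hom g, ⟨g, rfl⟩, Exc2_hom_eq hg⟩
  rintro ⟨p, hp⟩
  obtain ⟨q, ⟨g, hg⟩, hq⟩ := h1 hp
  refine ⟨g, ?_⟩
  rw [hg]
  exact Subtype.ext hq

theorem Exc2_center : Subgroup.center (Matrix.SpecialLinearGroup (Fin 2) (ZMod 7)) ≤
    Exc2_hom.ker := by
  intro z hz
  obtain ⟨r, hr, hz⟩ := Matrix.SpecialLinearGroup.mem_center_iff.1 hz
  have hr0 : r ≠ 0 := by
    rintro rfl
    rw [Fintype.card_fin] at hr
    exact absurd hr (by decide)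
  have h : Exc2_R z 1 := by
    intro i
    refine ⟨false, fun v _ => ?_⟩
    have h1 : Exc2_m z = Matrix.scalar (Fin 2) r := hz.symm
    have h2 : ∀ k, (Exc2_m z).mulVec v k = r * v k := by
      intro k
      rw [h1, Matrix.scalar_apply, Matrix.mulVec_diagonal]
    rw [h2, h2, Exc2_scal r hr0, Perm.one_apply, Bool.false_xor]
  rw [MonoidHom.mem_ker]
  exact Subtype.ext (Exc2_hom_eq h)

theorem Exc2_phi_iso :
    Nonempty (G Exc2_phi ≃* Matrix.ProjectiveSpecialLinearGroup (Fin 2) (ZMod 7)) := by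
  have hs : IsSimpleGroup (Matrix.ProjectiveSpecialLinearGroup (Fin 2) (ZMod 7)) :=
    Matrix.ProjectiveSpecialLinearGroup.rank_two_simple (by rw [Nat.card_zmod]; norm_num)
  let f : Matrix.ProjectiveSpecialLinearGroup (Fin 2) (ZMod 7) →* G Exc2_phi :=
    QuotientGroup.lift _ Exc2_hom Exc2_center
  have hf : Function.Surjective f := by
    intro p
    obtain ⟨g, hg⟩ := Exc2_surj p
    exact ⟨(g : Matrix.ProjectiveSpecialLinearGroup (Fin 2) (ZMod 7)), hg⟩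
  have hker : f.ker = ⊥ := by
    rcases IsSimpleGroup.eq_bot_or_eq_top_of_normal f.ker (by infer_instance) with h | h
    · exact h
    · exfalso
      obtain ⟨g, hg⟩ := hf ⟨rho Exc2_phi 0, Exc2_mem 0⟩
      have h1 : g ∈ f.ker := by
        rw [h]; exact Subgroup.mem_top g
      rw [MonoidHom.mem_ker, hg] at h1
      have h2 : rho Exc2_phi 0 = 1 := congrArg Subtype.val h1
      have h3 : rho Exc2_phi 0 none = none := by rw [h2]; rfl
      exact absurd h3 (by decide)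
  have hinj : Function.Injective f := (MonoidHom.ker_eq_bot_iff f).1 hker
  exact ⟨(MulEquiv.ofBijective f ⟨hinj, hf⟩).symm⟩

/-- the mirror image (for `b = true`) or the identity -/
def Exc2_mu (b : Bool) (i : Vert 2) : Vert 2 :=
  match i with
  | none => none
  | some (j, t) => some (j, if b then -t else t)

/-- the change of the colours -/
def Exc2_tau (b : Bool) (a c : ZMod 3) : ZMod 3 := if b then a - c else c - a

theorem Exc2_mu_mu (b : Bool) : ∀ i, Exc2_mu b (Exc2_mu b i) = i := by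
  revert b
  decide

theorem Exc2_tau_surj : ∀ (b : Bool) (a c : ZMod 3), ∃ d, Exc2_tau b a d = c := by
  decide

theorem Exc2_red : ∀ a b : ZMod 3, a ≠ b → ∃ ε : Bool, ∀ (c : ZMod 3) (i : Vert 2),
    Exc2_mu ε (rho ![a, b] c i) = rho Exc2_phi (Exc2_tau ε a c) (Exc2_mu ε i) := by
  decide

theorem exc_two {φ : Fin 2 → ZMod 3} (hφ : Admissible φ) :
    Nonempty (G φ ≃* Matrix.ProjectiveSpecialLinearGroup (Fin 2) (ZMod 7)) := by
  have hab : φ 0 ≠ φ 1 := hφ 0 1 rfl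
  obtain ⟨ε, hε⟩ := Exc2_red (φ 0) (φ 1) hab
  have hφ2 : (![φ 0, φ 1] : Fin 2 → ZMod 3) = φ := by
    ext i
    fin_cases i <;> rfl
  rw [hφ2] at hε
  let e : Perm (Vert 2) := ⟨Exc2_mu ε, Exc2_mu ε, Exc2_mu_mu ε, Exc2_mu_mu ε⟩
  have hconj : ∀ c, MulAut.conj e (rho φ c) = rho Exc2_phi (Exc2_tau ε (φ 0) c) := by
    intro c
    rw [MulAut.conj_apply, mul_inv_eq_iff_eq_mul]
    apply Equiv.ext
    intro i
    exact hε c i
  have hmap : (G φ).map (MulAut.conj e).toMonoidHom = G Exc2_phi := by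
    unfold G
    rw [MonoidHom.map_closure]
    congr 1
    ext p
    constructor
    · rintro ⟨_, ⟨c, rfl⟩, rfl⟩
      exact ⟨_, (hconj c).symm⟩
    · rintro ⟨c, rfl⟩
      obtain ⟨d, hd⟩ := Exc2_tau_surj ε (φ 0) c
      refine ⟨_, ⟨d, rfl⟩, ?_⟩
      rw [← hd]
      exact hconj d
  obtain ⟨F⟩ := Exc2_phi_iso
  exact ⟨(((G φ).equivMapOfInjective _ (MulAut.conj e).injective).trans
    (MulEquiv.subgroupCongr hmap)).trans F⟩

end TriTree
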