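import Mathlib
import Pool.Agent.Lib.MP_db1bc6_al.Stmt

/-! # The exceptional colourings for `k = 4`: the group is `PSL(3, 3)` -/

namespace TriTree

open Equiv Matrix

/-- coordinates in `F_3 ^ 3` of the vertices, as points of the projective plane -/
def exc4_tab : Fin 4 → Fin 3 → Fin 3 → ZMod 3 :=
  ![![![1, 2, 1], ![1, 0, 2], ![1, 1, 2]], ![![1, 0, 0], ![0, 1, 1], ![2, 1, 1]], ![![0, 1, 0], ![0, 1, 2], ![1, 1, 0]], ![![0, 0, 1], ![1, 0, 1], ![1, 2, 0]]]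

/-- coordinates of a vertex -/
def exc4_v : Vert 4 → Fin 3 → ZMod 3
  | none => ![1, 1, 1]
  | some (j, t) => exc4_tab j t

/-- the vertex with given coordinates -/
def exc4_itab : Fin 3 → Fin 3 → Fin 3 → Vert 4 :=
  ![![![none, some (3, 0), some (3, 0)], ![some (2, 0), some (1, 1), some (2, 1)], ![some (2, 0), some (2, 1), some (1, 1)]],
    ![![some (1, 0), some (3, 1), some (0, 1)], ![some (2, 2), none, some (0, 2)], ![some (3, 2), some (0, 0), some (1, 2)]],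
    ![![some (1, 0), some (0, 1), some (3, 1)], ![some (3, 2), some (1, 2), some (0, 0)], ![some (2, 2), some (0, 2), none]]]

/-- the vertex represented by a vector -/
def exc4_idx (w : Fin 3 → ZMod 3) : Vert 4 := exc4_itab (w 0) (w 1) (w 2)

theorem exc4_idx_v : ∀ x : Vert 4, exc4_idx (exc4_v x) = x := by decide

theorem exc4_vec (w : Fin 3 → ZMod 3) : w = ![w 0, w 1, w 2] := by
  ext i; fin_cases i <;> rfl

theorem exc4_v_idx_aux : ∀ a b c : ZMod 3, ![a, b, c] ≠ 0 →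
    exc4_v (exc4_idx ![a, b, c]) = ![a, b, c] ∨
      exc4_v (exc4_idx ![a, b, c]) = -![a, b, c] := by decide

theorem exc4_v_idx {w : Fin 3 → ZMod 3} (hw : w ≠ 0) :
    exc4_v (exc4_idx w) = w ∨ exc4_v (exc4_idx w) = -w := by
  rw [exc4_vec w] at hw ⊢
  exact exc4_v_idx_aux _ _ _ hw

theorem exc4_idx_neg_aux : ∀ a b c : ZMod 3, exc4_idx (-![a, b, c]) = exc4_idx ![a, b, c] := by
  decide

theorem exc4_idx_neg (w : Fin 3 → ZMod 3) : exc4_idx (-w) = exc4_idx w := by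
  rw [exc4_vec w]
  exact exc4_idx_neg_aux _ _ _

theorem exc4_v_ne : ∀ x : Vert 4, exc4_v x ≠ 0 := by decide

theorem exc4_idx_mul (N : SpecialLinearGroup (Fin 3) (ZMod 3)) {w : Fin 3 → ZMod 3}
    (hw : w ≠ 0) : exc4_idx (N.1 *ᵥ exc4_v (exc4_idx w)) = exc4_idx (N.1 *ᵥ w) := by
  rcases exc4_v_idx hw with h | h
  · rw [h]
  · rw [h, mulVec_neg, exc4_idx_neg]

theorem exc4_mul_ne (N : SpecialLinearGroup (Fin 3) (ZMod 3)) {w : Fin 3 → ZMod 3}
    (hw : w ≠ 0) : N.1 *ᵥ w ≠ 0 := by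
  intro h
  apply hw
  have h1 : (N⁻¹).1 *ᵥ (N.1 *ᵥ w) = w := by
    rw [mulVec_mulVec]
    have h2 : (N⁻¹).1 * N.1 = 1 := by
      have h3 := congrArg Subtype.val (inv_mul_cancel N)
      exact h3
    rw [h2, one_mulVec]
  rw [← h1, h, mulVec_zero]

/-- the action of `SL(3, 3)` on the vertices -/
@[reducible] def exc4_act : MulAction (SpecialLinearGroup (Fin 3) (ZMod 3)) (Vert 4) where
  smul M x := exc4_idx (M.1 *ᵥ exc4_v x)
  one_smul x := by
    change exc4_idx ((1 : Matrix (Fin 3) (Fin 3) (ZMod 3)) *ᵥ exc4_v x) = x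
    rw [one_mulVec, exc4_idx_v]
  mul_smul M N x := by
    change exc4_idx ((M.1 * N.1) *ᵥ exc4_v x)
      = exc4_idx (M.1 *ᵥ exc4_v (exc4_idx (N.1 *ᵥ exc4_v x)))
    rw [exc4_idx_mul M (exc4_mul_ne N (exc4_v_ne x)), mulVec_mulVec]

/-- the permutation representation of `SL(3, 3)` -/
def exc4_hom : SpecialLinearGroup (Fin 3) (ZMod 3) →* Perm (Vert 4) :=
  @MulAction.toPermHom _ _ _ exc4_act

theorem exc4_hom_apply (M : SpecialLinearGroup (Fin 3) (ZMod 3)) (x : Vert 4) :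
    exc4_hom M x = exc4_idx (M.1 *ᵥ exc4_v x) := rfl

/-- the three matrices -/
def exc4_A : ZMod 3 → SpecialLinearGroup (Fin 3) (ZMod 3) :=
  ![⟨!![2, 0, 0; 0, 1, 0; 0, 0, 2], by decide⟩,
    ⟨!![2, 0, 0; 1, 0, 2; 2, 2, 0], by decide⟩,
    ⟨!![0, 1, 0; 1, 0, 0; 0, 0, 2], by decide⟩]

/-- the basic colouring -/
def exc4_phi : Fin 4 → ZMod 3 := ![0, 1, 2, 1]

theorem exc4_rho : ∀ c : ZMod 3, rho exc4_phi c = exc4_hom (exc4_A c) := by
  decide

/-- words for the elementary matrices -/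
def exc4_word : Fin 3 → Fin 3 → List (ZMod 3) :=
  ![![[], [2, 1, 0, 2, 0, 2, 1, 0, 2], [2, 0, 1, 2, 1, 0, 1, 2, 1, 2]], ![[1, 0, 2, 0, 2, 1, 0], [], [1, 2, 1, 0, 1, 2, 1, 0]], ![[0, 2, 0, 2, 1, 0, 1], [2, 0, 1, 0, 1, 2, 0], []]]

theorem exc4_elem : ∀ i j : Fin 3, i ≠ j →
    ((exc4_word i j).map exc4_A).prod.1 = transvection i j (1 : ZMod 3) := by
  decide

theorem exc4_coe (A B : SpecialLinearGroup (Fin 3) (ZMod 3)) : (A * B).1 = A.1 * B.1 := rfl

/-- words for the diagonal matrices of determinant one -/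
def exc4_dword : Fin 4 → List (ZMod 3) := ![[], [0, 2, 0, 2], [0], [2, 0, 2]]

theorem exc4_diag : ∀ a b c : ZMod 3, a * b * c = 1 → ∃ i : Fin 4,
    ((exc4_dword i).map exc4_A).prod.1 = diagonal ![a, b, c] := by
  decide

/-- the subgroup generated by the three matrices -/
def exc4_H : Subgroup (SpecialLinearGroup (Fin 3) (ZMod 3)) :=
  Subgroup.closure (Set.range exc4_A)

theorem exc4_prod_mem (l : List (ZMod 3)) : (l.map exc4_A).prod ∈ exc4_H := by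
  apply Subgroup.list_prod_mem
  intro x hx
  obtain ⟨c, -, rfl⟩ := List.mem_map.1 hx
  exact Subgroup.subset_closure ⟨c, rfl⟩

theorem exc4_transvec (i j : Fin 3) (hij : i ≠ j) (c : ZMod 3) :
    ∃ h ∈ exc4_H, h.1 = transvection i j c := by
  have h3 : ∀ c : ZMod 3, c = 0 ∨ c = 1 ∨ c = 1 + 1 := by decide
  have h1 := exc4_elem i j hij
  rcases h3 c with rfl | rfl | rfl
  · exact ⟨1, one_mem _, by simp [transvection]⟩
  · exact ⟨_, exc4_prod_mem _, h1⟩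
  · refine ⟨_ * _, mul_mem (exc4_prod_mem (exc4_word i j)) (exc4_prod_mem (exc4_word i j)), ?_⟩
    rw [exc4_coe, h1, transvection_mul_transvection_same _ _ hij]

theorem exc4_transvec_list (L : List (TransvectionStruct (Fin 3) (ZMod 3))) :
    ∃ h ∈ exc4_H, h.1 = (L.map TransvectionStruct.toMatrix).prod := by
  induction L with
  | nil => exact ⟨1, one_mem _, by simp⟩
  | cons t L ih =>
    obtain ⟨h, hh, h1⟩ := ih
    obtain ⟨g, hg, g1⟩ := exc4_transvec t.i t.j t.hij t.c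
    refine ⟨g * h, mul_mem hg hh, ?_⟩
    rw [exc4_coe, h1, g1, List.map_cons, List.prod_cons]
    rfl

theorem exc4_H_top : exc4_H = ⊤ := by
  rw [eq_top_iff]
  intro M _
  obtain ⟨L, L', D, h⟩ := Pivot.exists_list_transvec_mul_diagonal_mul_list_transvec M.1
  obtain ⟨a, ha, ha1⟩ := exc4_transvec_list L
  obtain ⟨b, hb, hb1⟩ := exc4_transvec_list L'
  have hD : D 0 * D 1 * D 2 = 1 := by
    have h2 := congrArg det h
    rw [M.2, det_mul, det_mul, TransvectionStruct.det_toMatrix_prod,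
      TransvectionStruct.det_toMatrix_prod, det_diagonal, Fin.prod_univ_three] at h2
    rw [one_mul, mul_one] at h2
    exact h2.symm
  obtain ⟨i, hi⟩ := exc4_diag _ _ _ hD
  have hM : M = a * ((exc4_dword i).map exc4_A).prod * b := by
    apply Subtype.ext
    rw [exc4_coe, exc4_coe, ha1, hb1, hi, ← exc4_vec D]
    exact h
  rw [hM]
  exact mul_mem (mul_mem ha (exc4_prod_mem _)) hb

theorem exc4_G : G exc4_phi = exc4_hom.range := by
  have h1 : Set.range (rho exc4_phi) = exc4_hom '' Set.range exc4_A := by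
    rw [← Set.range_comp]
    congr 1
    funext c
    exact exc4_rho c
  unfold G
  rw [h1, ← MonoidHom.map_closure, MonoidHom.range_eq_map]
  congr 1
  exact exc4_H_top

theorem exc4_center : Subgroup.center (SpecialLinearGroup (Fin 3) (ZMod 3)) = ⊥ := by
  rw [eq_bot_iff]
  intro M hM
  obtain ⟨r, hr, h⟩ := Matrix.SpecialLinearGroup.mem_center_iff.1 hM
  have h3 : ∀ r : ZMod 3, r ^ 3 = 1 → r = 1 := by decide
  have hr1 := h3 r (by simpa using hr)
  rw [Subgroup.mem_bot]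
  apply Subtype.ext
  rw [← h, hr1]
  simp

theorem exc4_entries : ∀ a b c d e f g h i : ZMod 3,
    (![a, d, g] = ![1, 0, 0] ∨ ![a, d, g] = ![2, 0, 0]) →
    (![b, e, h] = ![0, 1, 0] ∨ ![b, e, h] = ![0, 2, 0]) →
    (![c, f, i] = ![0, 0, 1] ∨ ![c, f, i] = ![0, 0, 2]) →
    (![a + b, d + e, g + h] = ![1, 1, 0] ∨ ![a + b, d + e, g + h] = ![2, 2, 0]) →
    (![b + c, e + f, h + i] = ![0, 1, 1] ∨ ![b + c, e + f, h + i] = ![0, 2, 2]) →
    (!![a, b, c; d, e, f; g, h, i] : Matrix (Fin 3) (Fin 3) (ZMod 3)).det = 1 →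
    (!![a, b, c; d, e, f; g, h, i] : Matrix (Fin 3) (Fin 3) (ZMod 3)) = 1 := by
  intro a b c d e f g h i h1 h2 h3 h4 h5 h6
  have q1 : ∀ a d g : ZMod 3, (![a, d, g] = ![1, 0, 0] ∨ ![a, d, g] = ![2, 0, 0]) →
    (a = 1 ∨ a = 2) ∧ d = 0 ∧ g = 0 := by decide
  have q2 : ∀ a d g : ZMod 3, (![a, d, g] = ![0, 1, 0] ∨ ![a, d, g] = ![0, 2, 0]) →
    (d = 1 ∨ d = 2) ∧ a = 0 ∧ g = 0 := by decide
  have q3 : ∀ a d g : ZMod 3, (![a, d, g] = ![0, 0, 1] ∨ ![a, d, g] = ![0, 0, 2]) →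
    (g = 1 ∨ g = 2) ∧ a = 0 ∧ d = 0 := by decide
  obtain ⟨-, rfl, rfl⟩ := q1 _ _ _ h1
  obtain ⟨-, rfl, rfl⟩ := q2 _ _ _ h2
  obtain ⟨-, rfl, rfl⟩ := q3 _ _ _ h3
  have q4 : ∀ x y z : ZMod 3, (![x, y, z] = ![1, 1, 0] ∨ ![x, y, z] = ![2, 2, 0]) → x = y := by
    decide
  have q5 : ∀ x y z : ZMod 3, (![x, y, z] = ![0, 1, 1] ∨ ![x, y, z] = ![0, 2, 2]) → y = z := by
    decide
  have h8 := q4 _ _ _ h4
  have h9 := q5 _ _ _ h5
  rw [add_zero, zero_add] at h8 h9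
  subst h8 h9
  rw [det_fin_three] at h6
  have h7 : ∀ a : ZMod 3, a * a * a = 1 → a = 1 := by decide
  obtain rfl := h7 a (by simpa using h6)
  decide

theorem exc4_ker : exc4_hom.ker = ⊥ := by
  rw [eq_bot_iff]
  intro M hM
  rw [MonoidHom.mem_ker] at hM
  have h1 : ∀ x : Vert 4, M.1 *ᵥ exc4_v x = exc4_v x ∨ M.1 *ᵥ exc4_v x = - exc4_v x := by
    intro x
    have h2 : exc4_idx (M.1 *ᵥ exc4_v x) = x := by
      rw [← exc4_hom_apply, hM]
      rfl
    rcases exc4_v_idx (exc4_mul_ne M (exc4_v_ne x)) with h3 | h3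
    · left; rw [← h3, h2]
    · right; rw [← neg_eq_iff_eq_neg.2 h3, h2]
  rw [Subgroup.mem_bot]
  apply Subtype.ext
  have h9 : M.1 = !![M.1 0 0, M.1 0 1, M.1 0 2; M.1 1 0, M.1 1 1, M.1 1 2;
      M.1 2 0, M.1 2 1, M.1 2 2] := by
    ext i j
    fin_cases i <;> fin_cases j <;> rfl
  have hd := M.2
  have k1 := h1 (some (1, 0))
  have k2 := h1 (some (2, 0))
  have k3 := h1 (some (3, 0))
  have k4 := h1 (some (2, 2))
  have k5 := h1 (some (1, 1))
  have v1 : exc4_v (some (1, 0)) = ![1, 0, 0] := rfl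
  have v2 : exc4_v (some (2, 0)) = ![0, 1, 0] := rfl
  have v3 : exc4_v (some (3, 0)) = ![0, 0, 1] := rfl
  have v4 : exc4_v (some (2, 2)) = ![1, 1, 0] := rfl
  have v5 : exc4_v (some (1, 1)) = ![0, 1, 1] := rfl
  have n1 : -(![1, 0, 0] : Fin 3 → ZMod 3) = ![2, 0, 0] := by decide
  have n2 : -(![0, 1, 0] : Fin 3 → ZMod 3) = ![0, 2, 0] := by decide
  have n3 : -(![0, 0, 1] : Fin 3 → ZMod 3) = ![0, 0, 2] := by decide
  have n4 : -(![1, 1, 0] : Fin 3 → ZMod 3) = ![2, 2, 0] := by decide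
  have n5 : -(![0, 1, 1] : Fin 3 → ZMod 3) = ![0, 2, 2] := by decide
  rw [v1, n1] at k1
  rw [v2, n2] at k2
  rw [v3, n3] at k3
  rw [v4, n4] at k4
  rw [v5, n5] at k5
  have m1 : M.1 *ᵥ ![1, 0, 0] = ![M.1 0 0, M.1 1 0, M.1 2 0] := by
    ext i
    fin_cases i <;> simp [mulVec, dotProduct, Fin.sum_univ_three]
  have m2 : M.1 *ᵥ ![0, 1, 0] = ![M.1 0 1, M.1 1 1, M.1 2 1] := by
    ext i
    fin_cases i <;> simp [mulVec, dotProduct, Fin.sum_univ_three]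
  have m3 : M.1 *ᵥ ![0, 0, 1] = ![M.1 0 2, M.1 1 2, M.1 2 2] := by
    ext i
    fin_cases i <;> simp [mulVec, dotProduct, Fin.sum_univ_three]
  have m4 : M.1 *ᵥ ![1, 1, 0] = ![M.1 0 0 + M.1 0 1, M.1 1 0 + M.1 1 1, M.1 2 0 + M.1 2 1] := by
    ext i
    fin_cases i <;> simp [mulVec, dotProduct, Fin.sum_univ_three]
  have m5 : M.1 *ᵥ ![0, 1, 1] = ![M.1 0 1 + M.1 0 2, M.1 1 1 + M.1 1 2, M.1 2 1 + M.1 2 2] := by
    ext i
    fin_cases i <;> simp [mulVec, dotProduct, Fin.sum_univ_three]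
  rw [m1] at k1
  rw [m2] at k2
  rw [m3] at k3
  rw [m4] at k4
  rw [m5] at k5
  rw [h9] at hd
  rw [h9]
  exact exc4_entries _ _ _ _ _ _ _ _ _ k1 k2 k3 k4 k5 hd

theorem exc4_base : Nonempty (G exc4_phi ≃* ProjectiveSpecialLinearGroup (Fin 3) (ZMod 3)) := by
  have e1 : SpecialLinearGroup (Fin 3) (ZMod 3) ≃* exc4_hom.range :=
    MonoidHom.ofInjective ((MonoidHom.ker_eq_bot_iff _).1 exc4_ker)
  have e2 : ProjectiveSpecialLinearGroup (Fin 3) (ZMod 3) ≃*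
      SpecialLinearGroup (Fin 3) (ZMod 3) ⧸ (⊥ : Subgroup _) :=
    QuotientGroup.quotientMulEquivOfEq exc4_center
  rw [exc4_G]
  exact ⟨e1.symm.trans (QuotientGroup.quotientBot.symm.trans e2.symm)⟩

theorem exc4_rho_add {k : ℕ} (φ : Fin k → ZMod 3) (a c : ZMod 3) :
    rho (fun j => φ j + a) c = rho φ (c - a) := by
  unfold rho
  have h1 : ∀ j, c - (φ j + a) = c - a - φ j := fun j => by ring
  simp only [h1]

theorem exc4_G_add {k : ℕ} (φ : Fin k → ZMod 3) (a : ZMod 3) :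
    G (fun j => φ j + a) = G φ := by
  unfold G
  congr 1
  ext x
  constructor
  · rintro ⟨c, rfl⟩
    exact ⟨c - a, (exc4_rho_add φ a c).symm⟩
  · rintro ⟨c, rfl⟩
    exact ⟨c + a, by rw [exc4_rho_add, add_sub_cancel_right]⟩

/-- the reflection of the vertices -/
def exc4_tau : Perm (Vert 4) := Equiv.optionCongr (Equiv.prodCongr (Equiv.refl _) (Equiv.neg _))

theorem exc4_rho_neg : ∀ c : ZMod 3, rho (fun j => - exc4_phi j) c =
    exc4_tau * rho exc4_phi (-c) * exc4_tau⁻¹ := by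
  decide

theorem exc4_G_neg : G (fun j => - exc4_phi j) =
    (G exc4_phi).map (MulAut.conj exc4_tau).toMonoidHom := by
  unfold G
  rw [MonoidHom.map_closure]
  congr 1
  ext x
  constructor
  · rintro ⟨c, rfl⟩
    exact ⟨_, ⟨-c, rfl⟩, (exc4_rho_neg c).symm⟩
  · rintro ⟨_, ⟨c, rfl⟩, rfl⟩
    refine ⟨-c, ?_⟩
    rw [exc4_rho_neg, neg_neg]
    rfl

theorem exc_four {φ : Fin 4 → ZMod 3} (hφ : Admissible φ) (h : Exceptional φ) :
    Nonempty (G φ ≃* Matrix.ProjectiveSpecialLinearGroup (Fin 3) (ZMod 3)) := by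
  obtain ⟨_, h1, h2⟩ := h
  have h3 := hφ 0 1 rfl
  have h4 := hφ 2 3 rfl
  have h5 : ∀ a b c d : ZMod 3, b - a = c - b → c - b ≠ d - c → a ≠ b → c ≠ d →
      (b = 1 + a ∧ c = 2 + a ∧ d = 1 + a) ∨ (b = -1 + a ∧ c = -2 + a ∧ d = -1 + a) := by
    decide
  have h6 := h5 (φ 0) (φ 1) (φ 2) (φ 3) h1 h2 h3 h4
  rcases h6 with ⟨hb, hc, hd⟩ | ⟨hb, hc, hd⟩
  · have h7 : φ = fun j => exc4_phi j + φ 0 := by
      funext j
      fin_cases j
      · exact (zero_add _).symm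
      · exact hb
      · exact hc
      · exact hd
    rw [h7, exc4_G_add]
    exact exc4_base
  · have h7 : φ = fun j => (fun j => - exc4_phi j) j + φ 0 := by
      funext j
      fin_cases j
      · change φ 0 = -0 + φ 0
        rw [neg_zero, zero_add]
      · exact hb
      · exact hc
      · exact hd
    rw [h7, exc4_G_add, exc4_G_neg]
    obtain ⟨e⟩ := exc4_base
    exact ⟨((G exc4_phi).equivMapOfInjective _ (MulAut.conj exc4_tau).injective).symm.trans e⟩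

end TriTree
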