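import Pool.Agent.Lib.MP_db1bc6_al.FamDef

/-! # Soundness of the checks for the families -/

namespace TT

open Equiv

theorem length_alt (b : Bool) (l : ℕ) : (alt b l).length = l := by
  induction l generalizing b with
  | zero => rfl
  | succ l ih => simp [alt, ih]

theorem length_expand (q : Bool) (u : List ℕ) : (expand q u).length = u.sum := by
  induction u generalizing q with
  | nil => rfl
  | cons l u ih => simp [expand, ih, length_alt]

theorem expand_append (q : Bool) (u v : List ℕ) :
    expand q (u ++ v) = expand q u ++ expand (stp q u) v := by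
  induction u generalizing q with
  | nil => rfl
  | cons l u ih =>
    rw [List.cons_append, expand, ih, expand, List.append_assoc]
    rfl

theorem stp_append (q : Bool) (u v : List ℕ) : stp q (u ++ v) = stp (stp q u) v := by
  simp [stp]

theorem isWin_of_runs {k : ℕ} {s : ℕ → Bool} {LS L0 X Y : List ℕ} (h : Runs k s LS)
    (hLS : LS = L0 ++ (X ++ Y)) {root fin : Bool} (hr : root = true → L0 = [])
    (hf : fin = true → Y = []) : IsWin k s root fin (expand (stp false L0) X) L0.sum := by
  obtain ⟨-, hk, hs⟩ := h
  have hsum : LS.sum = L0.sum + (X.sum + Y.sum) := by rw [hLS]; simp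
  refine ⟨by rw [length_expand]; omega, ?_, ?_, ?_⟩
  · intro i hi
    have hi' := hi
    rw [length_expand] at hi'
    rw [hs _ (by omega), hLS, expand_append, expand_append]
    rw [List.getD_eq_getElem?_getD, List.getElem?_append_right (by rw [length_expand]; omega),
      length_expand, Nat.add_sub_cancel_left, List.getElem?_append_left hi,
      List.getElem?_eq_getElem hi]
    rfl
  · intro h1
    rw [hr h1]; rfl
  · intro h1
    have := hf h1
    subst this
    rw [length_expand]
    simp at hsum
    omega

theorem cntB_le {k : ℕ} {s : ℕ → Bool} {LS L0 u v Y : List ℕ} {b : ℕ} (h : Runs k s LS)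
    (hLS : LS = L0 ++ (u ++ b :: v ++ Y)) {root fin : Bool} (hr : root = true → L0 = [])
    (hf : fin = true → Y = []) (w : List Bool) (M : ℕ) :
    cntB w M root fin (stp false L0) u b v ≤
      Fx ((rl k s w) ^ M) (3 * (L0.sum + u.sum) + 1) (3 * (L0.sum + u.sum + b) + 1) := by
  have hw := isWin_of_runs h hLS hr hf
  rw [expand_append] at hw
  have := cntZ_le_Fx hw w M b (L := (expand (stp false L0) u).reverse)
    (R := expand (stp (stp false L0) u) (b :: v)) (by rw [List.reverse_reverse])
  rw [List.length_reverse, length_expand] at this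
  unfold cntB
  rw [forceL_eq, forceL_eq]
  exact this

theorem cntE_le {k : ℕ} {s : ℕ → Bool} {LS L0 u : List ℕ} (h : Runs k s LS)
    (hLS : LS = L0 ++ u) {root : Bool} (hr : root = true → L0 = []) (w : List Bool) (M : ℕ) :
    cntE w M root (stp false L0) u ≤
      Fx ((rl k s w) ^ M) (3 * (L0.sum + u.sum) + 1) (3 * k + 1) := by
  have hw := isWin_of_runs (Y := []) (fin := true) h (by rw [hLS]; simp) hr (fun _ => rfl)
    (X := u)
  have := cntZ_le_Fx hw w M 1 (L := (expand (stp false L0) u).reverse) (R := [])
    (by rw [List.reverse_reverse, List.append_nil])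
  rw [List.length_reverse, length_expand] at this
  have hk : k = L0.sum + u.sum + 1 := by
    have := h.2.1
    rw [hLS] at this
    simp at this
    omega
  unfold cntE
  rw [forceL_eq]
  rw [hk] at this ⊢
  exact this

theorem Fx_mono {k : ℕ} (g : Perm (Om k)) {a b c : ℕ} (hbc : b ≤ c) : Fx g a b ≤ Fx g a c := by
  classical
  unfold Fx
  apply Finset.card_le_card
  apply Finset.filter_subset_filter
  exact Finset.Ico_subset_Ico_right hbc

theorem cntR_le {k : ℕ} {s : ℕ → Bool} {LS u Y : List ℕ} (h : Runs k s LS)
    (hLS : LS = u ++ Y) {fin : Bool} (hf : fin = true → Y = []) (w : List Bool) (M n : ℕ) :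
    cntR w M fin u n ≤ Fx ((rl k s w) ^ M) 0 (3 * n + 1) := by
  have hw := isWin_of_runs (L0 := []) (root := true) h (by rw [hLS]; rfl) (fun _ => rfl) hf
    (X := u)
  have h1 := cntZ_le_Fx hw w M n (L := []) (R := expand false u) rfl
  have h2 := fixZ_le_Fx hw w M (z := .rt (expand false u)) (x := 0) (by omega) ⟨rfl, rfl, rfl⟩
  unfold cntR
  rw [forceL_eq, Fx_add _ (show 0 ≤ 0 + 1 by omega) (show 0 + 1 ≤ 3 * n + 1 by omega)]
  refine add_le_add h2 ?_
  simpa using h1

theorem lookT_some {tbl : List Ent} {c : Bool × Bool × List ℕ} {v : List ℕ} {hv : ℕ}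
    (h : lookT c v tbl = some hv) : ∃ e ∈ tbl, e.1 = c ∧ (v, hv) ∈ e.2 := by
  induction tbl with
  | nil => simp [lookT] at h
  | cons e tbl ih =>
    unfold lookT at h
    split_ifs at h with h1
    · refine ⟨e, by simp, by simpa using h1, ?_⟩
      have : ∀ L : List (List ℕ × ℕ), L.lookup v = some hv → (v, hv) ∈ L := by
        intro L
        induction L with
        | nil => simp
        | cons p L ih2 =>
          intro hL
          rw [List.lookup_cons] at hL
          split at hL
          · rename_i h3
            simp only [beq_iff_eq] at h3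
            simp only [Option.some.injEq] at hL
            rw [h3, ← hL]
            simp
          · exact List.mem_cons_of_mem _ (ih2 hL)
      exact this _ h
    · obtain ⟨e', he', h2⟩ := ih h
      exact ⟨e', List.mem_cons_of_mem _ he', h2⟩

theorem chkE_of_lookT {al : List ℕ} {a : ℕ} {w : List Bool} {M : ℕ} {tbl : List Ent}
    (hC : chkC al a w M tbl = true) {c : Bool × Bool × List ℕ} {v : List ℕ} {hv : ℕ}
    (h : lookT c v tbl = some hv) : chkE al a w M tbl c v hv = true := by
  obtain ⟨e, he, rfl, h2⟩ := lookT_some h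
  unfold chkC at hC
  rw [List.all_eq_true] at hC
  have := hC e he
  rw [List.all_eq_true] at this
  exact this _ h2

theorem take_mem_views {al : List ℕ} {a b : ℕ} (ha : 1 ≤ a) {rest : List ℕ}
    (hal : ∀ m ∈ rest, m ∈ al) :
    rest.take a ∈ views al a (b :: rest.take (a - 1)) (rest.take (a - 1)) := by
  obtain ⟨a, rfl⟩ : ∃ a', a = a' + 1 := ⟨a - 1, by omega⟩
  rw [Nat.add_sub_cancel]
  unfold views
  split_ifs with h
  · simp only [List.length_cons, List.length_take] at h
    have hl : rest.length ≤ a := by omega
    rw [List.take_of_length_le hl, List.take_of_length_le (by omega)]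
    simp
  · simp only [List.length_cons, List.length_take] at h
    rcases Nat.lt_or_ge a rest.length with h1 | h1
    · rw [List.take_add_one, List.getElem?_eq_getElem h1]
      apply List.mem_cons_of_mem
      rw [List.mem_map]
      exact ⟨rest[a], hal _ (List.getElem_mem h1), rfl⟩
    · rw [List.take_of_length_le h1, List.take_of_length_le (by omega)]
      simp

theorem fam_tail {al : List ℕ} {a : ℕ} (ha : 1 ≤ a) {w : List Bool} {M : ℕ} {tbl : List Ent}
    (hC : chkC al a w M tbl = true) {k : ℕ} {s : ℕ → Bool} {LS : List ℕ} (h : Runs k s LS)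
    (rest : List ℕ) : ∀ (L0 u : List ℕ) (root : Bool) (hv : ℕ), LS = L0 ++ (u ++ rest) →
      (root = true → L0 = []) → (∀ m ∈ rest, m ∈ al) →
      lookT (root, stp false L0, u) (rest.take a) tbl = some hv →
      hv + 3 * rest.sum ≤
        2 * Fx ((rl k s w) ^ M) (3 * (L0.sum + u.sum) + 1) (3 * k + 1) := by
  induction rest with
  | nil =>
    intro L0 u root hv hLS hr _ hl
    have h1 := chkE_of_lookT hC hl
    simp only [List.take_nil, chkE, Nat.ble_eq] at h1
    have := cntE_le h (by rw [hLS]; simp) hr w M (u := u)
    simp only [List.sum_nil, mul_zero, add_zero]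
    omega
  | cons b rest ih =>
    intro L0 u root hv hLS hr hal hl
    have h1 := chkE_of_lookT hC hl
    have e1 : (b :: rest).take a = b :: rest.take (a - 1) := by
      obtain ⟨a, rfl⟩ : ∃ a', a = a' + 1 := ⟨a - 1, by omega⟩
      rfl
    rw [e1] at h1
    simp only [chkE, List.all_eq_true] at h1
    have h2 := h1 _ (take_mem_views (b := b) ha (fun m hm => hal m (by simp [hm])))
    generalize hlk : lookT (nextc a (root, stp false L0, u) b) (rest.take a) tbl = o at h2
    cases o with
    | none => exact absurd h2 (by simp)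
    | some hv2 =>
      simp only [Nat.ble_eq] at h2
      have hsp : rest = rest.take a ++ rest.drop a := (List.take_append_drop a rest).symm
      have hLS' : LS = L0 ++ (u ++ b :: rest.take a ++ rest.drop a) := by
        rw [hLS, List.append_assoc, List.cons_append, ← hsp]
      have hfin : Nat.blt (rest.take a).length a = true → rest.drop a = [] := by
        intro hf
        rw [Nat.blt_eq, List.length_take] at hf
        exact List.drop_of_length_le (by omega)
      have h3 := cntB_le h hLS' hr hfin w M
      have hk1 : L0.sum + u.sum + b ≤ k := by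
        have := h.2.1
        rw [hLS] at this
        simp at this
        omega
      have key : hv2 + 3 * rest.sum ≤
          2 * Fx ((rl k s w) ^ M) (3 * (L0.sum + u.sum + b) + 1) (3 * k + 1) := by
        unfold nextc at hlk
        split_ifs at hlk with hlen
        · have := ih L0 (u ++ [b]) root hv2 (by rw [hLS]; simp) hr
            (fun m hm => hal m (by simp [hm])) hlk
          simpa [add_assoc] using this
        · cases u with
          | nil => simp at hlen; omega
          | cons c u =>
            have := ih (L0 ++ [c]) (u ++ [b]) false hv2 (by rw [hLS]; simp)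
              (fun h => absurd h (by decide)) (fun m hm => hal m (by simp [hm]))
              (by rw [stp_append]; exact hlk)
            have e2 : (L0 ++ [c]).sum + (u ++ [b]).sum = L0.sum + (c :: u).sum + b := by
              simp; ring
            rw [e2] at this
            exact this
      rw [Fx_add _ (show 3 * (L0.sum + u.sum) + 1 ≤ 3 * (L0.sum + u.sum + b) + 1 by omega)
        (show 3 * (L0.sum + u.sum + b) + 1 ≤ 3 * k + 1 by omega)]
      simp only [List.sum_cons]
      omega

theorem mem_lists {al : List ℕ} {n : ℕ} {V : List ℕ} (hn : V.length ≤ n)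
    (hal : ∀ m ∈ V, m ∈ al) : V ∈ lists al n := by
  induction n generalizing V with
  | zero =>
    have : V = [] := by
      apply List.eq_nil_of_length_eq_zero; omega
    rw [this]; simp [lists]
  | succ n ih =>
    cases V with
    | nil => simp [lists]
    | cons x V =>
      simp only [lists, List.mem_cons, reduceCtorEq, List.mem_flatMap, List.mem_map, false_or]
      exact ⟨x, hal x (by simp), V, ih (by simpa using hn) (fun m hm => hal m (by simp [hm])), rfl⟩

/-- iterated contexts -/
theorem foldl_nextc {a : ℕ} (ha : 1 ≤ a) (V : List ℕ) : ∀ (L0 u : List ℕ) (root : Bool),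
    (root = true → L0 = []) →
    ∃ L1 u1 root1, V.foldl (nextc a) (root, stp false L0, u) = (root1, stp false L1, u1) ∧
      L1 ++ u1 = L0 ++ (u ++ V) ∧ (root1 = true → L1 = []) := by
  induction V with
  | nil => intro L0 u root hr; exact ⟨L0, u, root, rfl, by simp, hr⟩
  | cons b V ih =>
    intro L0 u root hr
    rw [List.foldl_cons]
    unfold nextc
    split_ifs with hlen
    · obtain ⟨L1, u1, root1, h1, h2, h3⟩ := ih L0 (u ++ [b]) root hr
      refine ⟨L1, u1, root1, h1, ?_, h3⟩
      rw [h2]; simp
    · cases u with
      | nil => simp at hlen; omega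
      | cons c u =>
        obtain ⟨L1, u1, root1, h1, h2, h3⟩ := ih (L0 ++ [c]) (u ++ [b]) false
          (fun h => absurd h (by decide))
        refine ⟨L1, u1, root1, ?_, ?_, h3⟩
        · rw [← h1, stp_append]; rfl
        · rw [h2]; simp

theorem fam_main {l : ℕ} {al : List ℕ} {a n : ℕ} (ha : 1 ≤ a) {w : List Bool} {M : ℕ}
    {tbl : List Ent} {excl : List (List ℕ)} (hC : chkC al a w M tbl = true)
    (hH : chkH l al a n w M tbl excl = true) {k : ℕ} {s : ℕ → Bool} {ls : List ℕ}
    (h : Runs k s (l :: ls)) (hal : ∀ m ∈ ls, m ∈ al) (hk : 10 ≤ k) (hex : ls ∉ excl) :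
    2 * ((rl k s w) ^ M).support.card + 5 ≤ 3 * k + 1 := by
  have hsum : l + ls.sum + 1 = k := by have := h.2.1; simpa using this
  unfold chkH at hH
  rw [List.all_eq_true] at hH
  have h1 := hH (ls.take (n + a)) (mem_lists (by simp)
    (fun m hm => hal m (List.mem_of_mem_take hm)))
  have hnot : (Nat.blt (ls.take (n + a)).length (n + a) &&
      (Nat.blt (l + (ls.take (n + a)).sum + 1) 10 || excl.elem (ls.take (n + a)))) = false := by
    by_contra hcon
    rw [Bool.not_eq_false, Bool.and_eq_true, Bool.or_eq_true, Nat.blt_eq, Nat.blt_eq,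
      List.length_take] at hcon
    have : ls.take (n + a) = ls := List.take_of_length_le (by omega)
    rw [this] at hcon
    rcases hcon.2 with h2 | h2
    · omega
    · exact hex (by simpa using h2)
  rw [hnot, Bool.false_or] at h1
  have e1 : (ls.take (n + a)).take n = ls.take n := by
    rw [List.take_take]; congr 1; omega
  have e2 : (ls.take (n + a)).drop n = (ls.drop n).take a := by
    rw [List.drop_take]; congr 1; omega
  rw [e1, e2] at h1
  obtain ⟨L1, u1, root1, h2, h3, h4⟩ := foldl_nextc ha (ls.take n) [] [l] true (fun _ => rfl)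
  have h2' : (ls.take n).foldl (nextc a) (true, false, [l]) = (root1, stp false L1, u1) := h2
  rw [h2'] at h1
  generalize hlk : lookT (root1, stp false L1, u1) ((ls.drop n).take a) tbl = o at h1
  cases o with
  | none => exact absurd h1 (by simp)
  | some hv =>
    simp only [Nat.ble_eq] at h1
    have hLS : l :: ls = L1 ++ (u1 ++ ls.drop n) := by
      rw [← List.append_assoc, h3]
      simp
    have h5 := fam_tail ha hC h (ls.drop n) L1 u1 root1 hv hLS h4
      (fun m hm => hal m (List.mem_of_mem_drop hm)) hlk
    have hfin : Nat.blt (ls.take (n + a)).length (n + a) = true → ls.drop (n + a) = [] := by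
      intro hf
      rw [Nat.blt_eq, List.length_take] at hf
      exact List.drop_of_length_le (by omega)
    have h6 := cntR_le h (u := l :: ls.take (n + a)) (Y := ls.drop (n + a)) (by simp) hfin w M
      (l + (ls.take n).sum)
    have e3 : L1.sum + u1.sum = l + (ls.take n).sum := by
      have := congrArg List.sum h3
      simpa using this
    have e4 : (ls.take n).sum + (ls.drop n).sum = ls.sum := by
      rw [← List.sum_append, List.take_append_drop]
    rw [e3] at h5
    have h7 := Fx_total ((rl k s w) ^ M)
    rw [Fx_add _ (show 0 ≤ 3 * (l + (ls.take n).sum) + 1 by omega)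
      (show 3 * (l + (ls.take n).sum) + 1 ≤ 3 * k + 1 by omega)] at h7
    omega

/-! ## Nonvanishing -/

theorem movC_sound {k : ℕ} {s : ℕ → Bool} {fin : Bool} {W : List Bool}
    (h : IsWin k s true fin W 0) {w : List Bool} {M : ℕ} {c : Option (ℕ × Bool)}
    (hc : movC w M fin W c = true) : (rl k s w) ^ M ≠ 1 := by
  intro h1
  have hk : 0 < k := by have := h.1; omega
  cases c with
  | none =>
    unfold movC at hc
    rw [forceL_eq] at hc
    exact ne_of_movZ h w M (z := .rt W) (x := ⟨0, by omega⟩) ⟨rfl, rfl, rfl⟩ hc (by rw [h1]; rfl)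
  | some p =>
    obtain ⟨m, b⟩ := p
    simp only [movC, forceL_eq, Bool.and_eq_true, Nat.ble_eq] at hc
    obtain ⟨hm, hc⟩ := hc
    have hlen : (W.take m).reverse.length = m := by simp [hm]
    have hk2 : m + 1 ≤ k := by have := h.1; omega
    cases b with
    | false =>
      exact ne_of_movZ h w M (x := ⟨3 * (0 + m) + 1, by omega⟩)
        (z := .pa (W.take m).reverse (W.drop m)) ⟨by simp, by rw [hlen]⟩ hc (by rw [h1]; rfl)
    | true =>
      exact ne_of_movZ h w M (x := ⟨3 * (0 + m) + 2, by omega⟩)
        (z := .pb (W.take m).reverse (W.drop m)) ⟨by simp, by rw [hlen]⟩ hc (by rw [h1]; rfl)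

theorem any_movC {k : ℕ} {s : ℕ → Bool} {fin : Bool} {W : List Bool}
    (h : IsWin k s true fin W 0) {w : List Bool} {M : ℕ} {cands : List (Option (ℕ × Bool))}
    (hc : cands.any (movC w M fin W) = true) : (rl k s w) ^ M ≠ 1 := by
  rw [List.any_eq_true] at hc
  obtain ⟨c, -, hc⟩ := hc
  exact movC_sound h hc

theorem fam_ne_aux {l : ℕ} {al : List ℕ} {w : List Bool} {M : ℕ} {excl : List (List ℕ)}
    {cands : List (Option (ℕ × Bool))} {k : ℕ} {s : ℕ → Bool} {ls : List ℕ}
    (h : Runs k s (l :: ls)) (hal : ∀ m ∈ ls, m ∈ al) (hk : 10 ≤ k) (hex : ls ∉ excl) (n : ℕ) :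
    ∀ V Y : List ℕ, ls = V ++ Y → chkN l al w M excl cands n V = true → (rl k s w) ^ M ≠ 1 := by
  have hsum : l + ls.sum + 1 = k := by have := h.2.1; simpa using this
  have full : ∀ V : List ℕ, ls = V → (Nat.blt (l + V.sum + 1) 10 || excl.elem V ||
      cands.any (movC w M true (expand false (l :: V)))) = true → (rl k s w) ^ M ≠ 1 := by
    intro V hV hc
    subst hV
    rw [Bool.or_eq_true, Bool.or_eq_true, Nat.blt_eq] at hc
    rcases hc with (h1 | h1) | h1
    · omega
    · exact absurd (by simpa using h1) hex
    · exact any_movC (isWin_of_runs (L0 := []) (X := l :: ls) (Y := []) h (by simp)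
        (fun _ => rfl) (fun _ => rfl)) h1
  have part : ∀ V Y : List ℕ, ls = V ++ Y →
      cands.any (movC w M false (expand false (l :: V))) = true → (rl k s w) ^ M ≠ 1 := by
    intro V Y hV hc
    exact any_movC (isWin_of_runs (L0 := []) (X := l :: V) (Y := Y) h (by rw [hV]; simp)
      (fun _ => rfl) (fun h => absurd h (by decide))) hc
  induction n with
  | zero =>
    intro V Y hV hc
    unfold chkN at hc
    rw [Bool.and_eq_true] at hc
    exact part V Y hV hc.2
  | succ n ih =>
    intro V Y hV hc
    unfold chkN at hc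
    rw [Bool.and_eq_true, Bool.or_eq_true (cands.any _)] at hc
    obtain ⟨h1, h2⟩ := hc
    rcases h2 with h2 | h2
    · exact part V Y hV h2
    · cases Y with
      | nil => exact full V (by simpa using hV) h1
      | cons x Y =>
        rw [List.all_eq_true] at h2
        exact ih (V ++ [x]) Y (by rw [hV]; simp) (h2 x (hal x (by rw [hV]; simp)))

theorem fam_ne {l : ℕ} {al : List ℕ} {w : List Bool} {M : ℕ} {excl : List (List ℕ)}
    {cands : List (Option (ℕ × Bool))} (n : ℕ) (hN : chkN l al w M excl cands n [] = true)
    {k : ℕ} {s : ℕ → Bool} {ls : List ℕ} (h : Runs k s (l :: ls)) (hal : ∀ m ∈ ls, m ∈ al)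
    (hk : 10 ≤ k) (hex : ls ∉ excl) : (rl k s w) ^ M ≠ 1 :=
  fam_ne_aux h hal hk hex n [] ls rfl hN

end TT
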