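import Pool.Agent.Lib.MP_db1bc6_al.Win

/-! # Definitions for the families of colourings with prescribed run lengths -/

namespace TT

open Equiv

/-- rebuilds a list, so that the kernel evaluates it once -/
noncomputable def forceL {α : Type} (L : List Bool) : (List Bool → α) → α :=
  List.rec (fun f => f []) (fun b _ ih f =>
    Bool.rec (ih fun L' => f (false :: L')) (ih fun L' => f (true :: L')) b) L

theorem forceL_eq {α : Type} (L : List Bool) (f : List Bool → α) : forceL L f = f L := by
  induction L generalizing f with
  | nil => rfl
  | cons b L ih =>
    cases b with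
    | false => exact ih _
    | true => exact ih _

/-- next starting symbol -/
def nx (q : Bool) (l : ℕ) : Bool := if l % 2 = 0 then !q else q

/-- starting symbol after the blocks -/
def stp (q : Bool) (u : List ℕ) : Bool := u.foldl nx q

/-- number of fixed points in a block `b`, in the window with the blocks `u`, `b`, `v` -/
noncomputable def cntB (w : List Bool) (M : ℕ) (root fin q : Bool) (u : List ℕ) (b : ℕ)
    (v : List ℕ) : ℕ :=
  forceL (expand q u).reverse fun L => forceL (expand (stp q u) (b :: v)) fun R =>
    cntZ root fin w M b L R

/-- number of fixed points in the last triangle -/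
noncomputable def cntE (w : List Bool) (M : ℕ) (root q : Bool) (u : List ℕ) : ℕ :=
  forceL (expand q u).reverse fun L => cntZ root true w M 1 L []

/-- next context: at most `a` blocks are kept -/
def nextc (a : ℕ) (c : Bool × Bool × List ℕ) (b : ℕ) : Bool × Bool × List ℕ :=
  if c.2.2.length < a then (c.1, c.2.1, c.2.2 ++ [b])
  else (false, nx c.2.1 (c.2.2.headD 0), c.2.2.tail ++ [b])

/-- the possible views after the block is passed -/
def views (al : List ℕ) (a : ℕ) (v v' : List ℕ) : List (List ℕ) :=
  if v.length < a then [v'] else v' :: al.map fun x => v' ++ [x]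

/-- the entries of the table: a context `(root, q, u)`, and pairs of a view `v` and a value -/
abbrev Ent := (Bool × Bool × List ℕ) × List (List ℕ × ℕ)

/-- lookup -/
def lookT (c : Bool × Bool × List ℕ) (v : List ℕ) : List Ent → Option ℕ
  | [] => none
  | e :: tbl => if e.1 == c then e.2.lookup v else lookT c v tbl

/-- check of one entry -/
noncomputable def chkE (al : List ℕ) (a : ℕ) (w : List Bool) (M : ℕ) (tbl : List Ent)
    (c : Bool × Bool × List ℕ) (v : List ℕ) (h : ℕ) : Bool :=
  match v with
  | [] => Nat.ble h (2 * cntE w M c.1 c.2.1 c.2.2)
  | b :: v' => (views al a (b :: v') v').all fun v2 =>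
      match lookT (nextc a c b) v2 tbl with
      | none => false
      | some h2 => Nat.ble (h + 3 * b)
          (2 * cntB w M c.1 (Nat.blt v2.length a) c.2.1 c.2.2 b v2 + h2)

/-- check of the table -/
noncomputable def chkC (al : List ℕ) (a : ℕ) (w : List Bool) (M : ℕ) (tbl : List Ent) : Bool :=
  tbl.all fun e => e.2.all fun f => chkE al a w M tbl e.1 f.1 f.2

/-- all lists over `al` of length at most `n` -/
def lists (al : List ℕ) : ℕ → List (List ℕ)
  | 0 => [[]]
  | n + 1 => [] :: al.flatMap fun x => (lists al n).map fun L => x :: L

/-- number of fixed points among the root and the first `n` triangles -/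
noncomputable def cntR (w : List Bool) (M : ℕ) (fin : Bool) (u : List ℕ) (n : ℕ) : ℕ :=
  forceL (expand false u) fun R => fixZ true fin w M (.rt R) + cntZ true fin w M n [] R

/-- check of the beginning; the lists in `excl` are excluded -/
noncomputable def chkH (l : ℕ) (al : List ℕ) (a n : ℕ) (w : List Bool) (M : ℕ) (tbl : List Ent)
    (excl : List (List ℕ)) : Bool :=
  (lists al (n + a)).all fun V =>
    (Nat.blt V.length (n + a) && (Nat.blt (l + V.sum + 1) 10 || excl.elem V)) ||
      match lookT ((V.take n).foldl (nextc a) (true, false, [l])) (V.drop n) tbl with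
      | none => false
      | some h2 => Nat.ble (3 * (l + (V.take n).sum) + 9)
          (2 * cntR w M (Nat.blt V.length (n + a)) (l :: V) (l + (V.take n).sum) + h2)

/-- a moved corner: the triangle and the corner of the candidate; `none` is the root -/
noncomputable def movC (w : List Bool) (M : ℕ) (fin : Bool) (W : List Bool) :
    Option (ℕ × Bool) → Bool
  | none => forceL W fun R => movZ true fin w M (.rt R)
  | some (m, c) => Nat.ble m W.length && forceL (W.take m).reverse fun L =>
      forceL (W.drop m) fun R => movZ true fin w M (Bool.rec (.pa L R) (.pb L R) c)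

/-- check of the nonvanishing: `cands` are the candidates for a moved point -/
noncomputable def chkN (l : ℕ) (al : List ℕ) (w : List Bool) (M : ℕ) (excl : List (List ℕ))
    (cands : List (Option (ℕ × Bool))) : ℕ → List ℕ → Bool
  | 0, V =>
    (Nat.blt (l + V.sum + 1) 10 || excl.elem V ||
      cands.any (movC w M true (expand false (l :: V)))) &&
      cands.any (movC w M false (expand false (l :: V)))
  | n + 1, V =>
    (Nat.blt (l + V.sum + 1) 10 || excl.elem V ||
      cands.any (movC w M true (expand false (l :: V)))) &&
      (cands.any (movC w M false (expand false (l :: V))) ||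
        al.all fun x => chkN l al w M excl cands n (V ++ [x]))

/-- the word `LLLRLRRR` -/
def w3 : List Bool := [false, false, false, true, false, true, true, true]

end TT
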