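import Pool.Agent.Lib.MP_db1bc6_al.Label

/-! # Local evaluation of shift words, in labels -/

namespace TT

open Equiv

theorem chord' {k : ℕ} {s : ℕ → Bool} {j : ℕ} (h : j < k) :
    rho k s (pt k s (-(vL s j))) = pt k s (uL s j) := by
  rw [← chord h, rho_rho]

theorem look_sound {k : ℕ} {s : ℕ → Bool} (F : List Bool) : ∀ (j : ℕ),
    j + F.length + 1 ≤ k → (∀ i (h : i < F.length), s (j + i) = F[i]) →
    ∀ {x y : ℤ}, look (uL s j) (vL s j) F x = some y → rho k s (pt k s x) = pt k s y := by
  induction F with
  | nil =>
    intro j hj _ x y h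
    unfold look at h
    split_ifs at h with h1 h2
    · rw [Option.some.injEq] at h
      rw [h1, ← h, chord (by simp at hj; omega)]
    · rw [Option.some.injEq] at h
      rw [h2, ← h, chord' (by simp at hj; omega)]
  | cons b F ih =>
    intro j hj hF x y h
    have hb : s j = b := hF 0 (by simp)
    simp only [List.length_cons] at hj
    have hF' : ∀ i (h : i < F.length), s (j + 1 + i) = F[i] := by
      intro i hi
      have := hF (i + 1) (by simp [hi])
      rw [show j + 1 + i = j + (i + 1) by ring, this]
      simp
    unfold look at h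
    split_ifs at h with h1 h2 h3 h4 h5
    · rw [Option.some.injEq] at h
      rw [h1, ← h, chord (by omega)]
    · rw [Option.some.injEq] at h
      rw [h2, ← h, chord' (by omega)]
    · rw [Option.some.injEq] at h
      rw [← h, h4, dead_pos (by omega) (by rw [hb, h3])]
    · have e1 : uL s (j + 1) = uL s j + 2 := by simp [uL, hb, h3]
      have e2 : vL s (j + 1) = vL s j + 1 := by simp [vL, hb, h3]
      rw [← e1, ← e2] at h
      exact ih (j + 1) (by omega) hF' h
    · rw [Option.some.injEq] at h
      rw [← h, h5, dead_neg (by omega) (by rw [hb]; simpa using h3)]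
    · have e1 : uL s (j + 1) = uL s j + 1 := by simp [uL, hb, h3]
      have e2 : vL s (j + 1) = vL s j + 2 := by simp [vL, hb, h3]
      rw [← e1, ← e2] at h
      exact ih (j + 1) (by omega) hF' h

theorem ch_sound {k : ℕ} {s : ℕ → Bool} {F : List Bool} (h : Pre k s F) {x y : ℤ}
    (hy : ch F x = some y) : rho k s (pt k s x) = pt k s y := by
  refine look_sound (k := k) (s := s) F 0 ?_ ?_ hy
  · have := h.1; omega
  · intro i hi
    rw [Nat.zero_add]
    exact h.2 i hi

theorem evT_sound {k : ℕ} {s : ℕ → Bool} {F : List Bool} (h : Pre k s F) (w : List ℤ) :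
    ∀ {x y : ℤ}, evT F w x = some y → wt k s w (pt k s x) = pt k s y := by
  induction w with
  | nil =>
    intro x y hy
    simp only [evT, Option.some.injEq] at hy
    rw [hy]; rfl
  | cons u us ih =>
    intro x y hy
    simp only [evT, Option.bind_eq_some_iff] at hy
    obtain ⟨z, hz, hy⟩ := hy
    rw [wt, Perm.mul_apply, Perm.mul_apply, ch_sound h hz, R_zpow_pt]
    exact ih hy

theorem evW_sound {k : ℕ} {s : ℕ → Bool} {F : List Bool} (h : Pre k s F) {w : List ℤ} {x y : ℤ}
    (hy : evW F w x = some y) : wd k s w (pt k s x) = pt k s y := by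
  cases w with
  | nil =>
    simp only [evW, Option.some.injEq] at hy
    rw [hy]; rfl
  | cons t ts =>
    rw [wd, Perm.mul_apply, R_zpow_pt]
    exact evT_sound h ts hy

end TT
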