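import Pool.Agent.Lib.MP_db1bc6_al.Trich
import Pool.Agent.Lib.MP_db1bc6_al.Look
import Pool.Agent.Lib.MP_db1bc6_al.Engine

/-! # Long first runs: common part

Labels: `p(j) = j`, `e(j) = -2j`, `o(j) = -(2j - 1)`. -/

namespace TT

open Equiv

/-- the first run has length `r` -/
structure FR (k : ℕ) (s : ℕ → Bool) (r : ℕ) : Prop where
  rk : r + 2 ≤ k
  s0 : ∀ i < r, s i = false
  s1 : s r = true

section
variable {k : ℕ} {s : ℕ → Bool} {r : ℕ}

theorem FR.uv (h : FR k s r) {j : ℕ} (hj : j ≤ r) : uL s j = j ∧ vL s j = 2 * j + 1 := by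
  induction j with
  | zero => exact ⟨rfl, rfl⟩
  | succ j ih =>
    obtain ⟨h1, h2⟩ := ih (by omega)
    have e := h.s0 j (by omega)
    refine ⟨?_, ?_⟩
    · simp only [uL, e, Bool.false_eq_true, if_false, h1]
      push_cast; rfl
    · simp only [vL, e, Bool.false_eq_true, if_false, h2]
      push_cast; ring

theorem FR.uv' (h : FR k s r) : uL s (r + 1) = r + 2 ∧ vL s (r + 1) = 2 * r + 2 := by
  obtain ⟨h1, h2⟩ := h.uv le_rfl
  refine ⟨by simp only [uL, h.s1, if_true, h1], ?_⟩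
  simp only [vL, h.s1, if_true, h2]
  ring

theorem FR.rp (h : FR k s r) {j : ℤ} (h0 : 0 ≤ j) (h1 : j ≤ r) :
    rho k s (pt k s j) = pt k s (-(2 * j + 1)) := by
  obtain ⟨i, rfl⟩ := Int.eq_ofNat_of_zero_le h0
  have hi : i ≤ r := by exact_mod_cast h1
  have := chord (k := k) (s := s) (j := i) (by have := h.rk; omega)
  rwa [(h.uv hi).1, (h.uv hi).2] at this

theorem FR.ro (h : FR k s r) {j : ℤ} (h0 : 1 ≤ j) (h1 : j ≤ r + 1) :
    rho k s (pt k s (-(2 * j - 1))) = pt k s (j - 1) := by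
  have e := h.rp (j := j - 1) (by omega) (by omega)
  have e2 : -(2 * (j - 1) + 1) = -(2 * j - 1) := by ring
  rw [e2] at e
  rw [← e, rho_rho]

theorem FR.re (h : FR k s r) {j : ℤ} (h0 : 1 ≤ j) (h1 : j ≤ r) :
    rho k s (pt k s (-(2 * j))) = pt k s (-(2 * j)) := by
  obtain ⟨i, hi⟩ := Int.eq_ofNat_of_zero_le (show 0 ≤ j - 1 by omega)
  have hir : i < r := by omega
  have e := dead_neg (k := k) (s := s) (j := i) (by have := h.rk; omega) (h.s0 i hir)
  rw [(h.uv (by omega)).2] at e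
  have e2 : -(2 * (i : ℤ) + 1 + 1) = -(2 * j) := by rw [← hi]; ring
  rwa [e2] at e

theorem FR.rd (h : FR k s r) : rho k s (pt k s (r + 1)) = pt k s (r + 1) := by
  have e := dead_pos (k := k) (s := s) (j := r) (by have := h.rk; omega) h.s1
  rwa [(h.uv le_rfl).1] at e

theorem FR.rx (h : FR k s r) : rho k s (pt k s (r + 2)) = pt k s (-(2 * r + 2)) := by
  have e := chord (k := k) (s := s) (j := r + 1) (by have := h.rk; omega)
  rwa [h.uv'.1, h.uv'.2] at e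

theorem FR.rx' (h : FR k s r) : rho k s (pt k s (-(2 * r + 2))) = pt k s (r + 2) := by
  rw [← h.rx, rho_rho]

theorem T_pt {x y z : ℤ} (h1 : rho k s (pt k s (x - 2)) = pt k s y)
    (h2 : rho k s (pt k s (y + 1)) = pt k s z) : Tp k s (pt k s x) = pt k s z := by
  have e : Tp k s (pt k s x) = (R k s ^ (0 : ℤ)) (rho k s ((R k s ^ (1 : ℤ)) (rho k s
    ((R k s ^ (-2 : ℤ)) (pt k s x))))) := rfl
  rw [e, R_zpow_pt, show x + -2 = x - 2 by ring, h1, R_zpow_pt, h2, zpow_zero]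
  rfl

theorem FR.T_zero (h : FR k s r) (hr : 1 ≤ r) : Tp k s (pt k s 0) = pt k s 0 := by
  refine T_pt (y := -2) ?_ ?_
  · have := h.re (j := 1) (by norm_num) (by exact_mod_cast hr)
    simpa using this
  · have := h.ro (j := 1) (by norm_num) (by omega)
    simpa using this

/-- `T' p(j) = e(j - 2)` -/
theorem FR.T_p (h : FR k s r) {j : ℤ} (h0 : 3 ≤ j) (h1 : j ≤ r + 2) :
    Tp k s (pt k s j) = pt k s (-(2 * (j - 2))) := by
  refine T_pt (y := -(2 * (j - 2) + 1)) (h.rp (by omega) (by omega)) ?_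
  have e := h.re (j := j - 2) (by omega) (by omega)
  rw [show -(2 * (j - 2) + 1) + 1 = -(2 * (j - 2)) by ring]
  exact e

theorem FR.T_p1 (h : FR k s r) (hr : 1 ≤ r) : Tp k s (pt k s 1) = pt k s (-3) := by
  refine T_pt (y := 0) ?_ ?_
  · have := h.ro (j := 1) (by norm_num) (by omega)
    simpa using this
  · have := h.rp (j := 1) (by norm_num) (by exact_mod_cast hr)
    simpa using this

theorem FR.T_p2 (h : FR k s r) : Tp k s (pt k s 2) = pt k s (-1) := by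
  refine T_pt (y := -1) ?_ ?_
  · have := h.rp (j := 0) (by norm_num) (by omega)
    simpa using this
  · have := h.rp (j := 0) (by norm_num) (by omega)
    simpa using this

/-- `T' e(j) = p(j)` -/
theorem FR.T_e (h : FR k s r) {j : ℤ} (h0 : 1 ≤ j) (h1 : j + 1 ≤ r) :
    Tp k s (pt k s (-(2 * j))) = pt k s j := by
  refine T_pt (y := -(2 * (j + 1))) ?_ ?_
  · rw [show -(2 * j) - 2 = -(2 * (j + 1)) by ring]
    exact h.re (by omega) (by omega)
  · have e := h.ro (j := j + 1) (by omega) (by omega)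
    rw [show -(2 * (j + 1) - 1) = -(2 * (j + 1)) + 1 by ring, show j + 1 - 1 = j by ring] at e
    exact e

/-- `T' o(j) = o(j + 2)` -/
theorem FR.T_o (h : FR k s r) {j : ℤ} (h0 : 1 ≤ j) (h1 : j + 1 ≤ r) :
    Tp k s (pt k s (-(2 * j - 1))) = pt k s (-(2 * (j + 2) - 1)) := by
  refine T_pt (y := j) ?_ ?_
  · have e := h.ro (j := j + 1) (by omega) (by omega)
    rw [show -(2 * (j + 1) - 1) = -(2 * j - 1) - 2 by ring, show j + 1 - 1 = j by ring] at e
    exact e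
  · have e := h.rp (j := j + 1) (by omega) (by omega)
    rw [show -(2 * (j + 1) + 1) = -(2 * (j + 2) - 1) by ring] at e
    exact e

/-- `T' o(r) = p(r + 1)` -/
theorem FR.T_or (h : FR k s r) (hr : 1 ≤ r) :
    Tp k s (pt k s (-(2 * (r : ℤ) - 1))) = pt k s (r + 1) := by
  refine T_pt (y := r) ?_ ?_
  · have e := h.ro (j := r + 1) (by omega) (by omega)
    rw [show -(2 * ((r : ℤ) + 1) - 1) = -(2 * r - 1) - 2 by ring,
      show (r : ℤ) + 1 - 1 = r by ring] at e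
    exact e
  · exact h.rd

/-- `T' (r + 4) = p(r)` -/
theorem FR.T_top (h : FR k s r) : Tp k s (pt k s (r + 4)) = pt k s r := by
  refine T_pt (y := -(2 * r + 2)) ?_ ?_
  · rw [show (r : ℤ) + 4 - 2 = r + 2 by ring]
    exact h.rx
  · have e := h.ro (j := r + 1) (by omega) (by omega)
    rw [show -(2 * ((r : ℤ) + 1) - 1) = -(2 * r + 2) + 1 by ring,
      show (r : ℤ) + 1 - 1 = r by ring] at e
    exact e

theorem FR.pt_ne (h : FR k s r) {x y : ℤ} (hxy : x ≠ y) (h1 : x - y < 3 * r + 7)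
    (h2 : y - x < 3 * r + 7) : pt k s x ≠ pt k s y := by
  intro he
  rw [pt_eq_iff] at he
  obtain ⟨t, ht⟩ := he
  have hk' : (r : ℤ) + 2 ≤ k := by exact_mod_cast h.rk
  rcases lt_trichotomy t 0 with h0 | h0 | h0
  · nlinarith
  · subst h0
    apply hxy
    linarith
  · nlinarith

/-- the label `x` is mapped to the label `y` by an element which fixes the labels `0, a, b` -/
def Eqv (k : ℕ) (s : ℕ → Bool) (a b x y : ℤ) : Prop :=
  ∃ g ∈ Gs k s, g (pt k s 0) = pt k s 0 ∧ g (pt k s a) = pt k s a ∧ g (pt k s b) = pt k s b ∧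
    g (pt k s x) = pt k s y

variable {a b : ℤ}

theorem Eqv.refl (x : ℤ) : Eqv k s a b x x := ⟨1, one_mem _, rfl, rfl, rfl, rfl⟩

theorem Eqv.symm {x y : ℤ} (h : Eqv k s a b x y) : Eqv k s a b y x := by
  obtain ⟨g, hg, g1, g2, g3, g4⟩ := h
  exact ⟨g⁻¹, inv_mem hg, Perm.inv_eq_iff_eq.2 g1.symm, Perm.inv_eq_iff_eq.2 g2.symm,
    Perm.inv_eq_iff_eq.2 g3.symm, Perm.inv_eq_iff_eq.2 g4.symm⟩

theorem Eqv.trans {x y z : ℤ} (h : Eqv k s a b x y) (h' : Eqv k s a b y z) :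
    Eqv k s a b x z := by
  obtain ⟨g, hg, g1, g2, g3, g4⟩ := h
  obtain ⟨f, hf, f1, f2, f3, f4⟩ := h'
  refine ⟨f * g, mul_mem hf hg, ?_, ?_, ?_, ?_⟩
  · rw [Perm.mul_apply, g1, f1]
  · rw [Perm.mul_apply, g2, f2]
  · rw [Perm.mul_apply, g3, f3]
  · rw [Perm.mul_apply, g4, f4]

/-- `τ_i` -/
def tau (k : ℕ) (s : ℕ → Bool) (i : ℤ) : Perm (Om k) := wd k s [-(2 * i), 2 * i]

theorem tau_pt {i x y : ℤ} (h : rho k s (pt k s (x - 2 * i)) = pt k s y) :
    tau k s i (pt k s x) = pt k s (y + 2 * i) := by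
  have e : tau k s i (pt k s x) = (R k s ^ (2 * i)) (rho k s ((R k s ^ (-(2 * i))) (pt k s x))) :=
    rfl
  rw [e, R_zpow_pt, show x + -(2 * i) = x - 2 * i by ring, h, R_zpow_pt]

theorem FR.tau_e (h : FR k s r) {i j : ℤ} (h1 : 1 ≤ i + j) (h2 : i + j ≤ r) :
    tau k s i (pt k s (-(2 * j))) = pt k s (-(2 * j)) := by
  have e := h.re (j := i + j) h1 h2
  have e2 := tau_pt (k := k) (s := s) (i := i) (x := -(2 * j)) (y := -(2 * (i + j))) (by
    rw [show -(2 * j) - 2 * i = -(2 * (i + j)) by ring]; exact e)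
  rw [e2]
  congr 1
  ring

/-- `τ_i` fixes `0, e(A), e(B)` -/
theorem FR.eqv_tau (h : FR k s r) {A B i x y : ℤ} (hA : 1 ≤ A) (hAB : A ≤ B) (h1 : 1 ≤ i)
    (h2 : i + B ≤ r) (hx : rho k s (pt k s (x - 2 * i)) = pt k s (y - 2 * i)) :
    Eqv k s (-(2 * A)) (-(2 * B)) x y := by
  refine ⟨tau k s i, wd_mem k s _, ?_, h.tau_e (by omega) (by omega),
    h.tau_e (by omega) (by omega), ?_⟩
  · have := h.tau_e (i := i) (j := 0) (by omega) (by omega)
    simpa using this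
  · rw [tau_pt hx]
    congr 1
    ring

/-- `o(j) ~ p(j + 3 i - 1)` via `τ_i` -/
theorem FR.eqv_op (h : FR k s r) {A B i j : ℤ} (hA : 1 ≤ A) (hAB : A ≤ B) (h1 : 1 ≤ i)
    (h2 : i + B ≤ r) (hj : 1 ≤ j) (hj2 : i + j ≤ r + 1) :
    Eqv k s (-(2 * A)) (-(2 * B)) (-(2 * j - 1)) (j + 3 * i - 1) := by
  refine h.eqv_tau hA hAB h1 h2 ?_
  have e := h.ro (j := i + j) (by omega) (by omega)
  rw [show -(2 * j - 1) - 2 * i = -(2 * (i + j) - 1) by ring, e]
  congr 1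
  ring

/-- `p(j) ~ p(3 i - (j + 1) / 2)` for odd `j = 2 m + 1` via `τ_i` -/
theorem FR.eqv_pp (h : FR k s r) {A B i m : ℤ} (hA : 1 ≤ A) (hAB : A ≤ B) (h1 : 1 ≤ i)
    (h2 : i + B ≤ r) (hm : 0 ≤ m) (hm2 : m + 1 ≤ i) :
    Eqv k s (-(2 * A)) (-(2 * B)) (2 * m + 1) (3 * i - (m + 1)) := by
  refine h.eqv_tau hA hAB h1 h2 ?_
  have e := h.ro (j := i - m) (by omega) (by omega)
  rw [show 2 * m + 1 - 2 * i = -(2 * (i - m) - 1) by ring, e]
  congr 1
  ring

/-- `e(j) ~ o(j - 1)` -/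
theorem FR.eqv_eo (h : FR k s r) {A B j : ℤ} (hA : 1 ≤ A) (hAB : A ≤ B) (h1 : B + 2 ≤ j)
    (h2 : j ≤ r) : Eqv k s (-(2 * A)) (-(2 * B)) (-(2 * j)) (-(2 * (j - 1) - 1)) := by
  have e1 : Eqv k s (-(2 * A)) (-(2 * B)) (-(2 * j)) (3 * r + 4 - 2 * j) := by
    refine h.eqv_tau (i := r + 1 - j) hA hAB (by omega) (by omega) ?_
    rw [show -(2 * j) - 2 * ((r : ℤ) + 1 - j) = -(2 * r + 2) by ring, h.rx']
    congr 1
    ring
  have e2 : Eqv k s (-(2 * A)) (-(2 * B)) (-(2 * (j - 1) - 1)) (3 * r + 4 - 2 * j) := by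
    refine h.eqv_tau (i := r + 2 - j) hA hAB (by omega) (by omega) ?_
    have e := h.ro (j := r + 1) (by omega) (by omega)
    rw [show -(2 * (j - 1) - 1) - 2 * ((r : ℤ) + 2 - j) = -(2 * ((r : ℤ) + 1) - 1) by ring, e]
    congr 1
    ring
  exact e1.trans e2.symm

/-- `r + 4 ~ e(r)` -/
theorem FR.eqv_top (h : FR k s r) {A B : ℤ} (hA : 1 ≤ A) (hAB : A ≤ B) (h1 : B + 1 ≤ r) :
    Eqv k s (-(2 * A)) (-(2 * B)) (r + 4) (-(2 * r)) := by
  refine h.eqv_tau (i := 1) hA hAB le_rfl (by omega) ?_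
  rw [show (r : ℤ) + 4 - 2 * 1 = r + 2 by ring, h.rx]
  congr 1
  ring

/-- all `p(x)` are equivalent -/
theorem FR.eqv_p (h : FR k s r) {A B : ℤ} (hA : 1 ≤ A) (hAB : A ≤ B) (h1 : B + 3 ≤ r)
    (x : ℕ) (hx : 1 ≤ x) (hx2 : x ≤ r + 4) :
    Eqv k s (-(2 * A)) (-(2 * B)) 1 x := by
  have e2 : Eqv k s (-(2 * A)) (-(2 * B)) 1 2 := by
    simpa using h.eqv_pp (i := 1) (m := 0) hA hAB (by norm_num) (by omega) le_rfl (by norm_num)
  have e5 : Eqv k s (-(2 * A)) (-(2 * B)) 1 5 := by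
    simpa using h.eqv_pp (i := 2) (m := 0) hA hAB (by norm_num) (by omega) le_rfl (by norm_num)
  have e34 : Eqv k s (-(2 * A)) (-(2 * B)) 3 4 := by
    simpa using h.eqv_pp (i := 2) (m := 1) hA hAB (by norm_num) (by omega) (by norm_num)
      (by norm_num)
  have e56 : Eqv k s (-(2 * A)) (-(2 * B)) 5 6 := by
    simpa using h.eqv_pp (i := 3) (m := 2) hA hAB (by norm_num) (by omega) (by norm_num)
      (by norm_num)
  -- `p(x) ~ p(x + 3)`
  have step : ∀ x : ℤ, 3 ≤ x → x ≤ r + 1 → Eqv k s (-(2 * A)) (-(2 * B)) x (x + 3) := by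
    intro x h3 h4
    have f1 := h.eqv_op (i := 1) (j := x - 2) hA hAB (by norm_num) (by omega) (by omega)
      (by omega)
    have f2 := h.eqv_op (i := 2) (j := x - 2) hA hAB (by norm_num) (by omega) (by omega)
      (by omega)
    rw [show x - 2 + 3 * 1 - 1 = x by ring] at f1
    rw [show x - 2 + 3 * 2 - 1 = x + 3 by ring] at f2
    exact f1.symm.trans f2
  have e3 : Eqv k s (-(2 * A)) (-(2 * B)) 1 3 :=
    (e5.trans e56).trans (step 3 le_rfl (by omega)).symm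
  induction x using Nat.strong_induction_on with
  | _ x ih =>
    rcases Nat.lt_or_ge x 6 with h6 | h6
    · interval_cases x
      · exact Eqv.refl _
      · exact_mod_cast e2
      · exact_mod_cast e3
      · exact_mod_cast e3.trans e34
      · exact_mod_cast e5
    · have f := step (x - 3) (by omega) (by omega)
      have g := ih (x - 3) (by omega) (by omega) (by omega)
      rw [show ((x - 3 : ℕ) : ℤ) = (x : ℤ) - 3 by omega] at g
      rw [show (x : ℤ) - 3 + 3 = x by ring] at f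
      exact g.trans f

/-- all `o(j)` for `j ≤ r` are equivalent to `p(1)` -/
theorem FR.eqv_o (h : FR k s r) {A B : ℤ} (hA : 1 ≤ A) (hAB : A ≤ B) (h1 : B + 3 ≤ r)
    {j : ℤ} (hj : 1 ≤ j) (hj2 : j ≤ r) : Eqv k s (-(2 * A)) (-(2 * B)) 1 (-(2 * j - 1)) := by
  have f1 := h.eqv_op (i := 1) (j := j) hA hAB (by norm_num) (by omega) (by omega) (by omega)
  obtain ⟨x, hx⟩ := Int.eq_ofNat_of_zero_le (show 0 ≤ j + 2 by omega)
  have f2 := h.eqv_p hA hAB h1 x (by omega) (by omega)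
  rw [show j + 3 * 1 - 1 = j + 2 by ring, hx] at f1
  exact f2.trans f1.symm

/-- all `e(j)` for `B + 2 ≤ j ≤ r` are equivalent to `p(1)` -/
theorem FR.eqv_e (h : FR k s r) {A B : ℤ} (hA : 1 ≤ A) (hAB : A ≤ B) (h1 : B + 3 ≤ r)
    {j : ℤ} (hj : B + 2 ≤ j) (hj2 : j ≤ r) : Eqv k s (-(2 * A)) (-(2 * B)) 1 (-(2 * j)) :=
  (h.eqv_o hA hAB h1 (j := j - 1) (by omega) (by omega)).trans (h.eqv_eo hA hAB hj hj2).symm

/-- the orbits of `T'` from closed sets of labels -/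
theorem cyc_mem {S : ℤ → Prop} (hS : ∀ x, S x → ∃ y, S y ∧ Tp k s (pt k s x) = pt k s y)
    {x0 : ℤ} (h0 : S x0) {x : Om k} (hx : (Tp k s).SameCycle (pt k s x0) x) :
    ∃ y, S y ∧ pt k s y = x := by
  obtain ⟨i, -, hi⟩ := hx.exists_pow_eq'
  have : ∀ i : ℕ, ∃ y, S y ∧ ((Tp k s) ^ i) (pt k s x0) = pt k s y := by
    intro i
    induction i with
    | zero => exact ⟨x0, h0, rfl⟩
    | succ i ih =>
      obtain ⟨y, hy, h2⟩ := ih
      obtain ⟨z, hz, h3⟩ := hS y hy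
      exact ⟨z, hz, by rw [pow_succ', Perm.mul_apply, h2, h3]⟩
  obtain ⟨y, hy, h2⟩ := this i
  exact ⟨y, hy, by rw [← hi, h2]⟩

theorem T_pow_add {m n : ℕ} {x y z : ℤ} (h1 : ((Tp k s) ^ m) (pt k s x) = pt k s y)
    (h2 : ((Tp k s) ^ n) (pt k s y) = pt k s z) : ((Tp k s) ^ (m + n)) (pt k s x) = pt k s z := by
  rw [add_comm, pow_add, Perm.mul_apply, h1, h2]

/-- `T'^t o(j) = o(j + 2 t)` -/
theorem FR.T_pow_o (h : FR k s r) {j : ℤ} (hj : 1 ≤ j) (t : ℕ) (ht : j + 2 * t ≤ r + 1) :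
    ((Tp k s) ^ t) (pt k s (-(2 * j - 1))) = pt k s (-(2 * (j + 2 * t) - 1)) := by
  induction t with
  | zero => simp
  | succ t ih =>
    rw [pow_succ', Perm.mul_apply, ih (by push_cast at ht; omega), h.T_o (by omega) (by
      push_cast at ht; omega)]
    congr 1
    push_cast
    ring

/-- `T'^(2 t) e(j + 2 t) = e(j)` -/
theorem FR.T_pow_e (h : FR k s r) {j : ℤ} (hj : 1 ≤ j) (t : ℕ) (ht : j + 2 * t + 1 ≤ r) :
    ((Tp k s) ^ (2 * t)) (pt k s (-(2 * (j + 2 * t)))) = pt k s (-(2 * j)) := by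
  induction t with
  | zero => simp
  | succ t ih =>
    have e : 2 * (t + 1) = 1 + 1 + 2 * t := by ring
    rw [e]
    refine T_pow_add (T_pow_add (y := j + 2 * (t + 1 : ℕ)) ?_ (z := -(2 * (j + 2 * t))) ?_)
      (ih (by push_cast at ht; omega))
    · rw [pow_one]
      exact h.T_e (by omega) (by omega)
    · rw [pow_one, h.T_p (by omega) (by omega)]
      congr 1
      push_cast
      ring

end

end TT
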