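import Pool.Agent.Lib.MP_db1bc6_al.Base
import Pool.Agent.Lib.MP_db1bc6_al.Stmt

/-! # Reduction of the tree model to the chain model -/

namespace TriTree

open Equiv

/-- the bits of a colouring -/
def bits {k : ℕ} (φ : Fin k → ZMod 3) (j : ℕ) : Bool :=
  if h : j + 1 < k then decide (φ ⟨j + 1, h⟩ - φ ⟨j, by omega⟩ = 1) else false

theorem red_swap_ne {k : ℕ} (j : Fin k) (t : ZMod 3) : lower j t ≠ some (j, t) := by
  unfold lower
  split_ifs with h
  · simp
  · intro h2
    have := congrArg Fin.val (Prod.mk.inj (Option.some.inj h2)).1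
    simp only at this
    omega

theorem red_disj {k : ℕ} {φ : Fin k → ZMod 3} (hφ : Admissible φ) (c : ZMod 3) (i j : Fin k)
    (hij : i ≠ j) : Perm.Disjoint (swap (lower i (c - φ i)) (some (i, c - φ i)))
      (swap (lower j (c - φ j)) (some (j, c - φ j))) := by
  apply Perm.disjoint_swap_swap
  have hv : i.val ≠ j.val := fun h => hij (Fin.ext h)
  have h1 : lower i (c - φ i) ≠ lower j (c - φ j) := by
    unfold lower
    split_ifs with h h' h'
    · omega
    · simp
    · simp
    · intro h2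
      have := congrArg Fin.val (Prod.mk.inj (Option.some.inj h2)).1
      simp only at this
      omega
  have key : ∀ i j : Fin k, lower i (c - φ i) ≠ some (j, c - φ j) := by
    intro i j
    unfold lower
    split_ifs with h
    · simp
    · intro h2
      have h3 := Prod.mk.inj (Option.some.inj h2)
      have h4 : i.val - 1 = j.val := congrArg Fin.val h3.1
      refine hφ j i (by omega) ?_
      have := h3.2
      exact (sub_right_injective this).symm
  have h2 : (some (i, c - φ i) : Vert k) ≠ some (j, c - φ j) := by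
    intro h
    exact hij (Prod.mk.inj (Option.some.inj h)).1
  simp only [List.nodup_cons, List.mem_cons, List.not_mem_nil, or_false, not_or,
    List.nodup_nil, and_true, not_false_eq_true]
  exact ⟨⟨key i i, h1, key i j⟩, ⟨fun h => key j i h.symm, h2⟩, key j j⟩

theorem red_pairwise {k : ℕ} {φ : Fin k → ZMod 3} (hφ : Admissible φ) (c : ZMod 3) :
    ((List.finRange k).map fun j => swap (lower j (c - φ j)) (some (j, c - φ j))).Pairwise
      Perm.Disjoint := by
  rw [List.pairwise_map]
  have := List.nodup_finRange k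
  exact this.imp (fun {a b} h => red_disj hφ c a b h)

theorem red_rho_of_moved {k : ℕ} {φ : Fin k → ZMod 3} (hφ : Admissible φ) (c : ZMod 3) (j : Fin k)
    (x : Vert k) (hx : swap (lower j (c - φ j)) (some (j, c - φ j)) x ≠ x) :
    rho φ c x = swap (lower j (c - φ j)) (some (j, c - φ j)) x := by
  refine (Perm.eq_on_support_mem_disjoint ?_ (red_pairwise hφ c) x ?_).symm
  · exact List.mem_map.mpr ⟨j, List.mem_finRange j, rfl⟩
  · rw [Perm.mem_support]
    exact hx

theorem red_rho_of_fixed {k : ℕ} {φ : Fin k → ZMod 3} (c : ZMod 3)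
    (x : Vert k) (hx : ∀ j : Fin k, swap (lower j (c - φ j)) (some (j, c - φ j)) x = x) :
    rho φ c x = x := by
  unfold rho
  have : ∀ l : List (Fin k),
      (l.map fun j => swap (lower j (c - φ j)) (some (j, c - φ j))).prod x = x := by
    intro l
    induction l with
    | nil => rfl
    | cons a l ih => rw [List.map_cons, List.prod_cons, Perm.mul_apply, ih, hx]
  exact this _

theorem red_rho_some {k : ℕ} {φ : Fin k → ZMod 3} (hφ : Admissible φ) (c : ZMod 3) (j : Fin k) :
    rho φ c (some (j, c - φ j)) = lower j (c - φ j) := by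
  rw [red_rho_of_moved hφ c j, swap_apply_right]
  rw [swap_apply_right]
  exact red_swap_ne _ _

theorem red_rho_lower {k : ℕ} {φ : Fin k → ZMod 3} (hφ : Admissible φ) (c : ZMod 3) (j : Fin k) :
    rho φ c (lower j (c - φ j)) = some (j, c - φ j) := by
  rw [red_rho_of_moved hφ c j, swap_apply_left]
  rw [swap_apply_left]
  exact (red_swap_ne _ _).symm

/-- the code of a vertex -/
def eF {k : ℕ} (φ : Fin k → ZMod 3) : Vert k → TT.Om k
  | none => 0
  | some (j, t) => ⟨3 * j.val + 1 + (t + φ j).val, by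
      have := ZMod.val_lt (t + φ j)
      have := j.isLt
      omega⟩

@[simp] theorem eF_none {k : ℕ} (φ : Fin k → ZMod 3) : (eF φ none).val = 0 := rfl

@[simp] theorem eF_some {k : ℕ} (φ : Fin k → ZMod 3) (j : Fin k) (t : ZMod 3) :
    (eF φ (some (j, t))).val = 3 * j.val + 1 + (t + φ j).val := rfl

theorem eF_injective {k : ℕ} (φ : Fin k → ZMod 3) : Function.Injective (eF φ) := by
  intro x y h
  have hv := congrArg Fin.val h
  rcases x with _ | ⟨j, t⟩ <;> rcases y with _ | ⟨j', t'⟩
  · rfl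
  · rw [eF_none, eF_some] at hv
    omega
  · rw [eF_none, eF_some] at hv
    omega
  · rw [eF_some, eF_some] at hv
    have h1 := ZMod.val_lt (t + φ j)
    have h2 := ZMod.val_lt (t' + φ j')
    have hj : j = j' := Fin.ext (by omega)
    subst hj
    have h3 : (t + φ j).val = (t' + φ j).val := by omega
    have h4 := ZMod.val_injective 3 h3
    rw [add_right_cancel h4]

theorem eF_bijective {k : ℕ} (φ : Fin k → ZMod 3) : Function.Bijective (eF φ) := by
  rw [Fintype.bijective_iff_injective_and_card]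
  refine ⟨eF_injective φ, ?_⟩
  simp [Fintype.card_option, ZMod.card]
  ring

/-- the bijection -/
noncomputable def eE {k : ℕ} (φ : Fin k → ZMod 3) : Vert k ≃ TT.Om k :=
  Equiv.ofBijective (eF φ) (eF_bijective φ)

@[simp] theorem eE_apply {k : ℕ} (φ : Fin k → ZMod 3) (x : Vert k) : eE φ x = eF φ x := rfl

/-- the rotation of the tree -/
def Th (k : ℕ) : Perm (Vert k) where
  toFun := Option.map (fun p => (p.1, p.2 + 1))
  invFun := Option.map (fun p => (p.1, p.2 - 1))
  left_inv x := by rcases x with _ | ⟨j, t⟩ <;> simp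
  right_inv x := by rcases x with _ | ⟨j, t⟩ <;> simp

@[simp] theorem Th_none (k : ℕ) : Th k none = none := rfl
@[simp] theorem Th_some {k : ℕ} (j : Fin k) (t : ZMod 3) : Th k (some (j, t)) = some (j, t + 1) := rfl

theorem Th_lower {k : ℕ} (j : Fin k) (t : ZMod 3) : Th k (lower j t) = lower j (t + 1) := by
  unfold lower
  split_ifs <;> simp

theorem red_conj {k : ℕ} (φ : Fin k → ZMod 3) (c : ZMod 3) :
    Th k * rho φ c * (Th k)⁻¹ = rho φ (c + 1) := by
  have : MulAut.conj (Th k) (rho φ c) = rho φ (c + 1) := by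
    unfold rho
    rw [map_list_prod, List.map_map]
    congr 1
    apply List.map_congr_left
    intro j _
    simp only [Function.comp_apply, MulAut.conj_apply]
    have h1 : c + 1 - φ j = c - φ j + 1 := by ring
    rw [h1, ← Th_some, ← Th_lower]
    ext x
    rw [Perm.mul_apply, Perm.mul_apply, swap_apply_def, swap_apply_def]
    simp only [Perm.inv_def, Equiv.symm_apply_eq]
    split_ifs <;> simp
  rw [← this]
  rfl

theorem zmod3_cases (a : ZMod 3) : a = 0 ∨ a = 1 ∨ a = 2 := by
  revert a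
  decide

theorem red_theta {k : ℕ} (φ : Fin k → ZMod 3) (x : Vert k) :
    eE φ (Th k x) = TT.theta k (eE φ x) := by
  apply Fin.ext
  rw [TT.theta_val, eE_apply, eE_apply]
  rcases x with _ | ⟨j, t⟩
  · simp
  · rw [Th_some, eF_some, eF_some]
    have h1 : t + 1 + φ j = (t + φ j) + 1 := by ring
    rw [h1]
    rcases zmod3_cases (t + φ j) with h | h | h <;> rw [h]
    · exact (TT.thetaN_c0 _).symm
    · exact (TT.thetaN_c1 _).symm
    · exact (TT.thetaN_c2 _).symm

theorem red_bits {k : ℕ} {φ : Fin k → ZMod 3} (hφ : Admissible φ) (j : ℕ) (h : j + 1 < k) :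
    (bits φ j = true ∧ φ ⟨j, by omega⟩ - φ ⟨j + 1, h⟩ = 2) ∨
      (bits φ j = false ∧ φ ⟨j, by omega⟩ - φ ⟨j + 1, h⟩ = 1) := by
  have h0 := hφ ⟨j, by omega⟩ ⟨j + 1, h⟩ rfl
  unfold bits
  rw [dif_pos h]
  generalize φ ⟨j + 1, h⟩ = a at *
  generalize φ ⟨j, by omega⟩ = b at *
  revert a b
  decide

theorem red_rho {k : ℕ} {φ : Fin k → ZMod 3} (hφ : Admissible φ) (hk : 1 ≤ k) (x : Vert k) :
    eE φ (rho φ 0 x) = TT.rho k (bits φ) (eE φ x) := by
  apply Fin.ext
  rw [TT.rho_val, eE_apply, eE_apply]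
  rcases x with _ | ⟨j, t⟩
  · have h1 : rho φ 0 none = some (⟨0, hk⟩, 0 - φ ⟨0, hk⟩) := by
      rw [← red_rho_lower hφ 0 ⟨0, hk⟩]
      congr 1
    rw [h1, eF_some, eF_none, TT.rhoN_zero _ hk]
    simp
  · by_cases ht : t = 0 - φ j
    · subst ht
      rw [red_rho_some hφ]
      rcases j with ⟨_ | j, hj⟩
      · simp [lower, TT.rhoN_one]
      · have h2 : lower (⟨j + 1, hj⟩ : Fin k) (0 - φ ⟨j + 1, hj⟩) =
            some (⟨j, by omega⟩, 0 - φ ⟨j + 1, hj⟩) := by
          simp [lower]
        rw [h2, eF_some, eF_some]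
        have h3 : (0 - φ ⟨j + 1, hj⟩ + φ ⟨j + 1, hj⟩ : ZMod 3).val = 0 := by simp
        rw [h3, add_zero, TT.rhoN_entry]
        have h4 : (0 - φ ⟨j + 1, hj⟩ + φ ⟨j, by omega⟩ : ZMod 3) =
            φ ⟨j, by omega⟩ - φ ⟨j + 1, hj⟩ := by ring
        rw [h4]
        rcases red_bits hφ j hj with ⟨h, h'⟩ | ⟨h, h'⟩ <;> rw [h, h'] <;> rfl
    · by_cases hj : ∃ h : j.val + 1 < k, t = 0 - φ ⟨j.val + 1, h⟩
      · obtain ⟨h, hj⟩ := hj
        have h1 : (some (j, t) : Vert k) = lower ⟨j.val + 1, h⟩ (0 - φ ⟨j.val + 1, h⟩) := by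
          simp [lower, hj]
        rw [h1, red_rho_lower hφ, ← h1, eF_some, eF_some]
        have h3 : (0 - φ ⟨j.val + 1, h⟩ + φ ⟨j.val + 1, h⟩ : ZMod 3).val = 0 := by simp
        rw [h3]
        have h4 : t + φ j = φ j - φ ⟨j.val + 1, h⟩ := by rw [hj]; ring
        rw [h4]
        rcases red_bits hφ j h with ⟨h5, h6⟩ | ⟨h5, h6⟩
        · have h6' : φ j - φ ⟨j.val + 1, h⟩ = 2 := h6
          rw [h6']
          have : (2 : ZMod 3).val = 2 := rfl
          rw [this, show 3 * j.val + 1 + 2 = 3 * j.val + 3 by ring, TT.rhoN_c2, if_pos ⟨h, h5⟩]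
        · have h6' : φ j - φ ⟨j.val + 1, h⟩ = 1 := h6
          rw [h6']
          have : (1 : ZMod 3).val = 1 := rfl
          rw [this, show 3 * j.val + 1 + 1 = 3 * j.val + 2 by ring, TT.rhoN_c1, if_pos ⟨h, h5⟩]
      · have hfix : rho φ 0 (some (j, t)) = some (j, t) := by
          apply red_rho_of_fixed
          intro i
          apply swap_apply_of_ne_of_ne
          · intro h
            unfold lower at h
            split_ifs at h with h0
            have h3 := Prod.mk.inj (Option.some.inj h)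
            have h4 : j.val = i.val - 1 := congrArg Fin.val h3.1
            have hi : (⟨j.val + 1, by have := i.isLt; omega⟩ : Fin k) = i := Fin.ext (by
              simp only
              omega)
            exact hj ⟨by have := i.isLt; omega, by rw [hi]; exact h3.2⟩
          · intro h
            have h3 := Prod.mk.inj (Option.some.inj h)
            exact ht (by rw [h3.2, h3.1])
        rw [hfix, eF_some]
        rcases zmod3_cases (t + φ j) with h | h | h
        · exact absurd (by rw [zero_sub]; exact eq_neg_of_add_eq_zero_left h) ht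
        · rw [h]
          have : (1 : ZMod 3).val = 1 := rfl
          rw [this, show 3 * j.val + 1 + 1 = 3 * j.val + 2 by ring, TT.rhoN_c1, if_neg]
          rintro ⟨h1, h2⟩
          rcases red_bits hφ j h1 with ⟨h5, h6⟩ | ⟨h5, h6⟩
          · rw [h5] at h2
            exact absurd h2 (by decide)
          · refine hj ⟨h1, ?_⟩
            have h7 : t + φ j = φ j - φ ⟨j.val + 1, h1⟩ := h.trans h6.symm
            linear_combination h7
        · rw [h]
          have : (2 : ZMod 3).val = 2 := rfl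
          rw [this, show 3 * j.val + 1 + 2 = 3 * j.val + 3 by ring, TT.rhoN_c2, if_neg]
          rintro ⟨h1, h2⟩
          rcases red_bits hφ j h1 with ⟨h5, h6⟩ | ⟨h5, h6⟩
          · refine hj ⟨h1, ?_⟩
            have h7 : t + φ j = φ j - φ ⟨j.val + 1, h1⟩ := h.trans h6.symm
            linear_combination h7
          · rw [h5] at h2
            exact absurd h2 (by decide)

/-! ### the group part -/

theorem red_Th_normalizer {k : ℕ} (φ : Fin k → ZMod 3) (z : ℤ) {n : Perm (Vert k)}
    (hn : n ∈ G φ) : Th k ^ z * n * (Th k ^ z)⁻¹ ∈ G φ := by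
  have h1 : ∀ n ∈ G φ, Th k * n * (Th k)⁻¹ ∈ G φ := by
    intro n hn
    unfold G at hn ⊢
    induction hn using Subgroup.closure_induction with
    | mem x hx =>
      obtain ⟨c, rfl⟩ := hx
      rw [red_conj]
      exact Subgroup.subset_closure ⟨_, rfl⟩
    | one => simp [one_mem]
    | mul x y _ _ hx hy =>
      have : Th k * (x * y) * (Th k)⁻¹ = (Th k * x * (Th k)⁻¹) * (Th k * y * (Th k)⁻¹) := by group
      rw [this]
      exact mul_mem hx hy
    | inv x _ hx =>
      have : Th k * x⁻¹ * (Th k)⁻¹ = (Th k * x * (Th k)⁻¹)⁻¹ := by group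
      rw [this]
      exact inv_mem hx
  have h2 : ∀ n ∈ G φ, (Th k)⁻¹ * n * Th k ∈ G φ := by
    intro n hn
    unfold G at hn ⊢
    induction hn using Subgroup.closure_induction with
    | mem x hx =>
      obtain ⟨c, rfl⟩ := hx
      have : (Th k)⁻¹ * rho φ c * Th k = rho φ (c - 1) := by
        have h := red_conj φ (c - 1)
        rw [sub_add_cancel] at h
        rw [← h]
        group
      rw [this]
      exact Subgroup.subset_closure ⟨_, rfl⟩
    | one => simp [one_mem]
    | mul x y _ _ hx hy =>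
      have : (Th k)⁻¹ * (x * y) * Th k = ((Th k)⁻¹ * x * Th k) * ((Th k)⁻¹ * y * Th k) := by group
      rw [this]
      exact mul_mem hx hy
    | inv x _ hx =>
      have : (Th k)⁻¹ * x⁻¹ * Th k = ((Th k)⁻¹ * x * Th k)⁻¹ := by group
      rw [this]
      exact inv_mem hx
  induction z generalizing n with
  | zero => simpa using hn
  | succ i ih =>
    have h3 := h1 _ (ih hn)
    have : Th k ^ ((i : ℤ) + 1) * n * (Th k ^ ((i : ℤ) + 1))⁻¹ =
        Th k * (Th k ^ (i : ℤ) * n * (Th k ^ (i : ℤ))⁻¹) * (Th k)⁻¹ := by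
      rw [add_comm, zpow_add, zpow_one]
      group
    rw [this]
    exact h3
  | pred i ih =>
    have h3 := h2 _ (ih hn)
    have : Th k ^ (-(i : ℤ) - 1) * n * (Th k ^ (-(i : ℤ) - 1))⁻¹ =
        (Th k)⁻¹ * (Th k ^ (-(i : ℤ)) * n * (Th k ^ (-(i : ℤ)))⁻¹) * (Th k) := by
      have h4 : (-(i : ℤ) - 1) = (-1) + (-(i : ℤ)) := by ring
      rw [h4, zpow_add, zpow_neg_one]
      group
    rw [this]
    exact h3

/-- the group with the rotation added -/
def Gst {k : ℕ} (φ : Fin k → ZMod 3) : Subgroup (Perm (Vert k)) :=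
  Subgroup.closure {rho φ 0, Th k}

theorem red_Gst_form {k : ℕ} (φ : Fin k → ZMod 3) {g : Perm (Vert k)} (hg : g ∈ Gst φ) :
    ∃ n ∈ G φ, ∃ z : ℤ, g = n * Th k ^ z := by
  unfold Gst at hg
  induction hg using Subgroup.closure_induction with
  | mem x hx =>
    rcases hx with rfl | hx
    · exact ⟨rho φ 0, Subgroup.subset_closure ⟨0, rfl⟩, 0, by simp⟩
    · rw [Set.mem_singleton_iff] at hx
      subst hx
      exact ⟨1, one_mem _, 1, by simp⟩
  | one => exact ⟨1, one_mem _, 0, by simp⟩
  | mul x y _ _ hx hy =>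
    obtain ⟨n, hn, z, rfl⟩ := hx
    obtain ⟨m, hm, w, rfl⟩ := hy
    refine ⟨n * (Th k ^ z * m * (Th k ^ z)⁻¹), mul_mem hn (red_Th_normalizer φ z hm), z + w, ?_⟩
    rw [zpow_add]
    group
  | inv x _ hx =>
    obtain ⟨n, hn, z, rfl⟩ := hx
    refine ⟨Th k ^ (-z) * n⁻¹ * (Th k ^ (-z))⁻¹, red_Th_normalizer φ (-z) (inv_mem hn), -z, ?_⟩
    group

open scoped commutatorElement in
theorem red_comm_le {k : ℕ} (φ : Fin k → ZMod 3) : ⁅Gst φ, Gst φ⁆ ≤ G φ := by
  rw [Subgroup.commutator_le]
  intro g hg h hh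
  obtain ⟨n, hn, z, rfl⟩ := red_Gst_form φ hg
  obtain ⟨m, hm, w, rfl⟩ := red_Gst_form φ hh
  have h1 : ⁅n * Th k ^ z, m * Th k ^ w⁆ =
      n * (Th k ^ z * m * (Th k ^ z)⁻¹) * (Th k ^ w * n⁻¹ * (Th k ^ w)⁻¹) * m⁻¹ := by
    rw [commutatorElement_def]
    have h2 : Th k ^ z * (m * Th k ^ w) * (Th k ^ z)⁻¹ =
        (Th k ^ z * m * (Th k ^ z)⁻¹) * Th k ^ w := by
      have : Th k ^ w * (Th k ^ z)⁻¹ = (Th k ^ z)⁻¹ * Th k ^ w := by
        rw [← zpow_neg, ← zpow_add, ← zpow_add, add_comm]
      rw [← mul_assoc (Th k ^ z), mul_assoc _ (Th k ^ w), this]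
      group
    calc n * Th k ^ z * (m * Th k ^ w) * (n * Th k ^ z)⁻¹ * (m * Th k ^ w)⁻¹
        = n * (Th k ^ z * (m * Th k ^ w) * (Th k ^ z)⁻¹) * n⁻¹ * (Th k ^ w)⁻¹ * m⁻¹ := by
          rw [mul_inv_rev, mul_inv_rev]
          simp only [mul_assoc]
      _ = _ := by
          rw [h2]
          simp only [mul_assoc]
  rw [h1]
  exact mul_mem (mul_mem (mul_mem hn (red_Th_normalizer φ z hm))
    (red_Th_normalizer φ w (inv_mem hn))) (inv_mem hm)

theorem red_card (k : ℕ) : Fintype.card (Vert k) = 3 * k + 1 := by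
  simp [Fintype.card_option, ZMod.card]
  ring

theorem red_map {k : ℕ} {φ : Fin k → ZMod 3} (hφ : Admissible φ) (hk : 1 ≤ k) :
    (Gst φ).map (eE φ).permCongrHom.toMonoidHom = TT.Gs k (bits φ) := by
  unfold Gst TT.Gs
  rw [MonoidHom.map_closure]
  congr 1
  have h1 : (eE φ).permCongrHom.toMonoidHom (rho φ 0) = TT.rho k (bits φ) := by
    ext x : 1
    have := red_rho hφ hk ((eE φ).symm x)
    rw [Equiv.apply_symm_apply] at this
    rw [← this]
    rfl
  have h2 : (eE φ).permCongrHom.toMonoidHom (Th k) = TT.theta k := by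
    ext x : 1
    have := red_theta φ ((eE φ).symm x)
    rw [Equiv.apply_symm_apply] at this
    rw [← this]
    rfl
  rw [Set.image_pair, h1, h2]

theorem red {k : ℕ} {φ : Fin k → ZMod 3} (hφ : Admissible φ) (hk : 2 ≤ k)
    (h : alternatingGroup (TT.Om k) ≤ TT.Gs k (bits φ)) : alternatingGroup (Vert k) ≤ G φ := by
  have h1 : alternatingGroup (Vert k) ≤ Gst φ := by
    intro g hg
    have h2 : (eE φ).permCongr g ∈ alternatingGroup (TT.Om k) := by
      rw [Perm.mem_alternatingGroup] at hg ⊢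
      rw [Perm.sign_permCongr, hg]
    have h3 := h h2
    rw [← red_map hφ (by omega)] at h3
    obtain ⟨g', hg', h4⟩ := h3
    have h5 : g' = g := (eE φ).permCongrHom.injective h4
    rwa [← h5]
  have h5 : 5 ≤ Nat.card (Vert k) := by
    rw [Nat.card_eq_fintype_card, red_card]
    omega
  rw [← commutator_alternatingGroup_eq_self h5]
  exact (Subgroup.commutator_mono h1 h1).trans (red_comm_le φ)

theorem sign_rho {k : ℕ} (φ : Fin k → ZMod 3) (c : ZMod 3) : Perm.sign (rho φ c) = (-1) ^ k := by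
  unfold rho
  rw [map_list_prod, List.map_map]
  have : (List.finRange k).map (Perm.sign ∘ fun j => swap (lower j (c - φ j)) (some (j, c - φ j))) =
      (List.finRange k).map (fun _ => (-1 : ℤˣ)) := by
    apply List.map_congr_left
    intro j _
    exact Perm.sign_swap (red_swap_ne _ _)
  rw [this, List.map_const', List.prod_replicate, List.length_finRange]

theorem G_of_alt {k : ℕ} {φ : Fin k → ZMod 3} (h : alternatingGroup (Vert k) ≤ G φ) :
    G φ = if Odd k then ⊤ else alternatingGroup (Vert k) := by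
  split_ifs with hk
  · rw [eq_top_iff]
    intro g _
    rcases Int.units_eq_one_or (Perm.sign g) with h1 | h1
    · exact h ((Perm.mem_alternatingGroup).mpr h1)
    · have h2 : rho φ 0 ∈ G φ := Subgroup.subset_closure ⟨0, rfl⟩
      have h3 : g * rho φ 0 ∈ G φ := by
        apply h
        rw [Perm.mem_alternatingGroup, map_mul, h1, sign_rho, hk.neg_one_pow]
        rfl
      have h4 := mul_mem h3 (inv_mem h2)
      rwa [mul_inv_cancel_right] at h4
  · apply le_antisymm _ h
    unfold G
    rw [Subgroup.closure_le]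
    rintro _ ⟨c, rfl⟩
    rw [SetLike.mem_coe, Perm.mem_alternatingGroup, sign_rho]
    exact (Nat.not_odd_iff_even.mp hk).neg_one_pow

theorem k_one (φ : Fin 1 → ZMod 3) : G φ = ⊤ := by
  have h1 : ∀ t : ZMod 3, swap (none : Vert 1) (some (0, t)) ∈ G φ := by
    intro t
    have : rho φ (t + φ 0) = swap (none : Vert 1) (some (0, t)) := by
      unfold rho
      simp [List.finRange_succ, lower]
    rw [← this]
    exact Subgroup.subset_closure ⟨_, rfl⟩
  rw [eq_top_iff, ← Perm.closure_isSwap, Subgroup.closure_le]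
  rintro _ ⟨x, y, hxy, rfl⟩
  rcases x with _ | ⟨i, t⟩ <;> rcases y with _ | ⟨j, u⟩
  · exact absurd rfl hxy
  · rw [Subsingleton.elim j 0]
    exact h1 u
  · rw [Subsingleton.elim i 0, swap_comm]
    exact h1 t
  · rw [Subsingleton.elim i 0, Subsingleton.elim j 0] at hxy ⊢
    have h2 : swap (some (0, t) : Vert 1) (some (0, u)) =
        swap none (some (0, t)) * swap none (some (0, u)) * swap none (some (0, t)) := by
      have h3 := Equiv.swap_mul_swap_mul_swap (x := (some (0, u) : Vert 1)) (y := none)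
        (z := some (0, t)) (by simp) hxy.symm
      rw [← h3, swap_comm none (some (0, u))]
    rw [h2]
    exact mul_mem (mul_mem (h1 t) (h1 u)) (h1 t)

end TriTree
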