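import Pool.Agent.Lib.MP_db1bc6_al.Chain
import Pool.Agent.Lib.MP_db1bc6_al.Red
import Pool.Agent.Lib.MP_db1bc6_al.Exc2
import Pool.Agent.Lib.MP_db1bc6_al.Exc4

/-! # The groups of the coloured trees: all cases -/

namespace TriTree

open Equiv

theorem main {k : ℕ} (hk : 1 ≤ k) {φ : Fin k → ZMod 3} (hφ : Admissible φ) (h2 : k ≠ 2)
    (h4 : ¬ Exceptional φ) : G φ = if Odd k then ⊤ else alternatingGroup (Vert k) := by
  rcases Nat.lt_or_ge k 2 with h | h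
  · obtain rfl : k = 1 := by omega
    rw [k_one φ, if_pos (by decide)]
  · have h3 : 3 ≤ k := by omega
    apply G_of_alt
    apply red hφ h
    apply TT.chain_all h3
    rintro ⟨rfl, h01, h12⟩
    apply h4
    have a0 : φ 0 ≠ φ 1 := hφ 0 1 rfl
    have a1 : φ 1 ≠ φ 2 := hφ 1 2 rfl
    have a2 : φ 2 ≠ φ 3 := hφ 2 3 rfl
    have b0 : bits φ 0 = decide (φ 1 - φ 0 = 1) := rfl
    have b1 : bits φ 1 = decide (φ 2 - φ 1 = 1) := rfl
    have b2 : bits φ 2 = decide (φ 3 - φ 2 = 1) := rfl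
    rw [b0, b1] at h01
    rw [b1, b2] at h12
    refine ⟨rfl, ?_⟩
    change φ 1 - φ 0 = φ 2 - φ 1 ∧ φ 2 - φ 1 ≠ φ 3 - φ 2
    revert h01 h12 a0 a1 a2
    generalize φ 0 = x0
    generalize φ 1 = x1
    generalize φ 2 = x2
    generalize φ 3 = x3
    revert x0 x1 x2 x3
    decide

end TriTree
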