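import Pool.Agent.Lib.MP_db1bc6_al.Special
import Pool.Agent.Lib.MP_db1bc6_al.Prim

/-! # Small chains: certificates -/

namespace TT

/-- bits of a number, least significant first -/
def toB : ℕ → ℕ → List Bool
  | 0, _ => []
  | n + 1, m => (m % 2 == 1) :: toB n (m / 2)

/-- certificates `(n, m, (lw, w, M, c))` : the colouring `toB n m`, the word `toB lw w`, the
exponent `M` and a moved point -/
def skTab : List (ℕ × ℕ × ℕ × ℕ × ℕ × Option (ℕ × Bool)) :=
  [(2, 0, 2, 1, 4, some (0, true)), (2, 2, 4, 3, 4, none), (3, 0, 7, 3, 5, some (3, true)),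
    (3, 2, 9, 19, 4, some (0, true)), (3, 6, 4, 3, 4, some (2, false)),
    (4, 0, 6, 11, 4, some (3, true)), (4, 2, 9, 41, 4, some (2, true)),
    (4, 4, 7, 9, 3, some (2, false)), (4, 6, 8, 43, 4, some (3, false)),
    (4, 8, 2, 1, 4, some (0, true)), (4, 10, 9, 19, 4, some (0, true)),
    (4, 12, 2, 1, 4, some (2, true)), (4, 14, 4, 3, 5, some (2, false)),
    (5, 0, 12, 245, 4, none), (5, 2, 9, 41, 4, some (2, false)),
    (5, 4, 2, 1, 20, some (3, true)), (5, 6, 8, 43, 4, some (4, true)),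
    (5, 8, 2, 1, 20, some (0, true)), (5, 10, 9, 19, 4, some (0, true)), (5, 12, 6, 7, 8, none),
    (5, 14, 2, 1, 20, some (1, true)), (5, 16, 6, 11, 10, some (3, true)),
    (5, 18, 12, 473, 4, some (0, false)), (5, 20, 11, 169, 2, none),
    (5, 22, 10, 7, 4, some (0, false)), (5, 24, 10, 103, 4, some (4, false)),
    (5, 26, 2, 1, 14, some (3, true)), (5, 28, 11, 149, 4, none),
    (5, 30, 8, 29, 4, some (2, true)), (6, 0, 6, 7, 4, some (1, true)),
    (6, 2, 3, 1, 19, some (0, false)), (6, 4, 8, 53, 4, some (4, false)),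
    (6, 6, 11, 169, 4, some (3, false)), (6, 8, 12, 95, 4, none),
    (6, 10, 2, 1, 8, some (4, true)), (6, 12, 2, 1, 4, some (4, true)),
    (6, 14, 3, 1, 19, some (0, false)), (6, 16, 12, 105, 8, some (4, false)),
    (6, 18, 3, 1, 19, some (0, false)), (6, 20, 11, 169, 2, none), (6, 22, 10, 103, 4, none),
    (6, 24, 2, 1, 4, some (0, true)), (6, 26, 12, 411, 4, none),
    (6, 28, 2, 1, 4, some (2, true)), (6, 30, 3, 1, 19, some (0, false)),
    (6, 32, 9, 21, 5, some (5, false)), (6, 34, 3, 1, 19, some (0, false)),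
    (6, 36, 5, 1, 8, some (2, false)), (6, 38, 8, 43, 4, some (3, false)),
    (6, 40, 10, 181, 4, some (0, true)), (6, 42, 4, 3, 8, none),
    (6, 44, 10, 47, 5, some (0, true)), (6, 46, 2, 1, 10, some (1, true)),
    (6, 48, 10, 93, 4, some (3, true)), (6, 50, 10, 155, 4, some (0, true)),
    (6, 52, 6, 11, 8, some (3, true)), (6, 54, 2, 1, 10, some (4, true)),
    (6, 56, 10, 93, 4, some (0, false)), (6, 58, 6, 7, 8, some (2, true)),
    (6, 60, 6, 11, 8, none), (6, 62, 6, 7, 4, some (4, false)),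
    (7, 0, 10, 155, 4, some (2, true)), (7, 2, 12, 473, 4, some (0, false)),
    (7, 4, 10, 71, 8, some (4, true)), (7, 6, 12, 685, 8, none),
    (7, 8, 12, 371, 4, some (0, false)), (7, 10, 12, 621, 4, some (4, true)),
    (7, 12, 11, 169, 4, some (4, false)), (7, 14, 8, 15, 8, some (2, true)),
    (7, 16, 9, 29, 7, some (4, false)), (7, 18, 12, 821, 4, some (4, true)),
    (7, 20, 2, 1, 28, some (5, true)), (7, 22, 8, 29, 10, some (4, true)),
    (7, 24, 7, 9, 10, some (0, true)), (7, 26, 10, 115, 4, some (0, true)),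
    (7, 28, 8, 29, 8, some (0, false)), (7, 30, 9, 29, 7, some (0, true)),
    (7, 32, 10, 115, 4, none), (7, 34, 9, 41, 4, some (3, true)),
    (7, 36, 8, 15, 4, some (3, false)), (7, 38, 12, 685, 5, none),
    (7, 40, 2, 1, 28, some (0, true)), (7, 42, 9, 19, 4, some (0, true)),
    (7, 44, 9, 21, 4, some (2, true)), (7, 46, 12, 349, 4, some (0, true)),
    (7, 48, 11, 71, 4, some (0, true)), (7, 50, 10, 155, 4, some (0, true)),
    (7, 52, 11, 169, 2, none), (7, 54, 8, 15, 8, some (1, true)), (7, 56, 10, 31, 4, none),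
    (7, 58, 5, 1, 10, some (3, false)), (7, 60, 7, 5, 16, some (5, false)),
    (7, 62, 8, 53, 8, some (5, false)), (7, 64, 9, 35, 8, some (3, true)),
    (7, 66, 4, 3, 8, none), (7, 68, 2, 1, 20, some (3, true)), (7, 70, 2, 1, 20, some (3, true)),
    (7, 72, 4, 3, 8, some (4, false)), (7, 74, 9, 21, 4, some (0, true)),
    (7, 76, 4, 3, 8, some (0, true)), (7, 78, 2, 1, 20, some (1, true)),
    (7, 80, 8, 23, 4, some (0, true)), (7, 82, 8, 29, 10, some (1, true)),
    (7, 84, 9, 21, 2, some (0, true)), (7, 86, 8, 23, 8, some (0, true)),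
    (7, 88, 2, 1, 20, some (0, true)), (7, 90, 9, 19, 8, some (0, true)),
    (7, 92, 2, 1, 20, some (2, true)), (7, 94, 12, 125, 4, some (4, true)),
    (7, 96, 10, 93, 4, some (4, true)), (7, 98, 8, 29, 8, some (1, true)),
    (7, 100, 10, 155, 2, none), (7, 102, 2, 1, 20, some (5, true)),
    (7, 104, 7, 9, 10, some (0, true)), (7, 106, 12, 189, 4, some (3, false)),
    (7, 108, 2, 1, 20, some (5, true)), (7, 110, 11, 9, 7, some (3, false)),
    (7, 112, 6, 13, 8, some (4, true)), (7, 114, 8, 15, 8, some (5, false)),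
    (7, 116, 8, 15, 4, some (1, true)), (7, 118, 12, 175, 4, some (5, true)),
    (7, 120, 10, 93, 4, some (0, false)), (7, 122, 4, 3, 8, none), (7, 124, 12, 473, 4, none),
    (7, 126, 7, 5, 10, some (5, false)), (8, 0, 9, 37, 8, some (5, false)),
    (8, 2, 3, 1, 25, some (0, false)), (8, 4, 12, 245, 8, some (2, true)),
    (8, 6, 10, 179, 4, some (3, true)), (8, 8, 11, 57, 11, some (3, false)),
    (8, 10, 3, 1, 25, some (0, false)), (8, 12, 12, 373, 4, some (6, true)),
    (8, 14, 3, 1, 25, some (0, false)), (8, 16, 10, 93, 4, some (2, false)),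
    (8, 18, 3, 1, 25, some (0, false)), (8, 20, 10, 171, 8, some (5, true)),
    (8, 22, 8, 53, 8, some (6, false)), (8, 24, 4, 3, 35, some (4, true)),
    (8, 26, 3, 1, 25, some (0, false)), (8, 28, 12, 125, 10, some (3, true)),
    (8, 30, 3, 1, 25, some (0, false)), (8, 32, 10, 73, 10, some (3, true)),
    (8, 34, 3, 1, 25, some (0, false)), (8, 36, 2, 1, 20, some (6, true)),
    (8, 38, 2, 1, 20, some (6, true)), (8, 40, 11, 89, 8, some (3, false)),
    (8, 42, 2, 1, 10, some (6, true)), (8, 44, 12, 349, 4, some (5, true)),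
    (8, 46, 3, 1, 25, some (0, false)), (8, 48, 10, 89, 16, some (1, true)),
    (8, 50, 3, 1, 25, some (0, false)), (8, 52, 11, 169, 2, none),
    (8, 54, 2, 1, 20, some (6, true)), (8, 56, 10, 115, 8, some (1, false)),
    (8, 58, 7, 9, 8, some (1, false)), (8, 60, 8, 29, 10, some (0, false)),
    (8, 62, 8, 53, 8, some (5, true)), (8, 64, 12, 343, 4, some (3, true)),
    (8, 66, 12, 95, 4, some (0, true)), (8, 68, 2, 1, 20, some (3, true)),
    (8, 70, 2, 1, 20, some (3, true)), (8, 72, 2, 1, 20, some (0, true)),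
    (8, 74, 11, 169, 4, some (4, true)), (8, 76, 12, 27, 4, some (5, false)),
    (8, 78, 2, 1, 20, some (1, true)), (8, 80, 10, 11, 16, some (4, true)),
    (8, 82, 3, 1, 25, some (0, false)), (8, 84, 11, 169, 2, none),
    (8, 86, 8, 43, 8, some (3, false)), (8, 88, 12, 81, 8, some (1, true)),
    (8, 90, 9, 19, 8, some (0, true)), (8, 92, 10, 173, 8, some (0, false)),
    (8, 94, 10, 173, 4, some (0, false)), (8, 96, 12, 693, 4, some (4, true)),
    (8, 98, 3, 1, 25, some (0, false)), (8, 100, 10, 155, 2, none),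
    (8, 102, 8, 43, 4, some (3, false)), (8, 104, 11, 147, 8, some (4, false)),
    (8, 106, 12, 411, 4, none), (8, 108, 12, 33, 10, some (0, false)),
    (8, 110, 2, 1, 20, some (1, true)), (8, 112, 6, 7, 10, some (2, true)),
    (8, 114, 5, 1, 8, some (4, false)), (8, 116, 5, 1, 20, some (4, false)),
    (8, 118, 2, 1, 20, some (4, true)), (8, 120, 6, 11, 8, some (7, false)),
    (8, 122, 3, 1, 25, some (0, false)), (8, 124, 8, 23, 10, some (4, true)),
    (8, 126, 3, 1, 25, some (0, false)), (8, 128, 10, 155, 4, some (2, true)),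
    (8, 130, 8, 29, 8, some (5, true)), (8, 132, 12, 473, 4, some (4, false)),
    (8, 134, 3, 1, 25, some (0, false)), (8, 136, 12, 371, 4, some (0, false)),
    (8, 138, 2, 1, 8, some (4, true)), (8, 140, 2, 1, 4, some (4, true)),
    (8, 142, 3, 1, 25, some (0, false)), (8, 144, 10, 115, 4, some (3, true)),
    (8, 146, 3, 1, 25, some (0, false)), (8, 148, 8, 29, 8, some (4, true)),
    (8, 150, 3, 1, 25, some (0, false)), (8, 152, 2, 1, 4, some (0, true)),
    (8, 154, 12, 343, 4, none), (8, 156, 2, 1, 4, some (2, true)),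
    (8, 158, 3, 1, 25, some (0, false)), (8, 160, 10, 181, 4, some (2, true)),
    (8, 162, 3, 1, 25, some (0, false)), (8, 164, 5, 1, 8, some (4, false)),
    (8, 166, 12, 373, 4, some (0, false)), (8, 168, 2, 1, 8, some (0, true)),
    (8, 170, 9, 19, 4, some (0, true)), (8, 172, 4, 3, 14, some (0, true)),
    (8, 174, 6, 7, 8, none), (8, 176, 7, 9, 8, some (2, true)),
    (8, 178, 10, 155, 4, some (0, true)), (8, 180, 8, 23, 4, some (2, true)),
    (8, 182, 10, 87, 5, some (1, true)), (8, 184, 4, 3, 8, some (4, false)),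
    (8, 186, 8, 53, 8, some (1, true)), (8, 188, 6, 11, 8, none),
    (8, 190, 8, 53, 8, some (3, false)), (8, 192, 10, 93, 4, some (5, true)),
    (8, 194, 3, 1, 25, some (0, false)), (8, 196, 11, 169, 4, none),
    (8, 198, 3, 1, 25, some (0, false)), (8, 200, 4, 3, 8, some (7, false)),
    (8, 202, 2, 1, 8, some (6, true)), (8, 204, 2, 1, 4, some (6, true)),
    (8, 206, 3, 1, 25, some (0, false)), (8, 208, 10, 93, 4, some (1, false)),
    (8, 210, 3, 1, 25, some (0, false)), (8, 212, 2, 1, 8, some (6, true)),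
    (8, 214, 3, 1, 25, some (0, false)), (8, 216, 8, 9, 10, some (7, false)),
    (8, 218, 3, 1, 25, some (0, false)), (8, 220, 9, 77, 9, some (1, false)),
    (8, 222, 3, 1, 25, some (0, false)), (8, 224, 11, 141, 8, some (1, true)),
    (8, 226, 9, 37, 8, none), (8, 228, 6, 7, 20, some (3, false)),
    (8, 230, 3, 1, 25, some (0, false)), (8, 232, 10, 93, 4, some (0, false)),
    (8, 234, 3, 1, 25, some (0, false)), (8, 236, 8, 43, 4, some (6, true)),
    (8, 238, 12, 621, 4, some (7, true)), (8, 240, 11, 43, 8, some (4, false)),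
    (8, 242, 3, 1, 25, some (0, false)), (8, 244, 4, 3, 20, some (0, true)),
    (8, 246, 6, 11, 10, some (3, true)), (8, 248, 10, 93, 4, some (0, false)),
    (8, 250, 6, 7, 8, some (2, true)), (8, 252, 10, 103, 8, some (6, false)),
    (8, 254, 10, 155, 4, some (0, true))]

end TT
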