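import Pool.Agent.Lib.MP_db1bc6_al.SmallDef

/-! # Certificates for the short first runs -/

namespace TT

/-- certificate for the prefix `0100` -/
def cert0100 : Cert where
  F := [false, true, false, false]
  r := 1
  C := [2, -1]
  D := [1, -3]
  a := 2
  b := -1
  base := 1
  ws := [(-3, [0, -3, -4, -2, 3, 3]), (1, [0])]
  w3 := [-7, 7]

/-- certificate for the prefix `0101` -/
def cert0101 : Cert where
  F := [false, true, false, true]
  r := 1
  C := [2, -1]
  D := [8, 4]
  a := 2
  b := -1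
  base := 8
  ws := [(4, [-3, -3, -2, -3, 1]), (8, [0])]
  w3 := [-1, -3, -2, 0]

/-- certificate for the prefix `011` -/
def cert011 : Cert where
  F := [false, true, true]
  r := 1
  C := [2, -1]
  D := [7, 3]
  a := 2
  b := -1
  base := 7
  ws := [(3, [-3, -3, -2, -3, 1]), (7, [0])]
  w3 := [2, -2]

/-- certificate for the prefix `00100` -/
def cert00100 : Cert where
  F := [false, false, true, false, false]
  r := 2
  C := [3, -2, 1, -3]
  D := [6, 2, -1, -5]
  a := -3
  b := -2
  base := 1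
  ws := [(-5, [0, 5, 3, 3, 5, 0]), (-1, [-1, 5, 6, -4, -4, 1]), (1, [0]),
         (2, [-3, -8, -3, -3, -9, -4]), (3, [4, 7, 3]), (6, [-1, 4, -2, -5, 1])]
  w3 := [-4, 4]

/-- certificate for the prefix `0010100` -/
def cert0010100 : Cert where
  F := [false, false, true, false, true, false, false]
  r := 2
  C := [3, -2, 1, -3]
  D := [9, 5, -6, 6]
  a := -3
  b := -2
  base := 1
  ws := [(-6, [-8, -3, -3, -11, -4]), (1, [0]), (3, [-6, -3, 3]), (5, [-3, 4, 3, 3, 8]),
         (6, [-1, 8, 5, -4, 1]), (9, [-2, 3, -4, 4, -3, 2])]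
  w3 := [-7, 7]

/-- certificate for the prefix `00101010` -/
def cert00101010 : Cert where
  F := [false, false, true, false, true, false, true, false]
  r := 2
  C := [3, -2, 1, -3]
  D := [12, 8, -9, 9]
  a := -3
  b := 3
  base := 1
  ws := [(-9, [-11, -3, 14, -6]), (-2, [-4, 3, 3, -3]), (1, [0]), (8, [-7, -4, -4, 6]),
         (9, [-8, 3, 15, 11, 8]), (12, [-4, 4, -2, -3, 7, 8])]
  w3 := [-4, 4]

/-- certificate for the prefix `001010110` -/
def cert001010110 : Cert where
  F := [false, false, true, false, true, false, true, true, false]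
  r := 2
  C := [3, -2, 1, -3]
  D := [14, 10, -10, 11]
  a := 1
  b := 3
  base := -3
  ws := [(-10, [1, -5, 5, 4, -5]), (-3, [0]), (-2, [-12, -13, -1]),
         (10, [-12, -10, -7, -7, 2]), (11, [-12, -10, 3, 3, 2]), (14, [-7, -5, -13, -8, 7])]
  w3 := [-13, -5, 9]

/-- certificate for the prefix `001010111` -/
def cert001010111 : Cert where
  F := [false, false, true, false, true, false, true, true, true]
  r := 2
  C := [3, -2, 1, -3]
  D := [8, -9, 9, 5]
  a := 3
  b := -2
  base := 1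
  ws := [(-9, [-12, -15, -2]), (-3, [-8, 7, 3, 5, -2]), (1, [0]), (5, [2, 10, -5, -3, -9]),
         (8, [-12, -4, -2, -5, -4, 6]), (9, [-12, -11, 3, -6, -1])]
  w3 := [-10, 10]

/-- certificate for the prefix `001011` -/
def cert001011 : Cert where
  F := [false, false, true, false, true, true]
  r := 2
  C := [3, -2, 1, -3]
  D := [9, 5, -6, 6]
  a := 3
  b := 1
  base := -3
  ws := [(-6, [-4, 5, 3, 4, -3]), (-3, [0]), (-2, [-6, -7, -1]), (5, [-2, -6, -6, -3, -1]),
         (6, [3, -4, -3, -5, 4]), (9, [-1, -5, -6, 6, 5, 1])]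
  w3 := [-7, 7]

/-- certificate for the prefix `0011000` -/
def cert0011000 : Cert where
  F := [false, false, true, true, false, false, false]
  r := 2
  C := [3, -2, 1, -3]
  D := [-4, 5, -6, 6]
  a := -2
  b := 1
  base := -3
  ws := [(-6, [-7, -3, -3, -3, 4]), (-4, [-5, -5, -6, -6, -2, -4]), (-3, [0]),
         (3, [-2, -7, -7, 1]), (5, [-1, 8, 9, 2]), (6, [-2, -7, -7, 7, 13, 7])]
  w3 := [-10, 10]

/-- certificate for the prefix `00110010` -/
def cert00110010 : Cert where
  F := [false, false, true, true, false, false, true, false]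
  r := 2
  C := [3, -2, 1, -3]
  D := [-7, -11, 10, -10]
  a := -3
  b := -2
  base := 1
  ws := [(-11, [4, -6, -6, 7, 3]), (-10, [4, -6, -10]), (-7, [-5, 5, 5, -5, -3, 6]), (1, [0]),
         (3, [-3, -7, -4]), (10, [0, 6, -4, 10, 5, 4])]
  w3 := [-10, 10]

/-- certificate for the prefix `001100110` -/
def cert001100110 : Cert where
  F := [false, false, true, true, false, false, true, true, false]
  r := 2
  C := [3, -2, 1, -3]
  D := [14, 10, -10, 11]
  a := 1
  b := -3
  base := 3
  ws := [(-10, [-12, -9, 7, 7, 3]), (-2, [-8, -4, -6, -2, 8]), (3, [0]),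
         (10, [-8, -3, 3, -3, 11]), (11, [-12, -13, -8, -9, -1]), (14, [-3, -7, 6, 13, 3])]
  w3 := [-12, -23, -12]

/-- certificate for the prefix `001100111` -/
def cert001100111 : Cert where
  F := [false, false, true, true, false, false, true, true, true]
  r := 2
  C := [3, -2, 1, -3]
  D := [16, 12, 8, 4]
  a := -2
  b := -3
  base := 1
  ws := [(1, [0]), (3, [-3, -7, -4]), (4, [-3, -7, -7, -13, -10]), (8, [8, 4, -12, -9, 3, -5]),
         (12, [1, -9, -9, 4, 3]), (16, [6, -5, -12, -6, 8])]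
  w3 := [-8, 8]

/-- certificate for the prefix `001101` -/
def cert001101 : Cert where
  F := [false, false, true, true, false, true]
  r := 2
  C := [3, -2, 1, -3]
  D := [11, 7, -7, 8]
  a := 3
  b := -3
  base := 1
  ws := [(-7, [-2, -7, -4, 4, 7, 2]), (-2, [0, -6, -6, 1]), (1, [0]), (7, [2, 3, -3, -2]),
         (8, [6, 5, -2, 4]), (11, [-6, -5, 6, 6, 4, 6])]
  w3 := [5, -5]

/-- certificate for the prefix `00111` -/
def cert00111 : Cert where
  F := [false, false, true, true, true]
  r := 2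
  C := [3, -2, 1, -3]
  D := [2, -1, -5, 7]
  a := -2
  b := 3
  base := 1
  ws := [(-5, [0, -3, 4, 3, 6, 3]), (-3, [2, 3, 9, -2, -8, -1]),
         (-1, [-3, -6, -3, -7, -3, -3]), (1, [0]), (2, [-3, -3, 6, 5, -2, 2]),
         (7, [-6, -2, 6, 3, 5, 6])]
  w3 := [-2, 2]

/-- certificate for the prefix `0001` -/
def cert0001 : Cert where
  F := [false, false, false, true]
  r := 3
  C := [4, -4, 2, -1, -5]
  D := [7, 3, -2, 1, -3]
  a := 2
  b := -4
  base := -1
  ws := [(-5, [-1, -5, -4, -3, -2, -3, -3, -3]), (-3, [-1, -5, -4, -5, -3, -2, -1]),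
         (-2, [-1, -2, 3, 3, 3, 5, 1]), (-1, [0]), (1, [-3, -2, 5, 5, 4, 6, 3, 3]),
         (3, [-4, -2, 5, -5, -4, 3, 3]), (4, [-1, -2, -3, -4, -2, 3, -2, 2]),
         (7, [-1, -5, -6, -3, -4, -2, 2])]
  w3 := [-4, 4]

/-- certificate for the prefix `00001` -/
def cert00001 : Cert where
  F := [false, false, false, false, true]
  r := 4
  C := [5, -6, 3, -2, 1, -3, -7]
  D := [8, 4, -4, 2, -1, -5, -9]
  a := -2
  b := 1
  base := -3
  ws := [(-9, [-7, -2, 6, 5, 3, 3, 1]), (-7, [2, -2, -5, -4, 4, 2]), (-6, [-3, -3, -3, -3, 0]),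
         (-5, [2, -2, -3]), (-4, [-3, -3, -7, -5, 0]), (-3, [0]), (-1, [-2, -5, -3, 1]),
         (2, [2, -2, -5, -3, -2, 1]), (3, [2, -2, -5, -5, -3, 1]), (4, [-2, -2, -3, -3, 1]),
         (5, [-4, -3, -8, -5, -4, -3, 2]), (8, [2, -2, -3, 4, 5, 3, 3])]
  w3 := [-6, 6]

/-- certificate for the prefix `000001` -/
def cert000001 : Cert where
  F := [false, false, false, false, false, true]
  r := 5
  C := [6, -8, 4, -4, 2, -1, -5, -9]
  D := [9, 5, -6, 3, -2, 1, -3, -7]
  a := 2
  b := -4
  base := -1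
  ws := [(-9, [-1, 5, 4, -4, -7, -3]), (-8, [0, -3, -3, -10, -2, 3]), (-7, [-7, -2, 3]),
         (-6, [-3, -7, -4, 4, 6, 1]), (-5, [0, -3, -3, -3]), (-3, [3, 3, 3, 0]),
         (-2, [-2, 6, 7, -7, -6, 2]), (-1, [0]), (1, [-4, -3, -2, 3]),
         (3, [2, 6, -2, -7, -4, 2]), (4, [5, 10, 4, 6, -2, 0]), (5, [-4, -2, 6]), (6, [-4, 4]),
         (9, [-6, 6])]
  w3 := [-8, 8]

/-- all certificates -/
def certs : List Cert :=
  [cert0100, cert0101, cert011, cert00100, cert0010100, cert00101010, cert001010110,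
   cert001010111, cert001011, cert0011000, cert00110010, cert001100110, cert001100111,
   cert001101, cert00111, cert0001, cert00001, cert000001]

end TT
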