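import Pool.Agent.Lib.MP_db1bc6_al.Trich
import Pool.Agent.Lib.MP_db1bc6_al.SmallCert

/-! # 4-transitivity when the first run is short -/

namespace TT

open Equiv

theorem pt_ne_of_near {k : ℕ} {s : ℕ → Bool} (hk : 10 ≤ k) {x y : ℤ} (h : near x y = true)
    (hxy : x ≠ y) : pt k s x ≠ pt k s y := by
  intro he
  rw [pt_eq_iff] at he
  unfold near at h
  simp only [Bool.and_eq_true, decide_eq_true_eq] at h
  obtain ⟨t, ht⟩ := he
  have hk' : (10 : ℤ) ≤ k := by exact_mod_cast hk
  rcases lt_trichotomy t 0 with h0 | h0 | h0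
  · nlinarith
  · subst h0
    apply hxy
    linarith
  · nlinarith

theorem pre_iff_prefix {k : ℕ} {s : ℕ → Bool} {F G : List Bool} (h : Pre k s F)
    (hp : G <+: F) : Pre k s G := by
  obtain ⟨t, rfl⟩ := hp
  refine ⟨?_, fun i hi => ?_⟩
  · have := h.1
    simp at this
    omega
  · rw [h.2 i (by simp; omega), List.getElem_append_left hi]

theorem pre_append {k : ℕ} {s : ℕ → Bool} {F : List Bool} (h : Pre k s F)
    (hk : F.length + 2 ≤ k) : Pre k s (F ++ [s F.length]) := by
  refine ⟨by simp; omega, fun i hi => ?_⟩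
  rcases Nat.lt_or_ge i F.length with h1 | h1
  · rw [h.2 i h1, List.getElem_append_left h1]
  · have : i = F.length := by simp at hi; omega
    subst this
    simp

theorem cov_sound {leaves : List (List Bool)} {k : ℕ} {s : ℕ → Bool} (n : ℕ) :
    ∀ F, cov leaves n F = true → Pre k s F → F.length + n + 1 ≤ k →
      ∃ G ∈ leaves, Pre k s G := by
  induction n with
  | zero =>
    intro F hc hp _
    exact ⟨F, by simpa [cov] using hc, hp⟩
  | succ n ih =>
    intro F hc hp hk
    simp only [cov, Bool.or_eq_true, Bool.and_eq_true] at hc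
    rcases hc with hc | ⟨h1, h2⟩
    · exact ⟨F, by simpa using hc, hp⟩
    · have h3 := pre_append hp (by omega)
      cases hs : s F.length with
      | false =>
        rw [hs] at h3
        exact ih _ h1 h3 (by simp; omega)
      | true =>
        rw [hs] at h3
        exact ih _ h2 h3 (by simp; omega)

theorem Tp_mem (k : ℕ) (s : ℕ → Bool) : Tp k s ∈ Gs k s := wd_mem k s _

theorem getD_mem' {L : List ℤ} {i : ℕ} (h : i < L.length) : L.getD i 0 ∈ L := by
  rw [List.getD_eq_getElem?_getD, List.getElem?_eq_getElem h]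
  exact List.getElem_mem h

theorem tr4_of_cert {X : Cert} (hX : X.check = true) {k : ℕ} {s : ℕ → Bool} (hk : 10 ≤ k)
    (hp : Pre k s X.F) : Tr4 (Gs k s) := by
  unfold Cert.check at hX
  simp only [Bool.and_eq_true, decide_eq_true_eq, beq_iff_eq, bne_iff_ne, ne_eq,
    List.all_eq_true, List.any_eq_true, List.mem_range, List.isPrefixOf_iff_prefix] at hX
  obtain ⟨⟨⟨⟨⟨⟨⟨⟨⟨⟨⟨⟨⟨⟨⟨⟨⟨⟨⟨⟨⟨⟨⟨x1, x2⟩, x3⟩, x4⟩, x5⟩, x6⟩, x7⟩, x8⟩, x9⟩, x10⟩, x11⟩, x12⟩, x13⟩, x14⟩, x15⟩,
    x16⟩, x17⟩, x18⟩, x19⟩, x20⟩, x21⟩, x22⟩, x23⟩, x24⟩ := hX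
  -- the bits
  have hpre := pre_iff_prefix hp x5
  have hrk : X.r + 2 ≤ k := by have := hpre.1; simp at this; omega
  have hs0 : ∀ i < X.r, s i = false := by
    intro i hi
    rw [hpre.2 i (by simp; omega), List.getElem_append_left (by simpa using hi)]
    simp
  have hs1 : s X.r = true := by
    rw [hpre.2 X.r (by simp)]
    simp
  set c := X.C.length with hc
  -- the cycle C
  have hC : ∀ i : ℕ, ((Tp k s) ^ i) (pt k s (X.C.getD 0 0)) = pt k s (X.C.getD (i % c) 0) := by
    intro i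
    induction i with
    | zero => simp
    | succ i ih =>
      rw [pow_succ', Perm.mul_apply, ih]
      have h1 := x6 (i % c) (Nat.mod_lt _ x2)
      have h2 := evW_sound hp h1
      rw [show (i + 1) % c = (i % c + 1) % c by rw [Nat.mod_add_mod]]
      exact h2
  have hCx : ∀ x ∈ X.C, ∃ i : ℕ, ((Tp k s) ^ i) (pt k s (X.C.getD 0 0)) = pt k s x := by
    intro x hx
    obtain ⟨i, hi, rfl⟩ := List.getElem_of_mem hx
    refine ⟨i, ?_⟩
    rw [hC, Nat.mod_eq_of_lt hi, List.getD_eq_getElem?_getD, List.getElem?_eq_getElem hi]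
    rfl
  have hCc : ∀ x ∈ X.C, ((Tp k s) ^ c) (pt k s x) = pt k s x := by
    intro x hx
    obtain ⟨i, hi⟩ := hCx x hx
    rw [← hi, ← Perm.mul_apply, ← pow_add, hC, hC, Nat.add_mod_left]
  have hCs : ∀ x, (Tp k s).SameCycle (pt k s (X.C.getD 0 0)) x → ∃ y ∈ X.C, pt k s y = x := by
    rintro x hx
    obtain ⟨i, -, hi⟩ := hx.exists_pow_eq'
    rw [hC] at hi
    exact ⟨_, getD_mem' (Nat.mod_lt _ x2), hi⟩
  have x4' : X.C.getD 0 0 = (X.r : ℤ) + 1 := by rw [x4]; push_cast; ring
  have ha : X.a ∈ X.C := by simpa using x9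
  have hb : X.b ∈ X.C := by simpa using x10
  -- the words
  have hwd : ∀ t, (t ∈ X.C.filter (fun x => x != X.a && x != X.b) ∨ t ∈ X.D) →
      ∃ g ∈ Gs k s, g (pt k s 0) = pt k s 0 ∧ g (pt k s X.a) = pt k s X.a ∧
        g (pt k s X.b) = pt k s X.b ∧ g (pt k s X.base) = pt k s t := by
    intro t ht
    obtain ⟨p, -, ⟨⟨⟨⟨-, p2⟩, p3⟩, p4⟩, p5⟩⟩ := x20 t (by simpa [List.mem_append] using ht)
    exact ⟨wd k s p.2, wd_mem k s p.2, evW_sound hp p2, evW_sound hp p3, evW_sound hp p4,
      evW_sound hp p5⟩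
  have h0r : pt k s 0 ≠ pt k s X.a := pt_ne_of_near hk x14 (fun h => x11 h.symm)
  have h0b : pt k s 0 ≠ pt k s X.b := pt_ne_of_near hk x15 (fun h => x12 h.symm)
  have hab : pt k s X.a ≠ pt k s X.b := pt_ne_of_near hk x16 x13
  have hd0 : pt k s (X.D.getD 0 0) ≠ pt k s 0 := pt_ne_of_near hk x18 x17
  have hdC : ¬ (Tp k s).SameCycle (pt k s (X.C.getD 0 0)) (pt k s (X.D.getD 0 0)) := by
    intro h
    obtain ⟨y, hy, hy2⟩ := hCs _ h
    have := x19 y hy
    exact pt_ne_of_near hk this.2 this.1 hy2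
  refine tr4_engine (Gs k s) (Tp k s) (Tp_mem k s) (pt k s 0) (pt k s X.a) (pt k s X.b)
    (pt k s X.base) h0r h0b hab c x2 (fun i => pt k s (X.D.getD i 0))
    {x | ∃ t ∈ X.C.filter (fun x => x != X.a && x != X.b), pt k s t = x}
    (evW_sound hp x8) (hCc _ ha) (hCc _ hb) ?_ ?_ ?_ ?_ ?_ ?_
  · intro i hi
    exact evW_sound hp (x7 i (by omega))
  · intro x
    by_cases e0 : x = pt k s 0
    · exact Or.inl e0
    by_cases eC : (Tp k s).SameCycle (pt k s (X.C.getD 0 0)) x
    · obtain ⟨y, hy, rfl⟩ := hCs x eC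
      by_cases ya : y = X.a
      · exact Or.inr (Or.inl (by rw [ya]))
      by_cases yb : y = X.b
      · exact Or.inr (Or.inr (Or.inl (by rw [yb])))
      · refine Or.inr (Or.inr (Or.inr (Or.inl ⟨y, ?_, rfl⟩)))
        rw [List.mem_filter]
        simp [hy, ya, yb]
    · refine Or.inr (Or.inr (Or.inr (Or.inr ?_)))
      rw [x4'] at eC hdC
      rw [pt_zero] at e0 hd0
      exact trich x1 hrk hs0 hs1 hd0 e0 hdC eC
  · rintro x (⟨t, ht, rfl⟩ | ⟨i, hi, rfl⟩)
    · exact hwd t (Or.inl ht)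
    · exact hwd _ (Or.inr (getD_mem' (by rw [x3]; exact hi)))
  · refine ⟨wd k s X.w3, wd_mem k s _, evW_sound hp x21, evW_sound hp x22, ?_⟩
    revert x23
    generalize hy : evW X.F X.w3 X.b = o
    cases o with
    | none => intro h; exact absurd h (by simp)
    | some y =>
      intro h
      simp only [Bool.and_eq_true, bne_iff_ne, ne_eq] at h
      rw [evW_sound hp hy]
      exact pt_ne_of_near hk h.2 h.1
  · refine ⟨Tp k s, Tp_mem k s, evW_sound hp x8, ?_⟩
    revert x24
    generalize hy : evW X.F TPw X.a = o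
    cases o with
    | none => intro h; exact absurd h (by simp)
    | some y =>
      intro h
      simp only [Bool.and_eq_true, bne_iff_ne, ne_eq] at h
      have e := evW_sound hp hy
      rw [show Tp k s (pt k s X.a) = pt k s y from e]
      exact pt_ne_of_near hk h.2 h.1
  · intro x
    obtain ⟨m, hm⟩ := pt_surj k s x
    refine ⟨R k s ^ m, zpow_mem (R_mem k s) m, ?_⟩
    rw [R_zpow_pt, zero_add, hm]

set_option maxRecDepth 100000 in
theorem certs_check : (certs.all Cert.check) = true := by decide +kernel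

set_option maxRecDepth 100000 in
theorem certs_cov : ((List.range 5).all fun i => cov (certs.map Cert.F) (8 - (i + 1))
    (List.replicate (i + 1) false ++ [true])) = true := by decide +kernel

theorem tr4_small {k : ℕ} {s : ℕ → Bool} {r : ℕ} (hk : 10 ≤ k) (hr : 1 ≤ r) (hr5 : r ≤ 5)
    (h0 : ∀ i < r, s i = false) (h1 : s r = true) : Tr4 (Gs k s) := by
  have hcov := certs_cov
  rw [List.all_eq_true] at hcov
  have h2 := hcov (r - 1) (by rw [List.mem_range]; omega)
  rw [show r - 1 + 1 = r by omega] at h2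
  have hpre : Pre k s (List.replicate r false ++ [true]) := by
    refine ⟨by simp; omega, fun i hi => ?_⟩
    rcases Nat.lt_or_ge i r with h3 | h3
    · rw [h0 i h3, List.getElem_append_left (by simpa using h3)]
      simp
    · have : i = r := by simp at hi; omega
      subst this
      rw [h1]; simp
  obtain ⟨G, hG, hG2⟩ := cov_sound (8 - r) _ h2 hpre (by simp; omega)
  rw [List.mem_map] at hG
  obtain ⟨X, hX, rfl⟩ := hG
  have hc := certs_check
  rw [List.all_eq_true] at hc
  exact tr4_of_cert (hc X hX) hk hG2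

end TT
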