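import Pool.Agent.Lib.MP_db1bc6_al.Look
import Pool.Agent.Lib.MP_db1bc6_al.Engine

/-! # Certificates for 4-transitivity: definitions -/

namespace TT

open Equiv

/-- a certificate for the colourings with the prefix `F`; `C` is the cycle of `T'` through
`r + 1`, `D` is a part of another cycle of `T'`, `ws` gives words which fix `0, a, b` and map
`base` to the point, and `w3` fixes `0, a` and moves `b` -/
structure Cert where
  F : List Bool
  r : ℕ
  C : List ℤ
  D : List ℤ
  a : ℤ
  b : ℤ
  base : ℤ
  ws : List (ℤ × List ℤ)
  w3 : List ℤ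

/-- labels which are close -/
def near (x y : ℤ) : Bool := decide (x - y < 31) && decide (y - x < 31)

/-- the shift word of `T'` -/
def TPw : List ℤ := [-2, 1, 0]

/-- the check -/
def Cert.check (X : Cert) : Bool :=
  let c := X.C.length
  decide (1 ≤ X.r) &&
  decide (0 < c) && decide (X.D.length = c) && (X.C.getD 0 0 == (X.r + 1 : ℕ)) &&
  ((List.replicate X.r false ++ [true]).isPrefixOf X.F) &&
  ((List.range c).all fun i =>
    evW X.F TPw (X.C.getD i 0) == some (X.C.getD ((i + 1) % c) 0)) &&
  ((List.range (c - 1)).all fun i =>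
    evW X.F TPw (X.D.getD i 0) == some (X.D.getD (i + 1) 0)) &&
  (evW X.F TPw 0 == some 0) &&
  X.C.contains X.a && X.C.contains X.b && (X.a != 0) && (X.b != 0) && (X.a != X.b) &&
  near 0 X.a && near 0 X.b && near X.a X.b &&
  (X.D.getD 0 0 != 0) && near (X.D.getD 0 0) 0 &&
  (X.C.all fun x => x != X.D.getD 0 0 && near x (X.D.getD 0 0)) &&
  ((X.C.filter (fun x => x != X.a && x != X.b) ++ X.D).all fun t =>
    X.ws.any fun p => p.1 == t && evW X.F p.2 0 == some 0 && evW X.F p.2 X.a == some X.a &&
      evW X.F p.2 X.b == some X.b && evW X.F p.2 X.base == some t) &&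
  (evW X.F X.w3 0 == some 0) && (evW X.F X.w3 X.a == some X.a) &&
  (match evW X.F X.w3 X.b with
    | none => false
    | some y => y != X.b && near y X.b) &&
  (match evW X.F TPw X.a with
    | none => false
    | some y => y != X.a && near y X.a)

/-- every extension of the prefix by at most `n` bits passes a leaf -/
def cov (leaves : List (List Bool)) : ℕ → List Bool → Bool
  | 0, F => leaves.contains F
  | n + 1, F => leaves.contains F || (cov leaves n (F ++ [false]) && cov leaves n (F ++ [true]))

end TT
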