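import Pool.Agent.Lib.MP_db1bc6_al.Label

/-! # The cycles of `T'` -/

namespace TT

open Equiv

section
variable {k : ℕ} {s : ℕ → Bool} {α : Type*} {c0 c1 c2 : ℕ → α}

/-- classes of the states: one step of the walk with the phases -/
structure Cls (k : ℕ) (s : ℕ → Bool) (c0 c1 c2 : ℕ → α) : Prop where
  s0 : ∀ x < 3 * k + 1, c0 x = c1 (thetaN (thetaN (rhoN k s x)))
  s1 : ∀ x < 3 * k + 1, c1 x = c2 (thetaN (thetaN (rhoN k s x)))
  s2 : ∀ x < 3 * k + 1, c2 x = c0 (thetaN (rhoN k s x))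

theorem Ec_lt {j : ℕ} (h : j < k) : Ec s j < 3 * k + 1 := by
  cases j with
  | zero => exact Nat.zero_lt_succ _
  | succ j => simp only [Ec]; split_ifs <;> omega

/-- from the left into the triangle `j` -/
theorem Cls.enter (h : Cls k s c0 c1 c2) {j : ℕ} (hj : j < k) :
    c0 (Ec s j) = c1 (3 * j + 3) ∧ c1 (Ec s j) = c2 (3 * j + 3) ∧ c2 (Ec s j) = c0 (3 * j + 2) := by
  have e := rhoN_Ec (s := s) hj
  have l := Ec_lt (s := s) hj
  refine ⟨?_, ?_, ?_⟩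
  · rw [h.s0 _ l, e, thetaN_c0, thetaN_c1]
  · rw [h.s1 _ l, e, thetaN_c0, thetaN_c1]
  · rw [h.s2 _ l, e, thetaN_c0]

theorem Ec_false {j : ℕ} (hs : s j = false) : Ec s (j + 1) = 3 * j + 2 := by simp [Ec, hs]

theorem Ec_true {j : ℕ} (hs : s j = true) : Ec s (j + 1) = 3 * j + 3 := by simp [Ec, hs]

/-- a triangle with the bit `false` -/
theorem Cls.tri_false (h : Cls k s c0 c1 c2) {j : ℕ} (hj : j + 1 < k) (hs : s j = false) :
    (c0 (3 * (j + 1) + 1) = c1 (3 * j + 1) ∧ c1 (3 * (j + 1) + 1) = c2 (3 * j + 1) ∧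
      c2 (3 * (j + 1) + 1) = c0 (3 * j + 3)) ∧
    (c0 (3 * j + 3) = c1 (3 * j + 2) ∧ c1 (3 * j + 3) = c2 (3 * j + 2) ∧
      c2 (3 * j + 3) = c0 (3 * j + 1)) := by
  have e : rhoN k s (3 * j + 3) = 3 * j + 3 := by rw [rhoN_c2, if_neg (by simp [hs])]
  refine ⟨⟨?_, ?_, ?_⟩, ?_, ?_, ?_⟩
  · rw [h.s0 _ (by omega), rhoN_c0, Ec_false hs, thetaN_c1, thetaN_c2]
  · rw [h.s1 _ (by omega), rhoN_c0, Ec_false hs, thetaN_c1, thetaN_c2]
  · rw [h.s2 _ (by omega), rhoN_c0, Ec_false hs, thetaN_c1]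
  · rw [h.s0 _ (by omega), e, thetaN_c2, thetaN_c0]
  · rw [h.s1 _ (by omega), e, thetaN_c2, thetaN_c0]
  · rw [h.s2 _ (by omega), e, thetaN_c2]

/-- a triangle with the bit `true` -/
theorem Cls.tri_true (h : Cls k s c0 c1 c2) {j : ℕ} (hj : j + 1 < k) (hs : s j = true) :
    (c0 (3 * (j + 1) + 1) = c1 (3 * j + 2) ∧ c1 (3 * (j + 1) + 1) = c2 (3 * j + 2) ∧
      c2 (3 * (j + 1) + 1) = c0 (3 * j + 1)) ∧
    (c0 (3 * j + 2) = c1 (3 * j + 1) ∧ c1 (3 * j + 2) = c2 (3 * j + 1) ∧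
      c2 (3 * j + 2) = c0 (3 * j + 3)) := by
  have e : rhoN k s (3 * j + 2) = 3 * j + 2 := by rw [rhoN_c1, if_neg (by simp [hs])]
  refine ⟨⟨?_, ?_, ?_⟩, ?_, ?_, ?_⟩
  · rw [h.s0 _ (by omega), rhoN_c0, Ec_true hs, thetaN_c2, thetaN_c0]
  · rw [h.s1 _ (by omega), rhoN_c0, Ec_true hs, thetaN_c2, thetaN_c0]
  · rw [h.s2 _ (by omega), rhoN_c0, Ec_true hs, thetaN_c2]
  · rw [h.s0 _ (by omega), e, thetaN_c1, thetaN_c2]
  · rw [h.s1 _ (by omega), e, thetaN_c1, thetaN_c2]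
  · rw [h.s2 _ (by omega), e, thetaN_c1]

/-- the last triangle -/
theorem Cls.last (h : Cls k s c0 c1 c2) {j : ℕ} (hj : j + 1 = k) :
    (c0 (3 * j + 2) = c1 (3 * j + 1) ∧ c1 (3 * j + 2) = c2 (3 * j + 1) ∧
      c2 (3 * j + 2) = c0 (3 * j + 3)) ∧
    (c0 (3 * j + 3) = c1 (3 * j + 2) ∧ c1 (3 * j + 3) = c2 (3 * j + 2) ∧
      c2 (3 * j + 3) = c0 (3 * j + 1)) := by
  have e : rhoN k s (3 * j + 2) = 3 * j + 2 := by rw [rhoN_c1, if_neg (by omega)]
  have e' : rhoN k s (3 * j + 3) = 3 * j + 3 := by rw [rhoN_c2, if_neg (by omega)]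
  refine ⟨⟨?_, ?_, ?_⟩, ?_, ?_, ?_⟩
  · rw [h.s0 _ (by omega), e, thetaN_c1, thetaN_c2]
  · rw [h.s1 _ (by omega), e, thetaN_c1, thetaN_c2]
  · rw [h.s2 _ (by omega), e, thetaN_c1]
  · rw [h.s0 _ (by omega), e', thetaN_c2, thetaN_c0]
  · rw [h.s1 _ (by omega), e', thetaN_c2, thetaN_c0]
  · rw [h.s2 _ (by omega), e', thetaN_c2]

/-- the phase map in the constant part -/
def PiC (s : ℕ → Bool) (c0 c1 c2 : ℕ → α) (j : ℕ) : Prop :=
  c0 (3 * j + 1) = c0 (Ec s j) ∧ c1 (3 * j + 1) = c2 (Ec s j) ∧ c2 (3 * j + 1) = c1 (Ec s j)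

/-- the phase map after the first change -/
def PiM (s : ℕ → Bool) (c0 c1 c2 : ℕ → α) (j : ℕ) : Prop :=
  c0 (3 * j + 1) = c2 (Ec s j) ∧ c1 (3 * j + 1) = c0 (Ec s j) ∧ c2 (3 * j + 1) = c1 (Ec s j)

theorem PiC_one (h : Cls k s c0 c1 c2) (hk : 1 < k) (hs : s 0 = false) : PiC s c0 c1 c2 1 := by
  obtain ⟨e0, e1, e2⟩ := h.enter (show 0 < k by omega)
  obtain ⟨⟨a0, a1, a2⟩, b0, b1, b2⟩ := h.tri_false hk hs
  have f0 : c0 (3 * 0 + 1) = c1 (Ec s 0) := by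
    rw [h.s0 _ (by omega), rhoN_c0]; rfl
  have f1 : c1 (3 * 0 + 1) = c2 (Ec s 0) := by
    rw [h.s1 _ (by omega), rhoN_c0]; rfl
  have f2 : c2 (3 * 0 + 1) = c0 (Ec s 0) := by
    rw [h.s2 _ (by omega), rhoN_c0]; rfl
  unfold PiC
  rw [Ec_false hs]
  refine ⟨?_, ?_, ?_⟩
  · rw [a0, f1, e2]
  · rw [a1, f2, e0, b1]
  · rw [a2, b0]

theorem PiC_succ (h : Cls k s c0 c1 c2) {j : ℕ} (hj : j + 1 < k) (hs : s j = false)
    (hp : PiC s c0 c1 c2 j) : PiC s c0 c1 c2 (j + 1) := by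
  obtain ⟨e0, e1, e2⟩ := h.enter (show j < k by omega)
  obtain ⟨⟨a0, a1, a2⟩, b0, b1, b2⟩ := h.tri_false hj hs
  obtain ⟨f0, f1, f2⟩ := hp
  unfold PiC
  rw [Ec_false hs]
  refine ⟨?_, ?_, ?_⟩
  · rw [a0, f1, e2]
  · rw [a1, f2, e1, b2, f0, e0, b1]
  · rw [a2, b0]

theorem PiM_of_PiC (h : Cls k s c0 c1 c2) {j : ℕ} (hj : j + 1 < k) (hs : s j = true)
    (hp : PiC s c0 c1 c2 j) : PiM s c0 c1 c2 (j + 1) := by
  obtain ⟨e0, e1, e2⟩ := h.enter (show j < k by omega)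
  obtain ⟨⟨a0, a1, a2⟩, b0, b1, b2⟩ := h.tri_true hj hs
  obtain ⟨f0, f1, f2⟩ := hp
  unfold PiM
  rw [Ec_true hs]
  refine ⟨?_, ?_, ?_⟩
  · rw [a0, b1, f2, e1]
  · rw [a1, b2]
  · rw [a2, f0, e0]

theorem PiM_succ (h : Cls k s c0 c1 c2) {j : ℕ} (hj : j + 1 < k)
    (hp : PiM s c0 c1 c2 j) : PiM s c0 c1 c2 (j + 1) := by
  obtain ⟨e0, e1, e2⟩ := h.enter (show j < k by omega)
  obtain ⟨f0, f1, f2⟩ := hp
  cases hs : s j with
  | false =>
    obtain ⟨⟨a0, a1, a2⟩, b0, b1, b2⟩ := h.tri_false hj hs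
    unfold PiM
    rw [Ec_false hs]
    refine ⟨?_, ?_, ?_⟩
    · rw [a0, f1, e0, b1]
    · rw [a1, f2, e1, b2, f0, e2]
    · rw [a2, b0]
  | true =>
    obtain ⟨⟨a0, a1, a2⟩, b0, b1, b2⟩ := h.tri_true hj hs
    unfold PiM
    rw [Ec_true hs]
    refine ⟨?_, ?_, ?_⟩
    · rw [a0, b1, f2, e1]
    · rw [a1, b2]
    · rw [a2, f0, e2, b0, f1, e0]

/-- the classes which are visible at the right end of the first `j` triangles -/
def Mem (s : ℕ → Bool) (c0 c1 c2 : ℕ → α) (z z' : α) (j : ℕ) (v : α) : Prop :=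
  v = z ∨ v = z' ∨ v = c0 (Ec s j) ∨ v = c1 (Ec s j) ∨ v = c2 (Ec s j)

/-- the coverage of the first `j` triangles -/
def Cov (s : ℕ → Bool) (c0 c1 c2 : ℕ → α) (z z' : α) (j : ℕ) : Prop :=
  ∀ x ≤ 3 * j, Mem s c0 c1 c2 z z' j (c0 x) ∧ Mem s c0 c1 c2 z z' j (c1 x) ∧
    Mem s c0 c1 c2 z z' j (c2 x)

theorem cov_succ {z z' : α} {j : ℕ} (hc : Cov s c0 c1 c2 z z' j)
    (he : Mem s c0 c1 c2 z z' (j + 1) (c0 (Ec s j)) ∧ Mem s c0 c1 c2 z z' (j + 1) (c1 (Ec s j)) ∧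
      Mem s c0 c1 c2 z z' (j + 1) (c2 (Ec s j)))
    (ht : ∀ i, 1 ≤ i → i ≤ 3 → Mem s c0 c1 c2 z z' (j + 1) (c0 (3 * j + i)) ∧
      Mem s c0 c1 c2 z z' (j + 1) (c1 (3 * j + i)) ∧
      Mem s c0 c1 c2 z z' (j + 1) (c2 (3 * j + i))) : Cov s c0 c1 c2 z z' (j + 1) := by
  have tr : ∀ v, Mem s c0 c1 c2 z z' j v → Mem s c0 c1 c2 z z' (j + 1) v := by
    rintro v (rfl | rfl | rfl | rfl | rfl)
    · exact Or.inl rfl
    · exact Or.inr (Or.inl rfl)
    · exact he.1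
    · exact he.2.1
    · exact he.2.2
  intro x hx
  rcases Nat.lt_or_ge (3 * j) x with h | h
  · obtain ⟨i, rfl⟩ : ∃ i, x = 3 * j + i := ⟨x - 3 * j, by omega⟩
    exact ht i (by omega) (by omega)
  · exact ⟨tr _ (hc x h).1, tr _ (hc x h).2.1, tr _ (hc x h).2.2⟩

/-- the classes of the nine states of a triangle -/
theorem cov_step {z z' : α} (h : Cls k s c0 c1 c2) {j : ℕ} (hj : j + 1 < k)
    (hc : Cov s c0 c1 c2 z z' j)
    (ha : Mem s c0 c1 c2 z z' (j + 1) (c0 (3 * j + 1)) ∧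
      Mem s c0 c1 c2 z z' (j + 1) (c1 (3 * j + 1)) ∧
      Mem s c0 c1 c2 z z' (j + 1) (c2 (3 * j + 1))) : Cov s c0 c1 c2 z z' (j + 1) := by
  obtain ⟨e0, e1, e2⟩ := h.enter (show j < k by omega)
  cases hs : s j with
  | false =>
    obtain ⟨-, b0, b1, b2⟩ := h.tri_false hj hs
    have m0 : Mem s c0 c1 c2 z z' (j + 1) (c0 (3 * j + 2)) := by
      unfold Mem; rw [Ec_false hs]; simp
    have m1 : Mem s c0 c1 c2 z z' (j + 1) (c1 (3 * j + 2)) := by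
      unfold Mem; rw [Ec_false hs]; simp
    have m2 : Mem s c0 c1 c2 z z' (j + 1) (c2 (3 * j + 2)) := by
      unfold Mem; rw [Ec_false hs]; simp
    refine cov_succ hc ?_ ?_
    · rw [e0, e1, e2, b1, b2]; exact ⟨m2, ha.1, m0⟩
    · intro i h1 h2
      have : i = 1 ∨ i = 2 ∨ i = 3 := by omega
      rcases this with rfl | rfl | rfl
      · exact ha
      · exact ⟨m0, m1, m2⟩
      · rw [b0, b1, b2]; exact ⟨m1, m2, ha.1⟩
  | true =>
    obtain ⟨-, b0, b1, b2⟩ := h.tri_true hj hs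
    have m0 : Mem s c0 c1 c2 z z' (j + 1) (c0 (3 * j + 3)) := by
      unfold Mem; rw [Ec_true hs]; simp
    have m1 : Mem s c0 c1 c2 z z' (j + 1) (c1 (3 * j + 3)) := by
      unfold Mem; rw [Ec_true hs]; simp
    have m2 : Mem s c0 c1 c2 z z' (j + 1) (c2 (3 * j + 3)) := by
      unfold Mem; rw [Ec_true hs]; simp
    refine cov_succ hc ?_ ?_
    · rw [e0, e1, e2, b0]; exact ⟨m1, m2, ha.2.1⟩
    · intro i h1 h2
      have : i = 1 ∨ i = 2 ∨ i = 3 := by omega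
      rcases this with rfl | rfl | rfl
      · exact ha
      · rw [b0, b1, b2]; exact ⟨ha.2.1, ha.2.2, m0⟩
      · exact ⟨m0, m1, m2⟩

theorem cov_one {z' : α} (h : Cls k s c0 c1 c2) (hk : 1 < k) (hs : s 0 = false) :
    Cov s c0 c1 c2 (c0 1) z' 1 := by
  obtain ⟨e0, e1, e2⟩ := h.enter (show 0 < k by omega)
  obtain ⟨-, b0, b1, b2⟩ := h.tri_false hk hs
  have f0 : c0 (3 * 0 + 1) = c1 (Ec s 0) := by
    rw [h.s0 _ (by omega), rhoN_c0]; rfl
  have f1 : c1 (3 * 0 + 1) = c2 (Ec s 0) := by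
    rw [h.s1 _ (by omega), rhoN_c0]; rfl
  have f2 : c2 (3 * 0 + 1) = c0 (Ec s 0) := by
    rw [h.s2 _ (by omega), rhoN_c0]; rfl
  have m0 : Mem s c0 c1 c2 (c0 1) z' (0 + 1) (c0 (3 * 0 + 2)) := by
    unfold Mem; rw [Ec_false hs]; simp
  have m2 : Mem s c0 c1 c2 (c0 1) z' (0 + 1) (c2 (3 * 0 + 2)) := by
    unfold Mem; rw [Ec_false hs]; simp
  have mz : Mem s c0 c1 c2 (c0 1) z' (0 + 1) (c0 (3 * 0 + 1)) := Or.inl rfl
  have hE0 : Mem s c0 c1 c2 (c0 1) z' (0 + 1) (c0 (Ec s 0)) := by rw [e0, b1]; exact m2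
  have hE1 : Mem s c0 c1 c2 (c0 1) z' (0 + 1) (c1 (Ec s 0)) := by rw [e1, b2]; exact mz
  have hE2 : Mem s c0 c1 c2 (c0 1) z' (0 + 1) (c2 (Ec s 0)) := by rw [e2]; exact m0
  refine cov_step h hk ?_ ⟨mz, by rw [f1]; exact hE2, by rw [f2]; exact hE0⟩
  intro x hx
  obtain rfl : x = 0 := by omega
  exact ⟨Or.inr (Or.inr (Or.inl rfl)), Or.inr (Or.inr (Or.inr (Or.inl rfl))),
    Or.inr (Or.inr (Or.inr (Or.inr rfl)))⟩

theorem cov_C {z z' : α} (h : Cls k s c0 c1 c2) {j : ℕ} (hj : j + 1 < k) (hs : s j = false)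
    (hp : PiC s c0 c1 c2 j) (hc : Cov s c0 c1 c2 z z' j) : Cov s c0 c1 c2 z z' (j + 1) := by
  obtain ⟨e0, e1, e2⟩ := h.enter (show j < k by omega)
  obtain ⟨-, b0, b1, b2⟩ := h.tri_false hj hs
  obtain ⟨f0, f1, f2⟩ := hp
  have m0 : Mem s c0 c1 c2 z z' (j + 1) (c0 (3 * j + 2)) := by
    unfold Mem; rw [Ec_false hs]; simp
  have m2 : Mem s c0 c1 c2 z z' (j + 1) (c2 (3 * j + 2)) := by
    unfold Mem; rw [Ec_false hs]; simp
  have hA0 : Mem s c0 c1 c2 z z' (j + 1) (c0 (3 * j + 1)) := by rw [f0, e0, b1]; exact m2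
  refine cov_step h hj hc ⟨hA0, by rw [f1, e2]; exact m0, by rw [f2, e1, b2]; exact hA0⟩

/-- the first change -/
theorem cov_CM {z : α} (h : Cls k s c0 c1 c2) {j : ℕ} (hj : j + 1 < k) (hs : s j = true)
    (hp : PiC s c0 c1 c2 j) (hc : Cov s c0 c1 c2 z (c0 (3 * j + 2)) j) :
    Cov s c0 c1 c2 z (c0 (3 * j + 2)) (j + 1) := by
  obtain ⟨e0, e1, e2⟩ := h.enter (show j < k by omega)
  obtain ⟨-, b0, b1, b2⟩ := h.tri_true hj hs
  obtain ⟨f0, f1, f2⟩ := hp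
  have m1 : Mem s c0 c1 c2 z (c0 (3 * j + 2)) (j + 1) (c1 (3 * j + 3)) := by
    unfold Mem; rw [Ec_true hs]; simp
  have m2 : Mem s c0 c1 c2 z (c0 (3 * j + 2)) (j + 1) (c2 (3 * j + 3)) := by
    unfold Mem; rw [Ec_true hs]; simp
  refine cov_step h hj hc ⟨by rw [f0, e0]; exact m1, ?_, by rw [f2, e1]; exact m2⟩
  rw [← b0]
  exact Or.inr (Or.inl rfl)

theorem cov_M {z z' : α} (h : Cls k s c0 c1 c2) {j : ℕ} (hj : j + 1 < k)
    (hp : PiM s c0 c1 c2 j) (hc : Cov s c0 c1 c2 z z' j) : Cov s c0 c1 c2 z z' (j + 1) := by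
  obtain ⟨e0, e1, e2⟩ := h.enter (show j < k by omega)
  obtain ⟨f0, f1, f2⟩ := hp
  cases hs : s j with
  | false =>
    obtain ⟨-, b0, b1, b2⟩ := h.tri_false hj hs
    have m0 : Mem s c0 c1 c2 z z' (j + 1) (c0 (3 * j + 2)) := by
      unfold Mem; rw [Ec_false hs]; simp
    have m2 : Mem s c0 c1 c2 z z' (j + 1) (c2 (3 * j + 2)) := by
      unfold Mem; rw [Ec_false hs]; simp
    have hA0 : Mem s c0 c1 c2 z z' (j + 1) (c0 (3 * j + 1)) := by rw [f0, e2]; exact m0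
    refine cov_step h hj hc ⟨hA0, by rw [f1, e0, b1]; exact m2, by rw [f2, e1, b2]; exact hA0⟩
  | true =>
    obtain ⟨-, b0, b1, b2⟩ := h.tri_true hj hs
    have m1 : Mem s c0 c1 c2 z z' (j + 1) (c1 (3 * j + 3)) := by
      unfold Mem; rw [Ec_true hs]; simp
    have m2 : Mem s c0 c1 c2 z z' (j + 1) (c2 (3 * j + 3)) := by
      unfold Mem; rw [Ec_true hs]; simp
    have hA1 : Mem s c0 c1 c2 z z' (j + 1) (c1 (3 * j + 1)) := by rw [f1, e0]; exact m1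
    refine cov_step h hj hc ⟨by rw [f0, e2, b0]; exact hA1, hA1, by rw [f2, e1]; exact m2⟩

theorem phase_aux (h : Cls k s c0 c1 c2) {r : ℕ} (hr : 1 ≤ r) (hrk : r + 2 ≤ k)
    (hs0 : ∀ i < r, s i = false) (hs1 : s r = true) :
    ∃ d, ∀ x < 3 * k + 1, c0 x = c0 1 ∨ c0 x = c0 (3 * r + 2) ∨ c0 x = d := by
  have hA : ∀ j, 1 ≤ j → j ≤ r → PiC s c0 c1 c2 j ∧ Cov s c0 c1 c2 (c0 1) (c0 (3 * r + 2)) j := by
    intro j hj
    induction j, hj using Nat.le_induction with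
    | base => exact fun _ => ⟨PiC_one h (by omega) (hs0 0 (by omega)),
        cov_one h (by omega) (hs0 0 (by omega))⟩
    | succ j hj ih =>
      intro hjr
      obtain ⟨h1, h2⟩ := ih (by omega)
      exact ⟨PiC_succ h (by omega) (hs0 j (by omega)) h1,
        cov_C h (by omega) (hs0 j (by omega)) h1 h2⟩
  obtain ⟨h1, h2⟩ := hA r hr le_rfl
  have hB : ∀ j, r + 1 ≤ j → j < k →
      PiM s c0 c1 c2 j ∧ Cov s c0 c1 c2 (c0 1) (c0 (3 * r + 2)) j := by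
    intro j hj
    induction j, hj using Nat.le_induction with
    | base => exact fun _ => ⟨PiM_of_PiC h (by omega) hs1 h1, cov_CM h (by omega) hs1 h1 h2⟩
    | succ j hj ih =>
      intro hjr
      obtain ⟨h1, h2⟩ := ih (by omega)
      exact ⟨PiM_succ h (by omega) h1, cov_M h (by omega) h1 h2⟩
  obtain ⟨j, rfl⟩ : ∃ j, k = j + 1 := ⟨k - 1, by omega⟩
  obtain ⟨⟨f0, f1, f2⟩, h4⟩ := hB j (by omega) (by omega)
  obtain ⟨e0, e1, e2⟩ := h.enter (show j < j + 1 by omega)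
  obtain ⟨⟨a0, a1, a2⟩, b0, b1, b2⟩ := h.last rfl
  -- all nine states of the last triangle are in one class
  have g0 : c0 (3 * j + 2) = c0 (3 * j + 1) := by rw [f0, e2]
  have g1 : c1 (3 * j + 1) = c0 (3 * j + 1) := by rw [← a0, g0]
  have g2 : c2 (3 * j + 2) = c0 (3 * j + 1) := by rw [← b1, ← e0, ← f1, g1]
  have g3 : c0 (3 * j + 3) = c0 (3 * j + 1) := by rw [← a2, g2]
  have g4 : c2 (3 * j + 3) = c0 (3 * j + 1) := b2
  have g5 : c1 (3 * j + 3) = c0 (3 * j + 1) := by rw [b1, g2]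
  refine ⟨c0 (3 * j + 1), fun x hx => ?_⟩
  rcases Nat.lt_or_ge (3 * j) x with hx2 | hx2
  · obtain ⟨i, rfl⟩ : ∃ i, x = 3 * j + i := ⟨x - 3 * j, by omega⟩
    have : i = 1 ∨ i = 2 ∨ i = 3 := by omega
    rcases this with rfl | rfl | rfl
    · exact Or.inr (Or.inr rfl)
    · exact Or.inr (Or.inr g0)
    · exact Or.inr (Or.inr g3)
  · rcases (h4 x hx2).1 with h5 | h5 | h5 | h5 | h5
    · exact Or.inl h5
    · exact Or.inr (Or.inl h5)
    · exact Or.inr (Or.inr (by rw [h5, e0, g5]))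
    · exact Or.inr (Or.inr (by rw [h5, e1, g4]))
    · exact Or.inr (Or.inr (by rw [h5, e2, g0]))

end

/-- `W = R L L` -/
def WW (k : ℕ) (s : ℕ → Bool) : Perm (Om k) := R k s * (L k s * L k s)

theorem Tp_eq (k : ℕ) (s : ℕ → Bool) : Tp k s = rho k s * WW k s * rho k s := by
  have hL := L_eq k s
  have h1 : (R k s)⁻¹ = rho k s * L k s * rho k s := by
    rw [hL]
    simp only [← mul_assoc, rho_mul_rho, one_mul]
    rw [mul_assoc, rho_mul_rho, mul_one]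
  have h2 : R k s ^ (-2 : ℤ) = rho k s * (L k s * L k s) * rho k s := by
    rw [show (-2 : ℤ) = -1 + -1 by norm_num, zpow_add, zpow_neg_one, h1]
    simp only [mul_assoc]
    rw [← mul_assoc (rho k s) (rho k s), rho_mul_rho, one_mul]
  simp only [Tp, wd, wt, h2, WW, zpow_zero, zpow_one, one_mul]
  simp only [mul_assoc]
  rw [← mul_assoc (rho k s) (rho k s) (L k s * (L k s * rho k s)), rho_mul_rho, one_mul]

theorem L_val {k : ℕ} {s : ℕ → Bool} (x : Om k) :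
    (L k s x).val = thetaN (thetaN (rhoN k s x.val)) := rfl

theorem trich {k : ℕ} {s : ℕ → Bool} {r : ℕ} (hr : 1 ≤ r) (hrk : r + 2 ≤ k)
    (h0 : ∀ i < r, s i = false) (h1 : s r = true) {x y : Om k} (hx : x ≠ 0) (hy : y ≠ 0)
    (hx' : ¬ (Tp k s).SameCycle (pt k s (r + 1)) x)
    (hy' : ¬ (Tp k s).SameCycle (pt k s (r + 1)) y) : (Tp k s).SameCycle x y := by
  classical
  -- classes
  let cl : Om k → Quotient (Perm.SameCycle.setoid (WW k s)) := fun x => Quotient.mk _ x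
  have hcl : ∀ x y, cl x = cl y ↔ (WW k s).SameCycle x y := fun x y => Quotient.eq
  let c0 : ℕ → Quotient (Perm.SameCycle.setoid (WW k s)) :=
    fun x => if h : x < 3 * k + 1 then cl ⟨x, h⟩ else cl 0
  let c1 : ℕ → Quotient (Perm.SameCycle.setoid (WW k s)) :=
    fun x => if h : x < 3 * k + 1 then cl ((L k s)⁻¹ ⟨x, h⟩) else cl 0
  let c2 : ℕ → Quotient (Perm.SameCycle.setoid (WW k s)) :=
    fun x => if h : x < 3 * k + 1 then cl ((L k s)⁻¹ ((L k s)⁻¹ ⟨x, h⟩)) else cl 0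
  have hcls : Cls k s c0 c1 c2 := by
    refine ⟨fun x hx => ?_, fun x hx => ?_, fun x hx => ?_⟩
    · have hlt : thetaN (thetaN (rhoN k s x)) < 3 * k + 1 := thetaN_lt (thetaN_lt (rhoN_lt hx))
      have e : (⟨thetaN (thetaN (rhoN k s x)), hlt⟩ : Om k) = L k s ⟨x, hx⟩ := rfl
      simp only [c0, c1, dif_pos hx, dif_pos hlt, e]
      simp
    · have hlt : thetaN (thetaN (rhoN k s x)) < 3 * k + 1 := thetaN_lt (thetaN_lt (rhoN_lt hx))
      have e : (⟨thetaN (thetaN (rhoN k s x)), hlt⟩ : Om k) = L k s ⟨x, hx⟩ := rfl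
      simp only [c1, c2, dif_pos hx, dif_pos hlt, e]
      simp
    · have hlt : thetaN (rhoN k s x) < 3 * k + 1 := thetaN_lt (rhoN_lt hx)
      have e : (⟨thetaN (rhoN k s x), hlt⟩ : Om k) = R k s ⟨x, hx⟩ := rfl
      simp only [c0, c2, dif_pos hx, dif_pos hlt, e]
      rw [hcl]
      refine ⟨1, ?_⟩
      rw [zpow_one, WW]
      simp
  obtain ⟨d, hd⟩ := phase_aux hcls hr hrk h0 h1
  have hc0 : ∀ x : Om k, c0 x.val = cl x := fun x => by simp only [c0, dif_pos x.2]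
  -- conjugation by `ρ`
  have hconj : ∀ x y : Om k, (Tp k s).SameCycle x y ↔
      (WW k s).SameCycle (rho k s x) (rho k s y) := by
    intro x y
    have : Tp k s = rho k s * WW k s * (rho k s)⁻¹ := by rw [Tp_eq, rho_inv]
    rw [this, Perm.sameCycle_conj, rho_inv]
  -- the class of `1`
  have hW1 : WW k s ⟨1, by omega⟩ = ⟨1, by omega⟩ := by
    apply Fin.ext
    rw [WW, Perm.mul_apply, Perm.mul_apply, R_val, L_val, L_val]
    have hk : 0 < k := by omega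
    have e2 : rhoN k s 3 = 3 := by
      have := rhoN_c2 (k := k) s 0
      rw [show 3 * 0 + 3 = 3 by rfl, if_neg (by simp [h0 0 (by omega)])] at this
      exact this
    show thetaN (rhoN k s (thetaN (thetaN (rhoN k s (thetaN (thetaN (rhoN k s 1))))))) = 1
    rw [rhoN_one, thetaN_zero, thetaN_zero, rhoN_zero s hk]
    rw [show thetaN (thetaN 1) = 3 by rfl, e2]
    rfl
  have key : ∀ x : Om k, x ≠ 0 → ¬ (Tp k s).SameCycle (pt k s (r + 1)) x →
      cl (rho k s x) = d := by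
    intro x hx hx'
    have h2 := hd (rho k s x).val (rho k s x).2
    rw [hc0] at h2
    rcases h2 with h2 | h2 | h2
    · exfalso
      have e : c0 1 = cl ⟨1, by omega⟩ := by simp only [c0, dif_pos (show 1 < 3 * k + 1 by omega)]
      rw [e, hcl] at h2
      obtain ⟨m, hm⟩ := h2.symm
      have hfix : ((WW k s) ^ m) ⟨1, by omega⟩ = ⟨1, by omega⟩ := by
        have h5 : WW k s ∈ MulAction.stabilizer (Perm (Om k)) (⟨1, by omega⟩ : Om k) := hW1
        exact zpow_mem h5 m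
      rw [hfix] at hm
      apply hx
      have h6 := congrArg (rho k s) hm
      rw [rho_rho] at h6
      rw [← h6]
      apply Fin.ext
      rw [rho_val]
      exact rhoN_one s
    · exfalso
      apply hx'
      rw [hconj]
      have e3 : uL s r = r := by
        have : ∀ j ≤ r, uL s j = j := by
          intro j
          induction j with
          | zero => intro _; rfl
          | succ j ih =>
            intro hj
            simp only [uL, h0 j (by omega), Bool.false_eq_true, if_false]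
            rw [ih (by omega)]
            push_cast; ring
        exact this r le_rfl
      have e4 : pt k s (r + 1) = ⟨3 * r + 2, by omega⟩ := by
        apply Fin.ext
        have := lab_c1 (k := k) (s := s) (j := r) (by omega)
        rw [e3] at this
        exact this
      have e5 : rho k s (pt k s (r + 1)) = pt k s (r + 1) := by
        have := dead_pos (k := k) (j := r) (by omega) h1
        rw [e3] at this
        exact this
      rw [e5, e4]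
      have e : c0 (3 * r + 2) = cl ⟨3 * r + 2, by omega⟩ := by
        simp only [c0, dif_pos (show 3 * r + 2 < 3 * k + 1 by omega)]
      rw [e, hcl] at h2
      exact h2.symm
    · exact h2
  rw [hconj, ← hcl, key x hx hx', key y hy hy']

end TT
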