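import Pool.Agent.Lib.MP_db1bc6_al.Base

/-! # Local evaluation of words in `R` and `L`

A window is a list `W` of bits with two flags: `root` tells that the window starts at the root and
`fin` tells that it ends with the last triangle. A position in a window is given by the bits to the
left and to the right of a triangle. The functions are written with recursors so that the kernel
evaluates them fast. -/

namespace TT

open Equiv

/-- positions: `pa L R`, `pb L R`, `pc L R` are the corners `0`, `1`, `2` of the triangle with the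
bits `L` to the left (the nearest first) and `R` to the right; `rt R` is the root and `bad` is the
undefined position -/
inductive Z
  | bad
  | rt (R : List Bool)
  | pa (L R : List Bool)
  | pb (L R : List Bool)
  | pc (L R : List Bool)

/-- local step of `R` -/
noncomputable def stR (root fin : Bool) (z : Z) : Z :=
  Z.rec .bad (fun R => .pb [] R)
    (fun L R => List.rec (Bool.rec .bad (.rt R) root)
      (fun x L _ => Bool.rec (.pc L (false :: R)) (.pa L (true :: R)) x) L)
    (fun L R => List.rec (Bool.rec .bad (.pc L []) fin)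
      (fun x R _ => Bool.rec (.pb (false :: L) R) (.pc L (true :: R)) x) R)
    (fun L R => List.rec (Bool.rec .bad (.pa L []) fin)
      (fun x R _ => Bool.rec (.pa L (false :: R)) (.pb (true :: L) R) x) R) z

/-- local step of `L` -/
noncomputable def stL (root fin : Bool) (z : Z) : Z :=
  Z.rec .bad (fun R => .pc [] R)
    (fun L R => List.rec (Bool.rec .bad (.rt R) root)
      (fun x L _ => Bool.rec (.pa L (false :: R)) (.pb L (true :: R)) x) L)
    (fun L R => List.rec (Bool.rec .bad (.pa L []) fin)
      (fun x R _ => Bool.rec (.pc (false :: L) R) (.pa L (true :: R)) x) R)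
    (fun L R => List.rec (Bool.rec .bad (.pb L []) fin)
      (fun x R _ => Bool.rec (.pb L (false :: R)) (.pc (true :: L) R) x) R) z

/-- local evaluation of a word -/
noncomputable def walkZ (root fin : Bool) (w : List Bool) : Z → Z :=
  List.rec (fun y => y) (fun b _ ih y => ih (Bool.rec (stL root fin y) (stR root fin y) b)) w

/-- local evaluation of a power of a word -/
noncomputable def walkMZ (root fin : Bool) (w : List Bool) (M : ℕ) : Z → Z :=
  Nat.rec (fun y => y) (fun _ ih y => ih (walkZ root fin w y)) M

/-- comparison of lengths -/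
noncomputable def eqLen (L : List Bool) : List Bool → Bool :=
  List.rec (fun L' => List.rec true (fun _ _ _ => false) L')
    (fun _ _ ih L' => List.rec false (fun _ L' _ => ih L') L') L

/-- comparison of positions -/
noncomputable def eqZ (z z' : Z) : Bool :=
  Z.rec false
    (fun _ => Z.rec false (fun _ => true) (fun _ _ => false) (fun _ _ => false)
      (fun _ _ => false) z')
    (fun L _ => Z.rec false (fun _ => false) (fun L' _ => eqLen L L') (fun _ _ => false)
      (fun _ _ => false) z')
    (fun L _ => Z.rec false (fun _ => false) (fun _ _ => false) (fun L' _ => eqLen L L')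
      (fun _ _ => false) z')
    (fun L _ => Z.rec false (fun _ => false) (fun _ _ => false) (fun _ _ => false)
      (fun L' _ => eqLen L L') z') z

/-- `1` if the position is fixed by the power `M` of the word, and `0` otherwise -/
noncomputable def fixZ (root fin : Bool) (w : List Bool) (M : ℕ) (z : Z) : ℕ :=
  Bool.rec 0 1 (eqZ z (walkMZ root fin w M z))

/-- is the position moved by the power `M` of the word -/
noncomputable def movZ (root fin : Bool) (w : List Bool) (M : ℕ) (z : Z) : Bool :=
  Z.rec false (fun R => !eqZ z (.rt R)) (fun L R => !eqZ z (.pa L R)) (fun L R => !eqZ z (.pb L R))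
    (fun L R => !eqZ z (.pc L R)) (walkMZ root fin w M z)

/-- number of fixed corners in `n` triangles, from the one with the neighbourhood `L`, `R` on -/
noncomputable def cntZ (root fin : Bool) (w : List Bool) (M n : ℕ) : List Bool → List Bool → ℕ :=
  Nat.rec (fun _ _ => 0) (fun _ ih L R => fixZ root fin w M (.pa L R) +
    (fixZ root fin w M (.pb L R) + (fixZ root fin w M (.pc L R) +
      List.rec 0 (fun x R _ => ih (x :: L) R) R))) n

/-- the window `W` at the position `o` of the chain -/
def IsWin (k : ℕ) (s : ℕ → Bool) (root fin : Bool) (W : List Bool) (o : ℕ) : Prop :=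
  o + W.length + 1 ≤ k ∧ (∀ i (h : i < W.length), s (o + i) = W[i]) ∧ (root = true → o = 0) ∧
    (fin = true → o + W.length + 1 = k)

/-- the position `z` of the window `W` at `o` is the code `x` -/
def At (o : ℕ) (W : List Bool) : Z → ℕ → Prop
  | .bad, _ => False
  | .rt R, x => o = 0 ∧ R = W ∧ x = 0
  | .pa L R, x => L.reverse ++ R = W ∧ x = 3 * (o + L.length) + 1
  | .pb L R, x => L.reverse ++ R = W ∧ x = 3 * (o + L.length) + 2
  | .pc L R, x => L.reverse ++ R = W ∧ x = 3 * (o + L.length) + 3

theorem win_left {k : ℕ} {s : ℕ → Bool} {root fin : Bool} {x : Bool} {L R : List Bool} {o : ℕ}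
    (h : IsWin k s root fin (List.reverse (x :: L) ++ R) o) : s (o + L.length) = x := by
  have h2 := h.2.1 L.length (by simp)
  rw [h2]
  simp

theorem win_right {k : ℕ} {s : ℕ → Bool} {root fin : Bool} {x : Bool} {L R : List Bool} {o : ℕ}
    (h : IsWin k s root fin (L.reverse ++ x :: R) o) :
    s (o + L.length) = x ∧ o + L.length + 1 < k := by
  refine ⟨?_, ?_⟩
  · have h2 := h.2.1 L.length (by simp)
    rw [h2]
    simp
  · have := h.1
    simp at this
    omega

theorem win_end {k : ℕ} {s : ℕ → Bool} {root : Bool} {L : List Bool} {o : ℕ}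
    (h : IsWin k s root true (L.reverse ++ []) o) : ¬ (o + L.length + 1 < k) := by
  have := h.2.2.2 rfl
  simp at this
  omega

theorem at_step {k : ℕ} {s : ℕ → Bool} {root fin : Bool} {W : List Bool} {o : ℕ}
    (h : IsWin k s root fin W o) {z : Z} {x : ℕ} (hz : At o W z x) :
    (stR root fin z ≠ .bad → At o W (stR root fin z) (thetaN (rhoN k s x))) ∧
      (stL root fin z ≠ .bad → At o W (stL root fin z) (thetaN (thetaN (rhoN k s x)))) := by
  have hk : 0 < k := by have := h.1; omega
  cases z with
  | bad => exact hz.elim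
  | rt R =>
    obtain ⟨rfl, rfl, rfl⟩ := hz
    rw [rhoN_zero s hk]
    exact ⟨fun _ => ⟨rfl, rfl⟩, fun _ => ⟨rfl, rfl⟩⟩
  | pa L R =>
    obtain ⟨rfl, rfl⟩ := hz
    cases L with
    | nil =>
      cases root with
      | false => exact ⟨fun h => (h rfl).elim, fun h => (h rfl).elim⟩
      | true =>
        obtain rfl := h.2.2.1 rfl
        simp only [List.length_nil, add_zero, mul_zero, zero_add, rhoN_one]
        exact ⟨fun _ => ⟨rfl, rfl, rfl⟩, fun _ => ⟨rfl, rfl, rfl⟩⟩
    | cons x L =>
      have h1 := win_left h
      simp only [List.length_cons]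
      rw [show 3 * (o + (L.length + 1)) + 1 = 3 * ((o + L.length) + 1) + 1 by ring, rhoN_entry, h1]
      cases x with
      | false =>
        simp only [Bool.false_eq_true, if_false]
        rw [show 3 * (o + L.length) + 1 + 1 = 3 * (o + L.length) + 2 by ring, thetaN_c1, thetaN_c2]
        refine ⟨fun _ => ⟨by simp, rfl⟩, fun _ => ⟨by simp, rfl⟩⟩
      | true =>
        simp only [if_true]
        rw [show 3 * (o + L.length) + 1 + 2 = 3 * (o + L.length) + 3 by ring, thetaN_c2, thetaN_c0]
        refine ⟨fun _ => ⟨by simp, rfl⟩, fun _ => ⟨by simp, rfl⟩⟩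
  | pb L R =>
    obtain ⟨rfl, rfl⟩ := hz
    rw [rhoN_c1]
    cases R with
    | nil =>
      cases fin with
      | false => exact ⟨fun h => (h rfl).elim, fun h => (h rfl).elim⟩
      | true =>
        have h1 := win_end h
        rw [if_neg (fun h2 => h1 h2.1), thetaN_c1, thetaN_c2]
        exact ⟨fun _ => ⟨rfl, rfl⟩, fun _ => ⟨rfl, rfl⟩⟩
    | cons x R =>
      obtain ⟨h1, h2⟩ := win_right h
      cases x with
      | false =>
        rw [if_pos ⟨h2, h1⟩, thetaN_c0, thetaN_c1]
        refine ⟨fun _ => ⟨by simp, ?_⟩, fun _ => ⟨by simp, ?_⟩⟩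
        · simp only [List.length_cons]; ring
        · simp only [List.length_cons]; ring
      | true =>
        rw [if_neg (by rw [h1]; simp), thetaN_c1, thetaN_c2]
        exact ⟨fun _ => ⟨rfl, rfl⟩, fun _ => ⟨rfl, rfl⟩⟩
  | pc L R =>
    obtain ⟨rfl, rfl⟩ := hz
    rw [rhoN_c2]
    cases R with
    | nil =>
      cases fin with
      | false => exact ⟨fun h => (h rfl).elim, fun h => (h rfl).elim⟩
      | true =>
        have h1 := win_end h
        rw [if_neg (fun h2 => h1 h2.1), thetaN_c2, thetaN_c0]
        exact ⟨fun _ => ⟨rfl, rfl⟩, fun _ => ⟨rfl, rfl⟩⟩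
    | cons x R =>
      obtain ⟨h1, h2⟩ := win_right h
      cases x with
      | true =>
        rw [if_pos ⟨h2, h1⟩, thetaN_c0, thetaN_c1]
        refine ⟨fun _ => ⟨by simp, ?_⟩, fun _ => ⟨by simp, ?_⟩⟩
        · simp only [List.length_cons]; ring
        · simp only [List.length_cons]; ring
      | false =>
        rw [if_neg (by rw [h1]; simp), thetaN_c2, thetaN_c0]
        exact ⟨fun _ => ⟨rfl, rfl⟩, fun _ => ⟨rfl, rfl⟩⟩

theorem walkZ_bad (root fin : Bool) (w : List Bool) : walkZ root fin w .bad = .bad := by
  induction w with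
  | nil => rfl
  | cons b w ih => cases b <;> exact ih

theorem walkZ_cons (root fin : Bool) (b : Bool) (w : List Bool) (z : Z) :
    walkZ root fin (b :: w) z = walkZ root fin w (if b then stR root fin z else stL root fin z) := by
  cases b <;> rfl

theorem at_walk {k : ℕ} {s : ℕ → Bool} {root fin : Bool} {W : List Bool} {o : ℕ}
    (h : IsWin k s root fin W o) (w : List Bool) {z : Z} {x : Om k} (hz : At o W z x.val)
    (hw : walkZ root fin w z ≠ .bad) : At o W (walkZ root fin w z) (rl k s w x).val := by
  induction w generalizing z x with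
  | nil => exact hz
  | cons b w ih =>
    rw [walkZ_cons] at hw ⊢
    have hne : (if b then stR root fin z else stL root fin z) ≠ .bad := by
      intro h0
      rw [h0, walkZ_bad] at hw
      exact hw rfl
    rw [show rl k s (b :: w) x = rl k s w ((if b then R k s else L k s) x) from rfl]
    apply ih _ hw
    cases b with
    | true => exact (at_step h hz).1 hne
    | false => exact (at_step h hz).2 hne

theorem walkMZ_bad (root fin : Bool) (w : List Bool) (M : ℕ) : walkMZ root fin w M .bad = .bad := by
  induction M with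
  | zero => rfl
  | succ M ih =>
    change walkMZ root fin w M (walkZ root fin w .bad) = .bad
    rw [walkZ_bad, ih]

theorem at_walkM {k : ℕ} {s : ℕ → Bool} {root fin : Bool} {W : List Bool} {o : ℕ}
    (h : IsWin k s root fin W o) (w : List Bool) (M : ℕ) {z : Z} {x : Om k}
    (hz : At o W z x.val) (hw : walkMZ root fin w M z ≠ .bad) :
    At o W (walkMZ root fin w M z) (((rl k s w) ^ M) x).val := by
  induction M generalizing z x with
  | zero => exact hz
  | succ M ih =>
    rw [show walkMZ root fin w (M + 1) z = walkMZ root fin w M (walkZ root fin w z) from rfl]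
      at hw ⊢
    have hne : walkZ root fin w z ≠ .bad := by
      intro h0
      rw [h0, walkMZ_bad] at hw
      exact hw rfl
    rw [pow_succ, Perm.mul_apply]
    exact ih (at_walk h w hz hne) hw

theorem eqLen_iff (L L' : List Bool) : eqLen L L' = true ↔ L.length = L'.length := by
  induction L generalizing L' with
  | nil => cases L' <;> simp [eqLen]
  | cons x L ih =>
    cases L' with
    | nil => simp [eqLen]
    | cons y L' =>
      have := ih L'
      simpa [eqLen] using this

theorem eqZ_iff {o : ℕ} {W : List Bool} {z z' : Z} {x x' : ℕ} (hz : At o W z x)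
    (hz' : At o W z' x') : eqZ z z' = true ↔ x = x' := by
  cases z <;> cases z' <;> simp only [At] at hz hz'
  · simp [eqZ, hz.2.2, hz'.2.2]
  all_goals
    simp only [eqZ, eqLen_iff, Bool.false_eq_true, false_iff]
    omega

theorem fixZ_le_one (root fin : Bool) (w : List Bool) (M : ℕ) (z : Z) :
    fixZ root fin w M z ≤ 1 := by
  unfold fixZ
  cases eqZ z (walkMZ root fin w M z) <;> simp

theorem eqZ_bad (z : Z) : eqZ z .bad = false := by
  cases z <;> rfl

/-- a position with `fixZ = 1` is fixed -/
theorem fix_of_fixZ {k : ℕ} {s : ℕ → Bool} {root fin : Bool} {W : List Bool} {o : ℕ}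
    (h : IsWin k s root fin W o) (w : List Bool) (M : ℕ) {z : Z} {x : Om k}
    (hz : At o W z x.val) (hf : fixZ root fin w M z ≠ 0) : ((rl k s w) ^ M) x = x := by
  have he : eqZ z (walkMZ root fin w M z) = true := by
    cases h1 : eqZ z (walkMZ root fin w M z) with
    | true => rfl
    | false => exact (hf (by simp [fixZ, h1])).elim
  have hne : walkMZ root fin w M z ≠ .bad := by
    intro h0
    rw [h0, eqZ_bad] at he
    exact absurd he (by decide)
  have h2 := at_walkM h w M hz hne
  exact Fin.ext ((eqZ_iff hz h2).1 he).symm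

/-- a position with `movZ` is moved -/
theorem ne_of_movZ {k : ℕ} {s : ℕ → Bool} {root fin : Bool} {W : List Bool} {o : ℕ}
    (h : IsWin k s root fin W o) (w : List Bool) (M : ℕ) {z : Z} {x : Om k}
    (hz : At o W z x.val) (hf : movZ root fin w M z = true) : ((rl k s w) ^ M) x ≠ x := by
  have hne : walkMZ root fin w M z ≠ .bad := by
    intro h0
    simp [movZ, h0] at hf
  have he : eqZ z (walkMZ root fin w M z) = false := by
    unfold movZ at hf
    generalize walkMZ root fin w M z = z' at hf hne
    cases z' with
    | bad => exact (hne rfl).elim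
    | rt R => simpa using hf
    | pa L R => simpa using hf
    | pb L R => simpa using hf
    | pc L R => simpa using hf
  have h2 := at_walkM h w M hz hne
  intro h3
  have := (eqZ_iff hz h2).2 (by rw [h3])
  rw [this] at he
  exact absurd he (by decide)

/-- number of the fixed codes in `[a, b)` -/
noncomputable def Fx {k : ℕ} (g : Perm (Om k)) (a b : ℕ) : ℕ := by
  classical
  exact ((Finset.Ico a b).filter fun y => ∃ h : y < 3 * k + 1, g ⟨y, h⟩ = ⟨y, h⟩).card

theorem Fx_add {k : ℕ} (g : Perm (Om k)) {a b c : ℕ} (hab : a ≤ b) (hbc : b ≤ c) :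
    Fx g a c = Fx g a b + Fx g b c := by
  classical
  unfold Fx
  rw [← Finset.Ico_union_Ico_eq_Ico hab hbc, Finset.filter_union, Finset.card_union_of_disjoint]
  exact Finset.disjoint_filter_filter (Finset.Ico_disjoint_Ico_consecutive a b c)

theorem Fx_pos {k : ℕ} (g : Perm (Om k)) {a : ℕ} (ha : a < 3 * k + 1)
    (h : g ⟨a, ha⟩ = ⟨a, ha⟩) : 1 ≤ Fx g a (a + 1) := by
  classical
  unfold Fx
  rw [Nat.succ_le_iff, Finset.card_pos]
  exact ⟨a, by simp only [Finset.mem_filter, Finset.mem_Ico]; exact ⟨by omega, ha, h⟩⟩

theorem Fx_total {k : ℕ} (g : Perm (Om k)) : Fx g 0 (3 * k + 1) + g.support.card = 3 * k + 1 := by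
  classical
  have h1 : Fx g 0 (3 * k + 1) = (g.supportᶜ).card := by
    unfold Fx
    refine Finset.card_bij' (fun y hy => ⟨y, ?_⟩) (fun x _ => x.val) ?_ ?_ ?_ ?_
    · simp only [Finset.mem_filter, Finset.mem_Ico] at hy
      exact hy.1.2
    · intro y hy
      simp only [Finset.mem_filter, Finset.mem_Ico] at hy
      obtain ⟨-, h, h2⟩ := hy
      simpa using h2
    · intro x hx
      simp only [Finset.mem_filter, Finset.mem_Ico]
      exact ⟨⟨Nat.zero_le _, x.2⟩, x.2, by simpa using hx⟩
    · intro y hy
      rfl
    · intro x hx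
      rfl
  rw [h1, Finset.card_compl, Fintype.card_fin]
  have := Finset.card_le_univ g.support
  rw [Fintype.card_fin] at this
  omega

theorem fixZ_le_Fx {k : ℕ} {s : ℕ → Bool} {root fin : Bool} {W : List Bool} {o : ℕ}
    (h : IsWin k s root fin W o) (w : List Bool) (M : ℕ) {z : Z} {x : ℕ}
    (hx : x < 3 * k + 1) (hz : At o W z x) :
    fixZ root fin w M z ≤ Fx ((rl k s w) ^ M) x (x + 1) := by
  rcases Nat.eq_zero_or_pos (fixZ root fin w M z) with h0 | h0
  · rw [h0]; exact Nat.zero_le _
  · exact (fixZ_le_one _ _ _ _ _).trans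
      (Fx_pos _ hx (fix_of_fixZ h w M (x := ⟨x, hx⟩) hz h0.ne'))

theorem cntZ_le_Fx {k : ℕ} {s : ℕ → Bool} {root fin : Bool} {W : List Bool} {o : ℕ}
    (h : IsWin k s root fin W o) (w : List Bool) (M n : ℕ) {L R : List Bool}
    (hW : L.reverse ++ R = W) :
    cntZ root fin w M n L R ≤ Fx ((rl k s w) ^ M) (3 * (o + L.length) + 1)
      (3 * (o + L.length + n) + 1) := by
  induction n generalizing L R with
  | zero => exact Nat.zero_le _
  | succ n ih =>
    have hlt : o + L.length + 1 ≤ k := by
      have := h.1
      rw [← hW] at this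
      simp at this
      omega
    have e1 : fixZ root fin w M (.pa L R) ≤ _ := fixZ_le_Fx h w M (x := 3 * (o + L.length) + 1)
      (by omega) ⟨hW, rfl⟩
    have e2 : fixZ root fin w M (.pb L R) ≤ _ := fixZ_le_Fx h w M (x := 3 * (o + L.length) + 2)
      (by omega) ⟨hW, rfl⟩
    have e3 : fixZ root fin w M (.pc L R) ≤ _ := fixZ_le_Fx h w M (x := 3 * (o + L.length) + 3)
      (by omega) ⟨hW, rfl⟩
    have e4 : (List.rec 0 (fun x R _ => cntZ root fin w M n (x :: L) R) R : ℕ) ≤
        Fx ((rl k s w) ^ M) (3 * (o + L.length) + 4) (3 * (o + L.length + (n + 1)) + 1) := by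
      cases R with
      | nil => exact Nat.zero_le _
      | cons x R =>
        have := ih (L := x :: L) (R := R) (by simpa using hW)
        simp only [List.length_cons] at this
        rw [show 3 * (o + L.length) + 4 = 3 * (o + (L.length + 1)) + 1 by ring,
          show 3 * (o + L.length + (n + 1)) + 1 = 3 * (o + (L.length + 1) + n) + 1 by ring]
        exact this
    rw [Fx_add _ (show 3 * (o + L.length) + 1 ≤ 3 * (o + L.length) + 1 + 1 by omega)
      (show 3 * (o + L.length) + 1 + 1 ≤ 3 * (o + L.length + (n + 1)) + 1 by omega),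
      Fx_add _ (show 3 * (o + L.length) + 1 + 1 ≤ 3 * (o + L.length) + 2 + 1 by omega)
      (show 3 * (o + L.length) + 2 + 1 ≤ 3 * (o + L.length + (n + 1)) + 1 by omega),
      Fx_add _ (show 3 * (o + L.length) + 2 + 1 ≤ 3 * (o + L.length) + 3 + 1 by omega)
      (show 3 * (o + L.length) + 3 + 1 ≤ 3 * (o + L.length + (n + 1)) + 1 by omega)]
    change fixZ root fin w M (.pa L R) + (fixZ root fin w M (.pb L R) +
      (fixZ root fin w M (.pc L R) + _)) ≤ _
    exact add_le_add e1 (add_le_add e2 (add_le_add e3 e4))

end TT
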